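import Pool.Agent.Lib.DeB.LamDefs

/-!
Module Lam. The functional `lam F`.
-/

set_option autoImplicit false

open MvPolynomial Filter Topology

namespace Pool.DeB

private theorem deg_eq {n : ℕ} (β : Fin n →₀ ℕ) : (β.sum fun _ m => m) = β.degree := rfl

private theorem coeff_lf_pow {n : ℕ} (a : Fin n → ℂ) (β : Fin n →₀ ℕ) (d : ℕ) :
    coeff β (lf a ^ d) =
      if β.degree = d then (β.multinomial : ℂ) * β.prod (fun r m => a r ^ m) else 0 := by
  have h := coeff_linearCombination_X_pow_of_fintype (R := ℂ) a β d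
  rw [deg_eq] at h
  rw [← h]
  congr 2
  unfold lf
  exact Finset.sum_congr rfl fun i _ => (smul_eq_C_mul _ _).symm

private theorem mult_ne {n : ℕ} (β : Fin n →₀ ℕ) : (β.multinomial : ℂ) ≠ 0 := by
  rw [Finsupp.multinomial_eq]
  exact_mod_cast (Nat.multinomial_pos _ _).ne'

theorem lam_monomial {n : ℕ} (F : MvPolynomial (Fin n) ℂ) (β : Fin n →₀ ℕ) (u : ℂ) :
    lam F (monomial β u) = u * (F.coeff β / (β.multinomial : ℂ)) := by
  have h1 : monomial β u = u • (basisMonomials (Fin n) ℂ) β := by
    rw [coe_basisMonomials]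
    simp [smul_monomial]
  rw [h1, map_smul]
  unfold lam
  rw [Module.Basis.constr_basis]
  rfl

private theorem lam_eq {n : ℕ} (F g : MvPolynomial (Fin n) ℂ) :
    lam F g = ∑ β ∈ g.support, g.coeff β * (F.coeff β / (β.multinomial : ℂ)) := by
  conv_lhs => rw [g.as_sum]
  rw [map_sum]
  exact Finset.sum_congr rfl fun β _ => lam_monomial F β _

theorem lam_lf_pow {n d : ℕ} {F : MvPolynomial (Fin n) ℂ} (hF : F.IsHomogeneous d)
    (a : Fin n → ℂ) : lam F (lf a ^ d) = eval a F := by
  classical
  have h1 : lam F (lf a ^ d) = ∑ β ∈ (lf a ^ d).support ∪ F.support,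
      (lf a ^ d).coeff β * (F.coeff β / (β.multinomial : ℂ)) := by
    rw [lam_eq]
    refine Finset.sum_subset Finset.subset_union_left fun β _ h => ?_
    rw [notMem_support_iff.1 h, zero_mul]
  have h2 : eval a F = ∑ β ∈ (lf a ^ d).support ∪ F.support,
      F.coeff β * β.prod (fun r m => a r ^ m) := by
    rw [eval_eq]
    refine Finset.sum_subset Finset.subset_union_right fun β _ h => ?_
    rw [notMem_support_iff.1 h, zero_mul]
  rw [h1, h2]
  refine Finset.sum_congr rfl fun β _ => ?_
  rw [coeff_lf_pow]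
  split_ifs with h
  · have := mult_ne β
    field_simp
  · have h0 : F.coeff β = 0 := by
      by_contra hne
      exact h (by rw [Finsupp.degree_eq_weight_one]; exact hF hne)
    rw [h0]; simp

theorem lam_of_pow {n : ℕ} (d : ℕ) (p : Fin n → ℂ) (g : MvPolynomial (Fin n) ℂ) :
    lam (lf p ^ d) g = eval p (homogeneousComponent d g) := by
  induction g using MvPolynomial.induction_on' with
  | monomial β u =>
    rw [lam_monomial, coeff_lf_pow, homogeneousComponent_of_mem (isHomogeneous_monomial u rfl)]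
    by_cases h : β.degree = d
    · rw [if_pos h, if_pos h.symm, eval_monomial, mul_div_cancel_left₀ _ (mult_ne β)]
    · rw [if_neg h, if_neg (Ne.symm h)]; simp
  | add p q hp hq => rw [map_add, map_add, map_add, hp, hq]

theorem lam_sum {n : ℕ} {ι : Type*} (s : Finset ι) (F : ι → MvPolynomial (Fin n) ℂ)
    (g : MvPolynomial (Fin n) ℂ) : lam (∑ i ∈ s, F i) g = ∑ i ∈ s, lam (F i) g := by
  simp only [lam_eq]
  rw [Finset.sum_comm]
  refine Finset.sum_congr rfl fun β _ => ?_
  rw [coeff_sum, Finset.sum_div, Finset.mul_sum]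

theorem lam_tendsto {n : ℕ} {F : MvPolynomial (Fin n) ℂ} {G : ℕ → MvPolynomial (Fin n) ℂ}
    (h : ∀ m : Fin n →₀ ℕ, Tendsto (fun k => coeff m (G k)) atTop (𝓝 (coeff m F)))
    (g : MvPolynomial (Fin n) ℂ) : Tendsto (fun k => lam (G k) g) atTop (𝓝 (lam F g)) := by
  simp only [lam_eq]
  refine tendsto_finsetSum _ fun β _ => ?_
  exact ((h β).div_const _).const_mul _

/-- a form of degree one is `lf` of its coefficient vector. -/
theorem eq_lf {n : ℕ} {ℓ : MvPolynomial (Fin n) ℂ} (h : ℓ.IsHomogeneous 1) :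
    ∃ a : Fin n → ℂ, ℓ = lf a := by
  classical
  refine ⟨fun j => coeff (Finsupp.single j 1) ℓ, ?_⟩
  ext β
  have h1 : ∀ j, coeff β (C (coeff (Finsupp.single j 1) ℓ) * X j : MvPolynomial (Fin n) ℂ)
      = if Finsupp.single j 1 = β then coeff (Finsupp.single j 1) ℓ else 0 := by
    intro j
    rw [coeff_C_mul, coeff_X]
    split_ifs <;> simp
  rw [lf, coeff_sum]
  simp only [h1]
  by_cases hβ : β.degree = 1
  · obtain ⟨i, rfl⟩ := (Finsupp.sum_eq_one_iff β).1 hβ
    rw [Finset.sum_eq_single i]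
    · rw [if_pos rfl]
    · intro j _ hj
      rw [if_neg]
      intro h2
      exact hj (Finsupp.single_left_injective one_ne_zero h2)
    · intro h2; exact absurd (Finset.mem_univ i) h2
  · have h0 : ℓ.coeff β = 0 := by
      by_contra hne
      exact hβ (by rw [Finsupp.degree_eq_weight_one]; exact h hne)
    rw [h0, Finset.sum_eq_zero]
    intro j _
    rw [if_neg]
    rintro rfl
    exact hβ (by simp)

end Pool.DeB
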