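import Pool.Agent.Lib.DeB.LamDefs
import Pool.Agent.Lib.DeB.Lam

/-!
Module PowSpan (90 lines). Powers of linear forms span the polynomials.
PROOF. Suppose the span `S` of all `(lf a)^N` is not everything. Then there is a nonzero functional `μ : MvPolynomial → ℂ` with
`μ = 0` on `S` (`Submodule.exists_le_ker_of_lt_top`). For fixed `N` let `F_N = ∑_{|β|=N} multinomial(β) μ(X^β) X^β`, a homogeneous polynomial of
degree `N` with `lam F_N = μ` on forms of degree `N`; `eval a F_N = lam F_N ((lf a)^N) = μ((lf a)^N) = 0` for all `a` (`lam_lf_pow`), so `F_N = 0`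
(`MvPolynomial.funext`) and `μ(X^β) = 0` for `|β| = N`. So `μ = 0` on all monomials: `μ = 0`, contradiction.
-/

set_option autoImplicit false

open MvPolynomial

namespace Pool.DeB

private noncomputable def FN {n : ℕ} (μ : MvPolynomial (Fin n) ℂ →ₗ[ℂ] ℂ) (N : ℕ) :
    MvPolynomial (Fin n) ℂ :=
  ∑ β ∈ (Finset.univ : Finset (Fin n)).finsuppAntidiag N,
    monomial β ((β.multinomial : ℂ) * μ (monomial β 1))

private theorem mem_anti {n : ℕ} (N : ℕ) (β : Fin n →₀ ℕ) :
    β ∈ (Finset.univ : Finset (Fin n)).finsuppAntidiag N ↔ β.degree = N := by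
  rw [Finset.mem_finsuppAntidiag, Finsupp.degree_eq_sum]
  exact ⟨fun h => h.1, fun h => ⟨h, Finset.subset_univ _⟩⟩

private theorem coeff_FN {n : ℕ} (μ : MvPolynomial (Fin n) ℂ →ₗ[ℂ] ℂ) (N : ℕ)
    (β : Fin n →₀ ℕ) (h : β.degree = N) :
    coeff β (FN μ N) = (β.multinomial : ℂ) * μ (monomial β 1) := by
  classical
  unfold FN
  rw [coeff_sum, Finset.sum_eq_single β]
  · rw [coeff_monomial, if_pos rfl]
  · intro γ _ hγ
    rw [coeff_monomial, if_neg hγ]
  · intro h2
    exact absurd ((mem_anti N β).2 h) h2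

private theorem hom_FN {n : ℕ} (μ : MvPolynomial (Fin n) ℂ →ₗ[ℂ] ℂ) (N : ℕ) :
    (FN μ N).IsHomogeneous N := by
  unfold FN
  refine IsHomogeneous.sum _ _ _ fun β hβ => ?_
  exact isHomogeneous_monomial _ ((mem_anti N β).1 hβ)

private theorem mult_ne' {n : ℕ} (β : Fin n →₀ ℕ) : (β.multinomial : ℂ) ≠ 0 := by
  rw [Finsupp.multinomial_eq]
  exact_mod_cast (Nat.multinomial_pos _ _).ne'

private theorem mu_mon {n : ℕ} (μ : MvPolynomial (Fin n) ℂ →ₗ[ℂ] ℂ) (β : Fin n →₀ ℕ) (u : ℂ) :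
    μ (monomial β u) = u * μ (monomial β 1) := by
  have h : monomial β u = u • (monomial β (1 : ℂ)) := by
    rw [smul_monomial, smul_eq_mul, mul_one]
  rw [h, map_smul, smul_eq_mul]

private theorem lam_FN {n : ℕ} (μ : MvPolynomial (Fin n) ℂ →ₗ[ℂ] ℂ) (N : ℕ)
    (P : MvPolynomial (Fin n) ℂ) (hP : P.IsHomogeneous N) : lam (FN μ N) P = μ P := by
  rw [P.as_sum, map_sum, map_sum]
  refine Finset.sum_congr rfl fun β hβ => ?_
  have hd : β.degree = N := by
    rw [Finsupp.degree_eq_weight_one]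
    exact hP (mem_support_iff.1 hβ)
  rw [lam_monomial, coeff_FN μ N β hd, mu_mon μ β (coeff β P),
    mul_div_cancel_left₀ _ (mult_ne' β)]

private theorem lf_hom {n : ℕ} (a : Fin n → ℂ) (N : ℕ) : (lf a ^ N).IsHomogeneous N := by
  have h1 : (lf a).IsHomogeneous 1 := by
    unfold lf
    refine IsHomogeneous.sum _ _ _ fun j _ => ?_
    have h := (isHomogeneous_C (Fin n) (a j)).mul (isHomogeneous_X ℂ j)
    rwa [zero_add] at h
  have h2 := h1.pow N
  rwa [one_mul] at h2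

theorem span_lf_pow (n : ℕ) : Submodule.span ℂ {P : MvPolynomial (Fin n) ℂ |
    ∃ (a : Fin n → ℂ) (N : ℕ), P = lf a ^ N} = ⊤ := by
  by_contra hne
  obtain ⟨μ, hμ, hS⟩ := Submodule.exists_le_ker_of_lt_top _ (lt_top_iff_ne_top.2 hne)
  apply hμ
  have h0 : ∀ (a : Fin n → ℂ) (N : ℕ), μ (lf a ^ N) = 0 := fun a N =>
    LinearMap.mem_ker.1 (hS (Submodule.subset_span ⟨a, N, rfl⟩))
  have hF : ∀ N, FN μ N = 0 := by
    intro N
    refine MvPolynomial.funext fun a => ?_
    rw [map_zero, ← lam_lf_pow (hom_FN μ N) a, lam_FN μ N _ (lf_hom a N), h0]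
  refine (basisMonomials (Fin n) ℂ).ext fun β => ?_
  rw [coe_basisMonomials]
  change μ (monomial β 1) = 0
  have h1 := coeff_FN μ β.degree β rfl
  rw [hF, coeff_zero] at h1
  exact (mul_eq_zero.1 h1.symm).resolve_left (mult_ne' β)

end Pool.DeB
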