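import Pool.Agent.Lib.DeB.AffDefs
import Pool.Agent.Lib.DeB.PowSpan

/-!
Module AffBound (220 lines). The functionals `lamk c q k` are bounded on every polynomial.
PROOF. `U = hyperfilter ℕ`. `lamk c q k (lf a ^ N) = ∑_i c k i * (dt (q k i) a)^N =: s_k(a,N)`.
(1) `N ≤ d`: `s_k(a,N)` is bounded for `U`-most `k`: for `s ∈ ℂ` let `a_s = a + (s - dt x0 a) • e`; `dt x0 a_s = s`, `dt (q k i) a_s = dt (q k i) a`. For
  `U`-most `k`: `eval a_s (g k) = ∑_i c k i (s + dt (q k i) a)^d = ∑_{N ≤ d} binom(d,N) s_k(a,N) s^(d-N)`. The left side converges for every `s`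
  (`hlim` and `g k` homogeneous of degree `d` - or: `eval a_s (g k) → eval a_s F` is the hypothesis `hev`), so it is bounded for
  `s = 0, 1, ..., d`, and the coefficients `binom(d,N) s_k(a,N)` are fixed linear combinations (Vandermonde/Lagrange) of these
  `d + 1` values: bounded.
(2) all `N`, by strong induction: let `N > d ≥ r`. `∏_{i<r} (T - t_i) = T^r + ∑_{l<r} e_l T^l`, `t_i = dt (q k i) a`, `|t_i| ≤ n Bd ‖a‖ =: B1`, so
  `|e_l| ≤ 2^r (1+B1)^r`; `s_k(a,N) = - ∑_{l<r} e_l s_k(a, N-r+l)` (each `t_i` is a root: multiply by `c k i t_i^(N-r)`, sum), `N - r ≥ 0`: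
  bounded.
(3) arbitrary `P`: combination of powers `(lf a)^N` (`span_lf_pow`), `Submodule.span_induction`.
-/

set_option autoImplicit false

open MvPolynomial Filter Topology

namespace Pool.DeB

private theorem lamk_lf_pow {n r : ℕ} (c : ℕ → Fin r → ℂ) (q : ℕ → Fin r → (Fin n → ℂ)) (k : ℕ)
    (a : Fin n → ℂ) (N : ℕ) : lamk c q k (lf a ^ N) = ∑ i, c k i * (dt (q k i) a) ^ N := by
  unfold lamk
  rw [LinearMap.sum_apply]
  refine Finset.sum_congr rfl fun i _ => ?_
  rw [LinearMap.smul_apply, AlgHom.toLinearMap_apply, map_pow, smul_eq_mul]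
  congr 2
  unfold lf dt
  rw [map_sum]
  refine Finset.sum_congr rfl fun j _ => ?_
  rw [map_mul, aeval_X, aeval_C]
  exact mul_comm _ _

private theorem prod_coeff_bdd (r : ℕ) (B : ℝ) (hB : 0 ≤ B) : ∃ M : ℝ, 0 ≤ M ∧
    ∀ t : Fin r → ℂ, (∀ i, ‖t i‖ ≤ B) → ∀ l,
      ‖(∏ i, (Polynomial.X - Polynomial.C (t i))).coeff l‖ ≤ M := by
  induction r with
  | zero =>
    refine ⟨1, zero_le_one, fun t _ l => ?_⟩
    rw [Fin.prod_univ_zero, Polynomial.coeff_one]
    split_ifs <;> simp
  | succ r ih =>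
    obtain ⟨M, hM, h⟩ := ih
    refine ⟨M + B * M, by positivity, fun t ht l => ?_⟩
    rw [Fin.prod_univ_succ, sub_mul, Polynomial.coeff_sub, Polynomial.coeff_C_mul]
    have h1 := h (fun i => t i.succ) (fun i => ht _)
    refine (norm_sub_le _ _).trans (add_le_add ?_ ?_)
    · cases l with
      | zero =>
        rw [Polynomial.mul_coeff_zero, Polynomial.coeff_X_zero, zero_mul, norm_zero]
        exact hM
      | succ l =>
        rw [Polynomial.coeff_X_mul]
        exact h1 l
    · rw [norm_mul]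
      exact mul_le_mul (ht 0) (h1 l) (norm_nonneg _) hB

private theorem low_bdd {n d r : ℕ} {F : MvPolynomial (Fin n) ℂ}
    {g : ℕ → MvPolynomial (Fin n) ℂ} {e x0 : Fin n → ℂ} {c : ℕ → Fin r → ℂ}
    {q : ℕ → Fin r → (Fin n → ℂ)} {Bd : ℝ} (H : AffData d r g e x0 c q Bd)
    (hev : ∀ a, Tendsto (fun k => eval a (g k)) atTop (𝓝 (eval a F)))
    (a : Fin n → ℂ) (N : ℕ) (hN : N ≤ d) :
    ∃ B : ℝ, ∀ᶠ k in (hyperfilter ℕ : Filter ℕ), ‖∑ i, c k i * (dt (q k i) a) ^ N‖ ≤ B := by
  classical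
  have hlin : ∀ (p : Fin n → ℂ) (s : ℂ), dt p (fun j => a j + (s - dt x0 a) * e j)
      = dt p a + (s - dt x0 a) * dt p e := by
    intro p s
    unfold dt
    rw [Finset.mul_sum, ← Finset.sum_add_distrib]
    refine Finset.sum_congr rfl fun j _ => ?_
    ring
  have hb : ∀ s : ℂ, ∃ B : ℝ, ∀ᶠ k in (hyperfilter ℕ : Filter ℕ),
      ‖eval (fun j => a j + (s - dt x0 a) * e j) (g k)‖ ≤ B := by
    intro s
    have h1 := (hev (fun j => a j + (s - dt x0 a) * e j)).norm
    refine ⟨‖eval (fun j => a j + (s - dt x0 a) * e j) F‖ + 1, ?_⟩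
    exact (h1.eventually_le_const (lt_add_one _)).filter_mono Nat.hyperfilter_le_atTop
  choose Bs hBs using hb
  have hall : ∀ᶠ k in (hyperfilter ℕ : Filter ℕ), ∀ j ∈ Finset.range (d + 1),
      ‖eval (fun l => a l + (((j : ℕ) : ℂ) - dt x0 a) * e l) (g k)‖ ≤ Bs (j : ℂ) := by
    rw [Filter.eventually_all_finset]
    intro j _
    exact hBs _
  have hinj : Set.InjOn (fun i : ℕ => (i : ℂ)) (Finset.range (d + 1) : Set ℕ) :=
    fun x _ y _ hxy => Nat.cast_injective hxy
  refine ⟨∑ j ∈ Finset.range (d + 1), Bs (j : ℂ) *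
    ‖(Lagrange.basis (Finset.range (d + 1)) (fun i : ℕ => (i : ℂ)) j).coeff (d - N)‖, ?_⟩
  filter_upwards [hall, H.eq] with k hk hk2
  obtain ⟨p, hpdef⟩ : ∃ p : Polynomial ℂ, p = ∑ i, Polynomial.C (c k i) *
    (Polynomial.X + Polynomial.C (dt (q k i) a)) ^ d := ⟨_, rfl⟩
  have hdeg : p.degree < ((Finset.range (d + 1)).card : WithBot ℕ) := by
    rw [Finset.card_range, hpdef]
    refine lt_of_le_of_lt (Polynomial.degree_sum_le _ _) ?_
    rw [Finset.sup_lt_iff (WithBot.bot_lt_coe _)]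
    intro i _
    refine lt_of_le_of_lt (Polynomial.degree_mul_le _ _) ?_
    have h2 : ((Polynomial.X + Polynomial.C (dt (q k i) a)) ^ d : Polynomial ℂ).degree ≤ (d : WithBot ℕ) := by
      refine (Polynomial.degree_pow_le _ _).trans ?_
      rw [Polynomial.degree_X_add_C]
      simp
    have h3 : (Polynomial.C (c k i)).degree ≤ 0 := Polynomial.degree_C_le
    refine lt_of_le_of_lt (add_le_add h3 h2) ?_
    rw [zero_add]
    exact_mod_cast Nat.lt_succ_self d
  have hev2 : ∀ j : ℕ, p.eval (j : ℂ)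
      = eval (fun l => a l + ((j : ℂ) - dt x0 a) * e l) (g k) := by
    intro j
    rw [hk2, hpdef, Polynomial.eval_finsetSum]
    refine Finset.sum_congr rfl fun i _ => ?_
    rw [hlin, hlin, H.x0e, H.qe]
    simp only [Polynomial.eval_mul, Polynomial.eval_C, Polynomial.eval_pow, Polynomial.eval_add,
      Polynomial.eval_X]
    ring
  have hint : p = Lagrange.interpolate (Finset.range (d + 1)) (fun i : ℕ => (i : ℂ))
      (fun i => p.eval (i : ℂ)) := Lagrange.eq_interpolate hinj hdeg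
  have hcf : p.coeff (d - N) = ∑ j ∈ Finset.range (d + 1), p.eval (j : ℂ) *
      (Lagrange.basis (Finset.range (d + 1)) (fun i : ℕ => (i : ℂ)) j).coeff (d - N) := by
    conv_lhs => rw [hint]
    rw [Lagrange.interpolate_apply, Polynomial.finsetSum_coeff]
    refine Finset.sum_congr rfl fun j _ => ?_
    rw [Polynomial.coeff_C_mul]
  have hcf2 : p.coeff (d - N) = (∑ i, c k i * (dt (q k i) a) ^ N) * ((d.choose (d - N) : ℕ) : ℂ) := by
    rw [hpdef, Polynomial.finsetSum_coeff, Finset.sum_mul]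
    refine Finset.sum_congr rfl fun i _ => ?_
    rw [Polynomial.coeff_C_mul, Polynomial.coeff_X_add_C_pow, Nat.sub_sub_self hN]
    ring
  have hch : (1 : ℝ) ≤ ‖((d.choose (d - N) : ℕ) : ℂ)‖ := by
    rw [Complex.norm_natCast]
    exact_mod_cast Nat.choose_pos (Nat.sub_le _ _)
  calc ‖∑ i, c k i * (dt (q k i) a) ^ N‖
      ≤ ‖∑ i, c k i * (dt (q k i) a) ^ N‖ * ‖((d.choose (d - N) : ℕ) : ℂ)‖ :=
        le_mul_of_one_le_right (norm_nonneg _) hch
    _ = ‖p.coeff (d - N)‖ := by rw [hcf2, norm_mul]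
    _ ≤ ∑ j ∈ Finset.range (d + 1), ‖p.eval (j : ℂ) *
      (Lagrange.basis (Finset.range (d + 1)) (fun i : ℕ => (i : ℂ)) j).coeff (d - N)‖ := by
        rw [hcf]
        exact norm_sum_le _ _
    _ ≤ _ := by
        refine Finset.sum_le_sum fun j hj => ?_
        rw [norm_mul, hev2]
        exact mul_le_mul_of_nonneg_right (hk j hj) (norm_nonneg _)

private theorem pow_bdd {n d r : ℕ} (hdr : r ≤ d) {F : MvPolynomial (Fin n) ℂ}
    {g : ℕ → MvPolynomial (Fin n) ℂ} {e x0 : Fin n → ℂ} {c : ℕ → Fin r → ℂ}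
    {q : ℕ → Fin r → (Fin n → ℂ)} {Bd : ℝ} (H : AffData d r g e x0 c q Bd)
    (hev : ∀ a, Tendsto (fun k => eval a (g k)) atTop (𝓝 (eval a F)))
    (a : Fin n → ℂ) (N : ℕ) :
    ∃ B : ℝ, ∀ᶠ k in (hyperfilter ℕ : Filter ℕ), ‖∑ i, c k i * (dt (q k i) a) ^ N‖ ≤ B := by
  classical
  induction N using Nat.strong_induction_on with
  | _ N ih =>
    by_cases hN : N ≤ d
    · exact low_bdd H hev a N hN
    · have hNd : d < N := not_le.1 hN
      obtain ⟨M, hM, hMb⟩ := prod_coeff_bdd r (∑ j, |Bd| * ‖a j‖)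
        (Finset.sum_nonneg fun j _ => by positivity)
      have ht : ∀ k i, ‖dt (q k i) a‖ ≤ ∑ j, |Bd| * ‖a j‖ := by
        intro k i
        unfold dt
        refine (norm_sum_le _ _).trans (Finset.sum_le_sum fun j _ => ?_)
        rw [norm_mul]
        exact mul_le_mul_of_nonneg_right ((H.bd k i j).trans (le_abs_self _)) (norm_nonneg _)
      have ih' : ∀ l : ℕ, ∃ B : ℝ, l < r → ∀ᶠ k in (hyperfilter ℕ : Filter ℕ),
          ‖∑ i, c k i * (dt (q k i) a) ^ (N - r + l)‖ ≤ B := by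
        intro l
        by_cases hl : l < r
        · obtain ⟨B, hB⟩ := ih (N - r + l) (by omega)
          exact ⟨B, fun _ => hB⟩
        · exact ⟨0, fun h => absurd h hl⟩
      choose Bl hBl using ih'
      have hall : ∀ᶠ k in (hyperfilter ℕ : Filter ℕ), ∀ l ∈ Finset.range r,
          ‖∑ i, c k i * (dt (q k i) a) ^ (N - r + l)‖ ≤ Bl l := by
        rw [Filter.eventually_all_finset]
        intro l hl
        exact hBl l (Finset.mem_range.1 hl)
      refine ⟨∑ l ∈ Finset.range r, M * Bl l, ?_⟩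
      filter_upwards [hall] with k hk
      obtain ⟨Q, hQ⟩ : ∃ Q : Polynomial ℂ, Q = ∏ i, (Polynomial.X - Polynomial.C (dt (q k i) a)) :=
        ⟨_, rfl⟩
      have hmon : Q.Monic := by
        rw [hQ]
        exact Polynomial.monic_prod_of_monic _ _ fun i _ => Polynomial.monic_X_sub_C _
      have hnat : Q.natDegree = r := by
        rw [hQ, Polynomial.natDegree_prod_of_monic _ _ fun i _ => Polynomial.monic_X_sub_C _]
        simp
      have hroot : ∀ i, Q.eval (dt (q k i) a) = 0 := by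
        intro i
        rw [hQ, Polynomial.eval_prod]
        refine Finset.prod_eq_zero (Finset.mem_univ i) ?_
        simp
      have hrec : ∀ i, (dt (q k i) a) ^ N
          = - ∑ l ∈ Finset.range r, Q.coeff l * (dt (q k i) a) ^ (N - r + l) := by
        intro i
        have h1 := hroot i
        rw [Polynomial.eval_eq_sum_range, hnat, Finset.sum_range_succ] at h1
        have h2 : Q.coeff r = 1 := by
          have := hmon.coeff_natDegree
          rwa [hnat] at this
        rw [h2, one_mul] at h1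
        have h3 : (dt (q k i) a) ^ r
            = - ∑ l ∈ Finset.range r, Q.coeff l * (dt (q k i) a) ^ l := by
          linear_combination h1
        have h4 : (dt (q k i) a) ^ N = (dt (q k i) a) ^ (N - r) * (dt (q k i) a) ^ r := by
          rw [← pow_add]
          congr 1
          omega
        rw [h4, h3, mul_neg, Finset.mul_sum]
        congr 1
        refine Finset.sum_congr rfl fun l _ => ?_
        rw [pow_add]
        ring
      have hsum : ∑ i, c k i * (dt (q k i) a) ^ N = - ∑ l ∈ Finset.range r, Q.coeff l *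
          ∑ i, c k i * (dt (q k i) a) ^ (N - r + l) := by
        have h5 : ∀ i, c k i * (dt (q k i) a) ^ N = - ∑ l ∈ Finset.range r,
            Q.coeff l * (c k i * (dt (q k i) a) ^ (N - r + l)) := by
          intro i
          rw [hrec i, mul_neg, Finset.mul_sum]
          congr 1
          refine Finset.sum_congr rfl fun l _ => ?_
          ring
        rw [Finset.sum_congr rfl fun i _ => h5 i, Finset.sum_neg_distrib, Finset.sum_comm]
        congr 1
        refine Finset.sum_congr rfl fun l _ => ?_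
        rw [Finset.mul_sum]
      rw [hsum, norm_neg]
      refine (norm_sum_le _ _).trans (Finset.sum_le_sum fun l hl => ?_)
      rw [norm_mul]
      refine mul_le_mul ?_ (hk l hl) (norm_nonneg _) hM
      rw [hQ]
      exact hMb _ (ht k) l

theorem lamk_bounded {n d r : ℕ} (hdr : r ≤ d) {F : MvPolynomial (Fin n) ℂ}
    {g : ℕ → MvPolynomial (Fin n) ℂ} {e x0 : Fin n → ℂ} {c : ℕ → Fin r → ℂ}
    {q : ℕ → Fin r → (Fin n → ℂ)} {Bd : ℝ} (H : AffData d r g e x0 c q Bd)
    (hev : ∀ a, Tendsto (fun k => eval a (g k)) atTop (𝓝 (eval a F)))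
    (P : MvPolynomial (Fin n) ℂ) :
    ∃ B : ℝ, ∀ᶠ k in (hyperfilter ℕ : Filter ℕ), ‖lamk c q k P‖ ≤ B := by
  have hP : P ∈ Submodule.span ℂ {P : MvPolynomial (Fin n) ℂ |
      ∃ (a : Fin n → ℂ) (N : ℕ), P = lf a ^ N} := by
    rw [span_lf_pow]
    exact Submodule.mem_top
  induction hP using Submodule.span_induction with
  | mem P hP =>
    obtain ⟨a, N, rfl⟩ := hP
    obtain ⟨B, hB⟩ := pow_bdd hdr H hev a N
    refine ⟨B, ?_⟩
    filter_upwards [hB] with k hk
    rw [lamk_lf_pow]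
    exact hk
  | zero =>
    refine ⟨0, Filter.Eventually.of_forall fun k => ?_⟩
    rw [map_zero, norm_zero]
  | add P Q _ _ hP hQ =>
    obtain ⟨B, hB⟩ := hP
    obtain ⟨B', hB'⟩ := hQ
    refine ⟨B + B', ?_⟩
    filter_upwards [hB, hB'] with k hk hk'
    rw [map_add]
    exact (norm_add_le _ _).trans (add_le_add hk hk')
  | smul z P _ hP =>
    obtain ⟨B, hB⟩ := hP
    refine ⟨‖z‖ * B, ?_⟩
    filter_upwards [hB] with k hk
    rw [map_smul, smul_eq_mul, norm_mul]
    exact mul_le_mul_of_nonneg_left hk (norm_nonneg _)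

end Pool.DeB
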