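import Pool.Agent.Lib.DeB.LamDefs

/-!
Definitions for the final assembly and for Lemma 14 (degree `d ≥ r`, affine normalisation).
-/

set_option autoImplicit false

open MvPolynomial Filter Topology

namespace Pool.DeB

/-- the bound `w` holds for all commutative algebras of dimension `≤ K` with a space of nilpotent
elements of dimension `≤ K`. -/
def HWall (K w : ℕ) : Prop :=
  ∀ (X A : Type) [AddCommGroup X] [Module ℂ X] [FiniteDimensional ℂ X] [CommRing A] [Algebra ℂ A]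
    [FiniteDimensional ℂ A] (y : X →ₗ[ℂ] A), Module.finrank ℂ A ≤ K → Module.finrank ℂ X ≤ K →
    (∀ a, IsNilpotent (y a)) → HW y K ⊥ w

/-- the standard bilinear form on `ℂ^n`. -/
def dt {n : ℕ} (p a : Fin n → ℂ) : ℂ := ∑ j, p j * a j

/-- affine data: `c k i`, `q k i` with `q k i` bounded and orthogonal to `e`, `x0·e = 1`, such that for
`hyperfilter`-most `k` the function `a ↦ g_k(a)` is `∑ i, c k i * (x0·a + q k i·a)^d`. -/
structure AffData {n : ℕ} (d r : ℕ) (g : ℕ → MvPolynomial (Fin n) ℂ) (e x0 : Fin n → ℂ)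
    (c : ℕ → Fin r → ℂ) (q : ℕ → Fin r → (Fin n → ℂ)) (Bd : ℝ) : Prop where
  x0e : dt x0 e = 1
  qe : ∀ k i, dt (q k i) e = 0
  bd : ∀ k i j, ‖q k i j‖ ≤ Bd
  eq : ∀ᶠ k in (hyperfilter ℕ : Filter ℕ), ∀ a,
    eval a (g k) = ∑ i, c k i * (dt x0 a + dt (q k i) a) ^ d

/-- the functional `P ↦ ∑ i, c k i * P(q k i)`. -/
noncomputable def lamk {n r : ℕ} (c : ℕ → Fin r → ℂ) (q : ℕ → Fin r → (Fin n → ℂ)) (k : ℕ) :
    MvPolynomial (Fin n) ℂ →ₗ[ℂ] ℂ :=
  ∑ i, c k i • (MvPolynomial.aeval (q k i) : MvPolynomial (Fin n) ℂ →ₐ[ℂ] ℂ).toLinearMap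

end Pool.DeB
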