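import Pool.Agent.Lib.DeB.AffDefs
import Pool.Agent.Lib.DeB.Lam

/-!
Module AffNorm (180 lines). Affine normalisation of a border decomposition.
PROOF. `g k = ∑_{i<r} (lf p_{k,i})^d` (`eq_lf`), `eval a (lf p) = dt p a`. Let `U = hyperfilter ℕ` (an ultrafilter, `≤ atTop`). `n ≥ 1`: let
`u_{k,i} = p_{k,i} / ‖p_{k,i}‖` if `p_{k,i} ≠ 0`, otherwise a fixed vector of norm one (sup norm of `Fin n → ℂ`); `p_{k,i} = ‖p_{k,i}‖ • u_{k,i}`. The
unit sphere is compact, so `u_{k,i}` converges along `U` to some `u_i`, `‖u_i‖ = 1` (`IsCompact.ultrafilter_le_nhds`). There is `e` with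
`dt u_i e ≠ 0` for all `i < r` (finitely many nonzero linear functionals on `ℂ^n` do not all... their kernels are proper
subspaces and do not cover `ℂ^n`: e.g. the product of the polynomials `lf u_i` is a nonzero polynomial, `MvPolynomial.funext`). If
`r = 0` take any `e ≠ 0`. `e ≠ 0` (if `r ≥ 1`; else chosen), so some `x0` has `dt x0 e = 1`. Let `δ > 0` with `‖dt u_i e‖ > δ` for all `i`; for `U`-most `k`
`‖dt u_{k,i} e‖ > δ` for all `i` (continuity). For such `k`: `w_{k,i} = (dt u_{k,i} e)⁻¹ • u_{k,i}`, `q k i = w_{k,i} - x0`,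
`c k i = (‖p_{k,i}‖ * dt u_{k,i} e)^d`: `dt (q k i) e = 1 - 1 = 0`, `(dt p_{k,i} a)^d = c k i * (dt w_{k,i} a)^d = c k i (dt x0 a + dt (q k i) a)^d`,
`‖q k i j‖ ≤ 1/δ + ‖x0‖`. For the other `k` put `c k i = 0`, `q k i = 0`.
-/

set_option autoImplicit false

open MvPolynomial Filter Topology

namespace Pool.DeB

private theorem dt_smul {n : ℕ} (x : ℂ) (p a : Fin n → ℂ) : dt (x • p) a = x * dt p a := by
  unfold dt
  rw [Finset.mul_sum]
  refine Finset.sum_congr rfl fun j _ => ?_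
  rw [Pi.smul_apply, smul_eq_mul, mul_assoc]

private theorem dt_sub {n : ℕ} (p p' a : Fin n → ℂ) : dt (p - p') a = dt p a - dt p' a := by
  unfold dt
  rw [← Finset.sum_sub_distrib]
  refine Finset.sum_congr rfl fun j _ => ?_
  rw [Pi.sub_apply, sub_mul]

private theorem dt_zero {n : ℕ} (a : Fin n → ℂ) : dt (0 : Fin n → ℂ) a = 0 := by
  unfold dt
  refine Finset.sum_eq_zero fun j _ => ?_
  rw [Pi.zero_apply, zero_mul]

private theorem eval_lf {n : ℕ} (p a : Fin n → ℂ) : eval a (lf p) = dt p a := by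
  unfold lf dt
  rw [map_sum]
  refine Finset.sum_congr rfl fun j _ => ?_
  rw [map_mul, eval_C, eval_X]

private theorem lf_ne {n : ℕ} {p : Fin n → ℂ} (h : p ≠ 0) : lf p ≠ 0 := by
  intro h0
  apply h
  funext j
  have h1 : eval (Pi.single j 1 : Fin n → ℂ) (lf p) = 0 := by rw [h0, map_zero]
  rw [eval_lf] at h1
  unfold dt at h1
  rw [Finset.sum_eq_single j] at h1
  · simpa using h1
  · intro b _ hb
    rw [Pi.single_eq_of_ne hb, mul_zero]
  · intro hj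
    exact absurd (Finset.mem_univ j) hj

private theorem exists_e {n r : ℕ} (hn : 0 < n) (u : Fin r → (Fin n → ℂ)) (hu : ∀ i, u i ≠ 0) :
    ∃ e : Fin n → ℂ, dt (fun _ => 1) e ≠ 0 ∧ ∀ i, dt (u i) e ≠ 0 := by
  by_contra hcon
  have h1 : (lf (fun _ : Fin n => (1 : ℂ))) * ∏ i, lf (u i) = 0 := by
    refine MvPolynomial.funext fun e => ?_
    rw [map_mul, map_prod, map_zero, eval_lf]
    by_contra hne
    apply hcon
    refine ⟨e, left_ne_zero_of_mul hne, fun i => ?_⟩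
    have h2 := Finset.prod_ne_zero_iff.1 (right_ne_zero_of_mul hne) i (Finset.mem_univ i)
    rwa [eval_lf] at h2
  have h2 : (lf (fun _ : Fin n => (1 : ℂ))) ≠ 0 := by
    refine lf_ne fun h => ?_
    have := congrFun h ⟨0, hn⟩
    exact one_ne_zero this
  have h3 : (∏ i, lf (u i)) ≠ 0 := Finset.prod_ne_zero_iff.2 fun i _ => lf_ne (hu i)
  exact mul_ne_zero h2 h3 h1

private theorem norm_unit {n : ℕ} (hn : 0 < n) (p : Fin n → ℂ) :
    ∃ u : Fin n → ℂ, ‖u‖ = 1 ∧ p = (‖p‖ : ℂ) • u := by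
  by_cases h : p = 0
  · refine ⟨fun _ => 1, ?_, ?_⟩
    · have : Nonempty (Fin n) := ⟨⟨0, hn⟩⟩
      rw [pi_norm_const]
      exact norm_one
    · rw [h, norm_zero]
      simp
  · have h0 : ‖p‖ ≠ 0 := norm_ne_zero_iff.2 h
    have h1 : (‖p‖ : ℂ) ≠ 0 := by exact_mod_cast h0
    refine ⟨(‖p‖ : ℂ)⁻¹ • p, ?_, ?_⟩
    · rw [norm_smul, norm_inv, Complex.norm_real, norm_norm, inv_mul_cancel₀ h0]
    · rw [smul_smul, mul_inv_cancel₀ h1, one_smul]

private theorem dt_continuous {n : ℕ} (e : Fin n → ℂ) :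
    Continuous fun p : Fin n → ℂ => dt p e := by
  unfold dt
  exact continuous_finsetSum _ fun j _ => (continuous_apply j).mul continuous_const

theorem affine_data {n d r : ℕ} (hn : 0 < n) {g : ℕ → MvPolynomial (Fin n) ℂ}
    (hg : ∀ k, ∃ ℓ : Fin r → MvPolynomial (Fin n) ℂ,
      (∀ i, (ℓ i).IsHomogeneous 1) ∧ g k = ∑ i, ℓ i ^ d) :
    ∃ (e x0 : Fin n → ℂ) (c : ℕ → Fin r → ℂ) (q : ℕ → Fin r → (Fin n → ℂ)) (Bd : ℝ),
      AffData d r g e x0 c q Bd := by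
  classical
  choose ℓ hℓ hgs using hg
  have hp0 : ∀ k i, ∃ a : Fin n → ℂ, ℓ k i = lf a := fun k i => eq_lf (hℓ k i)
  choose p hp using hp0
  have hev : ∀ k a, eval a (g k) = ∑ i, (dt (p k i) a) ^ d := by
    intro k a
    rw [hgs k, map_sum]
    refine Finset.sum_congr rfl fun i _ => ?_
    rw [map_pow, hp k i, eval_lf]
  have hu0 : ∀ k i, ∃ u : Fin n → ℂ, ‖u‖ = 1 ∧ p k i = (‖p k i‖ : ℂ) • u :=
    fun k i => norm_unit hn (p k i)
  choose u hu1 hpu using hu0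
  have hlim : ∀ i, ∃ x : Fin n → ℂ, ‖x‖ = 1 ∧
      Tendsto (fun k => u k i) (hyperfilter ℕ : Filter ℕ) (𝓝 x) := by
    intro i
    have hs : IsCompact (Metric.sphere (0 : Fin n → ℂ) 1) := isCompact_sphere _ _
    obtain ⟨x, hx, hx2⟩ := hs.ultrafilter_le_nhds ((hyperfilter ℕ).map (fun k => u k i)) (by
      rw [Ultrafilter.coe_map, Filter.le_principal_iff]
      refine Filter.mem_map.2 (Filter.univ_mem' fun k => ?_)
      show u k i ∈ Metric.sphere (0 : Fin n → ℂ) 1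
      rw [mem_sphere_zero_iff_norm]
      exact hu1 k i)
    exact ⟨x, mem_sphere_zero_iff_norm.1 hx, hx2⟩
  choose w hw1 hwt using hlim
  obtain ⟨e, he1, he2⟩ := exists_e hn w (fun i h => by
    have := hw1 i
    rw [h, norm_zero] at this
    exact zero_ne_one this)
  have hδ : ∃ δ : ℝ, 0 < δ ∧ ∀ i, δ < ‖dt (w i) e‖ := by
    have h1 : ∀ᶠ δ in 𝓝[>] (0 : ℝ), ∀ i, δ < ‖dt (w i) e‖ :=
      eventually_all.2 fun i => nhdsWithin_le_nhds (Iio_mem_nhds (norm_pos_iff.2 (he2 i)))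
    have h2 : ∀ᶠ δ in 𝓝[>] (0 : ℝ), 0 < δ := self_mem_nhdsWithin
    exact (h2.and h1).exists
  obtain ⟨δ, hδ0, hδ1⟩ := hδ
  have hgood : ∀ᶠ k in (hyperfilter ℕ : Filter ℕ), ∀ i, δ < ‖dt (u k i) e‖ := by
    refine eventually_all.2 fun i => ?_
    have h1 : Tendsto (fun k => ‖dt (u k i) e‖) (hyperfilter ℕ : Filter ℕ) (𝓝 ‖dt (w i) e‖) :=
      (((dt_continuous e).norm).tendsto (w i)).comp (hwt i)
    exact h1.eventually (lt_mem_nhds (hδ1 i))
  have hx0e : dt ((dt (fun _ => 1) e)⁻¹ • (fun _ : Fin n => (1 : ℂ))) e = 1 := by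
    rw [dt_smul, inv_mul_cancel₀ he1]
  obtain ⟨x0, hx0⟩ : ∃ x0 : Fin n → ℂ, dt x0 e = 1 := ⟨_, hx0e⟩
  have hBd : 0 ≤ 1 / δ + ‖x0‖ := by positivity
  refine ⟨e, x0, fun k i => if ∀ i, δ < ‖dt (u k i) e‖ then ((‖p k i‖ : ℂ) * dt (u k i) e) ^ d else 0,
    fun k i => if ∀ i, δ < ‖dt (u k i) e‖ then (dt (u k i) e)⁻¹ • u k i - x0 else 0,
    1 / δ + ‖x0‖, ⟨hx0, ?_, ?_, ?_⟩⟩
  · intro k i
    show dt (if ∀ i, δ < ‖dt (u k i) e‖ then (dt (u k i) e)⁻¹ • u k i - x0 else 0) e = 0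
    by_cases h : ∀ i, δ < ‖dt (u k i) e‖
    · rw [if_pos h, dt_sub, dt_smul, hx0, inv_mul_cancel₀, sub_self]
      exact norm_pos_iff.1 (hδ0.trans (h i))
    · rw [if_neg h, dt_zero]
  · intro k i j
    show ‖(if ∀ i, δ < ‖dt (u k i) e‖ then (dt (u k i) e)⁻¹ • u k i - x0 else 0) j‖ ≤ _
    by_cases h : ∀ i, δ < ‖dt (u k i) e‖
    · rw [if_pos h, Pi.sub_apply, Pi.smul_apply]
      refine (norm_sub_le _ _).trans (add_le_add ?_ (norm_le_pi_norm x0 j))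
      rw [norm_smul, norm_inv, one_div]
      have h1 : ‖u k i j‖ ≤ 1 := (norm_le_pi_norm (u k i) j).trans (hu1 k i).le
      have h2 : ‖dt (u k i) e‖⁻¹ ≤ δ⁻¹ := inv_anti₀ hδ0 (h i).le
      calc ‖dt (u k i) e‖⁻¹ * ‖u k i j‖ ≤ δ⁻¹ * 1 :=
            mul_le_mul h2 h1 (norm_nonneg _) (inv_nonneg.2 hδ0.le)
        _ = δ⁻¹ := mul_one _
    · rw [if_neg h, Pi.zero_apply, norm_zero]
      exact hBd
  · refine hgood.mono fun k hk a => ?_
    rw [hev k a]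
    refine Finset.sum_congr rfl fun i _ => ?_
    show dt (p k i) a ^ d = (if ∀ i, δ < ‖dt (u k i) e‖ then
      ((‖p k i‖ : ℂ) * dt (u k i) e) ^ d else 0) * (dt x0 a +
      dt (if ∀ i, δ < ‖dt (u k i) e‖ then (dt (u k i) e)⁻¹ • u k i - x0 else 0) a) ^ d
    rw [if_pos hk, if_pos hk, dt_sub, dt_smul]
    have h0 : dt (u k i) e ≠ 0 := norm_pos_iff.1 (hδ0.trans (hk i))
    have h1 : dt (p k i) a = (‖p k i‖ : ℂ) * dt (u k i) a := by
      conv_lhs => rw [hpu k i]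
      rw [dt_smul]
    rw [h1, ← mul_pow]
    congr 1
    field_simp
    ring

end Pool.DeB
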