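import Pool.Agent.Lib.DeB.Defs

/-!
Module RankMin (110 lines). A bilinear form all of whose `(K+1)`-minors vanish has rank `≤ K`.
`b : P →ₗ Q →ₗ ℂ`; if `det (b (g i) (h j)) = 0` for all `g : Fin (K+1) → P`, `h : Fin (K+1) → Q`, then the range of `b`
(a subspace of the dual of `Q`) is finite-dimensional of dimension `≤ K`, i.e. `P ⧸ ker b` is.
PROOF. Suppose not: there are `K+1` vectors `g i` with `b (g i)` linearly independent in `Q →ₗ ℂ`. Linearly independent
functionals `f_0, ..., f_K` on `Q` have points `h_0, ..., h_K ∈ Q` with `det (f_i (h_j)) ≠ 0`: the map `Q → ℂ^(K+1)`, `h ↦ (f_i h)_i` is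
surjective (a proper subspace is contained in the kernel of a nonzero functional `∑ c_i x_i`, giving `∑ c_i f_i = 0`), so choose
`h_j` mapping to the standard basis. Contradiction.
(The dimension: if every linearly independent family in a space has at most `K` elements then it is finite-dimensional
with `finrank ≤ K`: e.g. `Module.rank ≤ K` (`rank_le`), `Module.finrank_le_of_rank_le`, `P ⧸ ker b ≃ range b`.)
-/

set_option autoImplicit false

namespace Pool.DeB

/-- Independent functionals have points with the identity as evaluation matrix. -/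
private theorem exists_dual_points {Q : Type*} [AddCommGroup Q] [Module ℂ Q] {n : ℕ}
    (f : Fin n → (Q →ₗ[ℂ] ℂ)) (hf : LinearIndependent ℂ f) :
    ∃ h : Fin n → Q, ∀ i j, f i (h j) = if i = j then 1 else 0 := by
  classical
  have hsurj : Function.Surjective (LinearMap.pi f : Q →ₗ[ℂ] (Fin n → ℂ)) := by
    rw [← LinearMap.range_eq_top]
    by_contra hne
    obtain ⟨φ, hφ0, hφ⟩ := Submodule.exists_le_ker_of_lt_top _ (lt_top_iff_ne_top.mpr hne)
    apply hφ0
    have hrel : ∑ i, φ (Pi.single i 1) • f i = 0 := by
      ext q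
      have h1 : φ ((LinearMap.pi f : Q →ₗ[ℂ] (Fin n → ℂ)) q) = 0 :=
        LinearMap.mem_ker.mp (hφ (LinearMap.mem_range_self _ q))
      rw [LinearMap.pi_apply_eq_sum_univ φ] at h1
      rw [LinearMap.sum_apply, LinearMap.zero_apply, ← h1]
      refine Finset.sum_congr rfl fun i _ => ?_
      rw [LinearMap.smul_apply, smul_eq_mul, LinearMap.pi_apply, smul_eq_mul, mul_comm]
      congr 2
      funext j
      by_cases hij : i = j
      · subst hij; simp
      · rw [if_neg hij, Pi.single_eq_of_ne (Ne.symm hij)]
    have hz := Fintype.linearIndependent_iff.mp hf _ hrel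
    refine LinearMap.pi_ext' fun i => ?_
    ext
    simpa using hz i
  choose g hg using hsurj
  refine ⟨fun j => g (Pi.single j 1), fun i j => ?_⟩
  have := congrFun (hg (Pi.single j 1)) i
  simpa [Pi.single_apply] using this

theorem finrank_of_minors {P Q : Type*} [AddCommGroup P] [Module ℂ P] [AddCommGroup Q] [Module ℂ Q]
    (b : P →ₗ[ℂ] Q →ₗ[ℂ] ℂ) (K : ℕ)
    (h : ∀ (g : Fin (K + 1) → P) (h : Fin (K + 1) → Q),
      (Matrix.of (fun i j => b (g i) (h j))).det = 0) :
    FiniteDimensional ℂ (P ⧸ LinearMap.ker b) ∧ Module.finrank ℂ (P ⧸ LinearMap.ker b) ≤ K := by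
  classical
  have hrank : Module.rank ℂ (P ⧸ LinearMap.ker b) ≤ K := by
    refine rank_le fun s hs => ?_
    by_contra hcard
    push Not at hcard
    obtain ⟨t, hts, htc⟩ := Finset.exists_subset_card_eq (Nat.succ_le_of_lt hcard)
    let e : Fin (K + 1) ≃ t := (Finset.equivFinOfCardEq htc).symm
    let v : Fin (K + 1) → P ⧸ LinearMap.ker b := fun i => ((e i : t) : P ⧸ LinearMap.ker b)
    have hv : LinearIndependent ℂ v := by
      have h1 : LinearIndependent ℂ (fun x : t => (x : P ⧸ LinearMap.ker b)) := by
        have := hs.comp (fun x : t => (⟨(x : P ⧸ LinearMap.ker b), hts x.2⟩ : s)) (by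
          intro x y hxy
          apply Subtype.ext
          exact congrArg (fun z : s => (z : P ⧸ LinearMap.ker b)) hxy)
        exact this
      exact h1.comp e e.injective
    choose g hg using fun i => Submodule.Quotient.mk_surjective (LinearMap.ker b) (v i)
    have hli : LinearIndependent ℂ (fun i => b (g i)) := by
      have h2 := hv.map' (b.ker.liftQ b le_rfl) (by
        rw [Submodule.ker_liftQ_eq_bot]
        exact le_rfl)
      have h3 : (fun i => b (g i)) = (b.ker.liftQ b le_rfl) ∘ v := by
        funext i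
        simp only [Function.comp_apply]
        rw [← hg i]
        rfl
      rw [h3]
      exact h2
    obtain ⟨q, hq⟩ := exists_dual_points _ hli
    have hd := h g q
    have h1 : (Matrix.of (fun i j => b (g i) (q j))) = (1 : Matrix (Fin (K + 1)) (Fin (K + 1)) ℂ) := by
      ext i j
      rw [Matrix.of_apply, hq i j, Matrix.one_apply]
    rw [h1, Matrix.det_one] at hd
    exact one_ne_zero hd
  have hfd : FiniteDimensional ℂ (P ⧸ LinearMap.ker b) :=
    Module.rank_lt_aleph0_iff.mp (lt_of_le_of_lt hrank (Cardinal.natCast_lt_aleph0))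
  exact ⟨hfd, Module.finrank_le_of_rank_le hrank⟩

end Pool.DeB
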