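import Pool.Agent.Lib.DeB.AffDefs
import Pool.Agent.Lib.DeB.AffNorm
import Pool.Agent.Lib.DeB.AffBound
import Pool.Agent.Lib.DeB.RankMin

/-!
Module AffLim (200 lines). Lemma 14 of the paper.
PROOF. If `n = 0`: `lf`... treat directly: `F` is a constant, `F = C F0`, `d ≥ 1`: homogeneous of degree `d ≥ 1` gives `F = 0`; take `μ = 0`
(`d = 0`: then `r = 0`, `g k = 0`, `F = 0`). Let `n ≥ 1`. `g` from `BorderLe`, `hev` from the convergence of the coefficients (`g k` and `F` are
homogeneous of degree `d`, so `eval a (g k) = ∑_{|β|=d} coeff_β(g k) a^β` over a fixed finite set of `β`). `affine_data`, `lamk_bounded`: for every `P`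
`lamk c q k P` converges along the ultrafilter `U = hyperfilter ℕ` (closed balls of `ℂ` are compact); let `μ P` be the limit; it is
linear in `P` (uniqueness of limits, `tendsto_nhds_unique`). All `(r+1) × (r+1)` determinants of `μ (g_i h_j)` vanish: for each `k` the
matrix `lamk c q k (g_i h_j) = ∑_{t<r} (c k t * eval (q k t) g_i) * eval (q k t) h_j` is a product of `(r+1) × r` and `r × (r+1)` matrices;
the determinant is continuous. `μ ((C (dt x0 a) + lf a)^d) = lim ∑_i c k i (dt x0 a + dt (q k i) a)^d = lim eval a (g k) = eval a F`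
(`U ≤ atTop`: `Filter.Nat.hyperfilter_le_atTop`/`hyperfilter_le_cofinite`).
-/

set_option autoImplicit false

open MvPolynomial Filter Topology

namespace Pool.DeB

private theorem al_det_mul {N K : ℕ} (hNK : K < N) {ι : Type*} [Fintype ι] [DecidableEq ι]
    (hι : Fintype.card ι = K) (A : Matrix (Fin N) ι ℂ) (B : Matrix ι (Fin N) ℂ) :
    (A * B).det = 0 := by
  by_contra hne
  have h1 : (A * B).rank = N := by
    rw [Matrix.rank_of_isUnit _ ((Matrix.isUnit_iff_isUnit_det _).2 (isUnit_iff_ne_zero.2 hne)),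
      Fintype.card_fin]
  have h2 : (A * B).rank ≤ A.rank := Matrix.rank_mul_le_left A B
  have h3 : A.rank ≤ Fintype.card ι := Matrix.rank_le_card_width A
  omega

private theorem lamk_apply {n r : ℕ} (c : ℕ → Fin r → ℂ) (q : ℕ → Fin r → (Fin n → ℂ)) (k : ℕ)
    (P : MvPolynomial (Fin n) ℂ) :
    lamk c q k P = ∑ i, c k i * (MvPolynomial.aeval (q k i) : MvPolynomial (Fin n) ℂ →ₐ[ℂ] ℂ) P := by
  unfold lamk
  rw [LinearMap.sum_apply]
  rfl

private theorem aeval_lf {n : ℕ} (q a : Fin n → ℂ) :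
    (MvPolynomial.aeval q : MvPolynomial (Fin n) ℂ →ₐ[ℂ] ℂ) (lf a) = dt q a := by
  unfold lf dt
  rw [map_sum]
  refine Finset.sum_congr rfl fun j _ => ?_
  rw [map_mul, aeval_C, aeval_X, mul_comm]
  rfl

private theorem exists_lim {f : ℕ → ℂ} {B : ℝ}
    (h : ∀ᶠ k in (hyperfilter ℕ : Filter ℕ), ‖f k‖ ≤ B) :
    ∃ x : ℂ, Tendsto f (hyperfilter ℕ : Filter ℕ) (𝓝 x) := by
  have h1 : ((hyperfilter ℕ).map f : Filter ℂ) ≤ 𝓟 (Metric.closedBall (0 : ℂ) B) := by
    rw [Filter.le_principal_iff, Ultrafilter.coe_map, Filter.mem_map]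
    filter_upwards [h] with k hk
    rw [Set.mem_preimage, mem_closedBall_zero_iff]
    exact hk
  obtain ⟨x, -, hx⟩ := (isCompact_closedBall (0 : ℂ) B).ultrafilter_le_nhds _ h1
  exact ⟨x, hx⟩

private theorem hom_g {n d r : ℕ} {g : MvPolynomial (Fin n) ℂ}
    (hg : ∃ ℓ : Fin r → MvPolynomial (Fin n) ℂ,
      (∀ i, (ℓ i).IsHomogeneous 1) ∧ g = ∑ i, ℓ i ^ d) : g.IsHomogeneous d := by
  obtain ⟨ℓ, hℓ, rfl⟩ := hg
  refine IsHomogeneous.sum _ _ _ fun i _ => ?_
  have h := (hℓ i).pow d
  rwa [one_mul] at h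

private theorem ev_tendsto {n d r : ℕ} {F : MvPolynomial (Fin n) ℂ} (hF : F.IsHomogeneous d)
    {g : ℕ → MvPolynomial (Fin n) ℂ}
    (hg : ∀ k, ∃ ℓ : Fin r → MvPolynomial (Fin n) ℂ,
      (∀ i, (ℓ i).IsHomogeneous 1) ∧ g k = ∑ i, ℓ i ^ d)
    (hlim : ∀ m : Fin n →₀ ℕ, Tendsto (fun k => coeff m (g k)) atTop (𝓝 (coeff m F)))
    (a : Fin n → ℂ) : Tendsto (fun k => eval a (g k)) atTop (𝓝 (eval a F)) := by
  have h := lam_tendsto hlim (lf a ^ d)
  rw [lam_lf_pow hF] at h
  refine h.congr fun k => ?_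
  exact lam_lf_pow (hom_g (hg k)) a

private theorem affine_limit_zero {d r : ℕ} (hdr : r ≤ d) {F : MvPolynomial (Fin 0) ℂ}
    (hF : F.IsHomogeneous d) (hB : BorderLe F d r) (a : Fin 0 → ℂ) : eval a F = 0 := by
  by_cases hd : d = 0
  · obtain ⟨g, hg, hlim⟩ := hB
    have hr : r = 0 := by omega
    subst hr
    have h0 : ∀ k, g k = 0 := by
      intro k
      obtain ⟨ℓ, -, hk⟩ := hg k
      rw [hk, Finset.univ_eq_empty, Finset.sum_empty]
    have h1 := ev_tendsto hF hg hlim a
    simp only [h0, map_zero] at h1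
    exact tendsto_nhds_unique h1 tendsto_const_nhds
  · have h0 : F = 0 := by
      by_contra hne
      exact hd (hF.inj_right (isHomogeneous_of_isEmpty (R := ℂ) (σ := Fin 0) (f := F)) hne)
    rw [h0, map_zero]

/-- Lemma 14. -/
theorem affine_limit {n d r : ℕ} (hdr : r ≤ d) {F : MvPolynomial (Fin n) ℂ}
    (hF : F.IsHomogeneous d) (hB : BorderLe F d r) :
    ∃ (x0 : Fin n → ℂ) (μ : MvPolynomial (Fin n) ℂ →ₗ[ℂ] ℂ),
      (∀ g h : Fin (r + 1) → MvPolynomial (Fin n) ℂ,
        (Matrix.of (fun i j => μ (g i * h j))).det = 0) ∧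
      ∀ a, μ ((C (dt x0 a) + lf a) ^ d) = eval a F := by
  rcases Nat.eq_zero_or_pos n with hn | hn
  · subst hn
    refine ⟨0, 0, ?_, ?_⟩
    · intro g h
      have : (Matrix.of (fun i j => (0 : MvPolynomial (Fin 0) ℂ →ₗ[ℂ] ℂ) (g i * h j))) =
          (0 : Matrix (Fin (r + 1)) (Fin (r + 1)) ℂ) := by
        ext i j
        rfl
      rw [this, Matrix.det_zero]
    · intro a
      rw [affine_limit_zero hdr hF hB a]
      rfl
  · obtain ⟨g, hg, hlim⟩ := hB
    have hev := ev_tendsto hF hg hlim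
    obtain ⟨e, x0, c, q, Bd, H⟩ := affine_data hn hg
    have hex : ∀ P : MvPolynomial (Fin n) ℂ, ∃ x : ℂ,
        Tendsto (fun k => lamk c q k P) (hyperfilter ℕ : Filter ℕ) (𝓝 x) := by
      intro P
      obtain ⟨B, hB⟩ := lamk_bounded hdr H hev P
      exact exists_lim hB
    choose μ0 hμ0 using hex
    let μ : MvPolynomial (Fin n) ℂ →ₗ[ℂ] ℂ :=
      { toFun := μ0
        map_add' := by
          intro P Q
          refine tendsto_nhds_unique (hμ0 (P + Q)) ?_
          refine ((hμ0 P).add (hμ0 Q)).congr fun k => ?_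
          rw [map_add]
        map_smul' := by
          intro s P
          refine tendsto_nhds_unique (hμ0 (s • P)) ?_
          refine ((hμ0 P).const_smul s).congr fun k => ?_
          rw [map_smul] }
    have hμ : ∀ P, Tendsto (fun k => lamk c q k P) (hyperfilter ℕ : Filter ℕ) (𝓝 (μ P)) := hμ0
    refine ⟨x0, μ, ?_, ?_⟩
    · intro u w
      have hz : ∀ k, (Matrix.of (fun i j => lamk c q k (u i * w j))).det = 0 := by
        intro k
        have e1 : (Matrix.of (fun i j => lamk c q k (u i * w j)) :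
            Matrix (Fin (r + 1)) (Fin (r + 1)) ℂ) =
            (Matrix.of fun i (x : Fin r) => c k x *
              (MvPolynomial.aeval (q k x) : MvPolynomial (Fin n) ℂ →ₐ[ℂ] ℂ) (u i)) *
            (Matrix.of fun (x : Fin r) j =>
              (MvPolynomial.aeval (q k x) : MvPolynomial (Fin n) ℂ →ₐ[ℂ] ℂ) (w j)) := by
          ext i j
          rw [Matrix.mul_apply, Matrix.of_apply, lamk_apply]
          refine Finset.sum_congr rfl fun l _ => ?_
          rw [map_mul, Matrix.of_apply, Matrix.of_apply, mul_assoc]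
        rw [e1]
        exact al_det_mul (K := r) (by omega) (Fintype.card_fin r) _ _
      have hcont : Tendsto (fun k => (Matrix.of (fun i j => lamk c q k (u i * w j))).det)
          (hyperfilter ℕ : Filter ℕ) (𝓝 (Matrix.of (fun i j => μ (u i * w j))).det) := by
        simp only [Matrix.det_apply]
        refine tendsto_finsetSum _ fun σ _ => ?_
        refine Tendsto.const_smul ?_ _
        refine tendsto_finsetProd _ fun i _ => ?_
        exact hμ _
      have hcz : Tendsto (fun k => (Matrix.of (fun i j => lamk c q k (u i * w j))).det)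
          (hyperfilter ℕ : Filter ℕ) (𝓝 0) := by
        simp only [hz]
        exact tendsto_const_nhds
      exact tendsto_nhds_unique hcont hcz
    · intro a
      have h1 : Tendsto (fun k => eval a (g k)) (hyperfilter ℕ : Filter ℕ) (𝓝 (eval a F)) :=
        (hev a).mono_left Nat.hyperfilter_le_atTop
      refine tendsto_nhds_unique (hμ _) ?_
      refine h1.congr' ?_
      filter_upwards [H.eq] with k hk
      rw [hk a, lamk_apply]
      refine Finset.sum_congr rfl fun i _ => ?_
      rw [map_pow, map_add, aeval_C, aeval_lf]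
      rfl

end Pool.DeB
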