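import Pool.Agent.Lib.DeB.Defs

/-!
Module Chain (110 lines). Chains of discs in the Hahn field have a common point (spherical completeness).
PROOF. Let `T` be a set of pairs `(c, κ)`, any two comparable: `κ ≤ κ'` and `κ ≤ v (c' - c)`, or the other
way round. Define the coefficient of `t^e` of the wanted `x` as `cf c e` for any `(c,κ) ∈ T` with `e < κ`
(independent of the choice: for two such pairs `e < min κ κ' ≤ v (c' - c)`), and `0` if there is none
(`Classical`). The support of this function is partially well ordered: it is enough that every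
nonempty subset `S` of it has a least element / no infinite strictly decreasing sequence: for `e0 ∈ S` take
`(c,κ) ∈ T` with `e0 < κ`; all `e ∈ S` with `e ≤ e0` are in the support of the Hahn series `c`, which is
well founded (`Set.IsWF`, `Set.isWF_iff_isPWO`, `Set.IsPWO.mono`). So `x` is a Hahn series
(`Om` is by definition `HahnSeries ℝ ℂ`), and `κ ≤ v (x - c)` for all `(c,κ) ∈ T` by `le_v_iff`.
-/

set_option autoImplicit false

namespace Pool.DeB

open Classical in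
/-- the coefficients of the common point. -/
private noncomputable def chCf (T : Set (Om × ℝ)) (e : ℝ) : ℂ :=
  if h : ∃ x ∈ T, e < x.2 then cf (h.choose).1 e else 0

private theorem ch_indep (T : Set (Om × ℝ))
    (hT : ∀ x ∈ T, ∀ x' ∈ T, (x.2 ≤ x'.2 ∧ (x.2 : WithTop ℝ) ≤ v (x'.1 - x.1)) ∨
      (x'.2 ≤ x.2 ∧ (x'.2 : WithTop ℝ) ≤ v (x.1 - x'.1))) {x x' : Om × ℝ} (hx : x ∈ T)
    (hx' : x' ∈ T) {e : ℝ} (he : e < x.2) (he' : e < x'.2) : cf x.1 e = cf x'.1 e := by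
  rcases hT x hx x' hx' with ⟨_, h⟩ | ⟨_, h⟩
  · have h1 := (le_v_iff.1 h) e (by exact_mod_cast he)
    rw [cf_sub, sub_eq_zero] at h1
    exact h1.symm
  · have h1 := (le_v_iff.1 h) e (by exact_mod_cast he')
    rw [cf_sub, sub_eq_zero] at h1
    exact h1

private theorem chCf_eq (T : Set (Om × ℝ))
    (hT : ∀ x ∈ T, ∀ x' ∈ T, (x.2 ≤ x'.2 ∧ (x.2 : WithTop ℝ) ≤ v (x'.1 - x.1)) ∨
      (x'.2 ≤ x.2 ∧ (x'.2 : WithTop ℝ) ≤ v (x.1 - x'.1))) {x : Om × ℝ} (hx : x ∈ T)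
    {e : ℝ} (he : e < x.2) : chCf T e = cf x.1 e := by
  have h : ∃ x ∈ T, e < x.2 := ⟨x, hx, he⟩
  unfold chCf
  rw [dif_pos h]
  exact ch_indep T hT h.choose_spec.1 hx h.choose_spec.2 he

private theorem chCf_pwo (T : Set (Om × ℝ))
    (hT : ∀ x ∈ T, ∀ x' ∈ T, (x.2 ≤ x'.2 ∧ (x.2 : WithTop ℝ) ≤ v (x'.1 - x.1)) ∨
      (x'.2 ≤ x.2 ∧ (x'.2 : WithTop ℝ) ≤ v (x.1 - x'.1))) :
    (Function.support (chCf T)).IsPWO := by
  rw [Set.isPWO_iff_isWF, Set.isWF_iff_no_descending_seq]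
  intro f hf hsub
  have h0 : f 0 ∈ Function.support (chCf T) := hsub 0
  have h1 : ∃ x ∈ T, f 0 < x.2 := by
    by_contra hne
    apply h0
    unfold chCf
    rw [dif_neg hne]
  obtain ⟨x, hx, hlt⟩ := h1
  have hpwo : (HahnSeries.support (x.1 : HahnSeries ℝ ℂ)).IsPWO := HahnSeries.isPWO_support _
  have hwf := Set.isPWO_iff_isWF.1 hpwo
  rw [Set.isWF_iff_no_descending_seq] at hwf
  refine hwf f hf fun n => ?_
  have h2 : f n < x.2 := lt_of_le_of_lt (hf.antitone (Nat.zero_le n)) hlt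
  have h3 : chCf T (f n) ≠ 0 := hsub n
  rw [chCf_eq T hT hx h2] at h3
  exact h3

theorem chain_point (T : Set (Om × ℝ))
    (hT : ∀ x ∈ T, ∀ x' ∈ T, (x.2 ≤ x'.2 ∧ (x.2 : WithTop ℝ) ≤ v (x'.1 - x.1)) ∨
      (x'.2 ≤ x.2 ∧ (x'.2 : WithTop ℝ) ≤ v (x.1 - x'.1))) :
    ∃ z : Om, ∀ x ∈ T, (x.2 : WithTop ℝ) ≤ v (z - x.1) := by
  refine ⟨(⟨chCf T, chCf_pwo T hT⟩ : HahnSeries ℝ ℂ), fun x hx => ?_⟩
  rw [le_v_iff]
  intro e he
  have he' : e < x.2 := by exact_mod_cast he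
  rw [cf_sub, sub_eq_zero]
  exact chCf_eq T hT hx he'

end Pool.DeB
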