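import Pool.Agent.Lib.DeB.Defs

/-!
Module Gauss (220 lines). Gauss valuations.
PROOFS. `gn P = min_i v(P_i)` (`Finset.inf` over the support; `v 0 = ⊤`, so the minimum is over all `i`).
gn_mul: if `P = 0` or `Q = 0` clear. Otherwise `gn P = a`, `gn Q = b` real. Scaling by `C (tp (-a))`, `C (tp (-b))`
  (`gn_C_mul`) we may assume `a = b = 0`: the coefficients are in `VV`; `gn (P*Q) ≥ 0` clear. Reduction:
  map the coefficients by `res : VV → ℂ`: `P`, `Q` have nonzero reductions, so their product has (domain);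
  i.e. some coefficient of `P * Q` has `cf _ 0 ≠ 0`. (Lift `P` to `VV[X]`: `Polynomial.lifts` / define
  `P' = ∑ monomial i ⟨P_i, _⟩`; or directly with the smallest indices `i`, `j` with `v(P_i) = 0`, `v(Q_j) = 0`: the
  coefficient of `X^(i+j)` is `P_i Q_j` + terms of order `> 0`.)
gn_eval: for `ω ∈ VV`, `v (P.eval ω) ≥ gn P`: `eval_eq_sum`, `v_sum_ge`, `v_mul`, `v_pow`.
gn_generic: `P ≠ 0`, `gn P = μ` real; the coefficient of `t^μ` of `P.eval (algebraMap ℂ Om u)` is
  `∑ i, u^i cf (P_i) μ`, a nonzero polynomial in `u`, all lower coefficients vanish; so `v = μ` for all `u` which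
  are not roots of it.
gv_*: `(scal c κ P).eval u = P.eval (c + tp κ * u)`; `(scal c κ P).coeff i = (taylor c P).coeff i * (tp κ)^i`
  (`scal c κ P = (taylor c P).comp (C (tp κ) * X)`, `Polynomial.comp_C_mul_X_coeff`), `v = v(a_i) + i κ`.
gv_center: with `u0 = (c' - c)/tp κ ∈ VV` we have `scal c' κ P = (scal c κ P).comp (X + C u0)`, and the coefficients
  of `Q.comp (X + C u0)` are `VV`-combinations of those of `Q`, so `gn` does not decrease; symmetric.
-/

set_option autoImplicit false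

open Polynomial

namespace Pool.DeB

private theorem ga_v_sum_gt {ι : Type*} (s : Finset ι) (f : ι → Om) (i : WithTop ℝ) (hi : i < ⊤)
    (h : ∀ k ∈ s, i < v (f k)) : i < v (∑ k ∈ s, f k) := by
  classical
  induction s using Finset.induction_on with
  | empty => rw [Finset.sum_empty, v_zero]; exact hi
  | insert a s ha ih =>
    rw [Finset.sum_insert ha]
    exact lt_of_lt_of_le (lt_min (h a (Finset.mem_insert_self a s)) (ih fun k hk =>
      h k (Finset.mem_insert_of_mem hk))) (v_add_ge _ _)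

private theorem ga_cf_sum {ι : Type*} (s : Finset ι) (f : ι → Om) (e : ℝ) :
    cf (∑ k ∈ s, f k) e = ∑ k ∈ s, cf (f k) e := by
  classical
  induction s using Finset.induction_on with
  | empty => rw [Finset.sum_empty, Finset.sum_empty, cf_zero]
  | insert a s ha ih => rw [Finset.sum_insert ha, Finset.sum_insert ha, cf_add, ih]

private theorem ga_nsmul (i : ℕ) (κ : ℝ) : i • (κ : WithTop ℝ) = ((i * κ : ℝ) : WithTop ℝ) := by
  rw [← nsmul_eq_mul, WithTop.coe_nsmul]

theorem gn_le (P : Om[X]) (i : ℕ) : gn P ≤ v (P.coeff i) := by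
  by_cases h : i ∈ P.support
  · exact Finset.inf_le h
  · rw [notMem_support_iff.1 h, v_zero]
    exact le_top

theorem le_gn_iff {P : Om[X]} {κ : WithTop ℝ} : κ ≤ gn P ↔ ∀ i, κ ≤ v (P.coeff i) := by
  constructor
  · intro h i
    exact h.trans (gn_le P i)
  · intro h
    exact Finset.le_inf fun i _ => h i

theorem gn_attained {P : Om[X]} (hP : P ≠ 0) : ∃ i, v (P.coeff i) = gn P := by
  obtain ⟨i, -, hi⟩ := Finset.exists_mem_eq_inf P.support
    (support_nonempty.2 hP) (fun i => v (P.coeff i))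
  exact ⟨i, hi.symm⟩

theorem gn_eq_top {P : Om[X]} : gn P = ⊤ ↔ P = 0 := by
  constructor
  · intro h
    ext1 i
    have h1 := gn_le P i
    rw [h, top_le_iff, v_eq_top] at h1
    rw [h1, coeff_zero]
  · rintro rfl
    rw [gn, support_zero, Finset.inf_empty]

theorem gn_C_mul (a : Om) (P : Om[X]) : gn (C a * P) = v a + gn P := by
  by_cases hP : P = 0
  · subst hP
    rw [mul_zero, gn_eq_top.2 rfl, WithTop.add_top]
  · apply le_antisymm
    · obtain ⟨i, hi⟩ := gn_attained hP
      rw [← hi, ← v_mul, ← coeff_C_mul]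
      exact gn_le _ i
    · rw [le_gn_iff]
      intro i
      rw [coeff_C_mul, v_mul]
      gcongr
      exact gn_le P i

theorem gn_mul (P Q : Om[X]) : gn (P * Q) = gn P + gn Q := by
  classical
  by_cases hP : P = 0
  · subst hP
    rw [zero_mul, gn_eq_top.2 rfl, WithTop.top_add]
  by_cases hQ : Q = 0
  · subst hQ
    rw [mul_zero, gn_eq_top.2 rfl, WithTop.add_top]
  apply le_antisymm
  · have hPt : gn P ≠ ⊤ := fun h => hP (gn_eq_top.1 h)
    have hQt : gn Q ≠ ⊤ := fun h => hQ (gn_eq_top.1 h)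
    have hi := Nat.find_spec (gn_attained hP)
    have hj := Nat.find_spec (gn_attained hQ)
    have hi' : ∀ k, k < Nat.find (gn_attained hP) → gn P < v (P.coeff k) := fun k hk =>
      lt_of_le_of_ne (gn_le P k) fun h => Nat.find_min (gn_attained hP) hk h.symm
    have hj' : ∀ k, k < Nat.find (gn_attained hQ) → gn Q < v (Q.coeff k) := fun k hk =>
      lt_of_le_of_ne (gn_le Q k) fun h => Nat.find_min (gn_attained hQ) hk h.symm
    set i := Nat.find (gn_attained hP)
    set j := Nat.find (gn_attained hQ)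
    have h1 : v ((P * Q).coeff (i + j)) = gn P + gn Q := by
      have hmem : (i, j) ∈ Finset.HasAntidiagonal.antidiagonal (i + j) :=
        Finset.HasAntidiagonal.mem_antidiagonal.2 rfl
      rw [coeff_mul, ← Finset.add_sum_erase _ _ hmem]
      have h2 : v (P.coeff i * Q.coeff j) = gn P + gn Q := by rw [v_mul, hi, hj]
      rw [v_add_eq_left, h2]
      change v (P.coeff i * Q.coeff j) < _
      rw [h2]
      apply ga_v_sum_gt
      · exact WithTop.add_lt_top.2 ⟨hPt.lt_top, hQt.lt_top⟩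
      · rintro ⟨k, l⟩ hkl
        rw [Finset.mem_erase, Finset.HasAntidiagonal.mem_antidiagonal] at hkl
        obtain ⟨hne, hs⟩ := hkl
        change k + l = i + j at hs
        change _ < v (P.coeff k * Q.coeff l)
        rw [v_mul]
        rcases lt_trichotomy k i with hk | hk | hk
        · exact WithTop.add_lt_add_of_lt_of_le hQt (hi' k hk) (gn_le Q l)
        · exfalso
          apply hne
          have : l = j := by omega
          rw [hk, this]
        · exact WithTop.add_lt_add_of_le_of_lt hPt (gn_le P k) (hj' l (by omega))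
    rw [← h1]
    exact gn_le _ _
  · rw [le_gn_iff]
    intro i
    rw [coeff_mul]
    apply v_sum_ge
    intro k _
    rw [v_mul]
    exact add_le_add (gn_le P _) (gn_le Q _)

theorem gn_eval (P : Om[X]) {ω : Om} (h : ω ∈ VV) : gn P ≤ v (P.eval ω) := by
  rw [eval_eq_sum, sum_def]
  apply v_sum_ge
  intro i _
  rw [v_mul, v_pow]
  have h1 : (0 : WithTop ℝ) ≤ i • v ω := nsmul_nonneg (mem_VV.1 h) i
  calc gn P ≤ v (P.coeff i) := gn_le P i
    _ ≤ v (P.coeff i) + i • v ω := le_add_of_nonneg_right h1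

theorem gn_generic {P : Om[X]} (hP : P ≠ 0) :
    {u : ℂ | v (P.eval (algebraMap ℂ Om u)) ≠ gn P}.Finite := by
  classical
  obtain ⟨i0, hi0⟩ := gn_attained hP
  have hPt : gn P ≠ ⊤ := fun h => hP (gn_eq_top.1 h)
  obtain ⟨μ, hμ⟩ := WithTop.ne_top_iff_exists.1 hPt
  let R : ℂ[X] := ∑ i ∈ P.support, monomial i (cf (P.coeff i) μ)
  have hRc : R.coeff i0 = cf (P.coeff i0) μ := by
    simp only [R, finsetSum_coeff, coeff_monomial]
    rw [Finset.sum_ite_eq' P.support i0 (fun i => cf (P.coeff i) μ)]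
    split_ifs with h
    · rfl
    · rw [notMem_support_iff.1 h, cf_zero]
  have hR : R ≠ 0 := by
    intro h
    rw [h, coeff_zero] at hRc
    exact cf_v_ne (hi0.trans hμ.symm) hRc.symm
  have hev : ∀ u : ℂ, cf (P.eval (algebraMap ℂ Om u)) μ = R.eval u := by
    intro u
    rw [eval_eq_sum, sum_def, ga_cf_sum]
    simp only [R, eval_finsetSum, eval_monomial]
    refine Finset.sum_congr rfl fun i _ => ?_
    rw [mul_comm, ← map_pow, cf_alg_mul, mul_comm]
  apply (R.roots.toFinset.finite_toSet).subset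
  intro u hu
  by_contra h
  apply hu
  have h1 : R.eval u ≠ 0 := by
    intro h2
    apply h
    rw [Finset.mem_coe, Multiset.mem_toFinset, mem_roots hR]
    exact h2
  apply le_antisymm
  · rw [← hμ]
    apply v_le_of_cf_ne
    rw [hev]
    exact h1
  · exact gn_eval P (VV.algebraMap_mem u)

theorem scal_eval (c : Om) (κ : ℝ) (P : Om[X]) (u : Om) :
    (scal c κ P).eval u = P.eval (c + tp κ * u) := by
  simp only [scal, eval_comp, eval_add, eval_mul, eval_C, eval_X]
  rw [add_comm]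

private theorem ga_scal (c : Om) (κ : ℝ) (P : Om[X]) :
    scal c κ P = (taylor c P).comp (C (tp κ) * X) := by
  rw [taylor_apply, comp_assoc, scal]
  congr 1
  simp

theorem scal_coeff (c : Om) (κ : ℝ) (P : Om[X]) (i : ℕ) :
    (scal c κ P).coeff i = (taylor c P).coeff i * tp κ ^ i := by
  rw [ga_scal, comp_C_mul_X_coeff]

private theorem ga_scal_eq_zero {c : Om} {κ : ℝ} {P : Om[X]} : scal c κ P = 0 ↔ P = 0 := by
  constructor
  · intro h
    have h1 : taylor c P = 0 := by
      ext1 i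
      have h2 := scal_coeff c κ P i
      rw [h, coeff_zero] at h2
      rw [coeff_zero]
      exact (mul_eq_zero.1 h2.symm).resolve_right (pow_ne_zero _ (tp_ne_zero κ))
    apply taylor_injective c
    rw [h1, map_zero]
  · rintro rfl
    rw [scal, zero_comp]

theorem scal_ne_zero {c : Om} {κ : ℝ} {P : Om[X]} (hP : P ≠ 0) : scal c κ P ≠ 0 :=
  fun h => hP (ga_scal_eq_zero.1 h)

theorem gv_eq_top {c : Om} {κ : ℝ} {P : Om[X]} : gv c κ P = ⊤ ↔ P = 0 := by
  rw [gv, gn_eq_top, ga_scal_eq_zero]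

theorem gv_mul (c : Om) (κ : ℝ) (P Q : Om[X]) : gv c κ (P * Q) = gv c κ P + gv c κ Q := by
  rw [gv, gv, gv, scal, mul_comp, gn_mul]
  rfl

theorem gv_generic {c : Om} {κ : ℝ} {P : Om[X]} (hP : P ≠ 0) :
    {u : ℂ | v (P.eval (c + tp κ * algebraMap ℂ Om u)) ≠ gv c κ P}.Finite := by
  have h := gn_generic (scal_ne_zero (c := c) (κ := κ) hP)
  simp only [scal_eval] at h
  exact h

theorem gv_eval {c z : Om} {κ : ℝ} (P : Om[X]) (h : (κ : WithTop ℝ) ≤ v (z - c)) :
    gv c κ P ≤ v (P.eval z) := by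
  have h1 : (z - c) * tp (-κ) ∈ VV := by
    rw [mem_VV, v_mul, v_tp]
    calc (0 : WithTop ℝ) = ((κ + -κ : ℝ) : WithTop ℝ) := by simp
      _ = (κ : WithTop ℝ) + ((-κ : ℝ) : WithTop ℝ) := WithTop.coe_add _ _
      _ ≤ _ := by gcongr
  have h2 := gn_eval (scal c κ P) h1
  rw [scal_eval] at h2
  have h3 : c + tp κ * ((z - c) * tp (-κ)) = z := by
    have h4 : tp κ * tp (-κ) = 1 := by rw [← tp_add, add_neg_cancel, tp_zero]
    linear_combination (z - c) * h4
  rw [h3] at h2
  exact h2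

private theorem ga_line (c : Om) (κ : ℝ) (P : Om[X]) (i : ℕ) :
    v ((scal c κ P).coeff i) = v ((taylor c P).coeff i) + ((i * κ : ℝ) : WithTop ℝ) := by
  rw [scal_coeff, v_mul, v_pow, v_tp, ga_nsmul]

theorem gv_le_line (c : Om) (κ : ℝ) (P : Om[X]) (i : ℕ) :
    gv c κ P ≤ v ((taylor c P).coeff i) + ((i * κ : ℝ) : WithTop ℝ) := by
  rw [← ga_line]
  exact gn_le _ i

theorem gv_line_attained {c : Om} {κ : ℝ} {P : Om[X]} (hP : P ≠ 0) :
    ∃ i, gv c κ P = v ((taylor c P).coeff i) + ((i * κ : ℝ) : WithTop ℝ) := by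
  obtain ⟨i, hi⟩ := gn_attained (scal_ne_zero (c := c) (κ := κ) hP)
  refine ⟨i, ?_⟩
  rw [← ga_line, hi, gv]

theorem le_gv_iff {c : Om} {κ : ℝ} {P : Om[X]} {μ : WithTop ℝ} : μ ≤ gv c κ P ↔
    ∀ i, μ ≤ v ((taylor c P).coeff i) + ((i * κ : ℝ) : WithTop ℝ) := by
  simp only [← ga_line]
  exact le_gn_iff

private theorem ga_nat (m : ℕ) (a : Om) : v a ≤ v ((m : Om) * a) := by
  have h1 : (m : Om) = algebraMap ℂ Om (m : ℂ) := by rw [map_natCast]
  rw [v_mul, h1]
  exact le_add_of_nonneg_left (v_alg_ge _)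

private theorem ga_taylor (Q : Om[X]) {u : Om} (hu : u ∈ VV) : gn Q ≤ gn (taylor u Q) := by
  rw [le_gn_iff]
  intro i
  rw [taylor_coeff]
  refine le_trans ?_ (gn_eval _ hu)
  rw [le_gn_iff]
  intro k
  rw [hasseDeriv_coeff]
  exact le_trans (gn_le Q _) (ga_nat _ _)

private theorem ga_center {c c' : Om} {κ : ℝ} (P : Om[X]) (h : (κ : WithTop ℝ) ≤ v (c' - c)) :
    gv c κ P ≤ gv c' κ P := by
  have h1 : (c' - c) * tp (-κ) ∈ VV := by
    rw [mem_VV, v_mul, v_tp]
    calc (0 : WithTop ℝ) = ((κ + -κ : ℝ) : WithTop ℝ) := by simp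
      _ = (κ : WithTop ℝ) + ((-κ : ℝ) : WithTop ℝ) := WithTop.coe_add _ _
      _ ≤ _ := by gcongr
  have h2 : scal c' κ P = taylor ((c' - c) * tp (-κ)) (scal c κ P) := by
    rw [taylor_apply, scal, scal, comp_assoc]
    congr 1
    simp only [add_comp, mul_comp, C_comp, X_comp]
    have h4 : tp κ * tp (-κ) = 1 := by rw [← tp_add, add_neg_cancel, tp_zero]
    have h5 : (C (tp κ) : Om[X]) * C (tp (-κ)) = 1 := by rw [← C_mul, h4, C_1]
    rw [C_mul, C_sub]
    linear_combination (C c - C c') * h5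
  rw [gv, gv, h2]
  exact ga_taylor _ h1

theorem gv_center {c c' : Om} {κ : ℝ} (P : Om[X]) (h : (κ : WithTop ℝ) ≤ v (c - c')) :
    gv c κ P = gv c' κ P :=
  le_antisymm (ga_center P (by rwa [v_sub_comm])) (ga_center P h)

end Pool.DeB
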