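import Pool.Agent.Lib.DeB.Defs
import Pool.Agent.Lib.DeB.Gauss

/-!
Module GoodExt (220 lines). Good discs for a polynomial `P` over the Hahn field.
`Good P c κ`: the minimum of `v (a_i) + i κ` (`a_i` = coefficients of `P(c+Z)` = `(taylor c P).coeff i`) is attained by some
`i ≥ 1`, i.e. `gv c κ P = v (a_i) + i κ` for some `i ≥ 1` (uses `gv_le_line`, `gv_line_attained` of
Gauss.lean: `gv c κ P ≤ v (a_i) + i κ`, with equality for some `i`).
PROOFS.
good_start: for `κ` very negative the leading coefficient wins: `a_i` with `i = natDegree P ≥ 1`, `a_i ≠ 0`;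
  choose `κ ≤ (v(a_j) - v(a_i)) / (i - j)` for all `j < i` with `a_j ≠ 0`.
good_center: the disc does not change (`κ ≤ v (c - c')`): scaling (`scal`) we must show: for a polynomial `Q`
  (`= scal c κ P`, `Q ≠ 0`) and `u0 ∈ VV` (`u0 = (c'-c)/t^κ`) with `Q' = Q.comp (X + C u0)` the same holds. Put
  `μ = gn Q`; `i ≥ 1` attains the minimum for `Q`; take the LARGEST such `i`; the coefficient of `X^i` of `Q'`
  is `Q_i + ∑_{j>i} (j choose i) Q_j u0^(j-i)`, all terms with `j > i` have `v > μ`, so its `v` is `μ`, and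
  all coefficients of `Q'` have `v ≥ μ`. (Or use `gv_center` and the line lemma for the center `c'`.)
good_limit: if `Good P c κ_k` for radii `κ_k` with supremum `K`: the functions `v(a_i) + i κ` are continuous in
  `κ`; some fixed `i ≥ 1` works for a sequence `κ_k → K` (finitely many `i`): `v(a_i) + i κ ≤ v(a_j) + j κ` for
  these `κ`, so at `K`.
good_root: `Good P c κ` for arbitrarily large `κ` implies `a_0 = P(c) = 0`: otherwise `v(a_0) < ∞` and
  `v(a_i) + i κ > v(a_0)` for all `i ≥ 1` and large `κ`.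
good_ext: `Good P c κ`, no root. `Q = scal c κ P`, `μ = gn Q` (finite), residual polynomial
  `p = ∑_i cf (Q_i) μ X^i ∈ ℂ[X]`: it has degree `≥ 1` (`i ≥ 1` attaining the minimum has `cf (Q_i) μ ≠ 0`). Let `u0` be
  a root of `p` in `ℂ`, `c' = c + u0 t^κ`. `Q'(X) = Q(X + u0) = scal c' κ P` has `gn Q' = μ`, the coefficient of `t^μ` of
  `Q'_i` is the `i`-th coefficient of `p(X+u0)` (`ℂ`-linear combination), so `v(Q'_0) > μ` and `v(Q'_i) = μ` for
  some `i ≥ 1` (as `p(X+u0) ≠ 0`). `Q'_0 = P(c') ≠ 0`. With `δ = (v(Q'_0) - μ)/ (i + 1) > 0`-ish and `κ' = κ + δ`: the line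
  `i` is below the line `0` at `κ'`: so the minimum at `κ'` is attained at some index `≥ 1`.
-/

set_option autoImplicit false

open Polynomial

namespace Pool.DeB

/-- the minimum of `v (a_i) + i κ` is attained by some `i ≥ 1`. -/
def Good (P : Om[X]) (c : Om) (κ : ℝ) : Prop :=
  ∃ i : ℕ, 1 ≤ i ∧ gv c κ P = v ((taylor c P).coeff i) + ((i * κ : ℝ) : WithTop ℝ)

private theorem line_zero (P : Om[X]) (c : Om) (κ : ℝ) :
    v ((taylor c P).coeff 0) + (((0 : ℕ) * κ : ℝ) : WithTop ℝ) = v (P.eval c) := by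
  rw [taylor_coeff_zero]
  simp

private theorem line_top {P : Om[X]} {c : Om} {κ : ℝ} {i : ℕ} (h : P.natDegree < i) :
    v ((taylor c P).coeff i) + ((i * κ : ℝ) : WithTop ℝ) = ⊤ := by
  have h1 : (taylor c P).coeff i = 0 :=
    coeff_eq_zero_of_natDegree_lt (by rw [natDegree_taylor]; exact h)
  rw [h1, v_zero, WithTop.top_add]

private theorem not_good {P : Om[X]} (hP : P ≠ 0) {c : Om} {κ : ℝ} (h : ¬ Good P c κ) :
    gv c κ P = v (P.eval c) ∧ ∀ i : ℕ, 1 ≤ i →
      v (P.eval c) < v ((taylor c P).coeff i) + ((i * κ : ℝ) : WithTop ℝ) := by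
  have h1 : ∀ i : ℕ, 1 ≤ i → gv c κ P < v ((taylor c P).coeff i) + ((i * κ : ℝ) : WithTop ℝ) :=
    fun i hi => lt_of_le_of_ne (gv_le_line c κ P i) fun h2 => h ⟨i, hi, h2⟩
  obtain ⟨i, hi⟩ := gv_line_attained (c := c) (κ := κ) hP
  rcases Nat.eq_zero_or_pos i with rfl | hi2
  · rw [line_zero] at hi
    exact ⟨hi, fun i hi3 => by rw [← hi]; exact h1 i hi3⟩
  · exact absurd ⟨i, hi2, hi⟩ h

theorem good_start {P : Om[X]} (h : 1 ≤ P.natDegree) : ∃ c κ, Good P c κ := by
  have hP : P ≠ 0 := by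
    rintro rfl
    simp at h
  set n := P.natDegree with hn
  have hlc : (taylor 0 P).coeff n ≠ 0 := by
    rw [taylor_zero]
    simpa [hn] using hP
  obtain ⟨α, hα⟩ := WithTop.ne_top_iff_exists.1 (v_ne_top.2 hlc)
  set b : ℕ → ℝ := fun j => (v ((taylor 0 P).coeff j)).untopD 0 with hb
  set κ : ℝ := -(|α| + ∑ j ∈ Finset.range n, |b j|) with hκ
  have hκ0 : κ ≤ 0 := by
    have : 0 ≤ ∑ j ∈ Finset.range n, |b j| := Finset.sum_nonneg fun _ _ => abs_nonneg _
    have := abs_nonneg α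
    rw [hκ]
    linarith
  refine ⟨0, κ, n, h, le_antisymm (gv_le_line _ _ _ _) ?_⟩
  rw [le_gv_iff]
  intro j
  rcases lt_trichotomy j n with hj | hj | hj
  · by_cases hz : (taylor 0 P).coeff j = 0
    · rw [hz, v_zero, WithTop.top_add]
      exact le_top
    · obtain ⟨β, hβ⟩ := WithTop.ne_top_iff_exists.1 (v_ne_top.2 hz)
      have hbj : b j = β := by
        rw [hb]
        simp only
        rw [← hβ]
        rfl
      have h1 : |β| ≤ ∑ j ∈ Finset.range n, |b j| := by
        rw [← hbj]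
        exact Finset.single_le_sum (f := fun j => |b j|) (fun _ _ => abs_nonneg _)
          (Finset.mem_range.2 hj)
      rw [← hα, ← hβ]
      have h2 : α + n * κ ≤ β + j * κ := by
        have h3 : (1 : ℝ) ≤ (n : ℝ) - j := by
          have : ((j + 1 : ℕ) : ℝ) ≤ n := by exact_mod_cast hj
          push_cast at this
          linarith
        have h4 : ((n : ℝ) - j) * κ ≤ 1 * κ := mul_le_mul_of_nonpos_right h3 hκ0
        have h5 := le_abs_self α
        have h6 := neg_abs_le β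
        have h7 : κ ≤ β - α := by
          rw [hκ]
          linarith
        linarith
      exact_mod_cast h2
  · rw [hj]
  · rw [line_top hj]
    exact le_top

theorem good_center {P : Om[X]} (hP : P ≠ 0) {c c' : Om} {κ : ℝ}
    (h : (κ : WithTop ℝ) ≤ v (c - c')) (hg : Good P c κ) : Good P c' κ := by
  by_contra hn
  obtain ⟨h1, h2⟩ := not_good hP hn
  obtain ⟨i, hi, hgi⟩ := hg
  have hμ : gv c' κ P ≠ ⊤ := fun h3 => hP (gv_eq_top.1 h3)
  set R : Om[X] := P - C (P.eval c') with hR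
  have hco : ∀ (e : Om) (j : ℕ), 1 ≤ j → (taylor e R).coeff j = (taylor e P).coeff j := by
    intro e j hj
    rw [hR, map_sub, taylor_C, coeff_sub, coeff_C, if_neg (by omega), sub_zero]
  have hc0 : (taylor c' R).coeff 0 = 0 := by
    rw [taylor_coeff_zero, hR, eval_sub, eval_C, sub_self]
  have h3 : gv c' κ P < gv c' κ R := by
    by_cases hR0 : R = 0
    · rw [gv_eq_top.2 hR0]
      exact lt_top_iff_ne_top.2 hμ
    · obtain ⟨j, hj⟩ := gv_line_attained (c := c') (κ := κ) hR0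
      rw [hj]
      rcases Nat.eq_zero_or_pos j with rfl | hj2
      · rw [hc0, v_zero, WithTop.top_add]
        exact lt_top_iff_ne_top.2 hμ
      · rw [hco c' j hj2, h1]
        exact h2 j hj2
  have h4 : gv c κ R ≤ gv c κ P := by
    rw [hgi, ← hco c i hi]
    exact gv_le_line _ _ _ _
  rw [gv_center R h, gv_center P h] at h4
  exact absurd h3 (not_lt.2 h4)

theorem good_limit {P : Om[X]} (hP : P ≠ 0) {c : Om} {T : Set ℝ} (hne : T.Nonempty) {K : ℝ}
    (hK : IsLUB T K) (hg : ∀ κ ∈ T, Good P c κ) : Good P c K := by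
  by_contra hn
  obtain ⟨h1, h2⟩ := not_good hP hn
  have hμ : v (P.eval c) ≠ ⊤ := fun h3 => hP (gv_eq_top.1 (h1.trans h3))
  obtain ⟨μ, hμ2⟩ := WithTop.ne_top_iff_exists.1 hμ
  have h3 : ∀ᶠ κ in nhdsWithin K (Set.Iic K), ∀ i ∈ Finset.Icc 1 P.natDegree,
      v (P.eval c) < v ((taylor c P).coeff i) + ((i * κ : ℝ) : WithTop ℝ) := by
    rw [Filter.eventually_all_finset]
    intro i hi
    have h4 := h2 i (Finset.mem_Icc.1 hi).1
    by_cases hz : (taylor c P).coeff i = 0
    · refine Filter.Eventually.of_forall fun κ => ?_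
      rw [hz, v_zero, WithTop.top_add]
      exact lt_top_iff_ne_top.2 hμ
    · obtain ⟨β, hβ⟩ := WithTop.ne_top_iff_exists.1 (v_ne_top.2 hz)
      rw [← hβ, ← hμ2] at h4 ⊢
      have h5 : μ < β + i * K := by exact_mod_cast h4
      have h6 : ContinuousAt (fun κ : ℝ => β + i * κ) K := by fun_prop
      have h7 := nhdsWithin_le_nhds (s := Set.Iic K) (h6.eventually (lt_mem_nhds h5))
      filter_upwards [h7] with κ hκ
      exact_mod_cast hκ
  obtain ⟨κ, hκ, hκ2⟩ := ((hK.frequently_mem hne).and_eventually h3).exists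
  obtain ⟨i, hi, hgi⟩ := hg κ hκ
  have h8 := gv_le_line c κ P 0
  rw [line_zero, hgi] at h8
  by_cases hin : i ≤ P.natDegree
  · exact absurd (hκ2 i (Finset.mem_Icc.2 ⟨hi, hin⟩)) (not_lt.2 h8)
  · rw [line_top (not_le.1 hin)] at h8
    exact hμ (top_le_iff.1 h8)

theorem good_root {P : Om[X]} {c : Om} (hg : ∀ B : ℝ, ∃ κ, B ≤ κ ∧ Good P c κ) : P.IsRoot c := by
  by_contra hr
  have hP : P ≠ 0 := by
    rintro rfl
    exact hr (by simp [IsRoot])
  have hT : taylor c P ≠ 0 := fun h => hP (taylor_injective c (by rw [h, map_zero]))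
  have h0 : P.eval c ≠ 0 := hr
  obtain ⟨α, hα⟩ := WithTop.ne_top_iff_exists.1 (v_ne_top.2 h0)
  obtain ⟨L, hL⟩ := WithTop.ne_top_iff_exists.1 (fun h => hT (gn_eq_top.1 h))
  obtain ⟨κ, hκ, i, hi, hgi⟩ := hg (max (α - L + 1) 0)
  have h1 := gv_le_line c κ P 0
  rw [line_zero, hgi, ← hα] at h1
  have h2 : ((L : ℝ) : WithTop ℝ) + ((i * κ : ℝ) : WithTop ℝ) ≤ (α : WithTop ℝ) := by
    refine le_trans (add_le_add_left ?_ _) h1
    rw [hL]
    exact gn_le _ _
  have h3 : L + i * κ ≤ α := by exact_mod_cast h2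
  have h4 : α - L + 1 ≤ κ := le_trans (le_max_left _ _) hκ
  have h5 : 0 ≤ κ := le_trans (le_max_right _ _) hκ
  have h6 : (1 : ℝ) ≤ i := by exact_mod_cast hi
  nlinarith

private theorem cf_sum {ι : Type*} (s : Finset ι) (f : ι → Om) (e : ℝ) :
    cf (∑ k ∈ s, f k) e = ∑ k ∈ s, cf (f k) e := by
  classical
  induction s using Finset.induction_on with
  | empty => simp [cf_zero]
  | insert a s ha ih => rw [Finset.sum_insert ha, Finset.sum_insert ha, cf_add, ih]

theorem good_ext {P : Om[X]} (hP : P ≠ 0) (hr : ∀ z, ¬ P.IsRoot z) {c : Om} {κ : ℝ}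
    (hg : Good P c κ) : ∃ (c' : Om) (κ' : ℝ), κ < κ' ∧ (κ : WithTop ℝ) ≤ v (c' - c) ∧ Good P c' κ' := by
  have hμ : gv c κ P ≠ ⊤ := fun h3 => hP (gv_eq_top.1 h3)
  obtain ⟨μ, hμ2⟩ := WithTop.ne_top_iff_exists.1 hμ
  obtain ⟨i, hi, hgi⟩ := hg
  set Q := scal c κ P with hQ
  have hQi : v (Q.coeff i) = (μ : WithTop ℝ) := by
    rw [hQ, scal_coeff, v_mul, ← tp_nsmul, v_tp, hμ2, hgi]
  set p : ℂ[X] := ∑ j ∈ Finset.range (Q.natDegree + 1), monomial j (cf (Q.coeff j) μ) with hp
  have hpc : ∀ j, p.coeff j = cf (Q.coeff j) μ := by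
    intro j
    rw [hp, finsetSum_coeff]
    simp only [coeff_monomial]
    rw [Finset.sum_ite_eq']
    split_ifs with hj
    · rfl
    · rw [coeff_eq_zero_of_natDegree_lt (by simpa using hj), cf_zero]
  have hpi : p.coeff i ≠ 0 := by
    rw [hpc]
    exact cf_v_ne hQi
  have hdeg : 0 < p.degree := by
    rw [← natDegree_pos_iff_degree_pos]
    exact lt_of_lt_of_le hi (le_natDegree_of_ne_zero hpi)
  obtain ⟨u, hu⟩ := Complex.exists_root hdeg
  set c' : Om := c + tp κ * algebraMap ℂ Om u with hc'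
  have hcc : (κ : WithTop ℝ) ≤ v (c' - c) := by
    rw [hc', add_sub_cancel_left, v_mul, v_tp]
    exact le_add_of_nonneg_right (v_alg_ge u)
  have hev : P.eval c' = Q.eval (algebraMap ℂ Om u) := by
    rw [hQ, scal_eval]
  have hcf : cf (P.eval c') μ = 0 := by
    rw [hev, eval_eq_sum_range, cf_sum]
    have hu2 : p.eval u = 0 := hu
    rw [hp, eval_finsetSum] at hu2
    rw [← hu2]
    refine Finset.sum_congr rfl fun j _ => ?_
    rw [eval_monomial, ← map_pow, mul_comm (Q.coeff j), cf_alg_mul, mul_comm]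
  have hgv : gv c' κ P = (μ : WithTop ℝ) := by
    rw [hμ2]
    exact gv_center P hcc
  have hlt : (μ : WithTop ℝ) < v (P.eval c') := by
    refine lt_of_le_of_ne ?_ fun h => cf_v_ne h.symm hcf
    rw [← hgv]
    refine gv_eval P ?_
    rw [sub_self, v_zero]
    exact le_top
  have hgood : Good P c' κ := by
    by_contra hn
    have h1 := (not_good hP hn).1
    rw [hgv] at h1
    exact absurd h1 hlt.ne
  obtain ⟨l, hl, hgl⟩ := hgood
  have h0 : P.eval c' ≠ 0 := hr c'
  obtain ⟨α, hα⟩ := WithTop.ne_top_iff_exists.1 (v_ne_top.2 h0)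
  rw [← hα] at hlt
  have hlt2 : μ < α := by exact_mod_cast hlt
  have hz : (taylor c' P).coeff l ≠ 0 := by
    intro hz
    rw [hz, v_zero, WithTop.top_add, hgv] at hgl
    exact WithTop.coe_ne_top hgl
  obtain ⟨β, hβ⟩ := WithTop.ne_top_iff_exists.1 (v_ne_top.2 hz)
  rw [hgv, ← hβ] at hgl
  have hgl2 : μ = β + l * κ := by exact_mod_cast hgl
  have hl1 : (0 : ℝ) < l := by exact_mod_cast hl
  refine ⟨c', κ + (α - μ) / l, ?_, hcc, ?_⟩
  · have : 0 < (α - μ) / l := div_pos (sub_pos.2 hlt2) hl1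
    linarith
  · by_contra hn
    have h1 := (not_good hP hn).2 l hl
    rw [← hα, ← hβ] at h1
    have h2 : α < β + l * (κ + (α - μ) / l) := by exact_mod_cast h1
    have h3 : (l : ℝ) * ((α - μ) / l) = α - μ := by
      field_simp
    rw [mul_add, h3] at h2
    linarith

end Pool.DeB
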