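import Pool.Agent.Lib.DeB.Defs
import Pool.Agent.Lib.DeB.Chain
import Pool.Agent.Lib.DeB.GoodExt

/-!
Module AlgCl (130 lines). `Om` is algebraically closed.
PROOF. `IsAlgClosed.of_exists_root`: let `P` be monic irreducible (so of degree `≥ 1`). Suppose `P` has no
root. Let `T = {x : Om × ℝ // Good P x.1 x.2}` with the transitive relation
`rl x x' : x.2 ≤ x'.2 ∧ x.2 ≤ v (x'.1 - x.1)`. Every chain has an upper bound:
* empty chain: some element of `T` exists (`good_start`).
* the radii are unbounded: `chain_point` (Chain.lean) gives `c` with `κ ≤ v (c - c')` for all `(c',κ)` of the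
  chain; then `Good P c κ` for these `κ` (`good_center`), so `P.IsRoot c` by `good_root`, contradiction.
* the radii have supremum `K`: with `c` as above, `Good P c κ` for all `κ` of the chain, so `Good P c K` by
  `good_limit`; `(c, K)` is an upper bound.
By `exists_maximal_of_chains_bounded` there is `(c,κ)` with: `rl (c,κ) x → rl x (c,κ)`. `good_ext` gives
`(c',κ')` with `κ < κ'`, `κ ≤ v (c' - c)`, contradiction.
-/

set_option autoImplicit false

open Polynomial

namespace Pool.DeB

private theorem v_tri {a b c : Om} {κ : WithTop ℝ} (h1 : κ ≤ v (b - a)) (h2 : κ ≤ v (c - b)) :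
    κ ≤ v (c - a) := by
  have h3 : c - a = (c - b) + (b - a) := by ring
  rw [h3]
  exact le_trans (le_min h2 h1) (v_add_ge _ _)

instance isAlgClosed_Om : IsAlgClosed Om := by
  refine IsAlgClosed.of_exists_root Om fun P hm hi => ?_
  by_contra hno
  have hr : ∀ z, ¬ P.IsRoot z := fun z hz => hno ⟨z, hz⟩
  have hP : P ≠ 0 := hm.ne_zero
  have hdeg : 1 ≤ P.natDegree := hi.natDegree_pos
  obtain ⟨m, hmax⟩ := exists_maximal_of_chains_bounded
    (α := {x : Om × ℝ // Good P x.1 x.2})
    (r := fun x x' => x.1.2 ≤ x'.1.2 ∧ (x.1.2 : WithTop ℝ) ≤ v (x'.1.1 - x.1.1))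
    (by
      intro C hC
      rcases C.eq_empty_or_nonempty with rfl | hne
      · obtain ⟨c, κ, h⟩ := good_start hdeg
        exact ⟨⟨(c, κ), h⟩, fun a ha => absurd ha (Set.notMem_empty a)⟩
      obtain ⟨z, hz⟩ := chain_point (Subtype.val '' C) (by
        rintro _ ⟨x, hx, rfl⟩ _ ⟨x', hx', rfl⟩
        by_cases hxx : x = x'
        · subst hxx
          left
          refine ⟨le_refl _, ?_⟩
          rw [sub_self, v_zero]
          exact le_top
        · exact hC hx hx' hxx)
      have hgood : ∀ x ∈ C, Good P z x.1.2 := by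
        intro x hx
        refine good_center hP ?_ x.2
        rw [v_sub_comm]
        exact hz _ ⟨x, hx, rfl⟩
      by_cases hb : BddAbove ((fun x : {x : Om × ℝ // Good P x.1 x.2} => x.1.2) '' C)
      · have hlub := isLUB_csSup (hne.image _) hb
        refine ⟨⟨(z, sSup ((fun x : {x : Om × ℝ // Good P x.1 x.2} => x.1.2) '' C)),
          good_limit hP (hne.image _) hlub ?_⟩, fun x hx => ⟨hlub.1 ⟨x, hx, rfl⟩, hz _ ⟨x, hx, rfl⟩⟩⟩
        rintro _ ⟨x, hx, rfl⟩
        exact hgood x hx
      · exfalso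
        refine hr z (good_root fun B => ?_)
        rw [not_bddAbove_iff] at hb
        obtain ⟨_, ⟨x, hx, rfl⟩, hx2⟩ := hb B
        exact ⟨x.1.2, hx2.le, hgood x hx⟩)
    (by
      intro a b c hab hbc
      refine ⟨hab.1.trans hbc.1, v_tri hab.2 (le_trans ?_ hbc.2)⟩
      exact_mod_cast hab.1)
  obtain ⟨c', κ', h1, h2, h3⟩ := good_ext hP hr m.2
  have h4 := hmax ⟨(c', κ'), h3⟩ ⟨h1.le, h2⟩
  exact absurd h4.1 (not_le.2 h1)

end Pool.DeB
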