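import Pool.Agent.Lib.DeB.Defs

/-!
Definitions for the clustering part (section 2 of the paper).
-/

set_option autoImplicit false

namespace Pool.DeB

/-- class modulo `w0`. -/
def cls {V : Type*} [CommRing V] (w0 : V) (x : V) : V ⧸ Ideal.span {w0} :=
  Ideal.Quotient.mk (Ideal.span {w0}) x

/-- `∏_{ρ ∈ R} (Y - ρ)`. -/
def pr {V B : Type*} [CommRing V] [CommRing B] [Algebra V B] (Y : B) (R : Multiset V) : B :=
  (R.map (fun ρ => Y - algebraMap V B ρ)).prod

open Classical in
/-- the classes of the elements of `R`. -/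
noncomputable def clset {V : Type*} [CommRing V] (w0 : V) (R : Multiset V) :
    Finset (V ⧸ Ideal.span {w0}) := (R.map (cls w0)).toFinset

open Classical in
/-- the elements of `R` in the class `χ`. -/
noncomputable def sub {V : Type*} [CommRing V] (w0 : V) (R : Multiset V)
    (χ : V ⧸ Ideal.span {w0}) : Multiset V := R.filter (fun ρ => cls w0 ρ = χ)

theorem cls_eq_iff {V : Type*} [CommRing V] {w0 x z : V} : cls w0 x = cls w0 z ↔ w0 ∣ x - z := by
  unfold cls
  rw [Ideal.Quotient.eq, Ideal.mem_span_singleton]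

theorem cls_eq_zero_iff {V : Type*} [CommRing V] {w0 x : V} : cls w0 x = 0 ↔ w0 ∣ x := by
  unfold cls
  rw [Ideal.Quotient.eq_zero_iff_mem, Ideal.mem_span_singleton]

theorem mem_clset {V : Type*} [CommRing V] {w0 : V} {R : Multiset V} {χ : V ⧸ Ideal.span {w0}} :
    χ ∈ clset w0 R ↔ ∃ ρ ∈ R, cls w0 ρ = χ := by
  classical
  unfold clset
  rw [Multiset.mem_toFinset, Multiset.mem_map]

theorem mem_sub {V : Type*} [CommRing V] {w0 : V} {R : Multiset V} {χ : V ⧸ Ideal.span {w0}}
    {ρ : V} : ρ ∈ sub w0 R χ ↔ ρ ∈ R ∧ cls w0 ρ = χ := by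
  classical
  unfold sub
  rw [Multiset.mem_filter]

theorem card_sub_le {V : Type*} [CommRing V] (w0 : V) (R : Multiset V)
    (χ : V ⧸ Ideal.span {w0}) : (sub w0 R χ).card ≤ R.card := by
  classical
  unfold sub
  exact Multiset.card_le_card (Multiset.filter_le _ _)

end Pool.DeB
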