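import Pool.Agent.Lib.DeB.Defs2

/-!
Module PU. Lemma 2 of the paper: partition of unity for the classes modulo `w0` of the
roots of a split relation.

(T0): in a commutative ring let `∏_{ρ ∈ R} (Y - ρ) = 0` and `f ρ ∈ (Y - ρ)` (i.e. `Y - ρ ∣ f ρ`) for
all `ρ ∈ R`. Then `∏_{ρ ∈ R} f ρ = 0`.
-/

set_option autoImplicit false

namespace Pool.DeB

theorem prod_dvd_aux {V B : Type*} [CommRing V] [CommRing B] (g f : V → B) (R : Multiset V)
    (hf : ∀ ρ ∈ R, g ρ ∣ f ρ) : (R.map g).prod ∣ (R.map f).prod := by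
  induction R using Multiset.induction_on with
  | empty => simp
  | cons a s ih =>
    rw [Multiset.map_cons, Multiset.map_cons, Multiset.prod_cons, Multiset.prod_cons]
    exact mul_dvd_mul (hf a (Multiset.mem_cons_self a s))
      (ih fun ρ hρ => hf ρ (Multiset.mem_cons_of_mem hρ))

theorem prod_eq_zero_of_dvd {V B : Type*} [CommRing V] [CommRing B] [Algebra V B] (Y : B)
    (R : Multiset V) (f : V → B) (h : pr Y R = 0) (hf : ∀ ρ ∈ R, Y - algebraMap V B ρ ∣ f ρ) :
    (R.map f).prod = 0 := by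
  have h1 := prod_dvd_aux (fun ρ => Y - algebraMap V B ρ) f R hf
  unfold pr at h
  rw [h] at h1
  exact zero_dvd_iff.1 h1

theorem dvd_prod_sub_prod {V B : Type*} [CommRing V] [CommRing B] [Algebra V B] (Y : B) (ρ : V)
    (R : Multiset V) :
    Y - algebraMap V B ρ ∣ pr Y R - algebraMap V B (R.map (fun σ => ρ - σ)).prod := by
  induction R using Multiset.induction_on with
  | empty => simp [pr]
  | cons a s ih =>
    obtain ⟨k, hk⟩ := ih
    unfold pr at hk ⊢
    rw [Multiset.map_cons, Multiset.map_cons, Multiset.prod_cons, Multiset.prod_cons, map_mul,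
      map_sub]
    refine ⟨(Multiset.map (fun ρ => Y - (algebraMap V B) ρ) s).prod +
      ((algebraMap V B) ρ - (algebraMap V B) a) * k, ?_⟩
    linear_combination ((algebraMap V B) ρ - (algebraMap V B) a) * hk

theorem res_zero {V B : Type*} [CommRing V] [CommRing B] [Algebra V B] (Y : B)
    (R1 R2 : Multiset V) (h1 : pr Y R1 = 0) (h2 : pr Y R2 = 0) :
    algebraMap V B ((R1.map (fun ρ => (R2.map (fun σ => ρ - σ)).prod)).prod) = 0 := by
  rw [map_multiset_prod, Multiset.map_map]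
  apply prod_eq_zero_of_dvd Y R1 _ h1
  intro ρ _
  have h := dvd_prod_sub_prod Y ρ R2
  rw [h2, zero_sub, dvd_neg] at h
  exact h

theorem pr_map {V B : Type*} [CommRing V] [CommRing B] [Algebra V B] (I : Ideal B) (Y : B)
    (R : Multiset V) : pr (Ideal.Quotient.mk I Y) R = Ideal.Quotient.mk I (pr Y R) := by
  unfold pr
  rw [map_multiset_prod, Multiset.map_map]
  congr 1

theorem prod_dvd_pow {V : Type*} [CommRing V] (w : V) (f : V → V) (R : Multiset V)
    (h : ∀ ρ ∈ R, f ρ ∣ w) : (R.map f).prod ∣ w ^ R.card := by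
  have h1 := prod_dvd_aux f (fun _ => w) R h
  rw [Multiset.map_const', Multiset.prod_replicate] at h1
  exact h1

theorem pow_mem_span {V B : Type*} [CommRing V] [CommRing B] [Algebra V B] (w0 : V)
    (hdiv : ∀ x : V, w0 ∣ x ∨ x ∣ w0) (m : ℕ) (R1 R2 : Multiset V)
    (hm : R1.card * R2.card ≤ m ^ 2) (Y : B) (h12 : ∀ ρ ∈ R1, ∀ σ ∈ R2, ¬ w0 ∣ ρ - σ) :
    ∃ α β : B, (algebraMap V B w0) ^ (m ^ 2) = α * pr Y R1 + β * pr Y R2 := by
  set I : Ideal B := Ideal.span {pr Y R1, pr Y R2} with hI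
  have e1 : pr (Ideal.Quotient.mk I Y) R1 = 0 := by
    rw [pr_map, Ideal.Quotient.eq_zero_iff_mem]
    exact Ideal.subset_span (by simp)
  have e2 : pr (Ideal.Quotient.mk I Y) R2 = 0 := by
    rw [pr_map, Ideal.Quotient.eq_zero_iff_mem]
    exact Ideal.subset_span (by simp)
  have e3 := res_zero (Ideal.Quotient.mk I Y) R1 R2 e1 e2
  have e4 : (R1.map (fun ρ => (R2.map (fun σ => ρ - σ)).prod)).prod ∣ w0 ^ (m ^ 2) := by
    have e5 : (R1.map (fun ρ => (R2.map (fun σ => ρ - σ)).prod)).prod ∣ (w0 ^ R2.card) ^ R1.card := by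
      apply prod_dvd_pow
      intro ρ hρ
      apply prod_dvd_pow
      intro σ hσ
      exact (hdiv (ρ - σ)).resolve_left (h12 ρ hρ σ hσ)
    rw [← pow_mul] at e5
    refine e5.trans (pow_dvd_pow _ ?_)
    rw [mul_comm]
    exact hm
  have e6 : algebraMap V (B ⧸ I) (w0 ^ (m ^ 2)) = 0 := by
    obtain ⟨q, hq⟩ := e4
    rw [hq, map_mul, e3, zero_mul]
  have e7 : algebraMap V (B ⧸ I) (w0 ^ (m ^ 2)) =
      Ideal.Quotient.mk I ((algebraMap V B w0) ^ (m ^ 2)) := by
    rw [← map_pow]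
    rfl
  rw [e7, Ideal.Quotient.eq_zero_iff_mem, hI, Ideal.mem_span_pair] at e6
  obtain ⟨a, b, hab⟩ := e6
  exact ⟨a, b, hab.symm⟩

theorem prod_pr_sub {V B : Type*} [CommRing V] [CommRing B] [Algebra V B] (w0 : V) (Y : B)
    (s : Finset (V ⧸ Ideal.span {w0})) (R : Multiset V) (h : ∀ ρ ∈ R, cls w0 ρ ∈ s) :
    ∏ χ ∈ s, pr Y (sub w0 R χ) = pr Y R := by
  classical
  induction R using Multiset.induction_on with
  | empty =>
    apply Finset.prod_eq_one
    intro χ _
    simp [pr, sub]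
  | cons a R ih =>
    have e1 : ∀ χ, pr Y (sub w0 (a ::ₘ R) χ) =
        (if cls w0 a = χ then (Y - algebraMap V B a) else 1) * pr Y (sub w0 R χ) := by
      intro χ
      unfold sub pr
      by_cases hχ : cls w0 a = χ
      · rw [Multiset.filter_cons_of_pos (p := fun ρ => cls w0 ρ = χ) _ hχ, if_pos hχ,
          Multiset.map_cons, Multiset.prod_cons]
      · rw [Multiset.filter_cons_of_neg (p := fun ρ => cls w0 ρ = χ) _ hχ, if_neg hχ, one_mul]
    rw [Finset.prod_congr rfl (fun χ _ => e1 χ), Finset.prod_mul_distrib,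
      ih fun ρ hρ => h ρ (Multiset.mem_cons_of_mem hρ), Finset.prod_ite_eq,
      if_pos (h a (Multiset.mem_cons_self a R))]
    unfold pr
    rw [Multiset.map_cons, Multiset.prod_cons]

theorem expand_prod {ι B : Type*} [CommRing B] (s : Finset ι) (c : B) (e' : ι → B) :
    ∃ k : ι → B, c ^ s.card - ∏ χ ∈ s, (c - e' χ) = ∑ χ ∈ s, e' χ * k χ := by
  classical
  induction s using Finset.induction_on with
  | empty => exact ⟨0, by simp⟩
  | insert a s ha ih =>
    obtain ⟨k, hk⟩ := ih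
    refine ⟨fun χ => if χ = a then ∏ χ ∈ s, (c - e' χ) else c * k χ, ?_⟩
    rw [Finset.card_insert_of_notMem ha, Finset.prod_insert ha, Finset.sum_insert ha]
    simp only [if_true]
    have e1 : ∑ χ ∈ s, e' χ * (if χ = a then ∏ χ ∈ s, (c - e' χ) else c * k χ) =
        c * ∑ χ ∈ s, e' χ * k χ := by
      rw [Finset.mul_sum]
      apply Finset.sum_congr rfl
      intro χ hχ
      have hne : χ ≠ a := by
        rintro rfl
        exact ha hχ
      rw [if_neg hne]
      ring
    rw [e1, ← hk]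
    ring

theorem partition_unity {V B : Type*} [CommRing V] [CommRing B] [Algebra V B] (w0 : V)
    (hdiv : ∀ x : V, w0 ∣ x ∨ x ∣ w0) (m : ℕ) (R : Multiset V) (hR : R.card ≤ m) (Y : B)
    (h : pr Y R = 0) :
    ∃ e : (V ⧸ Ideal.span {w0}) → B, (∀ χ, χ ∉ clset w0 R → e χ = 0) ∧
      (∀ χ, pr Y (sub w0 R χ) * e χ = 0) ∧
      ∑ χ ∈ clset w0 R, e χ = (algebraMap V B w0) ^ (m ^ 3) := by
  classical
  have key : ∀ χ : V ⧸ Ideal.span {w0}, ∃ e' α : B, pr Y (sub w0 R χ) * e' = 0 ∧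
      (algebraMap V B w0) ^ (m ^ 2) - e' = α * pr Y (sub w0 R χ) := by
    intro χ
    set R2 : Multiset V := R.filter (fun ρ => ¬ cls w0 ρ = χ) with hR2
    have hsplit : sub w0 R χ + R2 = R := Multiset.filter_add_not _ _
    have hcard : (sub w0 R χ).card + R2.card = R.card := by
      rw [← Multiset.card_add, hsplit]
    have hpr : pr Y (sub w0 R χ) * pr Y R2 = 0 := by
      rw [← h]
      conv_rhs => rw [← hsplit]
      unfold pr
      rw [Multiset.map_add, Multiset.prod_add]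
    obtain ⟨α, β, hab⟩ := pow_mem_span w0 hdiv m (sub w0 R χ) R2 (by
      nlinarith [Nat.zero_le (sub w0 R χ).card, Nat.zero_le R2.card]) Y (by
      intro ρ hρ σ hσ hd
      rw [mem_sub] at hρ
      rw [hR2, Multiset.mem_filter] at hσ
      exact hσ.2 ((cls_eq_iff.2 hd).symm.trans hρ.2))
    refine ⟨β * pr Y R2, α, ?_, ?_⟩
    · linear_combination β * hpr
    · rw [hab]; ring
  choose e' α he1 he2 using key
  obtain ⟨k, hk⟩ := expand_prod (clset w0 R) ((algebraMap V B w0) ^ (m ^ 2)) e'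
  have hprod : ∏ χ ∈ clset w0 R, ((algebraMap V B w0) ^ (m ^ 2) - e' χ) = 0 := by
    rw [Finset.prod_congr rfl (fun χ _ => he2 χ), Finset.prod_mul_distrib,
      prod_pr_sub w0 Y (clset w0 R) R (fun ρ hρ => mem_clset.2 ⟨ρ, hρ, rfl⟩), h, mul_zero]
  rw [hprod, sub_zero] at hk
  have hcard : (clset w0 R).card ≤ m := by
    refine le_trans ?_ hR
    unfold clset
    refine (Multiset.toFinset_card_le _).trans ?_
    rw [Multiset.card_map]
  refine ⟨fun χ => if χ ∈ clset w0 R then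
    e' χ * k χ * (algebraMap V B w0) ^ (m ^ 3 - m ^ 2 * (clset w0 R).card) else 0, ?_, ?_, ?_⟩
  · intro χ hχ
    simp only [if_neg hχ]
  · intro χ
    by_cases hχ : χ ∈ clset w0 R
    · simp only [if_pos hχ]
      linear_combination (k χ * (algebraMap V B w0) ^ (m ^ 3 - m ^ 2 * (clset w0 R).card)) * he1 χ
    · simp only [if_neg hχ, mul_zero]
  · rw [Finset.sum_congr rfl (fun χ hχ => if_pos hχ), ← Finset.sum_mul, ← hk, ← pow_mul, ← pow_add]
    congr 1
    have : m ^ 2 * (clset w0 R).card ≤ m ^ 3 := by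
      calc m ^ 2 * (clset w0 R).card ≤ m ^ 2 * m := Nat.mul_le_mul_left _ hcard
        _ = m ^ 3 := by ring
    omega

end Pool.DeB
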