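import Pool.Agent.Lib.DeB.Defs

/-!
Module Mono (110 lines). (H2) of the paper: exponents of roots.
PROOF. `σ : Om →+* Om`, `σ f = ∑ exp(2 π i M e) f_e t^e` (a Hahn series with the same support). It is a
ring homomorphism: coefficient of `t^e` of `f * g` is `∑_{i+j=e} f_i g_j` (`HahnSeries.coeff_mul`, antidiagonal of
the supports, which are unchanged) and `exp(2πi M e) = exp(2πi M i) exp(2πi M j)`; injective. It fixes every
`f ∈ SM M` (`M e ∈ ℤ` gives `exp(2πi M e) = 1`). If `d` has coefficients in `SM M` then `σ` maps roots of `d` to roots of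
`d`. `σ^0 ρ, ..., σ^b ρ` are `b+1` roots, at most `deg d ≤ b` are different: `σ^j ρ = σ^(j+h) ρ`, `1 ≤ h ≤ b`, so
`σ^h ρ = ρ` (injective), i.e. `exp(2πi M h e) = 1` for every exponent `e` of `ρ`: `M h e ∈ ℤ`
(`Complex.exp_eq_one_iff`).
-/

set_option autoImplicit false

open Polynomial

namespace Pool.DeB

private noncomputable def chi (N : ℕ) (e : ℝ) : ℂ :=
  Complex.exp ((N : ℂ) * (e : ℂ) * (2 * Real.pi * Complex.I))

private theorem chi_ne (N : ℕ) (e : ℝ) : chi N e ≠ 0 := Complex.exp_ne_zero _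

private theorem chi_add (N : ℕ) (e e' : ℝ) : chi N (e + e') = chi N e * chi N e' := by
  unfold chi
  rw [← Complex.exp_add]
  congr 1
  push_cast
  ring

private noncomputable def tw0 (N : ℕ) (f : HahnSeries ℝ ℂ) : HahnSeries ℝ ℂ where
  coeff e := chi N e * f.coeff e
  isPWO_support' := f.isPWO_support'.mono (by
    intro e he
    exact right_ne_zero_of_mul he)

private theorem tw0_coeff (N : ℕ) (f : HahnSeries ℝ ℂ) (e : ℝ) :
    (tw0 N f).coeff e = chi N e * f.coeff e := rfl

private theorem tw0_supp (N : ℕ) (f : HahnSeries ℝ ℂ) : (tw0 N f).support = f.support := by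
  ext e
  rw [HahnSeries.mem_support, HahnSeries.mem_support, tw0_coeff, mul_ne_zero_iff]
  exact ⟨fun h => h.2, fun h => ⟨chi_ne N e, h⟩⟩

private theorem tw0_mul (N : ℕ) (f g : HahnSeries ℝ ℂ) : tw0 N (f * g) = tw0 N f * tw0 N g := by
  ext e
  rw [tw0_coeff, HahnSeries.coeff_mul, HahnSeries.coeff_mul, Finset.mul_sum]
  refine Finset.sum_congr ?_ ?_
  · ext p
    rw [Finset.mem_addAntidiagonal, Finset.mem_addAntidiagonal, tw0_supp, tw0_supp]
  · intro p hp
    rw [Finset.mem_addAntidiagonal] at hp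
    rw [tw0_coeff, tw0_coeff, ← hp.2.2, chi_add]
    ring

private noncomputable def tw (N : ℕ) : Om →+* Om where
  toFun f := tw0 N f
  map_one' := by
    apply Om_ext
    intro e
    change chi N e * cf (1 : Om) e = cf (1 : Om) e
    have h := cf_alg 1 e
    rw [map_one] at h
    rw [h]
    by_cases he : e = 0
    · subst he
      simp [chi]
    · rw [if_neg he, mul_zero]
  map_mul' f g := tw0_mul N f g
  map_zero' := by
    apply Om_ext
    intro e
    change chi N e * cf (0 : Om) e = cf (0 : Om) e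
    rw [cf_zero, mul_zero]
  map_add' f g := by
    apply Om_ext
    intro e
    rw [cf_add]
    change chi N e * cf (f + g) e = chi N e * cf f e + chi N e * cf g e
    rw [cf_add, mul_add]

private theorem tw_cf (N : ℕ) (f : Om) (e : ℝ) : cf (tw N f) e = chi N e * cf f e := rfl

private theorem tw_fix {M j : ℕ} {f : Om} (hf : f ∈ SM M) : tw (M * j) f = f := by
  apply Om_ext
  intro e
  rw [tw_cf]
  by_cases h : cf f e = 0
  · rw [h, mul_zero]
  · obtain ⟨k, hk⟩ := hf e h
    have h1 : chi (M * j) e = 1 := by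
      unfold chi
      have h2 : (((M * j : ℕ) : ℂ) * (e : ℂ)) = ((k * j : ℤ) : ℂ) := by
        have h3 : ((M : ℂ) * (e : ℂ)) = (k : ℂ) := by exact_mod_cast congrArg Complex.ofReal hk
        push_cast
        rw [← h3]
        ring
      rw [h2]
      exact Complex.exp_int_mul_two_pi_mul_I _
    rw [h1, one_mul]

private theorem chi_eq {M j j' : ℕ} {e : ℝ} (h : chi (M * j) e = chi (M * j') e) (hj : j' ≤ j) :
    ∃ k : ℤ, ((M * (j - j') : ℕ) : ℝ) * e = k := by
  unfold chi at h
  obtain ⟨n, hn⟩ := Complex.exp_eq_exp_iff_exists_int.1 h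
  refine ⟨n, ?_⟩
  have h2 : (2 * Real.pi * Complex.I : ℂ) ≠ 0 := Complex.two_pi_I_ne_zero
  have h3 : (((M * j : ℕ) : ℂ) * (e : ℂ) - ((M * j' : ℕ) : ℂ) * (e : ℂ) - (n : ℂ)) *
      (2 * Real.pi * Complex.I : ℂ) = 0 := by
    linear_combination hn
  have h4 := (mul_eq_zero.1 h3).resolve_right h2
  have h5 : (((M * (j - j') : ℕ) : ℝ) * e : ℝ) = ((n : ℝ)) := by
    have h6 : ((((M * (j - j') : ℕ) : ℝ) * e : ℝ) : ℂ) = ((n : ℝ) : ℂ) := by
      push_cast [Nat.cast_sub hj] at h4 ⊢
      linear_combination h4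
    exact_mod_cast h6
  exact h5

theorem root_mem_SM {M b : ℕ} {d : Om[X]} (hd : d ≠ 0) (hb : d.natDegree ≤ b)
    (hS : ∀ i, d.coeff i ∈ SM M) {ρ : Om} (hρ : d.IsRoot ρ) :
    ∃ h : ℕ, 1 ≤ h ∧ h ≤ b ∧ ρ ∈ SM (M * h) := by
  classical
  have hroot : ∀ j, tw (M * j) ρ ∈ d.roots.toFinset := by
    intro j
    rw [Multiset.mem_toFinset, mem_roots hd]
    have h1 := hρ.map (f := tw (M * j))
    have h2 : d.map (tw (M * j)) = d := by
      ext i
      rw [coeff_map, tw_fix (hS i)]
    rwa [h2] at h1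
  have hcard : d.roots.toFinset.card < (Finset.range (b + 1)).card := by
    rw [Finset.card_range]
    have h1 := Multiset.toFinset_card_le d.roots
    have h2 := d.card_roots'
    omega
  obtain ⟨i, hi, j, hj, hij, he⟩ := Finset.exists_ne_map_eq_of_card_lt_of_maps_to hcard
    (f := fun j => tw (M * j) ρ) (fun j _ => hroot j)
  rw [Finset.mem_range] at hi hj
  have key : ∀ i j : ℕ, i < b + 1 → j < i → tw (M * i) ρ = tw (M * j) ρ →
      ∃ h : ℕ, 1 ≤ h ∧ h ≤ b ∧ ρ ∈ SM (M * h) := by
    intro i j hi hji he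
    refine ⟨i - j, by omega, by omega, ?_⟩
    intro e hne
    have h1 := congrArg (fun f => cf f e) he
    simp only [tw_cf] at h1
    exact chi_eq (mul_right_cancel₀ hne h1) hji.le
  rcases lt_or_gt_of_ne hij with h | h
  · exact key j i hj h he.symm
  · exact key i j hi h he

end Pool.DeB
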