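import Pool.Agent.Lib.DeB.RegDefs
import Pool.Agent.Lib.DeB.Defs2
import Pool.Agent.Lib.DeB.AlgCl
import Pool.Agent.Lib.DeB.Mono

/-!
Module SmallR (260 lines). First half of Lemma 10: from a regular relation to a monic relation with small roots.
PROOF. `G ∈ PolS c m' m` with coefficient `1` at `T_last^m'`, `aeval (snoc q z) G = 0` in `B`. Let `g ∈ Om[T]` be the polynomial
`g = ∑_β coeff_β(G) * (∏_{i<c} q_i^{β_i}) * T^{β_last}` (`= aeval (snoc (C ∘ q) X) G`), all coefficients in `VV` and in `SM N0`, natDegree `≤ m`.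
`g_j` for `j < m'`: every term has `∑_{i<c} β_i ≥ m' - j`, so `v(g_j) ≥ (m'-j) k0`. `g_{m'} = 1 + (terms with ∑_{i<c} β_i ≥ 1)`, so
`v(g_{m'} - 1) > 0`, `v(g_{m'}) = 0`; in particular `g ≠ 0`. `Om` is algebraically closed: `g = C lc * ∏_{ρ ∈ roots} (T - ρ)`.
(1) No root has `0 < v ρ < k0`: for `v ρ = l`, the term `g_{m'} ρ^{m'}` has order `m' l`; the terms `j < m'` have order
    `≥ (m'-j) k0 + j l > m' l`; the terms `j > m'` have order `≥ j l > m' l`. So `v(g(ρ)) = m' l ≠ ⊤`, contradiction.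
So the roots are: small ones (`k0 ≤ v ρ`, including `ρ = 0`) and large ones (`v ρ ≤ 0`, `ρ⁻¹ ∈ VV`).
(2) `g = s * G0 * h`, `G0 = ∏_{small} (T - ρ)` and `h = ∏_{large} (1 - ρ⁻¹ T)` have coefficients in `VV`, `s = lc * ∏_{large} (-ρ)`.
    `g_{m'} = s (G0 h)_{m'}`, `v(g_{m'}) = 0`, `(G0 h)_{m'} ∈ VV`: `s⁻¹ = (G0 h)_{m'} / g_{m'} ∈ VV`. Let `g^, G0^, h^ ∈ VV[T]` be the lifts;
    `G0^ h^ = s⁻¹ g^` in `VV[T]` (injectivity of `VV[T] → Om[T]`). Evaluate at `z ∈ B` (`Polynomial.aeval`): `aeval z g^ = 0` (it is the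
    image of the relation), so `aeval z G0^ * aeval z h^ = 0`, and `aeval z h^ = ∏ (1 - ρ⁻¹ z)` is a unit (`z` nilpotent:
    `IsNilpotent.isUnit_one_sub` and products). So `aeval z G0^ = pr z R = 0` with `R` = the small roots as elements of `VV`.
`card R ≤ natDegree g ≤ m`. `root_mem_SM`: `ρ ∈ SM (N0 * h)`, `h ≤ m`, `h ∣ m!`, so `ρ ∈ SM (N0 * m!)` (`SM_mul_le`). (`natDegree g = 0`: no
roots, fine.)
-/

set_option autoImplicit false

namespace Pool.DeB

open Polynomial in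
/-- the polynomial with coefficients in `VV`. -/
private noncomputable def srG {c : ℕ} (q : Fin c → VV) (G : MvPolynomial (Fin (c + 1)) ℂ) : VV[X] :=
  MvPolynomial.aeval (Fin.snoc (fun i => C (q i)) X : Fin (c + 1) → VV[X]) G

private noncomputable def srM {c : ℕ} (q : Fin c → VV) (β : Fin (c + 1) →₀ ℕ) : VV :=
  ∏ i, q i ^ β i.castSucc

open Polynomial in
private theorem srG_eq {c : ℕ} (q : Fin c → VV) (G : MvPolynomial (Fin (c + 1)) ℂ) :
    srG q G = ∑ β ∈ G.support, C (algebraMap ℂ VV (G.coeff β) * srM q β) *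
      X ^ (β (Fin.last c)) := by
  unfold srG
  rw [MvPolynomial.aeval_def, MvPolynomial.eval₂_eq']
  refine Finset.sum_congr rfl fun β _ => ?_
  rw [Fin.prod_univ_castSucc]
  simp only [Fin.snoc_castSucc, Fin.snoc_last]
  unfold srM
  rw [C_mul, map_prod]
  simp only [C_pow]
  rw [mul_assoc]
  rfl

open Polynomial in
private theorem srG_coeff {c : ℕ} (q : Fin c → VV) (G : MvPolynomial (Fin (c + 1)) ℂ) (j : ℕ) :
    (srG q G).coeff j = ∑ β ∈ G.support.filter (fun β => β (Fin.last c) = j),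
      algebraMap ℂ VV (G.coeff β) * srM q β := by
  rw [srG_eq, finsetSum_coeff, Finset.sum_filter]
  refine Finset.sum_congr rfl fun β _ => ?_
  rw [coeff_C_mul_X_pow]
  by_cases h : j = β (Fin.last c)
  · rw [if_pos h, if_pos h.symm]
  · rw [if_neg h, if_neg (fun h2 => h h2.symm)]

private theorem srM_v {c : ℕ} (q : Fin c → VV) {k0 : ℝ} (hk0 : 0 < k0)
    (hq : ∀ i, (k0 : WithTop ℝ) ≤ v ((q i : VV) : Om)) (β : Fin (c + 1) →₀ ℕ) :
    ((((∑ i : Fin c, β i.castSucc : ℕ) : ℝ) * k0 : ℝ) : WithTop ℝ) ≤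
      v ((srM q β : VV) : Om) := by
  have h1 : ((srM q β : VV) : Om) = ∏ i, ((q i : VV) : Om) ^ β i.castSucc := by
    unfold srM
    push_cast
    rfl
  rw [h1, v_prod]
  have h2 : ((((∑ i : Fin c, β i.castSucc : ℕ) : ℝ) * k0 : ℝ) : WithTop ℝ) =
      ∑ i : Fin c, (((β i.castSucc : ℝ) * k0 : ℝ) : WithTop ℝ) := by
    rw [← WithTop.coe_sum]
    congr 1
    push_cast
    rw [Finset.sum_mul]
  rw [h2]
  refine Finset.sum_le_sum fun i _ => ?_
  rw [v_pow]
  have h3 : (((β i.castSucc : ℝ) * k0 : ℝ) : WithTop ℝ) = (β i.castSucc) • (k0 : WithTop ℝ) := by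
    rw [← WithTop.coe_nsmul, nsmul_eq_mul]
  rw [h3]
  exact nsmul_le_nsmul_right (hq i) _

private theorem srM_SM {c N0 : ℕ} (q : Fin c → VV)
    (hqS : ∀ i, ((q i : VV) : Om) ∈ SM N0) (β : Fin (c + 1) →₀ ℕ) :
    ((srM q β : VV) : Om) ∈ SM N0 := by
  have h1 : ((srM q β : VV) : Om) = ∏ i, ((q i : VV) : Om) ^ β i.castSucc := by
    unfold srM
    push_cast
    rfl
  rw [h1]
  exact Subalgebra.prod_mem _ fun i _ => Subalgebra.pow_mem _ (hqS i) _

private theorem v_inv_of {f : Om} (hf : f ≠ 0) : v f + v f⁻¹ = 0 := by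
  rw [← v_mul, mul_inv_cancel₀ hf, v_one]

private theorem inv_mem_VV {f : Om} (hf : f ≠ 0) (h : v f ≤ 0) : f⁻¹ ∈ VV := by
  rw [mem_VV]
  have h1 := v_inv_of hf
  calc (0 : WithTop ℝ) = v f + v f⁻¹ := h1.symm
    _ ≤ 0 + v f⁻¹ := by gcongr
    _ = v f⁻¹ := zero_add _

private theorem lift_ms (S : Multiset Om) (h : ∀ x ∈ S, x ∈ VV) :
    ∃ R : Multiset VV, R.map (fun x : VV => (x : Om)) = S := by
  induction S using Multiset.induction_on with
  | empty => exact ⟨0, rfl⟩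
  | cons a S ih =>
    obtain ⟨R, hR⟩ := ih fun x hx => h x (Multiset.mem_cons_of_mem hx)
    refine ⟨(⟨a, h a (Multiset.mem_cons_self a S)⟩ : VV) ::ₘ R, ?_⟩
    rw [Multiset.map_cons, hR]

private theorem v_alg_mul_ge (u : ℂ) (f : VV) {κ : WithTop ℝ} (h : κ ≤ v (f : Om)) :
    κ ≤ v ((algebraMap ℂ VV u * f : VV) : Om) := by
  have h1 : ((algebraMap ℂ VV u * f : VV) : Om) = algebraMap ℂ Om u * (f : Om) := rfl
  rw [h1, v_mul]
  exact le_trans h (le_add_of_nonneg_left (v_alg_ge u))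

private theorem coe_sumV {ι : Type*} (s : Finset ι) (f : ι → VV) :
    ((∑ i ∈ s, f i : VV) : Om) = ∑ i ∈ s, ((f i : VV) : Om) := by
  push_cast
  rfl

/-- the coefficient bound below `m'`. -/
private theorem srG_low {c m' m : ℕ} (q : Fin c → VV) {k0 : ℝ} (hk0 : 0 < k0)
    (hq : ∀ i, (k0 : WithTop ℝ) ≤ v ((q i : VV) : Om)) {G : MvPolynomial (Fin (c + 1)) ℂ}
    (hG : G ∈ PolS c m' m) {j : ℕ} (hj : j ≤ m') :
    ((((m' - j : ℕ) : ℝ) * k0 : ℝ) : WithTop ℝ) ≤ v (((srG q G).coeff j : VV) : Om) := by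
  rw [srG_coeff, coe_sumV]
  apply v_sum_ge
  intro β hβ
  rw [Finset.mem_filter, MvPolynomial.mem_support_iff] at hβ
  apply v_alg_mul_ge
  refine le_trans ?_ (srM_v q hk0 hq β)
  have h1 := (mem_PolS.1 hG β hβ.1).1
  rw [Finsupp.degree_eq_sum, Fin.sum_univ_castSucc, hβ.2] at h1
  have h2 : m' - j ≤ ∑ i : Fin c, β i.castSucc := by omega
  have h3 : ((m' - j : ℕ) : ℝ) ≤ ((∑ i : Fin c, β i.castSucc : ℕ) : ℝ) := by exact_mod_cast h2
  have h4 : ((m' - j : ℕ) : ℝ) * k0 ≤ ((∑ i : Fin c, β i.castSucc : ℕ) : ℝ) * k0 :=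
    mul_le_mul_of_nonneg_right h3 hk0.le
  exact_mod_cast h4

private theorem srG_mid {c m' m : ℕ} (q : Fin c → VV) {k0 : ℝ} (hk0 : 0 < k0)
    (hq : ∀ i, (k0 : WithTop ℝ) ≤ v ((q i : VV) : Om)) {G : MvPolynomial (Fin (c + 1)) ℂ}
    (hG : G ∈ PolS c m' m) (h1G : G.coeff (Finsupp.single (Fin.last c) m') = 1) :
    (k0 : WithTop ℝ) ≤ v ((((srG q G).coeff m' : VV) : Om) - 1) := by
  classical
  have hmem : (Finsupp.single (Fin.last c) m' : Fin (c + 1) →₀ ℕ) ∈
      G.support.filter (fun β => β (Fin.last c) = m') := by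
    rw [Finset.mem_filter, MvPolynomial.mem_support_iff, h1G]
    exact ⟨one_ne_zero, Finsupp.single_eq_same⟩
  have h1 : srM q (Finsupp.single (Fin.last c) m') = 1 := by
    unfold srM
    apply Finset.prod_eq_one
    intro i _
    rw [Finsupp.single_eq_of_ne (Fin.castSucc_lt_last i).ne, pow_zero]
  rw [srG_coeff, ← Finset.add_sum_erase _ _ hmem, h1G, h1, map_one, mul_one]
  have h2 : ((1 + ∑ β ∈ (G.support.filter (fun β => β (Fin.last c) = m')).erase
      (Finsupp.single (Fin.last c) m'), algebraMap ℂ VV (G.coeff β) * srM q β : VV) : Om) - 1 =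
      ∑ β ∈ (G.support.filter (fun β => β (Fin.last c) = m')).erase
      (Finsupp.single (Fin.last c) m'), ((algebraMap ℂ VV (G.coeff β) * srM q β : VV) : Om) := by
    rw [← coe_sumV]
    push_cast
    ring
  rw [h2]
  apply v_sum_ge
  intro β hβ
  rw [Finset.mem_erase, Finset.mem_filter] at hβ
  apply v_alg_mul_ge
  refine le_trans ?_ (srM_v q hk0 hq β)
  have h3 : 1 ≤ ∑ i : Fin c, β i.castSucc := by
    by_contra h4
    apply hβ.1
    have h5 : ∑ i : Fin c, β i.castSucc = 0 := by omega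
    rw [Finset.sum_eq_zero_iff] at h5
    ext i
    refine Fin.lastCases ?_ (fun i => ?_) i
    · rw [hβ.2.2, Finsupp.single_eq_same]
    · rw [h5 i (Finset.mem_univ i), Finsupp.single_eq_of_ne (Fin.castSucc_lt_last i).ne]
  have h4 : (1 : ℝ) ≤ ((∑ i : Fin c, β i.castSucc : ℕ) : ℝ) := by exact_mod_cast h3
  have h5 : k0 ≤ ((∑ i : Fin c, β i.castSucc : ℕ) : ℝ) * k0 := by nlinarith
  exact_mod_cast h5

open Polynomial in
private theorem srG_natDegree {c m' m : ℕ} (q : Fin c → VV) {G : MvPolynomial (Fin (c + 1)) ℂ}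
    (hG : G ∈ PolS c m' m) : (srG q G).natDegree ≤ m := by
  rw [natDegree_le_iff_coeff_eq_zero]
  intro j hj
  rw [srG_coeff, Finset.sum_eq_zero]
  intro β hβ
  rw [Finset.mem_filter, MvPolynomial.mem_support_iff] at hβ
  exfalso
  have h1 := (mem_PolS.1 hG β hβ.1).2
  rw [Finsupp.degree_eq_sum, Fin.sum_univ_castSucc, hβ.2] at h1
  omega

private theorem srG_SM {c N0 : ℕ} (q : Fin c → VV)
    (hqS : ∀ i, ((q i : VV) : Om) ∈ SM N0) (G : MvPolynomial (Fin (c + 1)) ℂ) (j : ℕ) :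
    (((srG q G).coeff j : VV) : Om) ∈ SM N0 := by
  rw [srG_coeff, coe_sumV]
  apply Subalgebra.sum_mem
  intro β _
  have h1 : ((algebraMap ℂ VV (G.coeff β) * srM q β : VV) : Om) =
      algebraMap ℂ Om (G.coeff β) * ((srM q β : VV) : Om) := rfl
  rw [h1]
  exact Subalgebra.mul_mem _ (Subalgebra.algebraMap_mem _ _) (srM_SM q hqS β)

/-- no root has order strictly between `0` and `k0`. -/
private theorem no_mid_root {g : Polynomial Om} {m' : ℕ} {k0 : ℝ}
    (hlow : ∀ j ≤ m', ((((m' - j : ℕ) : ℝ) * k0 : ℝ) : WithTop ℝ) ≤ v (g.coeff j))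
    (hall : ∀ j, (0 : WithTop ℝ) ≤ v (g.coeff j)) (hmid : v (g.coeff m') = 0) {ρ : Om}
    (hρ : g.IsRoot ρ) {l : ℝ} (hl : v ρ = l) (h0 : 0 < l) (h1 : l < k0) : False := by
  classical
  have hne : g.coeff m' ≠ 0 := by
    rw [← v_ne_top, hmid]
    exact WithTop.zero_ne_top
  have hmem : m' ∈ Finset.range (g.natDegree + 1) := by
    rw [Finset.mem_range]
    have := Polynomial.le_natDegree_of_ne_zero hne
    omega
  have h2 : g.eval ρ = 0 := hρ
  rw [Polynomial.eval_eq_sum_range, ← Finset.add_sum_erase _ _ hmem] at h2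
  have hvp : ∀ j : ℕ, v (ρ ^ j) = (((j : ℝ) * l : ℝ) : WithTop ℝ) := by
    intro j
    rw [v_pow, hl, ← WithTop.coe_nsmul, nsmul_eq_mul]
  have h3 : v (g.coeff m' * ρ ^ m') = (((m' : ℝ) * l : ℝ) : WithTop ℝ) := by
    rw [v_mul, hmid, zero_add, hvp]
  have h4 : (((m' : ℝ) * l + min (k0 - l) l : ℝ) : WithTop ℝ) ≤
      v (∑ j ∈ (Finset.range (g.natDegree + 1)).erase m', g.coeff j * ρ ^ j) := by
    apply v_sum_ge
    intro j hj
    rw [Finset.mem_erase] at hj
    rw [v_mul, hvp]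
    rcases lt_or_gt_of_ne hj.1 with hlt | hgt
    · refine le_trans ?_ (add_le_add_left (hlow j hlt.le) _)
      rw [← WithTop.coe_add]
      have h5 : (1 : ℝ) ≤ ((m' - j : ℕ) : ℝ) := by
        have : 1 ≤ m' - j := by omega
        exact_mod_cast this
      have h6 : ((m' - j : ℕ) : ℝ) = (m' : ℝ) - j := by
        rw [Nat.cast_sub hlt.le]
      have h7 : (m' : ℝ) * l + min (k0 - l) l ≤ ((m' - j : ℕ) : ℝ) * k0 + (j : ℝ) * l := by
        have h8 := min_le_left (k0 - l) l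
        rw [h6] at h5 ⊢
        nlinarith [mul_le_mul_of_nonneg_right h5 (sub_nonneg.2 h1.le)]
      exact_mod_cast h7
    · refine le_trans ?_ (add_le_add_left (hall j) _)
      rw [zero_add]
      have h5 : (m' : ℝ) + 1 ≤ (j : ℝ) := by exact_mod_cast hgt
      have h7 : (m' : ℝ) * l + min (k0 - l) l ≤ (j : ℝ) * l := by
        have h8 := min_le_right (k0 - l) l
        nlinarith
      exact_mod_cast h7
  have h5 : v (g.coeff m' * ρ ^ m') <
      v (∑ j ∈ (Finset.range (g.natDegree + 1)).erase m', g.coeff j * ρ ^ j) := by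
    refine lt_of_lt_of_le ?_ h4
    rw [h3]
    have h6 : 0 < min (k0 - l) l := lt_min (by linarith) h0
    have h7 : (m' : ℝ) * l < (m' : ℝ) * l + min (k0 - l) l := by linarith
    exact_mod_cast h7
  have h6 := v_add_eq_left h5
  rw [h2, h3, v_zero] at h6
  exact WithTop.top_ne_coe h6

open Polynomial in
theorem small_roots {B : Type*} [CommRing B] [Algebra ℂ B] [Algebra VV B] [IsScalarTower ℂ VV B]
    {c m' m N0 : ℕ} (hm : m' ≤ m) (q : Fin c → VV) {k0 : ℝ} (hk0 : 0 < k0)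
    (hq : ∀ i, (k0 : WithTop ℝ) ≤ v ((q i : VV) : Om)) (hqS : ∀ i, ((q i : VV) : Om) ∈ SM N0)
    (z : B) (hz : IsNilpotent z) (hreg : Reg m' m (fun i => algebraMap VV B (q i)) z) :
    ∃ R : Multiset VV, R.card ≤ m ∧ (∀ ρ ∈ R, (k0 : WithTop ℝ) ≤ v ((ρ : VV) : Om)) ∧
      (∀ ρ ∈ R, ((ρ : VV) : Om) ∈ SM (N0 * m.factorial)) ∧ pr z R = 0 := by
  classical
  obtain ⟨G, hG, h1G, hG0⟩ := hreg
  -- the relation
  have hz0 : aeval z (srG q G) = 0 := by
    rw [← hG0]
    have h1 := MvPolynomial.comp_aeval_apply (R := ℂ)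
      (f := (Fin.snoc (fun i => C (q i)) X : Fin (c + 1) → VV[X]))
      ((Polynomial.aeval (R := VV) z).restrictScalars ℂ) G
    have h2 : (Polynomial.aeval z : VV[X] →ₐ[VV] B) (srG q G) =
      ((Polynomial.aeval (R := VV) z).restrictScalars ℂ)
        (MvPolynomial.aeval (Fin.snoc (fun i => C (q i)) X : Fin (c + 1) → VV[X]) G) := rfl
    rw [h2, h1]
    congr 1
    congr 1
    funext i
    refine Fin.lastCases ?_ (fun i => ?_) i
    · rw [Fin.snoc_last, Fin.snoc_last]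
      exact aeval_X z
    · rw [Fin.snoc_castSucc, Fin.snoc_castSucc]
      exact aeval_C z (q i)
  have hinj : Function.Injective (algebraMap VV Om) := Subtype.val_injective
  set g : Om[X] := (srG q G).map (algebraMap VV Om) with hg
  have hgc : ∀ j, g.coeff j = (((srG q G).coeff j : VV) : Om) := fun j => by
    rw [hg, coeff_map]
    rfl
  have hlow : ∀ j ≤ m', ((((m' - j : ℕ) : ℝ) * k0 : ℝ) : WithTop ℝ) ≤ v (g.coeff j) :=
    fun j hj => by
      rw [hgc]
      exact srG_low q hk0 hq hG hj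
  have hall : ∀ j, (0 : WithTop ℝ) ≤ v (g.coeff j) := fun j => by
    rw [hgc]
    exact ((srG q G).coeff j).2
  have hmid : v (g.coeff m') = 0 := by
    have h1 := srG_mid q hk0 hq hG h1G
    rw [← hgc] at h1
    have h2 : g.coeff m' = 1 + (g.coeff m' - 1) := by ring
    rw [h2, v_add_eq_left, v_one]
    rw [v_one]
    exact lt_of_lt_of_le (by exact_mod_cast hk0) h1
  have hne : g.coeff m' ≠ 0 := by
    rw [← v_ne_top, hmid]
    exact WithTop.zero_ne_top
  have hg0 : g ≠ 0 := by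
    intro h
    rw [h, coeff_zero] at hne
    exact hne rfl
  have hdeg : g.natDegree ≤ m := le_trans natDegree_map_le (srG_natDegree q hG)
  -- small and large roots
  set sml := g.roots.filter (fun ρ => (k0 : WithTop ℝ) ≤ v ρ) with hsml
  set lrg := g.roots.filter (fun ρ => ¬ (k0 : WithTop ℝ) ≤ v ρ) with hlrg
  have hsp : sml + lrg = g.roots := Multiset.filter_add_not _ _
  have hlrg1 : ∀ ρ ∈ lrg, ρ ≠ 0 ∧ v ρ ≤ 0 := by
    intro ρ hρ
    rw [hlrg, Multiset.mem_filter] at hρ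
    have h0 : ρ ≠ 0 := by
      rintro rfl
      apply hρ.2
      rw [v_zero]
      exact le_top
    refine ⟨h0, ?_⟩
    by_contra h1
    obtain ⟨l, hl⟩ := WithTop.ne_top_iff_exists.1 (v_ne_top.2 h0)
    have h2 := hρ.2
    rw [← hl] at h1 h2
    have h3 : 0 < l := by
      rw [not_le] at h1
      exact_mod_cast h1
    have h4 : l < k0 := by
      rw [not_le] at h2
      exact_mod_cast h2
    exact no_mid_root hlow hall hmid ((mem_roots hg0).1 hρ.1) hl.symm h3 h4
  have hsmlV : ∀ ρ ∈ sml, ρ ∈ VV := by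
    intro ρ hρ
    rw [hsml, Multiset.mem_filter] at hρ
    rw [mem_VV]
    exact le_trans (by exact_mod_cast hk0.le) hρ.2
  obtain ⟨R, hR⟩ := lift_ms sml hsmlV
  obtain ⟨L, hL⟩ := lift_ms (lrg.map (fun ρ => ρ⁻¹)) (by
    intro x hx
    rw [Multiset.mem_map] at hx
    obtain ⟨ρ, hρ, rfl⟩ := hx
    exact inv_mem_VV (hlrg1 ρ hρ).1 (hlrg1 ρ hρ).2)
  -- factorisation
  set G0 : VV[X] := (R.map (fun ρ => X - C ρ)).prod with hG0d
  set H : VV[X] := (L.map (fun τ => 1 - C τ * X)).prod with hHd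
  have hG0m : G0.map (algebraMap VV Om) = (sml.map (fun ρ => X - C ρ)).prod := by
    rw [hG0d, Polynomial.map_multiset_prod, ← hR, Multiset.map_map, Multiset.map_map]
    congr 1
    refine Multiset.map_congr rfl fun x _ => ?_
    simp only [Function.comp_apply, Polynomial.map_sub, Polynomial.map_X, Polynomial.map_C]
    rfl
  have hHm : H.map (algebraMap VV Om) = (lrg.map (fun ρ => 1 - C ρ⁻¹ * X)).prod := by
    have h1 : (lrg.map (fun ρ => (1 : Om[X]) - C ρ⁻¹ * X)) =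
        (lrg.map (fun ρ => ρ⁻¹)).map (fun τ => (1 : Om[X]) - C τ * X) := by
      rw [Multiset.map_map]
      rfl
    rw [h1, ← hL, hHd, Polynomial.map_multiset_prod, Multiset.map_map, Multiset.map_map]
    congr 1
    refine Multiset.map_congr rfl fun x _ => ?_
    simp only [Function.comp_apply, Polynomial.map_sub, Polynomial.map_one, Polynomial.map_mul,
      Polynomial.map_X, Polynomial.map_C]
    rfl
  have hlprod : (lrg.map (fun ρ => X - C ρ)).prod =
      C (lrg.map (fun ρ => -ρ)).prod * H.map (algebraMap VV Om) := by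
    rw [hHm]
    have h1 : C (lrg.map (fun ρ => -ρ)).prod = (lrg.map (fun ρ => C (-ρ))).prod := by
      rw [map_multiset_prod, Multiset.map_map]
      rfl
    rw [h1, ← Multiset.prod_map_mul]
    congr 1
    refine Multiset.map_congr rfl fun ρ hρ => ?_
    have h2 := (hlrg1 ρ hρ).1
    have h3 : (C (-ρ) : Om[X]) * C ρ⁻¹ = -1 := by
      rw [← C_mul, neg_mul, mul_inv_cancel₀ h2, C_neg, C_1]
    calc X - C ρ = C (-ρ) - (-1) * X := by rw [C_neg]; ring
      _ = C (-ρ) - (C (-ρ) * C ρ⁻¹) * X := by rw [h3]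
      _ = C (-ρ) * (1 - C ρ⁻¹ * X) := by ring
  set s : Om := g.leadingCoeff * (lrg.map (fun ρ => -ρ)).prod with hs
  have hs0 : s ≠ 0 := by
    rw [hs]
    refine mul_ne_zero (leadingCoeff_ne_zero.2 hg0) ?_
    rw [Ne, Multiset.prod_eq_zero_iff, Multiset.mem_map]
    rintro ⟨ρ, hρ, h⟩
    exact (hlrg1 ρ hρ).1 (neg_eq_zero.1 h)
  have hfac : g = C s * (G0 * H).map (algebraMap VV Om) := by
    have h1 : g = C g.leadingCoeff * (g.roots.map (fun a => X - C a)).prod :=
      (IsAlgClosed.splits g).eq_prod_roots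
    rw [← hsp, Multiset.map_add, Multiset.prod_add, hlprod, ← hG0m] at h1
    rw [hs, C_mul, Polynomial.map_mul]
    calc g = _ := h1
      _ = _ := by ring
  have hsv : v s ≤ 0 := by
    have h1 : g.coeff m' = s * (((G0 * H).coeff m' : VV) : Om) := by
      have h2 := congrArg (fun P : Om[X] => P.coeff m') hfac
      simp only [coeff_C_mul, coeff_map] at h2
      exact h2
    rw [h1, v_mul] at hmid
    rw [← hmid]
    exact le_add_of_nonneg_right ((G0 * H).coeff m').2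
  have hfac2 : C (⟨s⁻¹, inv_mem_VV hs0 hsv⟩ : VV) * srG q G = G0 * H := by
    apply Polynomial.map_injective (algebraMap VV Om) hinj
    rw [Polynomial.map_mul, Polynomial.map_C, ← hg, hfac]
    have h1 : algebraMap VV Om (⟨s⁻¹, inv_mem_VV hs0 hsv⟩ : VV) = s⁻¹ := rfl
    rw [h1, ← mul_assoc, ← C_mul, inv_mul_cancel₀ hs0, C_1, one_mul]
  have hzz : aeval z G0 * aeval z H = 0 := by
    rw [← map_mul, ← hfac2, map_mul, hz0, mul_zero]
  have hunit : IsUnit (aeval z H) := by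
    rw [hHd, map_multiset_prod, Multiset.map_map]
    refine Multiset.prod_induction (fun x => IsUnit x) _ (fun a b ha hb => ha.mul hb) isUnit_one ?_
    intro x hx
    rw [Multiset.mem_map] at hx
    obtain ⟨τ, -, rfl⟩ := hx
    simp only [Function.comp_apply, map_sub, map_one, map_mul, aeval_C, aeval_X]
    exact IsNilpotent.isUnit_one_sub ((Commute.all _ _).isNilpotent_mul_left hz)
  have hpr : pr z R = 0 := by
    have h1 : pr z R = aeval z G0 := by
      unfold pr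
      rw [hG0d, map_multiset_prod, Multiset.map_map]
      congr 1
      refine Multiset.map_congr rfl fun x _ => ?_
      simp only [Function.comp_apply, map_sub, aeval_C, aeval_X]
    rw [h1]
    exact (hunit.mul_left_eq_zero).1 hzz
  have hRmem : ∀ ρ ∈ R, ((ρ : VV) : Om) ∈ sml := by
    intro ρ hρ
    rw [← hR]
    exact Multiset.mem_map_of_mem _ hρ
  refine ⟨R, ?_, ?_, ?_, hpr⟩
  · calc R.card = sml.card := by rw [← hR, Multiset.card_map]
      _ ≤ g.roots.card := Multiset.card_le_card (Multiset.filter_le _ _)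
      _ ≤ g.natDegree := g.card_roots'
      _ ≤ m := hdeg
  · intro ρ hρ
    have h1 := hRmem ρ hρ
    rw [hsml, Multiset.mem_filter] at h1
    exact h1.2
  · intro ρ hρ
    have h1 := hRmem ρ hρ
    rw [hsml, Multiset.mem_filter] at h1
    obtain ⟨h, hh1, hh2, hh3⟩ := root_mem_SM hg0 hdeg (fun i => by
      rw [hgc]
      exact srG_SM q hqS G i) ((mem_roots hg0).1 h1.1)
    obtain ⟨k, hk⟩ := Nat.dvd_factorial hh1 hh2
    rw [hk, ← mul_assoc]
    exact SM_mul_le _ _ hh3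

end Pool.DeB
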