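import Pool.Agent.Lib.DeB.RegDefs
import Pool.Agent.Lib.DeB.Defs2
import Pool.Agent.Lib.DeB.PU
import Pool.Agent.Lib.DeB.SmallR

/-!
Module AllRel (150 lines). Second half of Lemma 10: a relation for every `a : X`.
PROOF. `Reg` is preserved by algebra homomorphisms: `Reg m' m (y ∘ vv) (y x)` in `A` gives
`Reg m' m (f ∘ y ∘ vv) (f (y x))` in `B`, and `f (y (vv i)) = algebraMap (q i)` (`hfq`). `small_roots` gives multisets `R(x)` for `x = b`
and for `x = b + s a` for all but finitely many `s`. Choose such an `s ≠ 0` (`ℂ` infinite). Then `a = s⁻¹ • ((b + s a) - b)`; with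
`Y1 = f (y (b + s a))`, `Y2 = f (y b)`: `f (y a) = s⁻¹ (Y1 - Y2)`. `R = {s⁻¹ • (ρ1 - ρ2) : ρ1 ∈ R1, ρ2 ∈ R2}` (multiset, `R1.bind`/
`(R1 ×ˢ R2).map`), `card ≤ m * m`. `pr (f (y a)) R = 0`: by (T0) (`prod_eq_zero_of_dvd` for `Y1, R1`) it is enough that `Y1 - ρ1` divides
`∏_{ρ2} (f (y a) - s⁻¹ (ρ1 - ρ2))`: modulo `Y1 - ρ1` the factor is `- s⁻¹ (Y2 - ρ2)` and `∏ (Y2 - ρ2) = 0`. `v` and `SM`: subalgebra,
`v (s⁻¹ • (ρ1 - ρ2)) ≥ min`.
-/

set_option autoImplicit false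

namespace Pool.DeB

private theorem reg_map {A B : Type*} [CommRing A] [Algebra ℂ A] [CommRing B] [Algebra ℂ B]
    (f : A →ₐ[ℂ] B) {c m' m : ℕ} {w : Fin c → A} {z : A} (h : Reg m' m w z) :
    Reg m' m (fun i => f (w i)) (f z) := by
  obtain ⟨G, hG, hG1, hG2⟩ := h
  refine ⟨G, hG, hG1, ?_⟩
  have e : (Fin.snoc (fun i => f (w i)) (f z) : Fin (c + 1) → B) =
      fun i => f ((Fin.snoc w z : Fin (c + 1) → A) i) := by
    funext i
    refine Fin.lastCases ?_ (fun j => ?_) i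
    · simp
    · simp
  rw [e]
  have h2 := MvPolynomial.comp_aeval_apply (Fin.snoc w z : Fin (c + 1) → A) f G
  rw [← h2, hG2, map_zero]

private theorem dvd_prod_sub {V B : Type*} [CommRing B] (d : B) (R : Multiset V) (g h : V → B)
    (H : ∀ ρ ∈ R, d ∣ g ρ - h ρ) : d ∣ (R.map g).prod - (R.map h).prod := by
  induction R using Multiset.induction_on with
  | empty => simp
  | cons a s ih =>
    rw [Multiset.map_cons, Multiset.map_cons, Multiset.prod_cons, Multiset.prod_cons]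
    have e : g a * (s.map g).prod - h a * (s.map h).prod =
        (g a - h a) * (s.map g).prod + h a * ((s.map g).prod - (s.map h).prod) := by ring
    rw [e]
    exact dvd_add (Dvd.dvd.mul_right (H a (Multiset.mem_cons_self a s)) _)
      (Dvd.dvd.mul_left (ih fun ρ hρ => H ρ (Multiset.mem_cons_of_mem hρ)) _)

theorem all_rel {X A B : Type*} [AddCommGroup X] [Module ℂ X] [CommRing A] [Algebra ℂ A]
    [CommRing B] [Algebra ℂ B] [Algebra VV B] [IsScalarTower ℂ VV B]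
    (y : X →ₗ[ℂ] A) (f : A →ₐ[ℂ] B) {c m' m N0 : ℕ} (hm : m' ≤ m) (vv : Fin c → X) (b : X)
    (h0 : Reg m' m (fun i => y (vv i)) (y b))
    (h1 : ∀ a : X, {s : ℂ | ¬ Reg m' m (fun i => y (vv i)) (y (b + s • a))}.Finite)
    (hnil : ∀ a, IsNilpotent (y a)) (q : Fin c → VV) (hfq : ∀ i, f (y (vv i)) = algebraMap VV B (q i))
    {k0 : ℝ} (hk0 : 0 < k0)
    (hq : ∀ i, (k0 : WithTop ℝ) ≤ v ((q i : VV) : Om)) (hqS : ∀ i, ((q i : VV) : Om) ∈ SM N0)
    (a : X) :
    ∃ R : Multiset VV, R.card ≤ m ^ 2 ∧ (∀ ρ ∈ R, ((ρ : VV) : Om) ∈ SM (N0 * m.factorial)) ∧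
      (∀ ρ ∈ R, (k0 : WithTop ℝ) ≤ v ((ρ : VV) : Om)) ∧ pr (f (y a)) R = 0 := by
  obtain ⟨s, hs⟩ := ((h1 a).union (Set.finite_singleton (0 : ℂ))).infinite_compl.nonempty
  have hs0 : s ≠ 0 := fun h => hs (Or.inr h)
  have hs1 : Reg m' m (fun i => y (vv i)) (y (b + s • a)) := by
    by_contra h
    exact hs (Or.inl h)
  have key : ∀ x : X, Reg m' m (fun i => y (vv i)) (y x) →
      Reg m' m (fun i => algebraMap VV B (q i)) (f (y x)) := by
    intro x hx
    have h2 := reg_map f hx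
    have e : (fun i => f (y (vv i))) = fun i => algebraMap VV B (q i) := funext hfq
    rw [e] at h2
    exact h2
  obtain ⟨R1, hc1, hv1, hS1, hp1⟩ := small_roots (N0 := N0) hm q hk0 hq hqS (f (y (b + s • a)))
    ((hnil _).map f) (key _ hs1)
  obtain ⟨R2, hc2, hv2, hS2, hp2⟩ := small_roots (N0 := N0) hm q hk0 hq hqS (f (y b))
    ((hnil _).map f) (key _ h0)
  have hmem : ∀ ρ ∈ R1.bind (fun r1 => R2.map (fun r2 => s⁻¹ • (r1 - r2))),
      ∃ r1 ∈ R1, ∃ r2 ∈ R2, ρ = s⁻¹ • (r1 - r2) := by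
    intro ρ hρ
    rw [Multiset.mem_bind] at hρ
    obtain ⟨r1, h1, h2⟩ := hρ
    rw [Multiset.mem_map] at h2
    obtain ⟨r2, h3, h4⟩ := h2
    exact ⟨r1, h1, r2, h3, h4.symm⟩
  refine ⟨R1.bind (fun r1 => R2.map (fun r2 => s⁻¹ • (r1 - r2))), ?_, ?_, ?_, ?_⟩
  · rw [Multiset.card_bind]
    have e : (R1.map (Multiset.card ∘ fun r1 => R2.map (fun r2 => s⁻¹ • (r1 - r2)))) =
        R1.map (fun _ => R2.card) := by
      apply Multiset.map_congr rfl
      intro r _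
      simp
    rw [e, Multiset.map_const', Multiset.sum_replicate, smul_eq_mul, sq]
    exact Nat.mul_le_mul hc1 hc2
  · intro ρ hρ
    obtain ⟨r1, h1, r2, h2, rfl⟩ := hmem ρ hρ
    show s⁻¹ • ((r1 : Om) - (r2 : Om)) ∈ SM (N0 * m.factorial)
    exact (SM (N0 * m.factorial)).smul_mem ((SM (N0 * m.factorial)).sub_mem (hS1 _ h1) (hS2 _ h2)) _
  · intro ρ hρ
    obtain ⟨r1, h1, r2, h2, rfl⟩ := hmem ρ hρ
    show (k0 : WithTop ℝ) ≤ v (s⁻¹ • ((r1 : Om) - (r2 : Om)))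
    rw [smul_def', v_mul]
    refine le_trans (le_trans (le_min (hv1 _ h1) (hv2 _ h2)) (v_sub_ge _ _)) ?_
    exact le_add_of_nonneg_left (v_alg_ge _)
  · have hY : f (y a) = s⁻¹ • (f (y (b + s • a)) - f (y b)) := by
      rw [map_add, map_add, map_smul, map_smul, add_sub_cancel_left, smul_smul,
        inv_mul_cancel₀ hs0, one_smul]
    unfold pr
    rw [Multiset.map_bind, Multiset.prod_bind]
    apply prod_eq_zero_of_dvd (f (y (b + s • a))) R1 _ hp1
    intro r1 _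
    rw [Multiset.map_map]
    have h3 := dvd_prod_sub (f (y (b + s • a)) - algebraMap VV B r1) R2
      ((fun ρ => f (y a) - algebraMap VV B ρ) ∘ fun r2 => s⁻¹ • (r1 - r2))
      (fun r2 => algebraMap ℂ B (-s⁻¹) * (f (y b) - algebraMap VV B r2)) ?_
    · have h4 : (R2.map (fun r2 => algebraMap ℂ B (-s⁻¹) *
          (f (y b) - algebraMap VV B r2))).prod = 0 := by
        rw [Multiset.prod_map_mul]
        have h5 : (R2.map (fun r2 => f (y b) - algebraMap VV B r2)).prod = 0 := hp2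
        rw [h5, mul_zero]
      rw [h4, sub_zero] at h3
      exact h3
    · intro r2 _
      refine ⟨algebraMap ℂ B s⁻¹, ?_⟩
      have e1 : algebraMap VV B (s⁻¹ • (r1 - r2)) =
          s⁻¹ • (algebraMap VV B r1 - algebraMap VV B r2) := by
        have h6 := map_smul (IsScalarTower.toAlgHom ℂ VV B) s⁻¹ (r1 - r2)
        rw [map_sub] at h6
        exact h6
      show f (y a) - algebraMap VV B (s⁻¹ • (r1 - r2)) -
        algebraMap ℂ B (-s⁻¹) * (f (y b) - algebraMap VV B r2) = _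
      rw [e1, hY, Algebra.smul_def, Algebra.smul_def, map_neg]
      ring

end Pool.DeB
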