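import Pool.Agent.Lib.DeB.ArcDefs

/-!
Module ArcA (170 lines). The minors `d_G` of Proposition 11.
PROOFS.
arcd_eval: evaluation at `ω` is a ring homomorphism `Om[X] → Om`; it maps the matrix `arcP` to the image of `arcT ω` under
  `VV → Om` (`leftMulMatrix` is an algebra homomorphism: `leftMulMatrix (w - algebraMap ω) = leftMulMatrix w - ω • 1`, so
  the entry `(i,l)` is `leftMulMatrix w i l - (if i = l then ω else 0)`); `RingHom.map_det`, `Matrix.submatrix_map`.
arcd_natDegree: all entries have degree `≤ 1` and each column is in ... the Leibniz formula `Matrix.det_apply`: a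
  product of `n` entries of degree `≤ 1` (`natDegree_sum_le_of_forall_le`, `natDegree_prod_le`).
coefficients: the determinant is a sum of products of the entries (`Matrix.det_apply`), whose coefficients are in
  the subring `VV` (resp. `SM M0`): use that polynomials all of whose coefficients are in a subalgebra form a subring
  (`Polynomial.lifts` / `Polynomial.map` from `VV[X]`: e.g. `arcP` is the image of a matrix over `VV[X]`).
arcd_G00: `det (C W - X) = det (-(X - C W)) = (-1)^n * charpoly W`, `W` = image of `leftMulMatrix β w`, nilpotent over the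
  domain, so `charpoly W = X^n` (e.g. `Matrix.charpoly` of a nilpotent matrix over a field: all roots of the
  characteristic polynomial are `0`: `Matrix.isNilpotent_charpoly_sub_pow_of_isNilpotent` and reducedness of `Om[X]`).
-/

set_option autoImplicit false

open Polynomial

namespace Pool.DeB

variable {R : Type*} [CommRing R] [Algebra VV R] {n k : ℕ}

theorem arcd_eval (β : Module.Basis (Fin n) VV R) (g : Fin k → R) (w : R) (G : Fin n → Col n k)
    (ω : VV) : (arcd β g w G).eval (ω : Om) = (((arcT β g w ω).submatrix id G).det : VV) := by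
  have h1 : (arcd β g w G).eval (ω : Om) =
      ((Polynomial.evalRingHom (ω : Om)).mapMatrix ((arcP β g w).submatrix id G)).det := by
    rw [← RingHom.map_det]
    rfl
  have h2 : ((((arcT β g w ω).submatrix id G).det : VV) : Om) =
      ((VV.val : VV →+* Om).mapMatrix ((arcT β g w ω).submatrix id G)).det := by
    rw [← RingHom.map_det]
    rfl
  rw [h1, h2]
  congr 1
  ext i m
  rw [RingHom.mapMatrix_apply, RingHom.mapMatrix_apply, Matrix.map_apply, Matrix.map_apply,
    Matrix.submatrix_apply, Matrix.submatrix_apply]
  rcases h : G m with ⟨o, s⟩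
  cases o with
  | none =>
    show Polynomial.eval (ω : Om) (C ((Algebra.leftMulMatrix β w i s : VV) : Om) -
        (if i = s then X else 0)) =
      ((Algebra.leftMulMatrix β (w - algebraMap VV R ω) i s : VV) : Om)
    rw [map_sub, Matrix.sub_apply, AlgHom.commutes, Matrix.algebraMap_matrix_apply, eval_sub, eval_C]
    by_cases hs : i = s
    · rw [if_pos hs, if_pos hs, eval_X]
      rfl
    · rw [if_neg hs, if_neg hs, eval_zero, sub_zero, sub_zero]
  | some j =>
    show Polynomial.eval (ω : Om) (C ((Algebra.leftMulMatrix β (g j) i s : VV) : Om)) =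
      ((Algebra.leftMulMatrix β (g j) i s : VV) : Om)
    rw [eval_C]

private theorem arcP_natDegree (β : Module.Basis (Fin n) VV R) (g : Fin k → R) (w : R) (i : Fin n)
    (s : Col n k) : (arcP β g w i s).natDegree ≤ 1 := by
  rcases s with ⟨o, s⟩
  cases o with
  | none =>
    show (C ((Algebra.leftMulMatrix β w i s : VV) : Om) -
        (if i = s then X else 0) : Om[X]).natDegree ≤ 1
    refine (natDegree_sub_le _ _).trans ?_
    apply max_le
    · rw [natDegree_C]
      exact Nat.zero_le _
    · split_ifs
      · exact natDegree_X_le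
      · rw [natDegree_zero]
        exact Nat.zero_le _
  | some j =>
    show (C ((Algebra.leftMulMatrix β (g j) i s : VV) : Om) : Om[X]).natDegree ≤ 1
    rw [natDegree_C]
    exact Nat.zero_le _

theorem arcd_natDegree (β : Module.Basis (Fin n) VV R) (g : Fin k → R) (w : R)
    (G : Fin n → Col n k) : (arcd β g w G).natDegree ≤ n := by
  rw [arcd, Matrix.det_apply]
  apply natDegree_sum_le_of_forall_le
  intro σ _
  refine (natDegree_smul_le _ _).trans ((natDegree_prod_le _ _).trans ?_)
  calc ∑ i : Fin n, (((arcP β g w).submatrix id G) (σ i) i).natDegree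
      ≤ ∑ _i : Fin n, 1 := Finset.sum_le_sum fun i _ => arcP_natDegree β g w _ _
    _ = n := by simp

/-- polynomials with coefficients in a subalgebra -/
private def PC (S : Subalgebra ℂ Om) : Subring Om[X] where
  carrier := {p | ∀ i, p.coeff i ∈ S}
  mul_mem' := by
    intro p q hp hq i
    rw [coeff_mul]
    exact S.sum_mem fun x _ => S.mul_mem (hp _) (hq _)
  one_mem' := by
    intro i
    rw [coeff_one]
    split_ifs
    · exact S.one_mem
    · exact S.zero_mem
  add_mem' := by
    intro p q hp hq i
    rw [coeff_add]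
    exact S.add_mem (hp _) (hq _)
  zero_mem' := by
    intro i
    rw [coeff_zero]
    exact S.zero_mem
  neg_mem' := by
    intro p hp i
    rw [coeff_neg]
    exact S.neg_mem (hp _)

private theorem C_mem_PC (S : Subalgebra ℂ Om) {a : Om} (ha : a ∈ S) : (C a : Om[X]) ∈ PC S := by
  intro i
  rw [coeff_C]
  split_ifs
  · exact ha
  · exact S.zero_mem

private theorem X_mem_PC (S : Subalgebra ℂ Om) : (X : Om[X]) ∈ PC S := by
  intro i
  rw [coeff_X]
  split_ifs
  · exact S.one_mem
  · exact S.zero_mem

private theorem arcd_mem_PC (S : Subalgebra ℂ Om) (β : Module.Basis (Fin n) VV R) (g : Fin k → R)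
    (w : R) (hg : ∀ j i l, ((Algebra.leftMulMatrix β (g j) i l : VV) : Om) ∈ S)
    (hw : ∀ i l, ((Algebra.leftMulMatrix β w i l : VV) : Om) ∈ S) (G : Fin n → Col n k) :
    arcd β g w G ∈ PC S := by
  have hP : ∀ i s, arcP β g w i s ∈ PC S := by
    intro i s
    rcases s with ⟨o, s⟩
    cases o with
    | none =>
      show (C ((Algebra.leftMulMatrix β w i s : VV) : Om) -
        (if i = s then X else 0) : Om[X]) ∈ PC S
      apply Subring.sub_mem
      · exact C_mem_PC S (hw i s)
      · split_ifs
        · exact X_mem_PC S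
        · exact (PC S).zero_mem
    | some j => exact C_mem_PC S (hg j i s)
  rw [arcd, Matrix.det_apply]
  apply Subring.sum_mem
  intro σ _
  rw [Units.smul_def]
  exact Subring.zsmul_mem _ (Subring.prod_mem _ fun i _ => hP _ _) _

theorem arcd_coeff_VV (β : Module.Basis (Fin n) VV R) (g : Fin k → R) (w : R)
    (G : Fin n → Col n k) (i : ℕ) : (arcd β g w G).coeff i ∈ VV :=
  arcd_mem_PC VV β g w (fun _ _ _ => Subtype.property _) (fun _ _ => Subtype.property _) G i

theorem arcd_coeff_SM (β : Module.Basis (Fin n) VV R) (g : Fin k → R) (w : R) {M0 : ℕ}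
    (hg : ∀ j i l, ((Algebra.leftMulMatrix β (g j) i l : VV) : Om) ∈ SM M0)
    (hw : ∀ i l, ((Algebra.leftMulMatrix β w i l : VV) : Om) ∈ SM M0) (G : Fin n → Col n k)
    (i : ℕ) : (arcd β g w G).coeff i ∈ SM M0 :=
  arcd_mem_PC (SM M0) β g w hg hw G i

theorem arcd_G00 (β : Module.Basis (Fin n) VV R) (g : Fin k → R) {w : R} (hw : IsNilpotent w) :
    arcd β g w (G00 n k) = C (algebraMap ℂ Om ((-1) ^ n)) * X ^ n := by
  set W : Matrix (Fin n) (Fin n) Om :=
    (VV.val : VV →+* Om).mapMatrix (Algebra.leftMulMatrix β w) with hW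
  have h1 : (arcP β g w).submatrix id (G00 n k) = -(Matrix.charmatrix W) := by
    ext1 i l
    show (C ((Algebra.leftMulMatrix β w i l : VV) : Om) - (if i = l then X else 0) : Om[X]) =
      -(Matrix.charmatrix W i l)
    rw [Matrix.charmatrix_apply, Matrix.diagonal_apply, neg_sub]
    rfl
  have h2 : IsNilpotent W := (hw.map (Algebra.leftMulMatrix β)).map (VV.val : VV →+* Om).mapMatrix
  have h3 : W.charpoly = X ^ n := by
    have h4 := (Matrix.isNilpotent_charpoly_sub_pow_of_isNilpotent h2).eq_zero
    rw [Fintype.card_fin] at h4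
    exact sub_eq_zero.1 h4
  rw [arcd, h1, Matrix.det_neg, Fintype.card_fin]
  have h5 : (Matrix.charmatrix W).det = X ^ n := h3
  rw [h5]
  simp

end Pool.DeB
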