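import Pool.Agent.Lib.DeB.ArcDefs
import Pool.Agent.Lib.DeB.ArcA

/-!
Module ArcB (150 lines). The numerators `N_G` of Proposition 11.
PROOFS.
arcT_mulVec: `∑_s T(ω)_{i,s} Y_s` splits over `s = (none,l)`, `(some j,l)` (`Fintype.sum_prod_type`,
  `Fintype.sum_option`); `leftMulMatrix_mulVec_repr : (leftMulMatrix β a).mulVec (β.repr b) = β.repr (a * b)`.
arcN_eval: evaluation at `ω` maps `arcP` to `T(ω)` (see `arcd_eval`), the adjugate to the adjugate
  (`RingHom.map_adjugate`), `adj(M) (M Z) = det(M) Z`.
arcN_G00: for `M = C W - X` (`n × n`, `n ≥ 1`) the adjugate has entries of degree `≤ n-1`, and `adj(M) M = det M`; comparing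
  the coefficients of `X^n` in `adj(M) * (C W - X) = (-1)^n X^n + ...` (arcd_G00 or degrees): `-(coefficient of X^(n-1) of
  adj(M)) = (-1)^n * 1`. (`Matrix.adjugate` entries are determinants `det (updateRow ..)`; `Matrix.charmatrix` API:
  `Matrix.matPolyEquiv` may help: `matPolyEquiv (charmatrix W) = X - C W`; alternatively treat matrices over `Om[X]` as
  polynomials with matrix coefficients: if `A = ∑ A_i X^i` has top degree `e` then `A (C W - X)` has top
  coefficient `-A_e` at `X^(e+1)`, and it equals `det * 1` of degree `n`; so `e = n-1` and `A_{n-1} = (-1)^{n-1}`.)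
-/

set_option autoImplicit false

open Polynomial

namespace Pool.DeB

variable {R : Type*} [CommRing R] [Algebra VV R] {n k : ℕ}

private theorem ab_lin (β : Module.Basis (Fin n) VV R) (a : R) (Y : Fin n → VV) (i : Fin n) :
    ∑ l, Algebra.leftMulMatrix β a i l * Y l = β.repr (a * ∑ l, Y l • β l) i := by
  have h1 : (⇑(β.repr (∑ l, Y l • β l)) : Fin n → VV) = Y := by
    rw [β.repr_sum_self]
  have h2 := Algebra.leftMulMatrix_mulVec_repr β a (∑ l, Y l • β l)
  rw [h1] at h2
  have h3 := congrFun h2 i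
  rw [← h3]
  rfl

theorem arcT_mulVec (β : Module.Basis (Fin n) VV R) (g : Fin k → R) (w : R) (ω : VV)
    (Y : Col n k → VV) : (arcT β g w ω).mulVec Y =
      β.repr ((w - algebraMap VV R ω) * (∑ l, Y (none, l) • β l) +
        ∑ j, g j * ∑ l, Y (some j, l) • β l) := by
  funext i
  rw [map_add, Finsupp.add_apply, ← ab_lin, map_sum, Finsupp.finsetSum_apply]
  have h : ∀ j, β.repr (g j * ∑ l, Y (some j, l) • β l) i =
      ∑ l, Algebra.leftMulMatrix β (g j) i l * Y (some j, l) := fun j =>
    (ab_lin β (g j) (fun l => Y (some j, l)) i).symm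
  rw [Finset.sum_congr rfl (fun j _ => h j)]
  show ∑ s : Col n k, arcT β g w ω i s * Y s = _
  rw [Fintype.sum_prod_type, Fintype.sum_option]
  rfl

private theorem ab_entry (β : Module.Basis (Fin n) VV R) (g : Fin k → R) (w : R)
    (ω : VV) (i : Fin n) (s : Col n k) :
    (arcP β g w i s).eval (ω : Om) = ((arcT β g w ω i s : VV) : Om) := by
  rcases s with ⟨s, l⟩
  cases s with
  | none =>
    show (C ((Algebra.leftMulMatrix β w i l : VV) : Om) - (if i = l then X else 0)).eval (ω : Om) =
      ((Algebra.leftMulMatrix β (w - algebraMap VV R ω) i l : VV) : Om)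
    have h1 : Algebra.leftMulMatrix β (algebraMap VV R ω) i l = if i = l then ω else 0 := by
      rw [AlgHom.commutes, Matrix.algebraMap_matrix_apply]
      rfl
    have h2 : Algebra.leftMulMatrix β (w - algebraMap VV R ω) i l =
        Algebra.leftMulMatrix β w i l - (if i = l then ω else 0) := by
      rw [map_sub, Matrix.sub_apply, h1]
    rw [h2, Polynomial.eval_sub, Polynomial.eval_C]
    split_ifs
    · rw [Polynomial.eval_X]; rfl
    · rw [Polynomial.eval_zero]; rfl
  | some j =>
    show (C ((Algebra.leftMulMatrix β (g j) i l : VV) : Om)).eval (ω : Om) = _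
    rw [Polynomial.eval_C]
    rfl

private theorem ab_map (β : Module.Basis (Fin n) VV R) (g : Fin k → R) (w : R)
    (G : Fin n → Col n k) (ω : VV) :
    (Polynomial.evalRingHom (ω : Om)).mapMatrix ((arcP β g w).submatrix id G) =
      VV.val.toRingHom.mapMatrix ((arcT β g w ω).submatrix id G) := by
  ext i m
  exact ab_entry β g w ω i (G m)

private theorem ab_adj (T : Matrix (Fin n) (Fin n) VV) (Z : Fin n → VV) (m : Fin n) :
    (T.adjugate.mulVec (T.mulVec Z)) m = T.det * Z m := by
  rw [Matrix.mulVec_mulVec, Matrix.adjugate_mul, Matrix.smul_mulVec, Matrix.one_mulVec]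
  rfl

private theorem ab_num (β : Module.Basis (Fin n) VV R) (g : Fin k → R) (w : R)
    (x' : Fin n → VV) (G : Fin n → Col n k) (ω : VV) (Z : Fin n → VV)
    (hZ : ((arcT β g w ω).submatrix id G).mulVec Z = x') (m : Fin n) :
    ((((arcP β g w).submatrix id G).adjugate.mulVec (fun i => C ((x' i : VV) : Om))) m).eval
      (ω : Om) = (arcd β g w G).eval (ω : Om) * ((Z m : VV) : Om) := by
  have hd : (arcd β g w G).eval (ω : Om) =
      ((((arcT β g w ω).submatrix id G).det : VV) : Om) := by
    have h1 := RingHom.map_det (Polynomial.evalRingHom (ω : Om)) ((arcP β g w).submatrix id G)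
    rw [ab_map, ← RingHom.map_det] at h1
    exact h1
  rw [hd]
  have h2 := ab_adj ((arcT β g w ω).submatrix id G) Z m
  rw [hZ] at h2
  have h3 : ((((arcT β g w ω).submatrix id G).det * Z m : VV) : Om) =
      ((((arcT β g w ω).submatrix id G).det : VV) : Om) * ((Z m : VV) : Om) := rfl
  rw [← h3, ← h2]
  have h4 := RingHom.map_adjugate (Polynomial.evalRingHom (ω : Om))
    ((arcP β g w).submatrix id G)
  rw [ab_map, ← RingHom.map_adjugate] at h4
  simp only [Matrix.mulVec, dotProduct]
  rw [Polynomial.eval_finsetSum]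
  have h5 : ((∑ i, ((arcT β g w ω).submatrix id G).adjugate m i * x' i : VV) : Om) =
      ∑ i, ((((arcT β g w ω).submatrix id G).adjugate m i : VV) : Om) * ((x' i : VV) : Om) := by
    rw [← VV.coe_val, map_sum]
    rfl
  rw [h5]
  refine Finset.sum_congr rfl (fun i _ => ?_)
  rw [Polynomial.eval_mul, Polynomial.eval_C]
  have h6 := congrFun (congrFun h4 m) i
  have h7 : (((arcP β g w).submatrix id G).adjugate m i).eval (ω : Om) =
      ((((arcT β g w ω).submatrix id G).adjugate m i : VV) : Om) := h6
  rw [h7]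

theorem arcN_eval (β : Module.Basis (Fin n) VV R) (g : Fin k → R) (w : R) (φ : Fin n → Om)
    (x' : Fin n → VV) (G : Fin n → Col n k) (ω : VV) (Z : Fin n → VV)
    (hZ : ((arcT β g w ω).submatrix id G).mulVec Z = x') :
    (arcN β g w φ x' G).eval (ω : Om) = (arcd β g w G).eval (ω : Om) *
      ∑ m : Fin n, (match (G m).1 with
        | none => φ (G m).2 * ((Z m : VV) : Om)
        | some _ => 0) := by
  unfold arcN
  rw [Polynomial.eval_finsetSum, Finset.mul_sum]
  refine Finset.sum_congr rfl (fun m _ => ?_)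
  have h := ab_num β g w x' G ω Z hZ m
  cases hG : (G m).1 with
  | none =>
    simp only
    rw [Polynomial.eval_mul, Polynomial.eval_C, h]
    ring
  | some j =>
    simp only
    rw [Polynomial.eval_zero, mul_zero]

private theorem ab_charadj (W : Matrix (Fin n) (Fin n) Om) (hn : 0 < n) :
    (matPolyEquiv (W.charmatrix.adjugate)).degree < (n : WithBot ℕ) ∧
      (matPolyEquiv (W.charmatrix.adjugate)).coeff (n - 1) = 1 := by
  have : Nonempty (Fin n) := ⟨⟨0, hn⟩⟩
  have h1 : W.charmatrix.adjugate * W.charmatrix = W.charpoly • (1 : Matrix (Fin n) (Fin n) Om[X]) :=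
    Matrix.adjugate_mul _
  have h2 := congrArg matPolyEquiv h1
  rw [map_mul, Matrix.matPolyEquiv_charmatrix, matPolyEquiv_smul_one] at h2
  have hmon : (X - C W : (Matrix (Fin n) (Fin n) Om)[X]).Monic := Polynomial.monic_X_sub_C W
  have hinj : Function.Injective (algebraMap Om (Matrix (Fin n) (Fin n) Om)) :=
    FaithfulSMul.algebraMap_injective _ _
  have h3 : (W.charpoly.map (algebraMap Om (Matrix (Fin n) (Fin n) Om))).Monic :=
    (W.charpoly_monic).map _
  have h4 : (W.charpoly.map (algebraMap Om (Matrix (Fin n) (Fin n) Om))).natDegree = n := by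
    rw [Polynomial.natDegree_map_eq_of_injective hinj, Matrix.charpoly_natDegree_eq_dim,
      Fintype.card_fin]
  set b := matPolyEquiv (W.charmatrix.adjugate) with hb
  have h5 : b.leadingCoeff = 1 := by
    have h := Polynomial.leadingCoeff_mul_monic (p := b) hmon
    rw [h2, h3.leadingCoeff] at h
    exact h.symm
  have h6 : b.degree + 1 = (n : WithBot ℕ) := by
    have h := Polynomial.Monic.degree_mul (p := b) hmon
    rw [h2, Polynomial.degree_X_sub_C, Polynomial.degree_eq_natDegree h3.ne_zero, h4] at h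
    exact h.symm
  have hb0 : b ≠ 0 := by
    intro h
    rw [h, Polynomial.degree_zero, WithBot.bot_add] at h6
    exact absurd h6 (WithBot.bot_ne_coe)
  rw [Polynomial.degree_eq_natDegree hb0] at h6 ⊢
  have h7 : b.natDegree + 1 = n := by exact_mod_cast h6
  constructor
  · have : b.natDegree < n := by omega
    exact_mod_cast this
  · have h8 : n - 1 = b.natDegree := by omega
    rw [h8]
    exact h5

private theorem ab_mat (β : Module.Basis (Fin n) VV R) (g : Fin k → R) (w : R) :
    ((arcP β g w).submatrix id (G00 n k)) =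
      (-1 : Om[X]) • ((Algebra.leftMulMatrix β w).map (VV.val)).charmatrix := by
  ext1 i l
  show C ((Algebra.leftMulMatrix β w i l : VV) : Om) - (if i = l then X else 0) =
    (-1 : Om[X]) * (((Algebra.leftMulMatrix β w).map (VV.val)).charmatrix i l)
  rw [Matrix.charmatrix_apply, Matrix.diagonal_apply]
  have h : C (((Algebra.leftMulMatrix β w).map (VV.val)) i l) =
    C ((Algebra.leftMulMatrix β w i l : VV) : Om) := rfl
  rw [h]
  ring

private theorem ab_coeff (β : Module.Basis (Fin n) VV R) (g : Fin k → R) (w : R)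
    (φ : Fin n → Om) (x' : Fin n → VV) (e : ℕ) :
    (arcN β g w φ x' (G00 n k)).coeff e = (-1) ^ (n - 1) * ∑ l, φ l * ∑ i,
      ((matPolyEquiv ((((Algebra.leftMulMatrix β w).map (VV.val)).charmatrix).adjugate)).coeff e)
        l i * ((x' i : VV) : Om) := by
  have h0 : arcN β g w φ x' (G00 n k) = ∑ m : Fin n, C (φ m) *
        (((arcP β g w).submatrix id (G00 n k)).adjugate.mulVec
          (fun i => C ((x' i : VV) : Om))) m := rfl
  rw [h0, Polynomial.finsetSum_coeff, Finset.mul_sum]
  refine Finset.sum_congr rfl (fun m _ => ?_)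
  rw [Polynomial.coeff_C_mul, ab_mat, Matrix.adjugate_smul, Fintype.card_fin]
  simp only [Matrix.mulVec, dotProduct, Matrix.smul_apply, smul_eq_mul]
  rw [Polynomial.finsetSum_coeff, ← mul_assoc, mul_comm ((-1) ^ (n - 1)) (φ m), mul_assoc]
  refine congrArg (fun t => φ m * t) ?_
  rw [Finset.mul_sum]
  refine Finset.sum_congr rfl (fun i _ => ?_)
  rw [matPolyEquiv_coeff_apply, Polynomial.coeff_mul_C]
  have h1 : ((-1 : Om[X]) ^ (n - 1)) = C ((-1) ^ (n - 1)) := by simp
  rw [h1, Polynomial.coeff_C_mul]
  ring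

theorem arcN_G00_degree (β : Module.Basis (Fin n) VV R) (g : Fin k → R) {w : R}
    (hn : 0 < n) (hw : IsNilpotent w) (φ : Fin n → Om) (x' : Fin n → VV) :
    (arcN β g w φ x' (G00 n k)).degree < (n : WithBot ℕ) := by
  rw [Polynomial.degree_lt_iff_coeff_zero]
  intro e he
  rw [ab_coeff]
  have h1 := (ab_charadj ((Algebra.leftMulMatrix β w).map (VV.val)) hn).1
  rw [Polynomial.degree_lt_iff_coeff_zero] at h1
  rw [h1 e he]
  simp

theorem arcN_G00_coeff (β : Module.Basis (Fin n) VV R) (g : Fin k → R) {w : R}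
    (hn : 0 < n) (hw : IsNilpotent w) (φ : Fin n → Om) (x' : Fin n → VV) :
    (arcN β g w φ x' (G00 n k)).coeff (n - 1) =
      (-1) ^ (n - 1) * ∑ l, φ l * ((x' l : VV) : Om) := by
  rw [ab_coeff, (ab_charadj ((Algebra.leftMulMatrix β w).map (VV.val)) hn).2]
  congr 1
  refine Finset.sum_congr rfl (fun l _ => ?_)
  congr 1
  rw [Finset.sum_eq_single l]
  · rw [Matrix.one_apply_eq, one_mul]
  · intro i _ hi
    rw [Matrix.one_apply_ne (Ne.symm hi), zero_mul]
  · intro h
    exact absurd (Finset.mem_univ l) h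

end Pool.DeB
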