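import Pool.Agent.Lib.DeB.Defs3

/-!
Definitions for Proposition 11 (arc step). `R` is a commutative `VV`-algebra with basis `β`.
-/

set_option autoImplicit false

open Polynomial

namespace Pool.DeB

/-- index set of the columns of `T(ω) = [w - ω | g_0 | ... | g_{k-1}]` -/
abbrev Col (n k : ℕ) : Type := Option (Fin k) × Fin n

section
variable {R : Type*} [CommRing R] [Algebra VV R] {n k : ℕ}

/-- the matrix `T(ω)` over `VV`. -/
noncomputable def arcT (β : Module.Basis (Fin n) VV R) (g : Fin k → R) (w : R) (ω : VV) :
    Matrix (Fin n) (Col n k) VV := fun i s =>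
  match s.1 with
  | none => Algebra.leftMulMatrix β (w - algebraMap VV R ω) i s.2
  | some j => Algebra.leftMulMatrix β (g j) i s.2

/-- the matrix `T(z)` over `Om[z]`. -/
noncomputable def arcP (β : Module.Basis (Fin n) VV R) (g : Fin k → R) (w : R) :
    Matrix (Fin n) (Col n k) Om[X] := fun i s =>
  match s.1 with
  | none => C ((Algebra.leftMulMatrix β w i s.2 : VV) : Om) - (if i = s.2 then X else 0)
  | some j => C ((Algebra.leftMulMatrix β (g j) i s.2 : VV) : Om)

/-- the minors. -/
noncomputable def arcd (β : Module.Basis (Fin n) VV R) (g : Fin k → R) (w : R)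
    (G : Fin n → Col n k) : Om[X] := ((arcP β g w).submatrix id G).det

/-- the numerators: `∑_{m : G m in the first block} φ_{G m} (adj(T_G) x')_m`. -/
noncomputable def arcN (β : Module.Basis (Fin n) VV R) (g : Fin k → R) (w : R) (φ : Fin n → Om)
    (x' : Fin n → VV) (G : Fin n → Col n k) : Om[X] :=
  ∑ m : Fin n, (match (G m).1 with
    | none => C (φ (G m).2) *
        (((arcP β g w).submatrix id G).adjugate.mulVec (fun i => C ((x' i : VV) : Om))) m
    | some _ => 0)

end

/-- the choice of the first block. -/
def G00 (n k : ℕ) : Fin n → Col n k := fun l => (none, l)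

end Pool.DeB
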