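import Pool.Agent.Lib.DeB.Defs

/-!
Module Cramer (120 lines). Cramer's rule with a dominating minor; separating functionals.
PROOFS.
cramer_range: `M = T.submatrix id G`. By linearity (`T.mulVec Y = ∑_s Y s • T_s`, `T_s` the columns) it is enough to solve
  `M.mulVec Z = T_s`. `M.mulVec (M.cramer T_s) = M.det • T_s` (`Matrix.mulVec_cramer`), and the `l`-th entry of
  `M.cramer T_s` is the determinant of `M` with column `l` replaced by `T_s` (`Matrix.cramer_apply`), i.e. the minor of `T`
  for `Function.update G l s`, divisible by `M.det` by `hdom`: `M.cramer T_s = M.det • Z`. Cancel `M.det ≠ 0`.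
exists_dom: among finitely many elements of `VV` one divides all others (`VV_dvd_total`; induction or
  `Finite.exists_min` for `v`).
separate: take a dominating `G` (`exists_dom` for all `G : Fin n → κ`); its determinant is nonzero because it
  divides the nonzero one. Over `Om` the matrix `M` is invertible; `φ^k = ` the `k`-th row of `M⁻¹`. For all `Y`:
  `T.mulVec Y = M.mulVec Z` with `Z` in `VV` (`cramer_range`), so `∑ i, φ^k i * (T.mulVec Y) i = Z k ∈ VV`. If
  `∑ i, φ^k i * x i ∈ VV` for all `k` then `x = M.mulVec Z` with `Z k` this number, and `M.mulVec Z = T.mulVec Y` with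
  `Y s = ∑_{l : G l = s} Z l`, contradiction to `hx`.
-/

set_option autoImplicit false

namespace Pool.DeB

theorem cramer_range {V : Type*} [CommRing V] [IsDomain V] {n : ℕ} {κ : Type*} [Fintype κ]
    [DecidableEq κ] (T : Matrix (Fin n) κ V) (G : Fin n → κ) (hne : (T.submatrix id G).det ≠ 0)
    (hdom : ∀ G' : Fin n → κ, (T.submatrix id G).det ∣ (T.submatrix id G').det) (Y : κ → V) :
    ∃ Z : Fin n → V, (T.submatrix id G).mulVec Z = T.mulVec Y := by
  have h1 : ∀ (s : κ) (l : Fin n), (T.submatrix id G).det ∣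
      (T.submatrix id G).cramer (fun i => T i s) l := by
    intro s l
    rw [Matrix.cramer_apply]
    have h2 : (T.submatrix id G).updateCol l (fun i => T i s) =
        T.submatrix id (Function.update G l s) := by
      ext i j
      rw [Matrix.updateCol_apply, Matrix.submatrix_apply, Matrix.submatrix_apply]
      by_cases h : j = l
      · rw [if_pos h, h, Function.update_self]
        rfl
      · rw [if_neg h, Function.update_of_ne h]
    rw [h2]
    exact hdom _
  have h3 : T.mulVec Y = ∑ s, Y s • (fun i => T i s) := by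
    funext i
    rw [Finset.sum_apply]
    show ∑ s, T i s * Y s = ∑ s, Y s * T i s
    exact Finset.sum_congr rfl fun s _ => mul_comm _ _
  have h4 : ∀ l : Fin n, (T.submatrix id G).det ∣ (T.submatrix id G).cramer (T.mulVec Y) l := by
    intro l
    rw [h3, map_sum, Finset.sum_apply]
    refine Finset.dvd_sum fun s _ => ?_
    rw [map_smul, Pi.smul_apply, smul_eq_mul]
    exact (h1 s l).mul_left _
  choose Z hZ using h4
  refine ⟨Z, ?_⟩
  have h5 : (T.submatrix id G).cramer (T.mulVec Y) = (T.submatrix id G).det • Z := by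
    funext l
    rw [hZ l, Pi.smul_apply, smul_eq_mul]
  have h6 := Matrix.mulVec_cramer (T.submatrix id G) (T.mulVec Y)
  rw [h5, Matrix.mulVec_smul] at h6
  exact smul_right_injective _ hne h6

theorem exists_dom {ι : Type*} [Finite ι] [Nonempty ι] (f : ι → VV) : ∃ i, ∀ j, f i ∣ f j := by
  obtain ⟨i, hi⟩ := Finite.exists_min (fun i => v ((f i : VV) : Om))
  exact ⟨i, fun j => VV_dvd_iff.2 (hi j)⟩

theorem separate {n : ℕ} {κ : Type*} [Fintype κ] [DecidableEq κ] (T : Matrix (Fin n) κ VV)
    (hT : ∃ G : Fin n → κ, (T.submatrix id G).det ≠ 0) (x : Fin n → VV)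
    (hx : ∀ Y : κ → VV, T.mulVec Y ≠ x) :
    ∃ φ : Fin n → Om, (∀ Y : κ → VV, ∑ i, φ i * ((T.mulVec Y i : VV) : Om) ∈ VV) ∧
      ∑ i, φ i * ((x i : VV) : Om) ∉ VV := by
  obtain ⟨G0, hG0⟩ := hT
  have : Nonempty (Fin n → κ) := ⟨G0⟩
  obtain ⟨G, hG⟩ := exists_dom (fun G : Fin n → κ => (T.submatrix id G).det)
  have hne : (T.submatrix id G).det ≠ 0 := by
    intro h
    have := hG G0
    simp only [h] at this
    exact hG0 (zero_dvd_iff.1 this)
  set M : Matrix (Fin n) (Fin n) VV := T.submatrix id G with hM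
  let f : VV →+* Om := (VV.val : VV →ₐ[ℂ] Om).toRingHom
  have hdet : IsUnit (M.map f).det := by
    have h1 : (M.map f).det = f M.det := (RingHom.map_det f M).symm
    rw [h1, isUnit_iff_ne_zero]
    intro h
    exact hne (Subtype.ext h)
  by_contra hcon
  push Not at hcon
  have h2 : ∀ k, ∑ i, (M.map f)⁻¹ k i * ((x i : VV) : Om) ∈ VV := by
    intro k
    refine hcon (fun i => (M.map f)⁻¹ k i) fun Y => ?_
    obtain ⟨Z, hZ⟩ := cramer_range T G hne hG Y
    rw [← hZ]
    have h3 : ∑ i, (M.map f)⁻¹ k i * ((M.mulVec Z i : VV) : Om) = f (Z k) := by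
      have h4 : ∀ i, ((M.mulVec Z i : VV) : Om) = ((M.map f).mulVec (f ∘ Z)) i :=
        fun i => RingHom.map_mulVec f M Z i
      calc ∑ i, (M.map f)⁻¹ k i * ((M.mulVec Z i : VV) : Om)
          = ∑ i, (M.map f)⁻¹ k i * ((M.map f).mulVec (f ∘ Z)) i :=
            Finset.sum_congr rfl fun i _ => by rw [h4 i]
        _ = ((M.map f)⁻¹.mulVec ((M.map f).mulVec (f ∘ Z))) k := rfl
        _ = f (Z k) := by
            rw [Matrix.mulVec_mulVec, Matrix.nonsing_inv_mul _ hdet, Matrix.one_mulVec]
            rfl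
    rw [h3]
    exact (Z k).2
  let Z : Fin n → VV := fun k => ⟨_, h2 k⟩
  have h5 : M.mulVec Z = x := by
    funext i
    refine Subtype.ext ?_
    have h6 : ((M.mulVec Z i : VV) : Om) = ((M.map f).mulVec (f ∘ Z)) i :=
      RingHom.map_mulVec f M Z i
    have h7 : f ∘ Z = (M.map f)⁻¹.mulVec (fun i => ((x i : VV) : Om)) := rfl
    rw [h6, h7, Matrix.mulVec_mulVec, Matrix.mul_nonsing_inv _ hdet, Matrix.one_mulVec]
  refine hx (fun s => ∑ l with G l = s, Z l) ?_
  rw [← h5]
  funext i
  show ∑ s, T i s * (∑ l with G l = s, Z l) = ∑ l, T i (G l) * Z l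
  rw [← Finset.sum_fiberwise Finset.univ G (fun l => T i (G l) * Z l)]
  refine Finset.sum_congr rfl fun s _ => ?_
  rw [Finset.mul_sum]
  refine Finset.sum_congr rfl fun l hl => ?_
  rw [(Finset.mem_filter.1 hl).2]

end Pool.DeB
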