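import Pool.Agent.Lib.DeB.Defs

/-!
Module Minor. A matrix over a domain whose range contains `a * V^n`, `a ≠ 0`, has a nonzero
maximal minor. Proof: `T * Y = a • 1` and the determinant of `T * Y` is a combination of the
maximal minors of `T` (multilinearity).
-/

set_option autoImplicit false

namespace Pool.DeB

theorem minor_ne_zero {V : Type*} [CommRing V] [IsDomain V] {n : ℕ} {κ : Type*} [Fintype κ]
    [DecidableEq κ] (T : Matrix (Fin n) κ V) (a : V) (ha : a ≠ 0)
    (h : ∀ x : Fin n → V, ∃ Y : κ → V, T.mulVec Y = a • x) :
    ∃ G : Fin n → κ, (T.submatrix id G).det ≠ 0 := by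
  by_contra hcon
  push Not at hcon
  choose Y hY using fun i : Fin n => h (Pi.single i 1)
  -- the matrix with rows `T.mulVec (Y i)`
  have h1 : Matrix.det (fun i : Fin n => T.mulVec (Y i)) = a ^ n := by
    have e : (fun i : Fin n => T.mulVec (Y i)) = (a • (1 : Matrix (Fin n) (Fin n) V)) := by
      funext i j
      rw [hY i]
      by_cases hij : i = j
      · subst hij; simp
      · simp [hij, Ne.symm hij]
    rw [e, Matrix.det_smul]
    simp
  have h2 : Matrix.det (fun i : Fin n => T.mulVec (Y i)) = 0 := by
    have e : (fun i : Fin n => T.mulVec (Y i)) = fun i : Fin n => ∑ k : κ, Y i k • (fun j => T j k) := by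
      funext i j
      simp [Matrix.mulVec, dotProduct, Finset.sum_apply, mul_comm]
    rw [e]
    have := (Matrix.detRowAlternating (n := Fin n) (R := V)).toMultilinearMap.map_sum
      (fun (i : Fin n) (k : κ) => Y i k • (fun j => T j k : Fin n → V))
    change Matrix.detRowAlternating (fun i : Fin n => ∑ k : κ, Y i k • (fun j => T j k : Fin n → V)) = 0
    rw [show Matrix.detRowAlternating (fun i : Fin n => ∑ k : κ, Y i k • (fun j => T j k : Fin n → V))
      = _ from this]
    refine Finset.sum_eq_zero fun G _ => ?_
    have h3 := (Matrix.detRowAlternating (n := Fin n) (R := V)).toMultilinearMap.map_smul_univ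
      (fun i => Y i (G i)) (fun i => (fun j => T j (G i) : Fin n → V))
    rw [h3]
    have h4 : (Matrix.detRowAlternating (n := Fin n) (R := V)).toMultilinearMap
        (fun i => (fun j => T j (G i) : Fin n → V)) = 0 := by
      have := hcon G
      rw [← Matrix.det_transpose] at this
      exact this
    rw [h4, smul_zero]
  rw [h1] at h2
  exact pow_ne_zero n ha h2

end Pool.DeB
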