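import Pool.Agent.Lib.DeB.Defs3
import Pool.Agent.Lib.DeB.Gauss
import Pool.Agent.Lib.DeB.Mono

/-!
Module Lines (230 lines). Lines and crossings.
Write `α_{G,i} = (taylor c (d G)).coeff i`; the line `(G,i)` at `κ` is `v α_{G,i} + i κ` (`⊤` if `α = 0`).
PROOFS.
domD_iff: `gv_le_line`, `gv_line_attained`, `le_gv_iff`: `gv c κ (d G)` is the minimum of the lines of `G`.
noX: `α_{G,i} ∈ SM (M0 h)` (coefficients of `taylor c P` are polynomial expressions in `c` and the coefficients of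
  `P`: `taylor_coeff`, `hasseDeriv`, or `taylor c P` is a sum of `(X + C c)^i * C (P_i)`, all in the subalgebra), so
  `v α_{G,i} = k/(M0 h)`, `v α_{G',i'} = k'/(M0 h)` with integers, and `κ (i' - i) = (k - k')/(M0 h)`; `i, i' ≤ b`
  (`natDegree (taylor c P) = natDegree P`), so `h |i'-i|` divides `b! * b!` and `Q κ ∈ ℤ` for `Q = Qn M0 b = M0 b! b!`.
vert_of_two: `κ M0 h |i - i'| ∈ ℤ`, so `tp κ ∈ SM (M0 * (h * |i-i'|))` (`tp_mem_SM`), `c ∈ SM (M0 h |i-i'|)`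
  (`SM_mul_le`), `h |i-i'| ≤ b^2`.
act_edge: let `(G,i)` be active at `κ1` in the open interval. For a line `(G',i')` with `i' = i`: comparison is
  independent of `κ`. With `i' ≠ i`, `α_{G',i'} ≠ 0`: no crossing in the open interval (`NoX`: `Q κ` would be an integer
  strictly between `k` and `k+1`), so strict inequality at `κ1` and by continuity (linear functions: if the
  inequality failed at some `κ` of the closed interval, the difference of the two affine functions would vanish at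
  a point strictly between `κ1` and `κ`, which is in the open interval, or at ... ) `≤` on the closed interval.
act_next: at `κ0 = k/Q` all active lines have the same slope `i`. Let `(G,i)` be active at `κ0`. A line `(G',i')` with
  `i' ≠ i` is not active, so strictly above at `κ0`, and does not cross in the open interval: above on
  `[k/Q,(k+1)/Q]`.
-/

set_option autoImplicit false

open Polynomial

namespace Pool.DeB

variable {ι : Type} [Finite ι] {d : ι → Om[X]}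

omit [Finite ι] in
private theorem tay_SM {M : ℕ} {P : Om[X]} (hP : ∀ i, P.coeff i ∈ SM M) {c : Om} (hc : c ∈ SM M)
    (i : ℕ) : (taylor c P).coeff i ∈ SM M := by
  rw [taylor_coeff, eval_eq_sum_range]
  refine Subalgebra.sum_mem _ fun j _ => Subalgebra.mul_mem _ ?_ (Subalgebra.pow_mem _ hc j)
  rw [hasseDeriv_coeff]
  exact Subalgebra.mul_mem _ (Subalgebra.natCast_mem _ _) (hP _)

omit [Finite ι] in
private theorem line_real {P : Om[X]} {c : Om} {i : ℕ} (h : (taylor c P).coeff i ≠ 0) :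
    ∃ x : ℝ, v ((taylor c P).coeff i) = (x : WithTop ℝ) := by
  obtain ⟨x, hx⟩ := WithTop.ne_top_iff_exists.1 (v_ne_top.2 h)
  exact ⟨x, hx.symm⟩

omit [Finite ι] in
private theorem le_deg {b : ℕ} {P : Om[X]} (hb : P.natDegree ≤ b) {c : Om} {i : ℕ}
    (h : (taylor c P).coeff i ≠ 0) : i ≤ b := by
  have h1 := le_natDegree_of_ne_zero h
  rw [natDegree_taylor] at h1
  exact h1.trans hb

omit [Finite ι] in
private theorem cross {b M0 h : ℕ} (hdeg : ∀ G, (d G).natDegree ≤ b)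
    (hdS : ∀ G i, (d G).coeff i ∈ SM M0) {c : Om} (hc : c ∈ SM (M0 * h)) {G G' : ι} {i i' : ℕ}
    {κ : ℝ} (h1 : (taylor c (d G)).coeff i ≠ 0) (h2 : (taylor c (d G')).coeff i' ≠ 0)
    (heq : v ((taylor c (d G)).coeff i) + ((i * κ : ℝ) : WithTop ℝ) =
      v ((taylor c (d G')).coeff i') + ((i' * κ : ℝ) : WithTop ℝ)) :
    (∃ k : ℤ, ((M0 * h : ℕ) : ℝ) * ((((i' : ℤ) - (i : ℤ) : ℤ) : ℝ) * κ) = k) ∧ i ≤ b ∧ i' ≤ b := by
  refine ⟨?_, le_deg (hdeg G) h1, le_deg (hdeg G') h2⟩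
  obtain ⟨x, hx⟩ := line_real h1
  obtain ⟨y, hy⟩ := line_real h2
  obtain ⟨k, hk⟩ := v_SM (tay_SM (fun i => SM_mul_le M0 h (hdS G i)) hc i) hx
  obtain ⟨l, hl⟩ := v_SM (tay_SM (fun i => SM_mul_le M0 h (hdS G' i)) hc i') hy
  rw [hx, hy] at heq
  have h3 : x + i * κ = y + i' * κ := by exact_mod_cast heq
  refine ⟨k - l, ?_⟩
  push_cast at hk hl ⊢
  rw [← hk, ← hl]
  linear_combination (M0 * h : ℝ) * (-h3)

theorem domD_iff (hd : ∀ G, d G ≠ 0) {c : Om} {κ : ℝ} {G : ι} :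
    DomD d c κ G ↔ ∃ i, Act d c κ G i := by
  constructor
  · rintro ⟨h1, h2⟩
    obtain ⟨i, hi⟩ := gv_line_attained (c := c) (κ := κ) h1
    refine ⟨i, ?_, fun G' i' => ?_⟩
    · intro h3
      rw [h3, v_zero, top_add] at hi
      exact h1 (gv_eq_top.1 hi)
    · rw [← hi]
      exact (h2 G').trans (gv_le_line c κ (d G') i')
  · rintro ⟨i, h1, h2⟩
    exact ⟨hd G, fun G' => (gv_le_line c κ (d G) i).trans (le_gv_iff.2 fun i' => h2 G' i')⟩

theorem domD_exists [Nonempty ι] (hd : ∀ G, d G ≠ 0) (c : Om) (κ : ℝ) : ∃ G, DomD d c κ G := by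
  obtain ⟨G, hG⟩ := Finite.exists_min (fun G => gv c κ (d G))
  exact ⟨G, hd G, hG⟩

theorem domD_center {c c' : Om} {κ : ℝ} (h : (κ : WithTop ℝ) ≤ v (c - c')) {G : ι}
    (hG : DomD d c κ G) : DomD d c' κ G := by
  refine ⟨hG.1, fun G' => ?_⟩
  rw [← gv_center (d G) h, ← gv_center (d G') h]
  exact hG.2 G'

theorem noX_of_SM {b M0 h : ℕ} (hM0 : 0 < M0) (hdeg : ∀ G, (d G).natDegree ≤ b)
    (hdS : ∀ G i, (d G).coeff i ∈ SM M0) (h1 : 1 ≤ h) (h2 : h ≤ b) {c : Om}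
    (hc : c ∈ SM (M0 * h)) : NoX d c (Qn M0 b : ℝ) := by
  intro G i G' i' ha ha' hne κ heq
  obtain ⟨⟨k, hk⟩, hib, hib'⟩ := cross hdeg hdS hc ha ha' heq
  obtain ⟨p, hp⟩ := Nat.dvd_factorial (by omega : 0 < h) h2
  have hz : (i' : ℤ) - (i : ℤ) ≠ 0 := by omega
  obtain ⟨q, hq⟩ : ((i' : ℤ) - (i : ℤ)) ∣ (b.factorial : ℤ) := by
    rw [← Int.natAbs_dvd, Int.natCast_dvd_natCast]
    exact Nat.dvd_factorial (Int.natAbs_pos.2 hz) (by omega)
  refine ⟨p * q * k, ?_⟩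
  have e1 : ((b.factorial : ℕ) : ℝ) = h * p := by rw [hp]; push_cast; ring
  have e2 : ((b.factorial : ℕ) : ℝ) = ((((i' : ℤ) - (i : ℤ) : ℤ) : ℝ)) * q := by
    have : (((b.factorial : ℕ) : ℤ) : ℝ) = ((((i' : ℤ) - (i : ℤ)) * q : ℤ) : ℝ) := by rw [hq]
    push_cast at this ⊢
    exact this
  have e3 : ((Qn M0 b : ℕ) : ℝ) = M0 * (b.factorial : ℝ) * (b.factorial : ℝ) := by
    rw [Qn]; push_cast; ring
  rw [e3]
  conv_lhs => rw [mul_assoc (M0 : ℝ)]
  rw [show (M0 : ℝ) * ((b.factorial : ℝ) * (b.factorial : ℝ)) * κ =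
    (M0 : ℝ) * (h * p) * (((((i' : ℤ) - (i : ℤ) : ℤ) : ℝ)) * q) * κ by rw [← e1, ← e2]; ring]
  push_cast at hk ⊢
  rw [← hk]
  ring

theorem vert_of_two {b M0 h : ℕ} (hM0 : 0 < M0) (hdeg : ∀ G, (d G).natDegree ≤ b)
    (hdS : ∀ G i, (d G).coeff i ∈ SM M0) (h1 : 1 ≤ h) (h2 : h ≤ b) {c : Om} (hcV : c ∈ VV)
    (hc : c ∈ SM (M0 * h)) {κ : ℝ} (hκ : 0 ≤ κ) {G G' : ι} {i i' : ℕ} (hA : Act d c κ G i)
    (hA' : Act d c κ G' i') (hne : i ≠ i') : Vert M0 b c κ := by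
  have heq := le_antisymm (hA.2 G' i') (hA'.2 G i)
  obtain ⟨⟨k, hk⟩, hib, hib'⟩ := cross hdeg hdS hc hA.1 hA'.1 heq
  have hz : (i' : ℤ) - (i : ℤ) ≠ 0 := by omega
  have hpos : 0 < ((i' : ℤ) - (i : ℤ)).natAbs := Int.natAbs_pos.2 hz
  have hle : ((i' : ℤ) - (i : ℤ)).natAbs ≤ b := by omega
  refine ⟨hcV, hκ, h * ((i' : ℤ) - (i : ℤ)).natAbs, Nat.mul_pos h1 hpos, ?_, ?_, ?_⟩
  · rw [pow_two]; exact Nat.mul_le_mul h2 hle
  · rw [← mul_assoc]; exact SM_mul_le _ _ hc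
  · apply tp_mem_SM
    have habs : ((((i' : ℤ) - (i : ℤ)).natAbs : ℕ) : ℝ) = |((((i' : ℤ) - (i : ℤ) : ℤ)) : ℝ)| := by
      rw [← Int.cast_abs, Int.abs_eq_natAbs]; rfl
    rcases abs_choice ((((i' : ℤ) - (i : ℤ) : ℤ)) : ℝ) with h3 | h3
    · refine ⟨k, ?_⟩
      rw [← hk, ← mul_assoc M0 h, Nat.cast_mul (M0 * h), habs, h3]
      ring
    · refine ⟨-k, ?_⟩
      rw [Int.cast_neg, ← hk, ← mul_assoc M0 h, Nat.cast_mul (M0 * h), habs, h3]
      ring

omit [Finite ι] in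
private theorem no_int {Q κ : ℝ} (hQ : 0 < Q) {k : ℤ} (h1 : k / Q < κ) (h2 : κ < (k + 1) / Q)
    (h : ∃ m : ℤ, Q * κ = m) : False := by
  obtain ⟨m, hm⟩ := h
  rw [div_lt_iff₀ hQ] at h1
  rw [lt_div_iff₀ hQ] at h2
  rw [mul_comm] at hm
  rw [hm] at h1 h2
  have h3 : k < m := by exact_mod_cast h1
  have h4 : m < k + 1 := by exact_mod_cast h2
  omega

theorem act_edge {c : Om} {Q : ℝ} (hQ : 0 < Q) (hX : NoX d c Q) (k : ℤ) {κ1 : ℝ}
    (h1 : k / Q < κ1) (h2 : κ1 < (k + 1) / Q) {G : ι} {i : ℕ} (hA : Act d c κ1 G i) {κ : ℝ}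
    (h3 : k / Q ≤ κ) (h4 : κ ≤ (k + 1) / Q) : Act d c κ G i := by
  refine ⟨hA.1, fun G' i' => ?_⟩
  by_cases h0 : (taylor c (d G')).coeff i' = 0
  · rw [h0, v_zero, top_add]; exact le_top
  obtain ⟨x, hx⟩ := line_real hA.1
  obtain ⟨y, hy⟩ := line_real h0
  have h5 := hA.2 G' i'
  rw [hx, hy] at h5 ⊢
  have h6 : x + i * κ1 ≤ y + i' * κ1 := by exact_mod_cast h5
  suffices hs : x + i * κ ≤ y + i' * κ by exact_mod_cast hs
  by_cases hii : i = i'
  · rw [hii] at h6 ⊢; linarith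
  by_contra hlt
  push Not at hlt
  have hb : ((i' : ℝ) - i) ≠ 0 := by
    rw [sub_ne_zero]; exact_mod_cast (Ne.symm hii)
  have hX' := hX G i G' i' hA.1 h0 hii (-(y - x) / ((i' : ℝ) - i)) (by
    rw [hx, hy]
    have : x + i * (-(y - x) / ((i' : ℝ) - i)) = y + i' * (-(y - x) / ((i' : ℝ) - i)) := by
      field_simp; ring
    exact_mod_cast this)
  rcases lt_or_gt_of_ne hb with hneg | hpos
  · have e1 : κ1 ≤ -(y - x) / ((i' : ℝ) - i) := by
      rw [le_div_iff_of_neg hneg]; linarith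
    have e2 : -(y - x) / ((i' : ℝ) - i) < κ := by
      rw [div_lt_iff_of_neg hneg]; linarith
    exact no_int hQ (lt_of_lt_of_le h1 e1) (lt_of_lt_of_le e2 h4) hX'
  · have e1 : -(y - x) / ((i' : ℝ) - i) ≤ κ1 := by
      rw [div_le_iff₀ hpos]; linarith
    have e2 : κ < -(y - x) / ((i' : ℝ) - i) := by
      rw [lt_div_iff₀ hpos]; linarith
    exact no_int hQ (lt_of_le_of_lt h3 e2) (lt_of_le_of_lt e1 h2) hX'

theorem act_next {c : Om} {Q : ℝ} (hQ : 0 < Q) (hX : NoX d c Q) (k : ℤ) {i : ℕ}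
    (hs : ∀ G' i', Act d c (k / Q) G' i' → i' = i) {G : ι} (hA : Act d c (k / Q) G i) {κ : ℝ}
    (h3 : k / Q ≤ κ) (h4 : κ ≤ (k + 1) / Q) : Act d c κ G i := by
  refine ⟨hA.1, fun G' i' => ?_⟩
  by_cases h0 : (taylor c (d G')).coeff i' = 0
  · rw [h0, v_zero, top_add]; exact le_top
  obtain ⟨x, hx⟩ := line_real hA.1
  obtain ⟨y, hy⟩ := line_real h0
  have h5 := hA.2 G' i'
  by_cases hii : i = i'
  · rw [hx, hy] at h5 ⊢
    have h6 : x + i * (k / Q) ≤ y + i' * (k / Q) := by exact_mod_cast h5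
    suffices hs : x + i * κ ≤ y + i' * κ by exact_mod_cast hs
    rw [hii] at h6 ⊢; linarith
  have h5' : v ((taylor c (d G)).coeff i) + ((i * (k / Q) : ℝ) : WithTop ℝ) <
      v ((taylor c (d G')).coeff i') + ((i' * (k / Q) : ℝ) : WithTop ℝ) := by
    refine lt_of_le_of_ne h5 fun he => ?_
    exact hii (hs G' i' ⟨h0, fun G'' i'' => by rw [← he]; exact hA.2 G'' i''⟩).symm
  rw [hx, hy] at h5' ⊢
  have h6 : x + i * (k / Q) < y + i' * (k / Q) := by exact_mod_cast h5'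
  suffices hs : x + i * κ ≤ y + i' * κ by exact_mod_cast hs
  by_contra hlt
  push Not at hlt
  have hb : ((i' : ℝ) - i) ≠ 0 := by
    rw [sub_ne_zero]; exact_mod_cast (Ne.symm hii)
  have hX' := hX G i G' i' hA.1 h0 hii (-(y - x) / ((i' : ℝ) - i)) (by
    rw [hx, hy]
    have : x + i * (-(y - x) / ((i' : ℝ) - i)) = y + i' * (-(y - x) / ((i' : ℝ) - i)) := by
      field_simp; ring
    exact_mod_cast this)
  rcases lt_or_gt_of_ne hb with hneg | hpos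
  · have e1 : (k : ℝ) / Q < -(y - x) / ((i' : ℝ) - i) := by
      rw [lt_div_iff_of_neg hneg]; linarith
    have e2 : -(y - x) / ((i' : ℝ) - i) < κ := by
      rw [div_lt_iff_of_neg hneg]; linarith
    exact no_int hQ e1 (lt_of_lt_of_le e2 h4) hX'
  · have e1 : -(y - x) / ((i' : ℝ) - i) < k / Q := by
      rw [div_lt_iff₀ hpos]; linarith
    have e2 : κ < -(y - x) / ((i' : ℝ) - i) := by
      rw [lt_div_iff₀ hpos]; linarith
    linarith

end Pool.DeB
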