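import Pool.Agent.Lib.DeB.Defs
import Pool.Agent.Lib.DeB.AlgCl

/-!
Module ResA (200 lines). Residues: existence, uniqueness, rules. `IsRes S N d ρ` is defined in Defs.lean.
PROOFS. `Om` is algebraically closed (instance `isAlgClosed_Om`), so `d = C lc * ∏ (X - C p)` over `d.roots`.
exists: `D = ∏_{p ∈ d.roots, p ∈ S} (X - C p)`, `D' = C lc * ∏_{p ∉ S}`; `D`, `D'` have no common root, so they are
  coprime; `U * D' + V * D = 1`; `N = (N*U) * D' + (N*V) * D`; replace `N*U` by its remainder `A = (N*U) %ₘ D`.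
unique: let `(D, D', A, B)`, `(D1, D1', A1, B1)` be two such data. The roots of `d` in `S` with multiplicities are
  the roots of `D` and those of `D1`: `D = D1` (monic, split, same root multisets: `roots_mul`, count), so `D' = D1'`;
  `(A - A1) * D' = (B1 - B) * D`, `D` coprime to `D'`, so `D ∣ A - A1`, `deg < deg D`: `A = A1`.
add, sub: same `D`, `D'` (by the argument of `unique` or by taking the data of `exists`), `A + A1`.
  So it is convenient to first prove: if `IsRes S N d ρ` then for the CANONICAL `D`, `D'` of `d` there are `A`, `B`.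
mul: `e = E * E'` with `E` monic, roots in `S`, `E'` no roots in `S` (canonical): `N * e = (A * E) * (D' * E') +
  (B * E') * (D * E)`, `deg (A*E) < deg (D*E)`, and the coefficient of `X^(deg(DE)-1)` of `A * E` is
  `A.coeff (deg D - 1)` as `E` is monic (`deg A ≤ deg D - 1`; if `D = 1` then `A = 0`).
union: `d = D1 D2 D''` with `D1` the `S1`-part, `D2` the `S2`-part. From `N = A1 (D2 D'') + B1 D1` and
  `N = A2 (D1 D'') + B2 D2`: put `A = A1 D2 + A2 D1`. Then `N - A D''` is divisible by `D1` (`N - A1 D2 D''` is) and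
  by `D2`, coprime, so `N = A D'' + B D1 D2`; `deg A < deg (D1 D2)`, leading coefficients add.
congr: the data for `S` work for `S'`.
-/

set_option autoImplicit false

open Polynomial

namespace Pool.DeB

/-- the decomposition `d = D D'` -/
private structure Dec (S : Set Om) (d D D' : Om[X]) : Prop where
  mon : D.Monic
  eq : d = D * D'
  rt : ∀ z, D.IsRoot z → z ∈ S
  nr : ∀ z ∈ S, ¬ D'.IsRoot z

private theorem cop_of {f g : Om[X]} (h : ∀ z, f.IsRoot z → ¬ g.IsRoot z) : IsCoprime f g := by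
  rw [Polynomial.isCoprime_iff_aeval_ne_zero_of_isAlgClosed Om Om]
  intro a
  rw [Polynomial.coe_aeval_eq_eval]
  by_cases ha : f.eval a = 0
  · exact Or.inr fun h2 => h a ha h2
  · exact Or.inl ha

private theorem prod_monic (s : Multiset Om) : (s.map fun p => (X - C p : Om[X])).prod.Monic :=
  Polynomial.monic_multiset_prod_of_monic _ _ fun p _ => monic_X_sub_C p

private theorem prod_root (s : Multiset Om) (z : Om)
    (h : (s.map fun p => (X - C p : Om[X])).prod.IsRoot z) : z ∈ s := by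
  have h1 : z ∈ ((s.map fun p => (X - C p : Om[X])).prod).roots :=
    (mem_roots (prod_monic s).ne_zero).2 h
  rwa [roots_multiset_prod_X_sub_C] at h1

private theorem dec_exists (S : Set Om) {d : Om[X]} (hd : d ≠ 0) : ∃ D D', Dec S d D D' := by
  classical
  refine ⟨((d.roots.filter (· ∈ S)).map fun p => (X - C p : Om[X])).prod,
    C d.leadingCoeff * ((d.roots.filter (fun p => ¬ p ∈ S)).map fun p => (X - C p : Om[X])).prod,
    prod_monic _, ?_, ?_, ?_⟩
  · have h1 := (IsAlgClosed.splits d).eq_prod_roots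
    conv_lhs => rw [h1, ← Multiset.filter_add_not (· ∈ S) d.roots, Multiset.map_add,
      Multiset.prod_add]
    ring
  · intro z hz
    exact (Multiset.mem_filter.1 (prod_root _ z hz)).2
  · intro z hz h
    rw [IsRoot.def, eval_mul, eval_C] at h
    rcases mul_eq_zero.1 h with h2 | h2
    · exact hd (leadingCoeff_eq_zero.1 h2)
    · exact (Multiset.mem_filter.1 (prod_root _ z h2)).2 hz

private theorem Dec.cop {S : Set Om} {d D D' : Om[X]} (h : Dec S d D D') : IsCoprime D D' :=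
  cop_of fun z hz => h.nr z (h.rt z hz)

private theorem Dec.uniq {S : Set Om} {d D D' D1 D1' : Om[X]} (h : Dec S d D D')
    (h1 : Dec S d D1 D1') : D1 = D ∧ D1' = D' := by
  have e1 : D ∣ D1 := by
    have c : IsCoprime D D1' := cop_of fun z hz => h1.nr z (h.rt z hz)
    refine c.dvd_of_dvd_mul_right ?_
    rw [← h1.eq, h.eq]
    exact dvd_mul_right D D'
  have e2 : D1 ∣ D := by
    have c : IsCoprime D1 D' := cop_of fun z hz => h.nr z (h1.rt z hz)
    refine c.dvd_of_dvd_mul_right ?_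
    rw [← h.eq, h1.eq]
    exact dvd_mul_right D1 D1'
  have e3 : D1 = D := eq_of_monic_of_associated h1.mon h.mon (associated_of_dvd_dvd e2 e1)
  refine ⟨e3, ?_⟩
  have e4 : D * D1' = D * D' := by
    rw [← h.eq, h1.eq, e3]
  exact mul_left_cancel₀ h.mon.ne_zero e4

/-- `IsRes` for a given decomposition -/
private theorem Dec.res {S : Set Om} {N d D D' : Om[X]} {ρ : Om} (h : Dec S d D D')
    (hr : IsRes S N d ρ) : ∃ A B : Om[X], N = A * D' + B * D ∧ A.degree < D.degree ∧
      ρ = A.coeff (D.natDegree - 1) := by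
  obtain ⟨D1, D1', A, B, h1, h2, h3, h4, h5, h6, h7⟩ := hr
  obtain ⟨rfl, rfl⟩ := h.uniq (D1 := D1) (D1' := D1') ⟨h1, h2, h3, h4⟩
  exact ⟨A, B, h5, h6, h7⟩

private theorem Dec.mk' {S : Set Om} {N d D D' : Om[X]} {ρ : Om} (h : Dec S d D D')
    (A B : Om[X]) (h1 : N = A * D' + B * D) (h2 : A.degree < D.degree)
    (h3 : ρ = A.coeff (D.natDegree - 1)) : IsRes S N d ρ :=
  ⟨D, D', A, B, h.mon, h.eq, h.rt, h.nr, h1, h2, h3⟩

/-- the coefficients that define the residue, after multiplication by a monic polynomial -/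
private theorem coeff_aux {A D E : Om[X]} (hD : D.Monic) (hE : E.Monic) (h : A.degree < D.degree) :
    (A * E).coeff ((D * E).natDegree - 1) = A.coeff (D.natDegree - 1) := by
  by_cases hA : A = 0
  · rw [hA, zero_mul, coeff_zero, coeff_zero]
  have h1 : A.natDegree < D.natDegree := natDegree_lt_natDegree hA h
  rw [hD.natDegree_mul hE]
  have h2 : D.natDegree + E.natDegree - 1 = (D.natDegree - 1) + E.natDegree := by omega
  rw [h2, coeff_mul_add_eq_of_natDegree_le (by omega) le_rfl, hE.coeff_natDegree, mul_one]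

private theorem degree_aux {A D E : Om[X]} (hE : E.Monic) (h : A.degree < D.degree) :
    (A * E).degree < (D * E).degree := by
  rw [degree_mul, degree_mul]
  exact WithBot.add_lt_add_right (degree_ne_bot.2 hE.ne_zero) h

theorem isRes_exists (S : Set Om) (N : Om[X]) {d : Om[X]} (hd : d ≠ 0) : ∃ ρ, IsRes S N d ρ := by
  obtain ⟨D, D', h⟩ := dec_exists S hd
  obtain ⟨a, b, hab⟩ := h.cop
  refine ⟨_, h.mk' ((N * b) %ₘ D) (((N * b) /ₘ D) * D' + N * a) ?_
    (degree_modByMonic_lt _ h.mon) rfl⟩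
  have h1 := modByMonic_add_div (N * b) D
  linear_combination (-N) * hab - D' * h1

theorem isRes_unique {S : Set Om} {N d : Om[X]} (hd : d ≠ 0) {ρ ρ' : Om} (h : IsRes S N d ρ)
    (h' : IsRes S N d ρ') : ρ = ρ' := by
  obtain ⟨D, D', hD⟩ := dec_exists S hd
  obtain ⟨A, B, h1, h2, h3⟩ := hD.res h
  obtain ⟨A', B', h1', h2', h3'⟩ := hD.res h'
  have h4 : D ∣ A - A' := by
    refine hD.cop.dvd_of_dvd_mul_right ⟨B' - B, ?_⟩
    linear_combination h1' - h1
  have h5 : A - A' = 0 :=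
    eq_zero_of_dvd_of_degree_lt h4 (lt_of_le_of_lt (degree_sub_le _ _) (max_lt h2 h2'))
  rw [h3, h3', sub_eq_zero.1 h5]

theorem isRes_add {S : Set Om} {N N' d : Om[X]} (hd : d ≠ 0) {ρ ρ' : Om} (h : IsRes S N d ρ)
    (h' : IsRes S N' d ρ') : IsRes S (N + N') d (ρ + ρ') := by
  obtain ⟨D, D', hD⟩ := dec_exists S hd
  obtain ⟨A, B, h1, h2, h3⟩ := hD.res h
  obtain ⟨A', B', h1', h2', h3'⟩ := hD.res h'
  refine hD.mk' (A + A') (B + B') ?_ (lt_of_le_of_lt (degree_add_le _ _) (max_lt h2 h2')) ?_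
  · linear_combination h1 + h1'
  · rw [coeff_add, h3, h3']

theorem isRes_sub {S : Set Om} {N N' d : Om[X]} (hd : d ≠ 0) {ρ ρ' : Om} (h : IsRes S N d ρ)
    (h' : IsRes S N' d ρ') : IsRes S (N - N') d (ρ - ρ') := by
  obtain ⟨D, D', hD⟩ := dec_exists S hd
  obtain ⟨A, B, h1, h2, h3⟩ := hD.res h
  obtain ⟨A', B', h1', h2', h3'⟩ := hD.res h'
  refine hD.mk' (A - A') (B - B') ?_ (lt_of_le_of_lt (degree_sub_le _ _) (max_lt h2 h2')) ?_
  · linear_combination h1 - h1'
  · rw [coeff_sub, h3, h3']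

theorem isRes_mul {S : Set Om} {N d e : Om[X]} (hd : d ≠ 0) (he : e ≠ 0) {ρ : Om}
    (h : IsRes S N d ρ) : IsRes S (N * e) (d * e) ρ := by
  obtain ⟨D, D', hD⟩ := dec_exists S hd
  obtain ⟨E, E', hE⟩ := dec_exists S he
  obtain ⟨A, B, h1, h2, h3⟩ := hD.res h
  have hDE : Dec S (d * e) (D * E) (D' * E') := by
    refine ⟨hD.mon.mul hE.mon, ?_, ?_, ?_⟩
    · rw [hD.eq, hE.eq]
      ring
    · intro z hz
      rw [IsRoot.def, eval_mul] at hz
      rcases mul_eq_zero.1 hz with h4 | h4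
      · exact hD.rt z h4
      · exact hE.rt z h4
    · intro z hz h4
      rw [IsRoot.def, eval_mul] at h4
      rcases mul_eq_zero.1 h4 with h5 | h5
      · exact hD.nr z hz h5
      · exact hE.nr z hz h5
  refine hDE.mk' (A * E) (B * E') ?_ (degree_aux hE.mon h2) ?_
  · have h4 := hE.eq
    linear_combination e * h1 + (A * D' + B * D) * h4
  · rw [h3, coeff_aux hD.mon hE.mon h2]

theorem isRes_union {S S' : Set Om} {N d : Om[X]} (hd : d ≠ 0) (hdis : Disjoint S S') {ρ ρ' : Om}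
    (h : IsRes S N d ρ) (h' : IsRes S' N d ρ') : IsRes (S ∪ S') N d (ρ + ρ') := by
  obtain ⟨D1, D1', hD1⟩ := dec_exists S hd
  have hd' : D1' ≠ 0 := by
    intro h0
    apply hd
    rw [hD1.eq, h0, mul_zero]
  obtain ⟨D2, D'', hD2⟩ := dec_exists S' hd'
  have hdj : ∀ z, z ∈ S → z ∈ S' → False := fun z h1 h2 => Set.disjoint_left.1 hdis h1 h2
  have k1 : Dec S d D1 (D2 * D'') := by
    rw [← hD2.eq]
    exact hD1
  have k2 : Dec S' d D2 (D1 * D'') := by
    refine ⟨hD2.mon, ?_, hD2.rt, ?_⟩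
    · rw [k1.eq]
      ring
    · intro z hz h4
      rw [IsRoot.def, eval_mul] at h4
      rcases mul_eq_zero.1 h4 with h5 | h5
      · exact hdj z (hD1.rt z h5) hz
      · exact hD2.nr z hz h5
  have k3 : Dec (S ∪ S') d (D1 * D2) D'' := by
    refine ⟨hD1.mon.mul hD2.mon, ?_, ?_, ?_⟩
    · rw [k1.eq]
      ring
    · intro z hz
      rw [IsRoot.def, eval_mul] at hz
      rcases mul_eq_zero.1 hz with h4 | h4
      · exact Or.inl (hD1.rt z h4)
      · exact Or.inr (hD2.rt z h4)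
    · rintro z (hz | hz) h4
      · refine k1.nr z hz ?_
        rw [IsRoot.def, eval_mul, h4.eq_zero, mul_zero]
      · exact hD2.nr z hz h4
  obtain ⟨A1, B1, h1, h2, h3⟩ := k1.res h
  obtain ⟨A2, B2, h1', h2', h3'⟩ := k2.res h'
  have hcop : IsCoprime D1 D2 := cop_of fun z hz hz' => hdj z (hD1.rt z hz) (hD2.rt z hz')
  have e1 : D1 ∣ N - (A1 * D2 + A2 * D1) * D'' :=
    ⟨B1 - A2 * D'', by linear_combination h1⟩
  have e2 : D2 ∣ N - (A1 * D2 + A2 * D1) * D'' :=
    ⟨B2 - A1 * D'', by linear_combination h1'⟩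
  obtain ⟨B, hB⟩ := hcop.mul_dvd e1 e2
  have c1 : (A1 * D2).degree < (D1 * D2).degree := degree_aux hD2.mon h2
  have c2 : (A2 * D1).degree < (D1 * D2).degree := by
    rw [mul_comm D1 D2]
    exact degree_aux hD1.mon h2'
  refine k3.mk' (A1 * D2 + A2 * D1) B ?_
    (lt_of_le_of_lt (degree_add_le _ _) (max_lt c1 c2)) ?_
  · linear_combination hB
  · have c3 := coeff_aux hD2.mon hD1.mon h2'
    rw [mul_comm D2 D1] at c3
    rw [coeff_add, coeff_aux hD1.mon hD2.mon h2, c3, h3, h3']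

theorem isRes_congr {S S' : Set Om} {N d : Om[X]} {ρ : Om} (hS : ∀ z, d.IsRoot z → (z ∈ S ↔ z ∈ S'))
    (h : IsRes S N d ρ) : IsRes S' N d ρ := by
  obtain ⟨D, D', A, B, h1, h2, h3, h4, h5, h6, h7⟩ := h
  have hr : ∀ z, D.IsRoot z → d.IsRoot z := by
    intro z hz
    rw [IsRoot.def, h2, eval_mul, hz.eq_zero, zero_mul]
  have hr' : ∀ z, D'.IsRoot z → d.IsRoot z := by
    intro z hz
    rw [IsRoot.def, h2, eval_mul, hz.eq_zero, mul_zero]
  exact ⟨D, D', A, B, h1, h2, fun z hz => (hS z (hr z hz)).1 (h3 z hz),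
    fun z hz hz' => h4 z ((hS z (hr' z hz')).2 hz) hz', h5, h6, h7⟩

/-- no roots in `S`: the residue is `0`. -/
theorem isRes_zero {S : Set Om} {N d : Om[X]} (hS : ∀ z, d.IsRoot z → z ∉ S) : IsRes S N d 0 := by
  refine ⟨1, d, 0, N, monic_one, (one_mul d).symm, ?_, fun z hz hz' => hS z hz' hz, ?_, ?_, ?_⟩
  · intro z hz
    rw [IsRoot.def, eval_one] at hz
    exact absurd hz one_ne_zero
  · rw [zero_mul, zero_add, mul_one]
  · rw [degree_zero, degree_one]
    exact WithBot.bot_lt_coe _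
  · rw [coeff_zero]

end Pool.DeB
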