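import Pool.Agent.Lib.DeB.Gauss
import Pool.Agent.Lib.DeB.ResA

/-!
Module ResInt (230 lines). (R1) of the paper: integrality of the residue in an open disc.
PROOF. First the case `c = 0`, `κ = 0`, `l = 0` for polynomials with coefficients in `VV`:
Core claim: `D` monic with coefficients in `VV` and `v (D_i) > 0` for `i < n = natDegree D` (all roots `p` have `v p > 0`);
`D'` with coefficients in `VV` and `v (D'_0) = 0`; `N` with coefficients in `VV`; `N = A D' + B D`, `deg A < n`. Then `A` has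
coefficients in `VV`. Suppose not: `μ = gn A < 0` real. Multiply by `t^(-μ)`: `A1 = t^(-μ) A` has `gn A1 = 0`,
`t^(-μ) N` has `gn > 0`, `B1 D = t^(-μ) N - A1 D'` has coefficients in `VV`, so `gn B1 ≥ 0` by `gn_mul` (`gn D = 0`). Look at the
smallest index `i` with `v (A1_i) = 0`, `i < n`: the coefficient of `X^i` in `A1 D'` is `A1_i D'_0 + (order > 0)`, so of order
`0`; the coefficient of `X^i` in `B1 D` is `∑_j B1_j D_(i-j)`, all `D_(i-j)` with `i - j < n` have order `> 0`: order `> 0`; and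
that of `t^(-μ) N` has order `> 0`. Contradiction to `A1 D' + B1 D = t^(-μ) N`.
General case: substitute `z = c + t^κ u` (`scal c κ`, a ring homomorphism in `P`). `n = natDegree D`. The roots `p` of
`D` satisfy `v (p - c) > κ`; `D~ = t^(-n κ) scal D = ∏ (u - (p-c)/t^κ)` is monic, lower coefficients of order `> 0`.
`D' = C lc * ∏ (X - C p)`, `v (p - c) ≤ κ` for its roots (as `p ∉ odisc c κ`; in particular `p ≠ c`):
`scal D' = λ * ∏ (1 - u t^κ/(p-c))` with `λ = lc * ∏ (c - p) = D'(c) ≠ 0`; `D'~ = λ^(-1) scal D'` has coefficients in `VV` and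
constant coefficient `1`. So `gv c κ d = gn (scal D) + gn (scal D') = n κ + v λ`. Put `N~ = t^(-l) t^(-nκ) λ^(-1) scal N`:
coefficients in `VV` by the hypothesis `gv c κ N ≥ gv c κ d + l`. From `scal N = scal A * scal D' + scal B * scal D`:
`N~ = A~ * D'~ + B~ * D~` with `A~ = t^(-l) t^(-nκ) scal A`. The core claim: coefficients of `A~` in `VV`. The coefficient of
`u^(n-1)` of `scal A` is `A.coeff (n-1) * t^((n-1)κ)` (`deg A ≤ n - 1`), so `v (A.coeff (n-1)) ≥ l + nκ - (n-1)κ = κ + l`.
(`n = 0`: `A = 0`, `ρ = 0`.)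
-/

set_option autoImplicit false

open Polynomial

namespace Pool.DeB

private theorem lt_add_aux {a b : ℝ} {x y : WithTop ℝ} (h1 : (a : WithTop ℝ) < x)
    (h2 : (b : WithTop ℝ) ≤ y) : ((a + b : ℝ) : WithTop ℝ) < x + y := by
  induction x using WithTop.recTopCoe with
  | top => rw [top_add]; exact WithTop.coe_lt_top _
  | coe x =>
    induction y using WithTop.recTopCoe with
    | top => rw [add_top]; exact WithTop.coe_lt_top _
    | coe y =>
      rw [← WithTop.coe_add, WithTop.coe_lt_coe]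
      have h3 : a < x := by exact_mod_cast h1
      have h4 : b ≤ y := by exact_mod_cast h2
      linarith

private theorem le_add_aux {a b : ℝ} {x y : WithTop ℝ} (h1 : (a : WithTop ℝ) ≤ x)
    (h2 : (b : WithTop ℝ) ≤ y) : ((a + b : ℝ) : WithTop ℝ) ≤ x + y := by
  rw [WithTop.coe_add]
  exact add_le_add h1 h2

private theorem v_add_gt {κ : ℝ} {f g : Om} (h1 : (κ : WithTop ℝ) < v f)
    (h2 : (κ : WithTop ℝ) < v g) : (κ : WithTop ℝ) < v (f + g) :=
  lt_of_lt_of_le (lt_min h1 h2) (v_add_ge f g)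

private theorem v_sum_gt {ι : Type*} (s : Finset ι) (f : ι → Om) (κ : ℝ)
    (h : ∀ k ∈ s, (κ : WithTop ℝ) < v (f k)) : (κ : WithTop ℝ) < v (∑ k ∈ s, f k) := by
  classical
  induction s using Finset.induction_on with
  | empty => rw [Finset.sum_empty, v_zero]; exact WithTop.coe_lt_top _
  | insert a s ha ih =>
    rw [Finset.sum_insert ha]
    exact v_add_gt (h a (Finset.mem_insert_self a s))
      (ih fun k hk => h k (Finset.mem_insert_of_mem hk))

private theorem scal_mul (c : Om) (κ : ℝ) (P Q : Om[X]) :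
    scal c κ (P * Q) = scal c κ P * scal c κ Q := mul_comp P Q _

private theorem scal_add (c : Om) (κ : ℝ) (P Q : Om[X]) :
    scal c κ (P + Q) = scal c κ P + scal c κ Q := add_comp

private theorem scal_one (c : Om) (κ : ℝ) : scal c κ 1 = 1 := one_comp

private theorem scal_C (c : Om) (κ : ℝ) (a : Om) : scal c κ (C a) = C a := C_comp

private theorem scal_XC (c : Om) (κ : ℝ) (p : Om) :
    scal c κ (X - C p) = C (tp κ) * X + C (c - p) := by
  rw [scal, sub_comp, X_comp, C_comp, C_sub]
  ring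

private theorem monic_nonneg {Q : Om[X]} (h1 : Q.Monic)
    (h3 : ∀ i < Q.natDegree, (0 : WithTop ℝ) < v (Q.coeff i)) (i : ℕ) :
    (0 : WithTop ℝ) ≤ v (Q.coeff i) := by
  rcases lt_trichotomy i Q.natDegree with h | h | h
  · exact (h3 i h).le
  · rw [h, coeff_natDegree, h1.leadingCoeff, v_one]
  · rw [coeff_eq_zero_of_natDegree_lt h, v_zero]; exact le_top

/-- the part with roots near `c` -/
private theorem near {c : Om} {κ : ℝ} (m : Multiset Om) (h : ∀ p ∈ m, p ∈ odisc c κ) :
    ∃ Q : Om[X], scal c κ (m.map fun p => X - C p).prod = C (tp (m.card * κ)) * Q ∧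
      Q.Monic ∧ Q.natDegree = m.card ∧
      ∀ i < Q.natDegree, (0 : WithTop ℝ) < v (Q.coeff i) := by
  induction m using Multiset.induction_on with
  | empty => exact ⟨1, by simp [scal_one, tp_zero], monic_one, by simp, by simp⟩
  | cons p m ih =>
    obtain ⟨Q, hQ1, hQ2, hQ3, hQ4⟩ := ih fun q hq => h q (Multiset.mem_cons_of_mem hq)
    have hp : (κ : WithTop ℝ) < v (p - c) := h p (Multiset.mem_cons_self p m)
    set q : Om := (c - p) / tp κ with hq
    have hqv : (0 : WithTop ℝ) < v q := by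
      have e1 : v (c - p) = v q + v (tp κ) := by
        rw [← v_mul, hq, div_mul_cancel₀ _ (tp_ne_zero κ)]
      rw [v_sub_comm, e1, v_tp] at hp
      generalize v q = y at hp
      induction y using WithTop.recTopCoe with
      | top => exact WithTop.coe_lt_top _
      | coe y =>
        have h3 : κ < y + κ := by exact_mod_cast hp
        have h4 : 0 < y := by linarith
        exact_mod_cast h4
    have hmul : ∀ x : Om, (0 : WithTop ℝ) ≤ v x → (0 : WithTop ℝ) < v (q * x) := by
      intro x hx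
      rw [v_mul]
      exact add_pos_of_pos_of_nonneg hqv hx
    have hadd : ∀ x y : Om, (0 : WithTop ℝ) < v x → (0 : WithTop ℝ) < v y →
        (0 : WithTop ℝ) < v (x + y) := fun x y hx hy =>
      lt_of_lt_of_le (lt_min hx hy) (v_add_ge x y)
    have hd : ((X + C q) * Q).natDegree = m.card + 1 := by
      rw [(monic_X_add_C q).natDegree_mul hQ2, natDegree_X_add_C, hQ3, add_comm]
    refine ⟨(X + C q) * Q, ?_, (monic_X_add_C q).mul hQ2, ?_, ?_⟩
    · rw [Multiset.map_cons, Multiset.prod_cons, scal_mul, hQ1, scal_XC, Multiset.card_cons]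
      have e2 : c - p = tp κ * q := by rw [hq, mul_div_cancel₀ _ (tp_ne_zero κ)]
      have e3 : ((m.card + 1 : ℕ) : ℝ) * κ = κ + m.card * κ := by push_cast; ring
      rw [e2, e3, tp_add, C_mul, C_mul]
      ring
    · rw [hd, Multiset.card_cons]
    · intro i hi
      rw [hd] at hi
      rw [add_mul, coeff_add, coeff_C_mul]
      cases i with
      | zero =>
        rw [mul_coeff_zero, coeff_X_zero, zero_mul, zero_add]
        exact hmul _ (monic_nonneg hQ2 hQ4 0)
      | succ i =>
        rw [coeff_X_mul]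
        exact hadd _ _ (hQ4 i (by omega)) (hmul _ (monic_nonneg hQ2 hQ4 _))

/-- the part with roots far from `c` -/
private theorem far {c : Om} {κ : ℝ} (m : Multiset Om) (h : ∀ p ∈ m, p ∉ odisc c κ) :
    gn (scal c κ (m.map fun p => X - C p).prod) =
      v ((scal c κ (m.map fun p => X - C p).prod).coeff 0) := by
  induction m using Multiset.induction_on with
  | empty =>
    rw [Multiset.map_zero, Multiset.prod_zero, scal_one, coeff_one_zero, v_one]
    refine le_antisymm ?_ ?_
    · have := gn_le (1 : Om[X]) 0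
      rwa [coeff_one_zero, v_one] at this
    · rw [le_gn_iff]
      intro i
      rw [coeff_one]
      split_ifs
      · rw [v_one]
      · rw [v_zero]; exact le_top
  | cons p m ih =>
    have h1 := ih fun q hq => h q (Multiset.mem_cons_of_mem hq)
    have hp : v (c - p) ≤ (κ : WithTop ℝ) := by
      have h2 := h p (Multiset.mem_cons_self p m)
      have h3 : ¬ (κ : WithTop ℝ) < v (p - c) := h2
      rw [v_sub_comm]
      exact not_lt.1 h3
    rw [Multiset.map_cons, Multiset.prod_cons, scal_mul, gn_mul, mul_coeff_zero, v_mul, h1, scal_XC]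
    congr 1
    have h0 : (C (tp κ) * X + C (c - p) : Om[X]).coeff 0 = c - p := by simp
    rw [h0]
    refine le_antisymm ?_ ?_
    · have := gn_le (C (tp κ) * X + C (c - p) : Om[X]) 0
      rwa [h0] at this
    · rw [le_gn_iff]
      intro i
      rw [coeff_add, coeff_C_mul, coeff_X, coeff_C]
      rcases i with _ | _ | i
      · simp
      · simp only [zero_add, if_true, mul_one, one_ne_zero, if_false, add_zero]
        rw [v_tp]
        exact hp
      · have e1 : ¬ (1 = i + 1 + 1) := by omega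
        have e2 : ¬ (i + 1 + 1 = 0) := by omega
        rw [if_neg e1, if_neg e2, mul_zero, add_zero, v_zero]
        exact le_top

private theorem exists_real {x : WithTop ℝ} (h : x ≠ ⊤) : ∃ r : ℝ, x = r := by
  obtain ⟨r, hr⟩ := WithTop.ne_top_iff_exists.1 h
  exact ⟨r, hr.symm⟩

/-- the core claim -/
private theorem core {a E b Q N : Om[X]} {δ ν : ℝ} (hQ : Q.Monic)
    (hQ2 : ∀ i < Q.natDegree, (0 : WithTop ℝ) < v (Q.coeff i)) (ha : a.degree < Q.degree)
    (hE1 : gn E = (δ : WithTop ℝ)) (hE2 : v (E.coeff 0) = (δ : WithTop ℝ))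
    (hN : ((ν + δ : ℝ) : WithTop ℝ) ≤ gn N) (h : N = a * E + b * Q) :
    (ν : WithTop ℝ) ≤ gn a := by
  by_contra hlt
  rw [not_le] at hlt
  have ha0 : a ≠ 0 := by
    rintro rfl
    rw [gn_eq_top.2 rfl] at hlt
    exact absurd hlt (not_lt.2 le_top)
  obtain ⟨μ, hμ⟩ := exists_real (fun h => ha0 (gn_eq_top.1 h))
  have hμν : μ < ν := by rw [hμ] at hlt; exact_mod_cast hlt
  have hgQ : gn Q = 0 := by
    refine le_antisymm ?_ ?_
    · have := gn_le Q Q.natDegree
      rwa [coeff_natDegree, hQ.leadingCoeff, v_one] at this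
    · rw [le_gn_iff]
      exact monic_nonneg hQ hQ2
  have hNgt : ((μ + δ : ℝ) : WithTop ℝ) < gn N := by
    refine lt_of_lt_of_le ?_ hN
    rw [WithTop.coe_lt_coe]
    linarith
  have hb : ((μ + δ : ℝ) : WithTop ℝ) ≤ gn b := by
    have e1 : gn (b * Q) = gn b := by rw [gn_mul, hgQ, add_zero]
    rw [← e1, le_gn_iff]
    intro i
    have e2 : b * Q = N - a * E := by rw [h]; ring
    rw [e2, coeff_sub]
    refine le_trans (le_min ?_ ?_) (v_sub_ge _ _)
    · exact le_trans hNgt.le (gn_le N i)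
    · refine le_trans ?_ (gn_le (a * E) i)
      rw [gn_mul, hμ, hE1, WithTop.coe_add]
  classical
  have hex : ∃ i, v (a.coeff i) = gn a := gn_attained ha0
  let i := Nat.find hex
  have hi : v (a.coeff i) = gn a := Nat.find_spec hex
  have hmin : ∀ j < i, (μ : WithTop ℝ) < v (a.coeff j) := by
    intro j hj
    refine lt_of_le_of_ne ?_ ?_
    · rw [← hμ]; exact gn_le a j
    · rw [← hμ]
      exact fun e => Nat.find_min hex hj e.symm
  have hiQ : i < Q.natDegree := by
    by_contra hge
    rw [not_lt] at hge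
    have h1 : a.natDegree < Q.natDegree := natDegree_lt_natDegree ha0 ha
    have h2 : a.coeff i = 0 := coeff_eq_zero_of_natDegree_lt (by omega)
    rw [h2, v_zero] at hi
    exact ha0 (gn_eq_top.1 hi.symm)
  -- the coefficient of `X^i`
  have h1 : ((μ + δ : ℝ) : WithTop ℝ) < v ((b * Q).coeff i) := by
    rw [coeff_mul]
    refine v_sum_gt _ _ _ fun x hx => ?_
    have hx2 : x.1 + x.2 = i := Finset.HasAntidiagonal.mem_antidiagonal.1 hx
    rw [v_mul, add_comm (v _)]
    have h2 := lt_add_aux (a := 0) (b := μ + δ) (hQ2 x.2 (by omega)) (le_trans hb (gn_le b x.1))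
    rwa [zero_add] at h2
  have h2 : ((μ + δ : ℝ) : WithTop ℝ) < v ((a * E).coeff i - a.coeff i * E.coeff 0) := by
    have e1 : (a * E).coeff i - a.coeff i * E.coeff 0 =
        ∑ x ∈ (Finset.HasAntidiagonal.antidiagonal i).erase (i, 0), a.coeff x.1 * E.coeff x.2 := by
      rw [coeff_mul, ← Finset.add_sum_erase (Finset.HasAntidiagonal.antidiagonal i)
        (fun x : ℕ × ℕ => a.coeff x.1 * E.coeff x.2) (a := (i, 0)) (by simp)]
      ring
    rw [e1]
    refine v_sum_gt _ _ _ fun x hx => ?_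
    obtain ⟨hx1, hx2⟩ := Finset.mem_erase.1 hx
    have hx3 : x.1 + x.2 = i := Finset.HasAntidiagonal.mem_antidiagonal.1 hx2
    have hx4 : x.1 < i := by
      rcases Nat.lt_or_ge x.1 i with h | h
      · exact h
      · exact absurd (Prod.ext (by omega : x.1 = i) (by omega : x.2 = 0)) hx1
    rw [v_mul]
    exact lt_add_aux (hmin _ hx4) (by rw [← hE1]; exact gn_le E _)
  have h3 : ((μ + δ : ℝ) : WithTop ℝ) < v (a.coeff i * E.coeff 0) := by
    have e1 : a.coeff i * E.coeff 0 = (N.coeff i - (b * Q).coeff i) -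
        ((a * E).coeff i - a.coeff i * E.coeff 0) := by
      rw [h, coeff_add]; ring
    rw [e1]
    refine lt_of_lt_of_le (lt_min (lt_of_lt_of_le (lt_min ?_ h1) (v_sub_ge _ _)) h2) (v_sub_ge _ _)
    exact lt_of_lt_of_le hNgt (gn_le N i)
  rw [v_mul, hi, hμ, hE2, ← WithTop.coe_add] at h3
  exact lt_irrefl _ h3

theorem res_integral {c : Om} {κ l : ℝ} {N d : Om[X]} (hd : d ≠ 0)
    (h : gv c κ d + (l : WithTop ℝ) ≤ gv c κ N) {ρ : Om} (hρ : IsRes (odisc c κ) N d ρ) :
    ((κ + l : ℝ) : WithTop ℝ) ≤ v ρ := by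
  obtain ⟨D, D', A, B, hD, hdD, hroot, hroot', hNAB, hdeg, rfl⟩ := hρ
  have hD'0 : D' ≠ 0 := by
    rintro rfl
    exact hd (by rw [hdD, mul_zero])
  set n := D.natDegree with hn
  by_cases hρ0 : A.coeff (n - 1) = 0
  · rw [hρ0, v_zero]; exact le_top
  -- the near part
  have hDs : D = (D.roots.map fun p => X - C p).prod :=
    (IsAlgClosed.splits D).eq_prod_roots_of_monic hD
  have hcard : D.roots.card = n := by
    conv_rhs => rw [hn, hDs]
    rw [natDegree_multiset_prod_X_sub_C_eq_card]
  obtain ⟨Q, hQ1, hQ2, hQ3, hQ4⟩ := near (c := c) (κ := κ) D.roots fun p hp =>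
    hroot p ((mem_roots hD.ne_zero).1 hp)
  rw [← hDs, hcard] at hQ1
  rw [hcard] at hQ3
  -- the far part
  have hfar : gn (scal c κ D') = v ((scal c κ D').coeff 0) := by
    have h1 : D' = C D'.leadingCoeff * (D'.roots.map fun p => X - C p).prod :=
      (IsAlgClosed.splits D').eq_prod_roots
    have h2 := far (c := c) (κ := κ) D'.roots fun p hp hS =>
      hroot' p hS ((mem_roots hD'0).1 hp)
    rw [h1, scal_mul, scal_C, gn_C_mul, coeff_C_mul, v_mul, h2]
  have hD'2 : gn (scal c κ D') ≠ ⊤ := fun h => scal_ne_zero hD'0 (gn_eq_top.1 h)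
  obtain ⟨δ, hδ⟩ := exists_real hD'2
  have hgQ : gn Q = 0 := by
    refine le_antisymm ?_ ?_
    · have := gn_le Q Q.natDegree
      rwa [coeff_natDegree, hQ2.leadingCoeff, v_one] at this
    · rw [le_gn_iff]
      exact monic_nonneg hQ2 hQ4
  have hgD : gn (scal c κ D) = ((n * κ : ℝ) : WithTop ℝ) := by
    rw [hQ1, gn_C_mul, v_tp, hgQ, add_zero]
  have hNge : ((n * κ + l + δ : ℝ) : WithTop ℝ) ≤ gn (scal c κ N) := by
    refine le_trans ?_ h
    rw [gv, hdD, scal_mul, gn_mul, hgD, hδ, ← WithTop.coe_add, ← WithTop.coe_add, WithTop.coe_le_coe]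
    linarith
  have hcore : ((n * κ + l : ℝ) : WithTop ℝ) ≤ gn (scal c κ A) := by
    refine core (a := scal c κ A) (E := scal c κ D') (b := scal c κ B * C (tp (n * κ))) (Q := Q)
      (N := scal c κ N) (δ := δ) hQ2 hQ4 ?_ hδ (by rw [← hfar, hδ]) hNge ?_
    · have h1 : (scal c κ A).degree ≤ A.degree := by
        by_cases hA : A = 0
        · rw [hA]
          simp [scal]
        · have h2 : (C (tp κ) * X + C c : Om[X]).natDegree = 1 :=
            natDegree_linear (tp_ne_zero κ)
          refine degree_le_of_natDegree_le ?_ |>.trans (degree_eq_natDegree hA).ge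
          rw [scal, natDegree_comp, h2, mul_one]
      refine lt_of_le_of_lt h1 (lt_of_lt_of_eq hdeg ?_)
      rw [degree_eq_natDegree hD.ne_zero, degree_eq_natDegree hQ2.ne_zero, hQ3]
    · rw [hNAB, scal_add, scal_mul, scal_mul, hQ1]
      ring
  have hA0 : A ≠ 0 := by
    rintro rfl
    exact hρ0 (coeff_zero _)
  have hn1 : A.natDegree < n := by
    rw [hn]; exact natDegree_lt_natDegree hA0 hdeg
  have hA1 : A.natDegree = n - 1 := by
    refine le_antisymm (by omega) ?_
    exact le_natDegree_of_ne_zero hρ0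
  have hco : (scal c κ A).coeff (n - 1) = A.coeff (n - 1) * tp κ ^ (n - 1) := by
    have h2 : (C (tp κ) * X + C c : Om[X]).natDegree = 1 := natDegree_linear (tp_ne_zero κ)
    have h3 : (C (tp κ) * X + C c : Om[X]).leadingCoeff = tp κ :=
      leadingCoeff_linear (tp_ne_zero κ)
    have h4 := coeff_comp_degree_mul_degree (p := A) (q := (C (tp κ) * X + C c : Om[X]))
      (by rw [h2]; exact one_ne_zero)
    rw [h2, h3, mul_one, leadingCoeff, hA1] at h4
    exact h4
  obtain ⟨r, hr⟩ := exists_real (v_ne_top.2 hρ0)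
  have hfin : ((n * κ + l : ℝ) : WithTop ℝ) ≤ v (A.coeff (n - 1)) + v (tp κ ^ (n - 1)) := by
    rw [← v_mul, ← hco]
    exact le_trans hcore (gn_le _ _)
  rw [hr, ← tp_nsmul, v_tp, ← WithTop.coe_add, WithTop.coe_le_coe] at hfin
  rw [hr, WithTop.coe_le_coe]
  have hn2 : ((n - 1 : ℕ) : ℝ) = n - 1 := by
    rw [Nat.cast_sub (by omega)]
    simp
  rw [hn2] at hfin
  linarith

end Pool.DeB
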