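import Pool.Agent.Lib.DeB.ResA

/-!
Module ResUn (80 lines). If all local residues are integral then so is their sum.
Let `T` be a set of points and `κ` real such that every root of `d` in `S` lies in the open disc
`odisc c' κ = {z : v (z - c') > κ}` of some root `c'` of `d` in `S`, all these discs are inside `S`, and the residue of
`N/d` in each of them is in `VV`. Then the residue in `S` is in `VV`.
PROOF. Two discs `odisc c κ`, `odisc c' κ` are equal or disjoint (ultrametric). `d` has finitely many roots; induction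
on the number of different discs: prove for finite sets `F` of points the statement for `S' = ⋃_{c' ∈ F} odisc c' κ`:
adding a point `c'` either does not change the union or adds a disjoint disc (`isRes_union`). With `F` = the
roots of `d` in `S`, `S'` and `S` contain the same roots of `d`: `isRes_congr`, `isRes_unique`.
-/

set_option autoImplicit false

open Polynomial

namespace Pool.DeB

private theorem odisc_self (c : Om) (κ : ℝ) : c ∈ odisc c κ := by
  show (κ : WithTop ℝ) < v (c - c)
  rw [sub_self, v_zero]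
  exact WithTop.coe_lt_top κ

private theorem odisc_symm {c c' : Om} {κ : ℝ} (h : c ∈ odisc c' κ) : c' ∈ odisc c κ := by
  have h1 : (κ : WithTop ℝ) < v (c - c') := h
  show (κ : WithTop ℝ) < v (c' - c)
  rw [v_sub_comm]
  exact h1

private theorem odisc_trans {c c' z : Om} {κ : ℝ} (h : c ∈ odisc c' κ) (hz : z ∈ odisc c κ) :
    z ∈ odisc c' κ := by
  have h1 : (κ : WithTop ℝ) < v (c - c') := h
  have h2 : (κ : WithTop ℝ) < v (z - c) := hz
  show (κ : WithTop ℝ) < v (z - c')
  have e : z - c' = (z - c) + (c - c') := by ring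
  rw [e]
  exact lt_of_lt_of_le (lt_min h2 h1) (v_add_ge _ _)

private theorem aux {N d : Om[X]} (hd : d ≠ 0) (κ : ℝ) (F : Finset Om)
    (hint : ∀ c' ∈ F, ∀ ρ, IsRes (odisc c' κ) N d ρ → ρ ∈ VV) :
    ∀ ρ, IsRes {z | ∃ c' ∈ F, z ∈ odisc c' κ} N d ρ → ρ ∈ VV := by
  classical
  induction F using Finset.induction_on with
  | empty =>
    intro ρ h
    have h0 : IsRes {z | ∃ c' ∈ (∅ : Finset Om), z ∈ odisc c' κ} N d 0 := by
      apply isRes_zero
      intro z _ hz
      obtain ⟨c', hc', _⟩ := hz
      exact absurd hc' (Finset.notMem_empty c')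
    rw [isRes_unique hd h h0]
    exact VV.zero_mem
  | insert a s ha ih =>
    intro ρ h
    have ih' := ih (fun c' hc' => hint c' (Finset.mem_insert_of_mem hc'))
    by_cases hin : ∃ c' ∈ s, a ∈ odisc c' κ
    · obtain ⟨b, hb, hab⟩ := hin
      apply ih'
      refine isRes_congr ?_ h
      intro z _
      constructor
      · rintro ⟨c', hc', hz⟩
        rcases Finset.mem_insert.1 hc' with h1 | h1
        · subst h1
          exact ⟨b, hb, odisc_trans hab hz⟩
        · exact ⟨c', h1, hz⟩
      · rintro ⟨c', hc', hz⟩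
        exact ⟨c', Finset.mem_insert_of_mem hc', hz⟩
    · obtain ⟨ρ1, h1⟩ := isRes_exists (odisc a κ) N hd
      obtain ⟨ρ2, h2⟩ := isRes_exists {z | ∃ c' ∈ s, z ∈ odisc c' κ} N hd
      have hdis : Disjoint (odisc a κ) {z | ∃ c' ∈ s, z ∈ odisc c' κ} := by
        rw [Set.disjoint_left]
        rintro z hz ⟨c', hc', hz'⟩
        exact hin ⟨c', hc', odisc_trans hz' (odisc_symm hz)⟩
      have h3 := isRes_union hd hdis h1 h2
      have h4 : IsRes {z | ∃ c' ∈ insert a s, z ∈ odisc c' κ} N d (ρ1 + ρ2) := by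
        refine isRes_congr ?_ h3
        intro z _
        constructor
        · rintro (hz | ⟨c', hc', hz⟩)
          · exact ⟨a, Finset.mem_insert_self a s, hz⟩
          · exact ⟨c', Finset.mem_insert_of_mem hc', hz⟩
        · rintro ⟨c', hc', hz⟩
          rcases Finset.mem_insert.1 hc' with h5 | h5
          · subst h5
            exact Or.inl hz
          · exact Or.inr ⟨c', h5, hz⟩
      rw [isRes_unique hd h h4]
      exact VV.add_mem (hint a (Finset.mem_insert_self a s) ρ1 h1) (ih' ρ2 h2)

theorem isRes_discs {S : Set Om} {N d : Om[X]} (hd : d ≠ 0) (κ : ℝ)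
    (hsub : ∀ c' ∈ S, d.IsRoot c' → odisc c' κ ⊆ S)
    (hint : ∀ c' ∈ S, d.IsRoot c' → ∀ ρ, IsRes (odisc c' κ) N d ρ → ρ ∈ VV) {ρ : Om}
    (h : IsRes S N d ρ) : ρ ∈ VV := by
  classical
  have hmem : ∀ c', c' ∈ d.roots.toFinset.filter (fun z => z ∈ S) ↔ d.IsRoot c' ∧ c' ∈ S := by
    intro c'
    rw [Finset.mem_filter, Multiset.mem_toFinset, mem_roots hd]
  refine aux (N := N) hd κ (d.roots.toFinset.filter (fun z => z ∈ S)) ?_ ρ ?_
  · intro c' hc' ρ' hρ'
    exact hint c' ((hmem c').1 hc').2 ((hmem c').1 hc').1 ρ' hρ'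
  · refine isRes_congr ?_ h
    intro z hz
    constructor
    · intro hzS
      exact ⟨z, (hmem z).2 ⟨hz, hzS⟩, odisc_self z κ⟩
    · rintro ⟨c', hc', hz'⟩
      exact hsub c' ((hmem c').1 hc').2 ((hmem c').1 hc').1 hz'

end Pool.DeB
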