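import Pool.Agent.Lib.DeB.Defs3
import Pool.Agent.Lib.DeB.Gauss
import Pool.Agent.Lib.DeB.Mono

/-!
Module Roots (110 lines). Distances of roots.
PROOFS.
root_two_lines: `0 = P(p) = ∑ α_i (p-c)^i` (`taylor_eval`, `α_i = (taylor c P).coeff i`), the terms have order
  `v α_i + i κ ≥ gv c κ P =: μ` (real, `P ≠ 0`). If only one index attains `μ` the sum has order `μ`
  (strict triangle inequality: `v_add_eq_left`), contradiction; so two different indices do.
root_dist: `p, c` are roots of `d G`, `d G'`: `p ∈ SM (M0 h)`, `c ∈ SM (M0 h')`, `h, h' ≤ b` (`root_mem_SM`), so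
  `p - c ∈ SM (M0 h h')`, `v (p-c) = κ` gives `M0 h h' κ ∈ ℤ` (`v_SM`), `h h' ∣ b! b!`.
-/

set_option autoImplicit false

open Polynomial

namespace Pool.DeB

private theorem lt_v_sum {ι : Type*} (s : Finset ι) (f : ι → Om) (i : WithTop ℝ) (hi : i < ⊤)
    (h : ∀ k ∈ s, i < v (f k)) : i < v (∑ k ∈ s, f k) := by
  classical
  induction s using Finset.induction_on with
  | empty => rw [Finset.sum_empty, v_zero]; exact hi
  | insert a s ha ih =>
    rw [Finset.sum_insert ha]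
    refine lt_of_lt_of_le (lt_min (h a (Finset.mem_insert_self a s)) (ih fun k hk =>
      h k (Finset.mem_insert_of_mem hk))) (v_add_ge _ _)

private theorem v_line {α x : Om} {κ : ℝ} (hx : v x = κ) (j : ℕ) :
    v (α * x ^ j) = v α + ((j * κ : ℝ) : WithTop ℝ) := by
  rw [v_mul, v_pow, hx]
  congr 1
  rw [← WithTop.coe_nsmul, nsmul_eq_mul]

theorem root_two_lines {P : Om[X]} (hP : P ≠ 0) {c p : Om} {κ : ℝ} (hp : P.IsRoot p)
    (hκ : v (p - c) = κ) : ∃ i i' : ℕ, i ≠ i' ∧
      gv c κ P = v ((taylor c P).coeff i) + ((i * κ : ℝ) : WithTop ℝ) ∧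
      gv c κ P = v ((taylor c P).coeff i') + ((i' * κ : ℝ) : WithTop ℝ) := by
  classical
  obtain ⟨i, hi⟩ := gv_line_attained (c := c) (κ := κ) hP
  by_contra hcon
  have hlt : ∀ j : ℕ, j ≠ i →
      gv c κ P < v ((taylor c P).coeff j) + ((j * κ : ℝ) : WithTop ℝ) := by
    intro j hj
    refine lt_of_le_of_ne (gv_le_line c κ P j) ?_
    intro h
    exact hcon ⟨i, j, fun h' => hj h'.symm, hi, h⟩
  have hμ : gv c κ P < ⊤ := by
    rw [lt_top_iff_ne_top]
    intro h
    exact hP (gv_eq_top.1 h)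
  have hev : (taylor c P).eval (p - c) = 0 := by
    rw [taylor_eval, sub_add_cancel]
    exact hp
  have hsum : (taylor c P).eval (p - c) =
      ∑ j ∈ insert i (taylor c P).support, (taylor c P).coeff j * (p - c) ^ j := by
    rw [eval_eq_sum, Polynomial.sum_def]
    apply Finset.sum_subset (Finset.subset_insert _ _)
    intro j _ hj
    rw [notMem_support_iff.1 hj, zero_mul]
  rw [hev, Finset.sum_eq_add_sum_sdiff_singleton_of_mem (Finset.mem_insert_self i _)] at hsum
  have h1 : v ((taylor c P).coeff i * (p - c) ^ i) = gv c κ P := by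
    rw [v_line hκ, ← hi]
  have h2 : gv c κ P < v (∑ j ∈ (insert i (taylor c P).support) \ {i},
      (taylor c P).coeff j * (p - c) ^ j) := by
    apply lt_v_sum _ _ _ hμ
    intro j hj
    rw [v_line hκ]
    apply hlt
    intro h
    rw [h] at hj
    simp at hj
  rw [← h1] at h2
  have h3 := v_add_eq_left h2
  rw [← hsum, v_zero, h1] at h3
  exact absurd h3.symm (ne_of_lt hμ)

theorem root_dist {ι : Type} {d : ι → Om[X]} {b M0 : ℕ} (hd : ∀ G, d G ≠ 0)
    (hdeg : ∀ G, (d G).natDegree ≤ b) (hdS : ∀ G i, (d G).coeff i ∈ SM M0) {p c : Om} {G G' : ι}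
    (hp : (d G).IsRoot p) (hc : (d G').IsRoot c) {κ : ℝ} (hκ : v (p - c) = κ) :
    ∃ k : ℤ, (Qn M0 b : ℝ) * κ = k := by
  obtain ⟨h, h1, hb, hpS⟩ := root_mem_SM (hd G) (hdeg G) (hdS G) hp
  obtain ⟨h', h1', hb', hcS⟩ := root_mem_SM (hd G') (hdeg G') (hdS G') hc
  have e1 : p ∈ SM (M0 * h * h') := SM_mul_le _ _ hpS
  have e2 : c ∈ SM (M0 * h * h') := by
    have := SM_mul_le (M0 * h') h hcS
    rwa [show M0 * h' * h = M0 * h * h' by ring] at this
  obtain ⟨k, hk⟩ := v_SM ((SM (M0 * h * h')).sub_mem e1 e2) hκ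
  obtain ⟨a, ha⟩ : h ∣ b.factorial := Nat.dvd_factorial h1 hb
  obtain ⟨a', ha'⟩ : h' ∣ b.factorial := Nat.dvd_factorial h1' hb'
  refine ⟨k * (a * a' : ℕ), ?_⟩
  have hQ : Qn M0 b = M0 * h * h' * (a * a') := by
    unfold Qn
    have : M0 * b.factorial * b.factorial = M0 * (h * a) * (h' * a') := by
      rw [← ha, ← ha']
    rw [this]; ring
  rw [hQ]
  push_cast
  rw [← hk]
  push_cast
  ring

end Pool.DeB
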