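import Pool.Agent.Lib.DeB.Defs3
import Pool.Agent.Lib.DeB.Gauss

/-!
Module VertInt (110 lines). Using the hypothesis of Proposition 12 at a vertex.
PROOF. `ω_u = c + t^κ u`, `u ∈ ℂ`: it is in `VV` and in `SM (M0 * h)` (subalgebra), so `H.hyp` applies. `ι` is finite: for
all but finitely many `u` we have `v ((d G'').eval ω_u) = gv c κ (d G'')` for all `G''` (`gv_generic`, finite union of
finite sets), so (`hG`, `hG'`) `Dom d ω_u G` and `Dom d ω_u G'` (the value is nonzero because its `v` is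
`gv c κ (d G) ≠ ⊤`). If `P = N G * d G' - N G' * d G = 0` then `gv c κ P = ⊤`. Otherwise for all but finitely
many `u` also `v (P.eval ω_u) = gv c κ P`; take such a `u` (`ℂ` is infinite):
`P(ω) = (N G(ω)/d G(ω) - N G'(ω)/d G'(ω)) * (d G(ω) * d G'(ω))`, so `gv c κ P ≥ 0 + v(d G(ω)) + v(d G'(ω))`.
Second statement the same with `tp r * (N G(ω)/d G(ω)) ∈ VV`: `v(N G(ω)) ≥ v(d G(ω)) - r`.
-/

set_option autoImplicit false

open Polynomial

namespace Pool.DeB

/-- a generic point of the disc: all the `d G` and `P` take there their Gauss values. -/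
private theorem vi_generic {ι : Type} [Finite ι] {d N : ι → Om[X]} {G0 : ι} {b M0 r : ℕ}
    (H : ResData d N G0 b M0 r) {c : Om} {κ : ℝ} (hv : Vert M0 b c κ) (P : Om[X]) (hP : P ≠ 0) :
    ∃ ω : Om, ω ∈ VV ∧ (∃ h : ℕ, 1 ≤ h ∧ h ≤ b ^ 2 ∧ ω ∈ SM (M0 * h)) ∧
      (∀ G, v ((d G).eval ω) = gv c κ (d G)) ∧ v (P.eval ω) = gv c κ P := by
  obtain ⟨hc, hκ, h, h1, h2, h3, h4⟩ := hv
  have hfin : ((⋃ G : ι, {u : ℂ | v ((d G).eval (c + tp κ * algebraMap ℂ Om u)) ≠
      gv c κ (d G)}) ∪ {u : ℂ | v (P.eval (c + tp κ * algebraMap ℂ Om u)) ≠ gv c κ P}).Finite :=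
    (Set.finite_iUnion fun G => gv_generic (H.hd G)).union (gv_generic hP)
  obtain ⟨u, hu⟩ := hfin.infinite_compl.nonempty
  rw [Set.mem_compl_iff, Set.mem_union, not_or] at hu
  obtain ⟨hu1, hu2⟩ := hu
  refine ⟨c + tp κ * algebraMap ℂ Om u, ?_, ⟨h, h1, h2, ?_⟩, ?_, ?_⟩
  · exact VV.add_mem hc (VV.mul_mem (tp_mem_VV hκ) (VV.algebraMap_mem u))
  · exact (SM (M0 * h)).add_mem h3 ((SM (M0 * h)).mul_mem h4 ((SM (M0 * h)).algebraMap_mem u))
  · intro G
    by_contra hne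
    exact hu1 (Set.mem_iUnion.2 ⟨G, hne⟩)
  · by_contra hne
    exact hu2 hne

private theorem vi_dom {ι : Type} {d : ι → Om[X]} {c ω : Om} {κ : ℝ}
    (hω : ∀ G, v ((d G).eval ω) = gv c κ (d G)) {G : ι} (hG : DomD d c κ G) : Dom d ω G := by
  refine ⟨?_, ?_⟩
  · rw [← v_ne_top, hω G, Ne, gv_eq_top]
    exact hG.1
  · intro G'
    rw [hω G, hω G']
    exact hG.2 G'

theorem vert_int {ι : Type} [Finite ι] {d N : ι → Om[X]} {G0 : ι} {b M0 r : ℕ}
    (H : ResData d N G0 b M0 r) {c : Om} {κ : ℝ} (hv : Vert M0 b c κ) {G G' : ι}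
    (hG : DomD d c κ G) (hG' : DomD d c κ G') :
    gv c κ (d G * d G') ≤ gv c κ (N G * d G' - N G' * d G) := by
  by_cases hP : N G * d G' - N G' * d G = 0
  · have h1 : gv c κ (N G * d G' - N G' * d G) = ⊤ := gv_eq_top.2 hP
    rw [h1]
    exact le_top
  · obtain ⟨ω, hω, hh, hd, hPω⟩ := vi_generic H hv _ hP
    have hD := vi_dom hd hG
    have hD' := vi_dom hd hG'
    have h1 := (H.hyp ω hω hh G hD).1 G' hD'
    have h2 : (N G * d G' - N G' * d G).eval ω =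
        ((N G).eval ω / (d G).eval ω - (N G').eval ω / (d G').eval ω) *
          ((d G).eval ω * (d G').eval ω) := by
      have e1 := hD.1
      have e2 := hD'.1
      rw [eval_sub, eval_mul, eval_mul]
      field_simp
    rw [gv_mul, ← hd G, ← hd G', ← hPω, h2, v_mul, v_mul]
    exact le_add_of_nonneg_left (mem_VV.1 h1)

theorem vert_int_one {ι : Type} [Finite ι] {d N : ι → Om[X]} {G0 : ι} {b M0 r : ℕ}
    (H : ResData d N G0 b M0 r) {c : Om} {κ : ℝ} (hv : Vert M0 b c κ) {G : ι}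
    (hG : DomD d c κ G) : gv c κ (d G) + ((-(r : ℝ) : ℝ) : WithTop ℝ) ≤ gv c κ (N G) := by
  by_cases hP : N G = 0
  · have h1 : gv c κ (N G) = ⊤ := gv_eq_top.2 hP
    rw [h1]
    exact le_top
  · obtain ⟨ω, hω, hh, hd, hPω⟩ := vi_generic H hv _ hP
    have hD := vi_dom hd hG
    have h1 := (H.hyp ω hω hh G hD).2
    have h2 : (N G).eval ω = tp (-(r : ℝ)) * (tp r * ((N G).eval ω / (d G).eval ω)) *
        (d G).eval ω := by
      have e1 := hD.1
      have e2 := tp_ne_zero (r : ℝ)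
      rw [tp_neg]
      field_simp
    rw [← hd G, ← hPω, h2, v_mul, v_mul, v_tp]
    calc v ((d G).eval ω) + ((-(r : ℝ) : ℝ) : WithTop ℝ)
        = ((-(r : ℝ) : ℝ) : WithTop ℝ) + 0 + v ((d G).eval ω) := by rw [add_zero, add_comm]
      _ ≤ _ := by
        gcongr
        exact mem_VV.1 h1

end Pool.DeB
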