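import Pool.Agent.Lib.DeB.Defs3
import Pool.Agent.Lib.DeB.Gauss
import Pool.Agent.Lib.DeB.Mono
import Pool.Agent.Lib.DeB.ResA
import Pool.Agent.Lib.DeB.ResInt
import Pool.Agent.Lib.DeB.ResUn
import Pool.Agent.Lib.DeB.VertInt
import Pool.Agent.Lib.DeB.Lines
import Pool.Agent.Lib.DeB.Roots

/-!
Module PStep (220 lines). The induction step `P(k+1) → P(k)`, and a lemma shared with PEnd.
Put `Q = Qn M0 b` (`> 0`), `κ₋ = (k+1/2)/Q`, `κ = (k+1)/Q`, `κ₊ = (k+3/2)/Q = ((k+1:ℕ) + 1/2)/Q`.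
vertex_step: let `(c,κ)` be a vertex with `κ = j/Q` (`j : ℕ`), `G` dominating at `(c,κ)`, `κ₊ = (j + 1/2)/Q`, and let `P(j)`
 hold. Then for every `c' ∈ ZZ d` with `κ ≤ v (c' - c)` the residue of `N G / d G` in `odisc c' κ` is in `VV`.
 PROOF. `c'` satisfies `NoX d c' Q` (`root_mem_SM`, `noX_of_SM`). Take `G'` dominating at `(c',κ₊)` (`domD_exists`); a line
 `(G',i')` is active at `κ₊`, so by `act_edge` at `κ` (interval `[j/Q,(j+1)/Q]`): `G'` dominates at `(c',κ)`, so at `(c,κ)`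
 (`domD_center`). `vert_int` and `res_integral` (with `l = 0`, center `c'`: `gv_center`) for the numerator
 `N G * d G' - N G' * d G` and the denominator `d G * d G'`: its residue in `odisc c' κ` has order `≥ κ ≥ 0`. It equals
 `ρ - ρ'`, `ρ` the residue of `N G/d G`, `ρ'` that of `N G'/d G'` (`isRes_mul`, `isRes_sub`, `isRes_unique`; `mul_comm`).
 `odisc c' κ` and `cdisc c' κ₊` contain the same roots of `d G'`: a root `p ≠ c'` has `Q * v(p-c') ∈ ℤ` (`root_dist`), and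
 there is no integer strictly between `j` and `j + 1/2`, and `j+1/2` is not one; so `ρ'` is the residue in `cdisc c' κ₊`, in
 `VV` by `P(j)`. Hence `ρ ∈ VV`.
pk_step: let `c ∈ ZZ d`, `G` dominating at `(c,κ₋)`, `(G,i)` active there. `NoX d c Q`. By `act_edge` on `[k/Q,(k+1)/Q]` it is
 active at `κ`. `cdisc c κ₋` and `cdisc c κ` contain the same roots of `d G` (`root_dist`: no integer in `[k+1/2, k+1)`).
 Case 1: all lines active at `(c,κ)` have slope `i`. By `act_next` `(G,i)` is active at `κ₊`. The roots of `d G` in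
   `cdisc c κ` and in `cdisc c κ₊` are the same: no distance in `(κ, κ₊)` by `root_dist`, and none is `= κ`:
   `root_two_lines` would give two different slopes attaining `gv c κ (d G)`, both active at `(c,κ)` (since `G`
   dominates). So `P(k+1)` applies.
 Case 2: a line `(G1,i1)`, `i1 ≠ i`, is active at `(c,κ)`: by `vert_of_two` `(c,κ)` is a vertex. Apply `isRes_discs` with
   `S = cdisc c κ` and `vertex_step` with `j = k+1` (the roots of `d G` in `S` are in `VV` because `c ∈ VV`, `κ ≥ 0`).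
-/

set_option autoImplicit false

open Polynomial

namespace Pool.DeB

private theorem Qn_pos {M0 b : ℕ} (hM0 : 0 < M0) : (0 : ℝ) < (Qn M0 b : ℝ) := by
  have h : 0 < Qn M0 b := by
    unfold Qn
    have := Nat.factorial_pos b
    positivity
  exact_mod_cast h

private theorem noX_zz {ι : Type} [Finite ι] {d N : ι → Om[X]} {G0 : ι} {b M0 r : ℕ}
    (H : ResData d N G0 b M0 r) {c : Om} (hc : c ∈ ZZ d) :
    (∃ h : ℕ, 1 ≤ h ∧ h ≤ b ∧ c ∈ SM (M0 * h)) ∧ NoX d c (Qn M0 b : ℝ) := by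
  obtain ⟨_, G1, hG1⟩ := hc
  obtain ⟨h, h1, h2, h3⟩ := root_mem_SM (H.hd G1) (H.hdeg G1) (H.hdS G1) hG1
  exact ⟨⟨h, h1, h2, h3⟩, noX_of_SM H.hM0 H.hdeg H.hdS h1 h2 h3⟩

/-- comparison of discs with respect to a root at integral distance. -/
private theorem dist_cases {ι : Type} {d N : ι → Om[X]} {G0 : ι} {b M0 r : ℕ}
    (H : ResData d N G0 b M0 r) {c z : Om} (hc : c ∈ ZZ d) {G : ι} (hz : (d G).IsRoot z) :
    v (z - c) = ⊤ ∨ ∃ m : ℤ, v (z - c) = (((m : ℝ) / (Qn M0 b : ℝ) : ℝ) : WithTop ℝ) := by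
  obtain ⟨_, G1, hG1⟩ := hc
  by_cases ht : v (z - c) = ⊤
  · exact Or.inl ht
  · right
    obtain ⟨x, hx⟩ := WithTop.ne_top_iff_exists.1 ht
    obtain ⟨m, hm⟩ := root_dist H.hd H.hdeg H.hdS hz hG1 hx.symm
    refine ⟨m, ?_⟩
    rw [← hx]
    have hQ := Qn_pos (b := b) H.hM0
    congr 1
    rw [eq_div_iff hQ.ne', mul_comm]
    exact hm

theorem vertex_step {ι : Type} [Finite ι] {d N : ι → Om[X]} {G0 : ι} {b M0 r : ℕ}
    (H : ResData d N G0 b M0 r) (j : ℕ) (hj : PK d N (Qn M0 b : ℝ) j) {c : Om}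
    (hv : Vert M0 b c (j / (Qn M0 b : ℝ))) {G : ι} (hG : DomD d c (j / (Qn M0 b : ℝ)) G) {c' : Om}
    (hc' : c' ∈ ZZ d) (hcc : ((j / (Qn M0 b : ℝ) : ℝ) : WithTop ℝ) ≤ v (c' - c)) {ρ : Om}
    (hρ : IsRes (odisc c' (j / (Qn M0 b : ℝ))) (N G) (d G) ρ) : ρ ∈ VV := by
  have hQ := Qn_pos (b := b) H.hM0
  have hX := (noX_zz H hc').2
  have : Nonempty ι := ⟨G⟩
  obtain ⟨G', hG'⟩ := domD_exists (d := d) H.hd c' ((j + 1 / 2) / (Qn M0 b : ℝ))
  obtain ⟨i', hA⟩ := (domD_iff H.hd).1 hG'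
  have hA2 : Act d c' (j / (Qn M0 b : ℝ)) G' i' := by
    refine act_edge hQ hX (j : ℤ) (κ1 := (j + 1 / 2) / (Qn M0 b : ℝ)) ?_ ?_ hA ?_ ?_
    · push_cast
      exact div_lt_div_of_pos_right (by linarith) hQ
    · push_cast
      exact div_lt_div_of_pos_right (by linarith) hQ
    · push_cast
      exact le_refl _
    · push_cast
      exact div_le_div_of_nonneg_right (by linarith) hQ.le
  have hD' : DomD d c (j / (Qn M0 b : ℝ)) G' := domD_center hcc ((domD_iff H.hd).2 ⟨i', hA2⟩)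
  have hint := vert_int H hv hG hD'
  rw [← gv_center _ hcc, ← gv_center _ hcc] at hint
  obtain ⟨ρ', hρ'⟩ := isRes_exists (odisc c' (j / (Qn M0 b : ℝ))) (N G') (H.hd G')
  have e1 := isRes_mul (H.hd G) (H.hd G') hρ
  have e2 := isRes_mul (H.hd G') (H.hd G) hρ'
  rw [mul_comm (d G') (d G)] at e2
  have hne : d G * d G' ≠ 0 := mul_ne_zero (H.hd G) (H.hd G')
  have e3 := isRes_sub hne e1 e2
  have e4 := res_integral (l := 0) hne (by simpa using hint) e3
  have e5 : ρ - ρ' ∈ VV := by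
    rw [mem_VV]
    refine le_trans ?_ e4
    have h0 : (0 : ℝ) ≤ j / (Qn M0 b : ℝ) + 0 := by rw [add_zero]; exact hv.2.1
    exact_mod_cast h0
  have e6 : ρ' ∈ VV := by
    refine hj c' hc' G' hG' ρ' (isRes_congr ?_ hρ')
    intro z hz
    show ((j / (Qn M0 b : ℝ) : ℝ) : WithTop ℝ) < v (z - c') ↔
      ((((j : ℝ) + 1 / 2) / (Qn M0 b : ℝ) : ℝ) : WithTop ℝ) ≤ v (z - c')
    rcases dist_cases H hc' hz with ht | ⟨m, hm⟩
    · rw [ht]
      exact ⟨fun _ => le_top, fun _ => WithTop.coe_lt_top _⟩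
    · rw [hm, WithTop.coe_lt_coe, WithTop.coe_le_coe, div_lt_div_iff_of_pos_right hQ,
        div_le_div_iff_of_pos_right hQ]
      constructor
      · intro h
        have h' : (j : ℤ) < m := by exact_mod_cast h
        have h2 : (j : ℤ) + 1 ≤ m := h'
        have h3 : ((j : ℤ) : ℝ) + 1 ≤ m := by exact_mod_cast h2
        push_cast at h3
        linarith
      · intro h
        linarith
  have e7 : ρ = (ρ - ρ') + ρ' := by ring
  rw [e7]
  exact VV.add_mem e5 e6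

theorem pk_step {ι : Type} [Finite ι] {d N : ι → Om[X]} {G0 : ι} {b M0 r : ℕ}
    (H : ResData d N G0 b M0 r) (k : ℕ) (hk : PK d N (Qn M0 b : ℝ) (k + 1)) :
    PK d N (Qn M0 b : ℝ) k := by
  intro c hc G hG ρ hρ
  have hQ := Qn_pos (b := b) H.hM0
  obtain ⟨⟨h, h1, h2, h3⟩, hX⟩ := noX_zz H hc
  obtain ⟨i, hA⟩ := (domD_iff H.hd).1 hG
  have hA2 : Act d c (((k + 1 : ℕ) : ℝ) / (Qn M0 b : ℝ)) G i := by
    refine act_edge hQ hX (k : ℤ) (κ1 := (k + 1 / 2) / (Qn M0 b : ℝ)) ?_ ?_ hA ?_ ?_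
    · push_cast
      exact div_lt_div_of_pos_right (by linarith) hQ
    · push_cast
      exact div_lt_div_of_pos_right (by linarith) hQ
    · push_cast
      exact div_le_div_of_nonneg_right (by linarith) hQ.le
    · push_cast
      exact le_refl _
  have hD : DomD d c (((k + 1 : ℕ) : ℝ) / (Qn M0 b : ℝ)) G := (domD_iff H.hd).2 ⟨i, hA2⟩
  have hρ2 : IsRes (cdisc c (((k + 1 : ℕ) : ℝ) / (Qn M0 b : ℝ))) (N G) (d G) ρ := by
    refine isRes_congr ?_ hρ
    intro z hz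
    show ((((k : ℝ) + 1 / 2) / (Qn M0 b : ℝ) : ℝ) : WithTop ℝ) ≤ v (z - c) ↔
      ((((k + 1 : ℕ) : ℝ) / (Qn M0 b : ℝ) : ℝ) : WithTop ℝ) ≤ v (z - c)
    rcases dist_cases H hc hz with ht | ⟨m, hm⟩
    · rw [ht]
      exact ⟨fun _ => le_top, fun _ => le_top⟩
    · rw [hm, WithTop.coe_le_coe, WithTop.coe_le_coe, div_le_div_iff_of_pos_right hQ,
        div_le_div_iff_of_pos_right hQ]
      constructor
      · intro h
        have h4 : ((k : ℤ) : ℝ) < (m : ℝ) := by push_cast; linarith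
        have h5 : (k : ℤ) < m := by exact_mod_cast h4
        have h6 : (k : ℤ) + 1 ≤ m := h5
        have h7 : ((k : ℤ) : ℝ) + 1 ≤ m := by exact_mod_cast h6
        push_cast at h7 ⊢
        linarith
      · intro h
        push_cast at h
        linarith
  by_cases hcase : ∀ G' i', Act d c (((k + 1 : ℕ) : ℝ) / (Qn M0 b : ℝ)) G' i' → i' = i
  · -- all active lines have slope `i`
    have hA3 : Act d c ((((k + 1 : ℕ) : ℝ) + 1 / 2) / (Qn M0 b : ℝ)) G i := by
      refine act_next hQ hX ((k + 1 : ℕ) : ℤ) (i := i) ?_ ?_ ?_ ?_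
      · intro G' i' hh
        exact hcase G' i' (by simpa using hh)
      · simpa using hA2
      · push_cast
        exact div_le_div_of_nonneg_right (by linarith) hQ.le
      · push_cast
        exact div_le_div_of_nonneg_right (by linarith) hQ.le
    have hD3 := (domD_iff H.hd).2 ⟨i, hA3⟩
    refine hk c hc G hD3 ρ (isRes_congr ?_ hρ2)
    intro z hz
    show ((((k + 1 : ℕ) : ℝ) / (Qn M0 b : ℝ) : ℝ) : WithTop ℝ) ≤ v (z - c) ↔
      (((((k + 1 : ℕ) : ℝ) + 1 / 2) / (Qn M0 b : ℝ) : ℝ) : WithTop ℝ) ≤ v (z - c)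
    rcases dist_cases H hc hz with ht | ⟨m, hm⟩
    · rw [ht]
      exact ⟨fun _ => le_top, fun _ => le_top⟩
    · have hne : m ≠ ((k + 1 : ℕ) : ℤ) := by
        intro hmk
        have hm2 : v (z - c) = ((((k + 1 : ℕ) : ℝ) / (Qn M0 b : ℝ) : ℝ) : WithTop ℝ) := by
          rw [hm, hmk, Int.cast_natCast]
        obtain ⟨i1, i2, hi, hl1, hl2⟩ := root_two_lines (H.hd G) hz hm2
        have hne0 : gv c (((k + 1 : ℕ) : ℝ) / (Qn M0 b : ℝ)) (d G) ≠ ⊤ := by
          intro h0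
          exact H.hd G (gv_eq_top.1 h0)
        have hact : ∀ i0 : ℕ, gv c (((k + 1 : ℕ) : ℝ) / (Qn M0 b : ℝ)) (d G) =
            v ((taylor c (d G)).coeff i0) +
              ((i0 * (((k + 1 : ℕ) : ℝ) / (Qn M0 b : ℝ)) : ℝ) : WithTop ℝ) →
            Act d c (((k + 1 : ℕ) : ℝ) / (Qn M0 b : ℝ)) G i0 := by
          intro i0 hi0
          refine ⟨?_, ?_⟩
          · intro h0
            rw [h0, v_zero, top_add] at hi0
            exact hne0 hi0
          · intro G' i'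
            rw [← hi0]
            exact le_trans (hD.2 G') (gv_le_line _ _ _ _)
        exact hi ((hcase G i1 (hact i1 hl1)).trans (hcase G i2 (hact i2 hl2)).symm)
      rw [hm, WithTop.coe_le_coe, WithTop.coe_le_coe, div_le_div_iff_of_pos_right hQ,
        div_le_div_iff_of_pos_right hQ]
      constructor
      · intro h
        have h4 : ((k + 1 : ℕ) : ℤ) ≤ m := by exact_mod_cast h
        have h5 : ((k + 1 : ℕ) : ℤ) < m := lt_of_le_of_ne h4 (Ne.symm hne)
        have h6 : ((k + 1 : ℕ) : ℤ) + 1 ≤ m := h5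
        have h7 : (((k + 1 : ℕ) : ℤ) : ℝ) + 1 ≤ m := by exact_mod_cast h6
        push_cast at h7 ⊢
        linarith
      · intro h
        linarith
  · -- a vertex
    push Not at hcase
    obtain ⟨G1, i1, hA1, hi1⟩ := hcase
    have hκ0 : (0 : ℝ) ≤ ((k + 1 : ℕ) : ℝ) / (Qn M0 b : ℝ) := by positivity
    have hV : Vert M0 b c (((k + 1 : ℕ) : ℝ) / (Qn M0 b : ℝ)) :=
      vert_of_two H.hM0 H.hdeg H.hdS h1 h2 hc.1 h3 hκ0 hA1 hA2 hi1
    refine isRes_discs (H.hd G) (((k + 1 : ℕ) : ℝ) / (Qn M0 b : ℝ)) ?_ ?_ hρ2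
    · intro c' hc' _ z hz
      have hz' : ((((k + 1 : ℕ) : ℝ) / (Qn M0 b : ℝ) : ℝ) : WithTop ℝ) < v (z - c') := hz
      have hc'' : ((((k + 1 : ℕ) : ℝ) / (Qn M0 b : ℝ) : ℝ) : WithTop ℝ) ≤ v (c' - c) := hc'
      show ((((k + 1 : ℕ) : ℝ) / (Qn M0 b : ℝ) : ℝ) : WithTop ℝ) ≤ v (z - c)
      have e : z - c = (z - c') + (c' - c) := by ring
      rw [e]
      exact le_trans (le_min hz'.le hc'') (v_add_ge _ _)
    · intro c' hc' hroot ρ1 hρ1
      have hc'' : ((((k + 1 : ℕ) : ℝ) / (Qn M0 b : ℝ) : ℝ) : WithTop ℝ) ≤ v (c' - c) := hc'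
      have hcV : c' ∈ VV := by
        have e : c' = (c' - c) + c := by ring
        rw [e]
        refine VV.add_mem ?_ hc.1
        rw [mem_VV]
        refine le_trans ?_ hc''
        exact_mod_cast hκ0
      exact vertex_step H (k + 1) hk hV hD ⟨hcV, G, hroot⟩ hc'' hρ1

end Pool.DeB
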