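import Pool.Agent.Lib.DeB.PBase
import Pool.Agent.Lib.DeB.PStep

/-!
Module PEnd (110 lines). Proposition 12.
PROOF. `pk_base` and downward induction with `pk_step`: `P(0)` holds. `(0,0)` is a vertex (`h = 1`, `tp 0 = 1`). `G0`
dominates at `(0,0)`: `d G0 = C u * X^b` has `gv 0 0 (d G0) = 0` and all `d G` have coefficients in `VV`, so `gv ≥ 0`
(`scal 0 0 P = P` as `tp 0 = 1`; `gv 0 0 P = gn P`, `le_gn_iff`). `0 ∈ ZZ d` (root of `d G0`, `b ≥ 1`). `vertex_step` with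
`j = 0`, `c = c' = 0`, `G = G0`: the residue `ρ` of `N G0 / d G0` in `odisc 0 0` is in `VV`. By definition it is
`A.coeff (b - 1)` for `D = X^b`, `D' = C u` (no roots), `A = C u⁻¹ * N G0` (`deg < b`), `B = 0`; `isRes_unique`; so
`(N G0).coeff (b-1) = u * ρ ∈ VV`.
-/

set_option autoImplicit false

open Polynomial

namespace Pool.DeB

private theorem gv_zero (P : Om[X]) : gv 0 0 P = gn P := by
  unfold gv scal
  rw [tp_zero, C_1, one_mul, C_0, add_zero, comp_X]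

/-- Proposition 12. -/
theorem residue_main {ι : Type} [Finite ι] {d N : ι → Om[X]} {G0 : ι} {b M0 r : ℕ}
    (H : ResData d N G0 b M0 r) : (N G0).coeff (b - 1) ∈ VV := by
  obtain ⟨K, hK⟩ := pk_base H
  have down : ∀ m, PK d N (Qn M0 b : ℝ) m → PK d N (Qn M0 b : ℝ) 0 := by
    intro m
    induction m with
    | zero => exact fun h => h
    | succ m ih => exact fun h => ih (pk_step H m h)
  have h0 : PK d N (Qn M0 b : ℝ) 0 := down K (hK K le_rfl)
  have hz : (((0 : ℕ) : ℝ) / (Qn M0 b : ℝ)) = 0 := by simp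
  obtain ⟨u, hu, hG0⟩ := H.hG0
  have hau : algebraMap ℂ Om u ≠ 0 := by
    intro h
    exact hu ((map_eq_zero (algebraMap ℂ Om)).1 h)
  have hv : Vert M0 b 0 (((0 : ℕ) : ℝ) / (Qn M0 b : ℝ)) := by
    rw [hz]
    refine ⟨VV.zero_mem, le_rfl, 1, le_rfl, Nat.one_le_pow _ _ H.hb, (SM _).zero_mem, ?_⟩
    rw [tp_zero]
    exact (SM _).one_mem
  have hD : DomD d 0 (((0 : ℕ) : ℝ) / (Qn M0 b : ℝ)) G0 := by
    rw [hz]
    refine ⟨H.hd G0, fun G' => ?_⟩
    rw [gv_zero, gv_zero]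
    have h1 : gn (d G0) ≤ 0 := by
      refine le_trans (gn_le _ b) ?_
      rw [hG0, coeff_C_mul, coeff_X_pow_self, mul_one, v_alg hu]
    exact le_trans h1 (le_gn_iff.2 fun i => H.hdV G' i)
  have hroot : (0 : Om) ∈ ZZ d := by
    refine ⟨VV.zero_mem, G0, ?_⟩
    rw [IsRoot.def, hG0, eval_mul, eval_pow, eval_X, zero_pow H.hb.ne', mul_zero]
  have hcc : ((((0 : ℕ) : ℝ) / (Qn M0 b : ℝ) : ℝ) : WithTop ℝ) ≤ v ((0 : Om) - 0) := by
    rw [sub_zero, v_zero]
    exact le_top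
  have hres : IsRes (odisc 0 (((0 : ℕ) : ℝ) / (Qn M0 b : ℝ))) (N G0) (d G0)
      ((algebraMap ℂ Om u)⁻¹ * (N G0).coeff (b - 1)) := by
    refine ⟨X ^ b, C (algebraMap ℂ Om u), C (algebraMap ℂ Om u)⁻¹ * N G0, 0, monic_X_pow b, ?_,
      ?_, ?_, ?_, ?_, ?_⟩
    · rw [hG0, mul_comm]
    · intro z hz2
      rw [IsRoot.def, eval_pow, eval_X] at hz2
      have hz3 : z = 0 := pow_eq_zero_iff H.hb.ne' |>.1 hz2
      subst hz3
      change ((((0 : ℕ) : ℝ) / (Qn M0 b : ℝ) : ℝ) : WithTop ℝ) < v ((0 : Om) - 0)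
      rw [sub_zero, v_zero]
      exact WithTop.coe_lt_top _
    · intro z _ hz2
      rw [IsRoot.def, eval_C] at hz2
      exact hau hz2
    · rw [zero_mul, add_zero, mul_comm, ← mul_assoc, ← C_mul, mul_inv_cancel₀ hau, C_1, one_mul]
    · rw [degree_X_pow, degree_C_mul (inv_ne_zero hau)]
      exact H.hN0
    · rw [natDegree_X_pow, coeff_C_mul]
  have hfin := vertex_step H 0 h0 hv hD hroot hcc hres
  have e : (N G0).coeff (b - 1) =
      algebraMap ℂ Om u * ((algebraMap ℂ Om u)⁻¹ * (N G0).coeff (b - 1)) := by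
    rw [← mul_assoc, mul_inv_cancel₀ hau, one_mul]
  rw [e]
  exact VV.mul_mem (VV.algebraMap_mem u) hfin

end Pool.DeB
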