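import Pool.Agent.Lib.DeB.ArcA
import Pool.Agent.Lib.DeB.ArcB
import Pool.Agent.Lib.DeB.Cramer
import Pool.Agent.Lib.DeB.Minor
import Pool.Agent.Lib.DeB.PEnd

/-!
Module ArcStep (250 lines). Proposition 11 of the paper.
PROOF. `N = Ideal.span (range g)`. Suppose `x * x' ∉ N`. Let `T'` be the matrix `Fin n × (Fin k × Fin n)`,
`T' i (j,l) = leftMulMatrix β (g j) i l`; `T'.mulVec Y = β.repr (∑_j g_j * ∑_l Y(j,l) • β_l)`, so the range of `T'` is
`β.repr N`. By `minor_ne_zero` with `a = tV r` (`algebraMap (tV r) ∈ N`, so `tV r • y ∈ N` for all `y`; `tV r ≠ 0`) `T'` has a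
nonzero minor. `separate` with the vector `β.repr (x * x')`: there is `φ0 : Fin n → Om` with `φ0(N) ⊆ VV` and
`φ0(x x') ∉ VV`, where `φ0(y) = ∑ i, φ0 i * (β.repr y i)`. Let `φ l = φ0 (x * β l)`; so `∑ l, φ l * (β.repr y l) = φ0 (x * y)` for
all `y` (linearity over `VV`), in particular `∑ l, φ l * (β.repr x' l) = φ0 (x * x') ∉ VV`.
Let `ι = {G : Fin n → Col n k // arcd β g w G ≠ 0}`, `d G = arcd β g w G`, `Nn G = arcN β g w φ (β.repr x') G`, `b = n`,
`G0 = G00` (`arcd_G00`). We check `ResData`; then `residue_main` and `arcN_G00_coeff` give `φ0(x x') ∈ VV`, contradiction.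
hyp: let `ω ∈ VV` be as in `hx`, `G ∈ ι` with `Dom d ω G`: `arcd_eval`: the minor `det T_G(ω) ≠ 0` divides all minors
 `det T_{G'}(ω)` (`VV_dvd_iff`; for `arcd G' = 0` the minor is `0`). `hx'`: `x' = (w-ω) y0 + ∑ g_j y_j`, i.e.
 `β.repr x' = T(ω).mulVec Y` (`arcT_mulVec`, `Submodule.mem_sup`, `Ideal.mem_span_range_iff_exists_fun`), so by `cramer_range`
 `β.repr x' = T_G(ω).mulVec Z`. Let `y_G = ∑_{m : (G m).1 = none} Z m • β (G m).2`. Then `x' = (w - ω) * y_G + (element of N)`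
 (again `arcT_mulVec`, with `Y s = ∑_{m : G m = s} Z m`), and by `arcN_eval`
 `Nn G (ω) / d G (ω) = ∑_{m : (G m).1 = none} φ (G m).2 * Z m = φ0 (x * y_G)`.
 (a) for two such `G, G'`: `(w-ω) (y_G - y_G') ∈ N`; `x = (w-ω) x'' + ν`, `ν ∈ N` (`hx`); so
   `x (y_G - y_G') = x'' (w-ω)(y_G - y_G') + ν (y_G - y_G') ∈ N` and `φ0` of it is in `VV`.
 (b) `tp r * φ0 (x * y_G) = φ0 (tV r • (x * y_G))` and `tV r • (..) ∈ N`.
(`hM0`, `hn` give `0 < M0`, `0 < b`.)
-/

set_option autoImplicit false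

namespace Pool.DeB

private noncomputable def elt {R : Type*} [CommRing R] [Algebra VV R] {n k : ℕ}
    (β : Module.Basis (Fin n) VV R) (g : Fin k → R) (w : R) (ω : VV) (s : Col n k) : R :=
  match s.1 with
  | none => (w - algebraMap VV R ω) * β s.2
  | some j => g j * β s.2

private theorem arcT_apply {R : Type*} [CommRing R] [Algebra VV R] {n k : ℕ}
    (β : Module.Basis (Fin n) VV R) (g : Fin k → R) (w : R) (ω : VV) (i : Fin n) (s : Col n k) :
    arcT β g w ω i s = β.repr (elt β g w ω s) i := by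
  obtain ⟨_ | j, l⟩ := s
  · simp only [arcT, elt, Algebra.leftMulMatrix_eq_repr_mul]
  · simp only [arcT, elt, Algebra.leftMulMatrix_eq_repr_mul]

private theorem sub_mulVec {R : Type*} [CommRing R] [Algebra VV R] {n k : ℕ}
    (β : Module.Basis (Fin n) VV R) (g : Fin k → R) (w : R) (ω : VV) (G : Fin n → Col n k)
    (Z : Fin n → VV) : ((arcT β g w ω).submatrix id G).mulVec Z =
      β.repr (∑ m, Z m • elt β g w ω (G m)) := by
  funext i
  rw [Matrix.mulVec, dotProduct, map_sum, Finsupp.finsetSum_apply]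
  refine Finset.sum_congr rfl fun m _ => ?_
  rw [Matrix.submatrix_apply, id, arcT_apply, map_smul, Finsupp.smul_apply, smul_eq_mul, mul_comm]

private noncomputable def yy {R : Type*} [CommRing R] [Algebra VV R] {n k : ℕ}
    (β : Module.Basis (Fin n) VV R) (G : Fin n → Col n k) (Z : Fin n → VV) : R :=
  ∑ m, (match (G m).1 with
    | none => Z m • β (G m).2
    | some _ => 0)

private theorem yy_mem {R : Type*} [CommRing R] [Algebra VV R] {n k : ℕ}
    (β : Module.Basis (Fin n) VV R) (g : Fin k → R) (w : R) (ω : VV) (G : Fin n → Col n k)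
    (Z : Fin n → VV) : (∑ m, Z m • elt β g w ω (G m)) - (w - algebraMap VV R ω) * yy β G Z ∈
      Ideal.span (Set.range g) := by
  rw [yy, Finset.mul_sum, ← Finset.sum_sub_distrib]
  refine Ideal.sum_mem _ fun m _ => ?_
  rcases hs : G m with ⟨s, l⟩
  cases s with
  | none =>
    have : Z m • elt β g w ω (none, l) - (w - algebraMap VV R ω) * Z m • β l = 0 := by
      simp only [elt]
      rw [mul_smul_comm, sub_self]
    simp only [this]
    exact Ideal.zero_mem _
  | some j =>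
    simp only [elt]
    rw [mul_zero, sub_zero, ← mul_smul_comm]
    exact Ideal.mul_mem_right _ _ (Ideal.subset_span ⟨j, rfl⟩)

private theorem range_none {R : Type*} [CommRing R] [Algebra VV R] {n k : ℕ}
    (β : Module.Basis (Fin n) VV R) (g : Fin k → R) (w : R) (ω : VV) {x' : R}
    (h : x' ∈ Ideal.span (Set.range g) ⊔ Ideal.span {w - algebraMap VV R ω}) :
    ∃ Y : Col n k → VV, (arcT β g w ω).mulVec Y = β.repr x' := by
  obtain ⟨ν, hν, z, hz, rfl⟩ := Submodule.mem_sup.1 h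
  obtain ⟨c, rfl⟩ := Ideal.mem_span_singleton'.1 hz
  obtain ⟨e, rfl⟩ := (Ideal.mem_span_range_iff_exists_fun (R := R)).1 hν
  refine ⟨fun s => match s.1 with
    | none => β.repr c s.2
    | some j => β.repr (e j) s.2, ?_⟩
  rw [arcT_mulVec]
  congr 2
  simp only [β.sum_repr]
  rw [add_comm]
  congr 1
  · exact Finset.sum_congr rfl fun j _ => mul_comm _ _
  · exact mul_comm _ _

/-- the matrix of the ideal -/
private noncomputable def gM {R : Type*} [CommRing R] [Algebra VV R] {n k : ℕ}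
    (β : Module.Basis (Fin n) VV R) (g : Fin k → R) : Matrix (Fin n) (Fin k × Fin n) VV :=
  fun i s => β.repr (g s.1 * β s.2) i

private theorem gM_mulVec {R : Type*} [CommRing R] [Algebra VV R] {n k : ℕ}
    (β : Module.Basis (Fin n) VV R) (g : Fin k → R) (Y : Fin k × Fin n → VV) :
    (gM β g).mulVec Y = β.repr (∑ s, Y s • (g s.1 * β s.2)) := by
  funext i
  rw [Matrix.mulVec, dotProduct, map_sum, Finsupp.finsetSum_apply]
  refine Finset.sum_congr rfl fun m _ => ?_
  rw [gM, map_smul, Finsupp.smul_apply, smul_eq_mul, mul_comm]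

private theorem gM_range {R : Type*} [CommRing R] [Algebra VV R] {n k : ℕ}
    (β : Module.Basis (Fin n) VV R) (g : Fin k → R) {y : R} (hy : y ∈ Ideal.span (Set.range g)) :
    ∃ Y : Fin k × Fin n → VV, (gM β g).mulVec Y = β.repr y := by
  obtain ⟨e, rfl⟩ := (Ideal.mem_span_range_iff_exists_fun (R := R)).1 hy
  refine ⟨fun s => β.repr (e s.1) s.2, ?_⟩
  rw [gM_mulVec, Fintype.sum_prod_type]
  congr 2
  refine Finset.sum_congr rfl fun j _ => ?_
  conv_rhs => rw [← β.sum_repr (e j), Finset.sum_mul]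
  refine Finset.sum_congr rfl fun l _ => ?_
  simp only
  rw [smul_mul_assoc, mul_comm (g j)]

/-- Proposition 11. -/
theorem arc_step {R : Type*} [CommRing R] [Algebra VV R] {n k : ℕ} (hn : 0 < n)
    (β : Module.Basis (Fin n) VV R) (g : Fin k → R) {w : R} (hw : IsNilpotent w) {M0 r : ℕ}
    (hM0 : 0 < M0) (hgS : ∀ j i l, ((Algebra.leftMulMatrix β (g j) i l : VV) : Om) ∈ SM M0)
    (hwS : ∀ i l, ((Algebra.leftMulMatrix β w i l : VV) : Om) ∈ SM M0)
    (hr : algebraMap VV R (tV r) ∈ Ideal.span (Set.range g)) {x x' : R}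
    (hx : ∀ ω : VV, (∃ h : ℕ, 1 ≤ h ∧ h ≤ n ^ 2 ∧ (ω : Om) ∈ SM (M0 * h)) →
      x ∈ Ideal.span (Set.range g) ⊔ Ideal.span {w - algebraMap VV R ω})
    (hx' : ∀ ω : VV, (∃ h : ℕ, 1 ≤ h ∧ h ≤ n ^ 2 ∧ (ω : Om) ∈ SM (M0 * h)) →
      x' ∈ Ideal.span (Set.range g) ⊔ Ideal.span {w - algebraMap VV R ω}) :
    x * x' ∈ Ideal.span (Set.range g) := by
  classical
  set N : Ideal R := Ideal.span (Set.range g) with hN
  by_contra hnot
  have hrsm : ∀ y : R, tV r • y ∈ N := by
    intro y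
    rw [Algebra.smul_def]
    exact Ideal.mul_mem_right _ _ hr
  have htV : (tV (r : ℝ) : VV) ≠ 0 := by
    intro h
    have h2 : ((tV (r : ℝ) : VV) : Om) = 0 := by rw [h]; rfl
    rw [tV_coe (Nat.cast_nonneg r)] at h2
    exact tp_ne_zero _ h2
  have hT : ∃ G : Fin n → Fin k × Fin n, ((gM β g).submatrix id G).det ≠ 0 := by
    refine minor_ne_zero (gM β g) (tV (r : ℝ)) htV fun y => ?_
    obtain ⟨Y, hY⟩ := gM_range β g (hrsm (∑ l, y l • β l))
    refine ⟨Y, ?_⟩
    rw [hY, map_smul]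
    funext i
    rw [Finsupp.smul_apply, β.repr_sum_self]
    rfl
  obtain ⟨φ0, hφ1, hφ2⟩ := separate (gM β g) hT (β.repr (x * x')) (by
    intro Y hY
    rw [gM_mulVec] at hY
    have h1 : (∑ s, Y s • (g s.1 * β s.2)) = x * x' := by
      apply β.repr.injective
      exact DFunLike.coe_injective hY
    apply hnot
    rw [← h1]
    refine Ideal.sum_mem _ fun s _ => ?_
    rw [← mul_smul_comm]
    exact Ideal.mul_mem_right _ _ (Ideal.subset_span ⟨s.1, rfl⟩))
  let f0 : R →ₗ[VV] Om := β.constr VV φ0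
  have hf0 : ∀ y : R, ∑ i, φ0 i * ((β.repr y i : VV) : Om) = f0 y := by
    intro y
    rw [show f0 y = β.constr VV φ0 y from rfl, Module.Basis.constr_apply_fintype]
    refine Finset.sum_congr rfl fun i _ => ?_
    rw [β.equivFun_apply, mul_comm]
    rfl
  have hf0N : ∀ y ∈ N, f0 y ∈ VV := by
    intro y hy
    obtain ⟨Y, hY⟩ := gM_range β g hy
    rw [← hf0 y, ← hY]
    exact hφ1 Y
  have hf0x : f0 (x * x') ∉ VV := by
    rw [← hf0]
    exact hφ2
  let φ : Fin n → Om := fun l => f0 (x * β l)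
  have hφx : ∀ y : R, ∑ l, φ l * ((β.repr y l : VV) : Om) = f0 (x * y) := by
    intro y
    conv_rhs => rw [← β.sum_repr y, Finset.mul_sum, map_sum]
    refine Finset.sum_congr rfl fun l _ => ?_
    rw [mul_smul_comm, map_smul, mul_comm]
    rfl
  -- the key property of a dominating minor
  have key : ∀ ω : VV, (∃ h : ℕ, 1 ≤ h ∧ h ≤ n ^ 2 ∧ (ω : Om) ∈ SM (M0 * h)) →
      ∀ G : Fin n → Col n k, (arcd β g w G).eval (ω : Om) ≠ 0 →
      (∀ G' : Fin n → Col n k, arcd β g w G' ≠ 0 →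
        v ((arcd β g w G).eval (ω : Om)) ≤ v ((arcd β g w G').eval (ω : Om))) →
      ∃ y : R, x' - (w - algebraMap VV R ω) * y ∈ N ∧
        (arcN β g w φ (β.repr x') G).eval (ω : Om) / (arcd β g w G).eval (ω : Om) =
          f0 (x * y) := by
    intro ω hω G hG0 hGd
    obtain ⟨Y, hY⟩ := range_none β g w ω (hx' ω hω)
    have hne : ((arcT β g w ω).submatrix id G).det ≠ 0 := by
      intro h
      apply hG0
      rw [arcd_eval, h]
      rfl
    have hdom : ∀ G' : Fin n → Col n k,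
        ((arcT β g w ω).submatrix id G).det ∣ ((arcT β g w ω).submatrix id G').det := by
      intro G'
      by_cases h0 : arcd β g w G' = 0
      · have h1 := arcd_eval β g w G' ω
        rw [h0, Polynomial.eval_zero] at h1
        have h2 : ((arcT β g w ω).submatrix id G').det = 0 := Subtype.ext h1.symm
        rw [h2]
        exact dvd_zero _
      · rw [VV_dvd_iff, ← arcd_eval, ← arcd_eval]
        exact hGd G' h0
    obtain ⟨Z, hZ⟩ := cramer_range (arcT β g w ω) G hne hdom Y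
    rw [hY] at hZ
    refine ⟨yy β G Z, ?_, ?_⟩
    · have h1 : x' = ∑ m, Z m • elt β g w ω (G m) := by
        apply β.repr.injective
        apply DFunLike.coe_injective
        rw [← hZ, sub_mulVec]
      have h3 := yy_mem β g w ω G Z
      rw [← h1] at h3
      exact h3
    · rw [arcN_eval β g w φ (β.repr x') G ω Z hZ, mul_div_cancel_left₀ _ hG0, yy, Finset.mul_sum,
        map_sum]
      refine Finset.sum_congr rfl fun m _ => ?_
      rcases hs : G m with ⟨s, l⟩
      cases s with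
      | none =>
        simp only
        rw [mul_smul_comm, map_smul, mul_comm]
        rfl
      | some j => simp only [mul_zero, map_zero]
  let ι : Type := {G : Fin n → Col n k // arcd β g w G ≠ 0}
  have hG00 : arcd β g w (G00 n k) ≠ 0 := by
    rw [arcd_G00 β g hw]
    refine mul_ne_zero ?_ (pow_ne_zero _ Polynomial.X_ne_zero)
    rw [Ne, Polynomial.C_eq_zero, map_eq_zero]
    exact pow_ne_zero _ (by norm_num)
  let G0 : ι := ⟨G00 n k, hG00⟩
  have H : ResData (ι := ι) (fun G => arcd β g w G.1) (fun G => arcN β g w φ (β.repr x') G.1)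
      G0 n M0 r := by
    refine ⟨hM0, hn, fun G => G.2, fun G => arcd_natDegree β g w G.1,
      fun G i => arcd_coeff_VV β g w G.1 i, fun G i => arcd_coeff_SM β g w hgS hwS G.1 i,
      ⟨(-1) ^ n, pow_ne_zero _ (by norm_num), arcd_G00 β g hw⟩,
      arcN_G00_degree β g hn hw φ (β.repr x'), ?_⟩
    intro ω hωV hωh G hG
    obtain ⟨y, hy1, hy2⟩ := key ⟨ω, hωV⟩ hωh G.1 hG.1 fun G' hG' => hG.2 ⟨G', hG'⟩
    constructor
    · intro G' hG'
      obtain ⟨z, hz1, hz2⟩ := key ⟨ω, hωV⟩ hωh G'.1 hG'.1 fun G' hG'' => hG'.2 ⟨G', hG''⟩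
      have e1 : (arcN β g w φ (β.repr x') G.1).eval ω / (arcd β g w G.1).eval ω = f0 (x * y) := hy2
      have e2 : (arcN β g w φ (β.repr x') G'.1).eval ω / (arcd β g w G'.1).eval ω =
        f0 (x * z) := hz2
      rw [e1, e2, ← map_sub]
      apply hf0N
      obtain ⟨ν, hν, z2, hz3, hsum⟩ := Submodule.mem_sup.1 (hx ⟨ω, hωV⟩ hωh)
      obtain ⟨c, rfl⟩ := Ideal.mem_span_singleton'.1 hz3
      have e3 : x * y - x * z = ν * (y - z) +
          c * ((x' - (w - algebraMap VV R ⟨ω, hωV⟩) * z) -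
            (x' - (w - algebraMap VV R ⟨ω, hωV⟩) * y)) := by
        rw [← hsum]
        ring
      rw [e3]
      exact Ideal.add_mem _ (Ideal.mul_mem_right _ _ hν)
        (Ideal.mul_mem_left _ _ (Ideal.sub_mem _ hz1 hy1))
    · have e1 : (arcN β g w φ (β.repr x') G.1).eval ω / (arcd β g w G.1).eval ω = f0 (x * y) := hy2
      rw [e1]
      have e2 : tp r * f0 (x * y) = f0 (tV (r : ℝ) • (x * y)) := by
        rw [map_smul]
        show tp r * f0 (x * y) = ((tV (r : ℝ) : VV) : Om) * f0 (x * y)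
        rw [tV_coe (Nat.cast_nonneg r)]
      rw [e2]
      exact hf0N _ (hrsm _)
  have hfin := residue_main H
  have hfin2 : (arcN β g w φ (β.repr x') (G00 n k)).coeff (n - 1) ∈ VV := hfin
  rw [arcN_G00_coeff β g hn hw, hφx] at hfin2
  apply hf0x
  have e : f0 (x * x') = (-1) ^ (n - 1) * ((-1) ^ (n - 1) * f0 (x * x')) := by
    rw [← mul_assoc, ← pow_add, ← two_mul, pow_mul]
    simp
  rw [e]
  exact VV.mul_mem (VV.pow_mem (VV.neg_mem VV.one_mem) _) hfin2

end Pool.DeB
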