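import Pool.Agent.Lib.DeB.BSDefs
import Pool.Agent.Lib.DeQ.BSProd

/-!
Module BS. Theorem BS (Briancon-Skoda for finite algebras along arcs of bounded denominator):
the `c`-th power of the intersection of the ideals `I(q)`, `q` an arc, is zero.
Paper: /team-store/MP_e00b88_lc_bs55.md (helper55); the main step is `Pool.DeQ.bs_prod`.
-/

set_option autoImplicit false

open TensorProduct

namespace Pool.DeB

private theorem pow_le_of_prod {A : Type*} [CommRing A] (K : Ideal A) (m : ℕ) :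
    ∀ J : Ideal A, (∀ x : Fin m → A, (∀ i, x i ∈ K) → ∏ i, x i ∈ J) → K ^ m ≤ J := by
  induction m with
  | zero =>
    intro J hJ
    have h := hJ (fun _ => 0) (fun i => i.elim0)
    rw [Finset.univ_eq_empty, Finset.prod_empty] at h
    rw [(Ideal.eq_top_iff_one J).2 h]
    exact le_top
  | succ m ih =>
    intro J hJ
    rw [pow_succ', Ideal.mul_le]
    intro a ha s hs
    have h := ih (Submodule.comap (LinearMap.mulLeft A a) J : Ideal A) (fun x hx => by
      rw [Submodule.mem_comap, LinearMap.mulLeft_apply]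
      have h1 := hJ (Fin.cons a x) (fun i => by
        refine Fin.cases ?_ (fun j => ?_) i
        · exact ha
        · exact hx j)
      rwa [Fin.prod_univ_succ, Fin.cons_zero] at h1)
    exact h hs

theorem bs_nilp {A : Type*} [CommRing A] [Algebra ℂ A] [FiniteDimensional ℂ A] {r c : ℕ}
    (hA : Module.finrank ℂ A ≤ r) (hc : 1 ≤ c) {vv : ℕ → A} (hn : ∀ j, j < c → IsNilpotent (vv j)) :
    (Karc vv c ((r + 1) ^ c)) ^ c = ⊥ := by
  rcases subsingleton_or_nontrivial A with hsub | hnt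
  · exact Subsingleton.elim _ _
  rw [eq_bot_iff]
  apply pow_le_of_prod
  intro x hx
  rw [Ideal.mem_bot]
  refine Pool.DeQ.bs_prod hc (fun j : Fin c => vv j) (fun j => hn j j.2) x ?_
  rintro i q hq1 ⟨j0, hj0⟩ ⟨h, hh1, hh2, hh3⟩
  have hq' : ∀ j : Fin c, (fun j : ℕ => if h : j < c then q ⟨j, h⟩ else 0) (j : ℕ) = q j := by
    intro j
    show (if h : (j : ℕ) < c then q ⟨j, h⟩ else 0) = q j
    rw [dif_pos j.2]
  have harc : IsArc c ((r + 1) ^ c) (fun j : ℕ => if h : j < c then q ⟨j, h⟩ else 0) := by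
    refine ⟨fun j hj => ?_, ⟨j0, j0.2, ?_⟩, h, hh1, hh2.trans ?_, fun j hj => ?_⟩
    · have h1 := hq' ⟨j, hj⟩
      rw [show (j : ℕ) = ((⟨j, hj⟩ : Fin c) : ℕ) from rfl, h1]
      exact hq1 _
    · rw [hq' j0]
      exact hj0
    · exact Nat.pow_le_pow_left (Nat.succ_le_succ hA) c
    · have h1 := hq' ⟨j, hj⟩
      rw [show (j : ℕ) = ((⟨j, hj⟩ : Fin c) : ℕ) from rfl, h1]
      exact hh3 _
  have hmem := mem_Karc.1 (hx i) _ harc
  rw [mem_IQ] at hmem
  unfold NQ gq at hmem
  simp only [hq'] at hmem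
  exact hmem

end Pool.DeB
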