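import Pool.Agent.Lib.DeB.NDefs

/-!
Definitions for the Briancon-Skoda type theorem (`/team-store/MP_e00b88_lc_bs55.md`) and for the
quasi-polynomial bound.
-/

set_option autoImplicit false

namespace Pool.DeB

/-- arcs: `q_j` of positive order for `j < c`, one of the orders is `≤ 1`, common denominator `≤ Nb`. -/
def IsArc (c Nb : ℕ) (q : ℕ → VV) : Prop :=
  (∀ j, j < c → (0 : WithTop ℝ) < v ((q j : VV) : Om)) ∧
  (∃ j, j < c ∧ v ((q j : VV) : Om) ≤ ((1 : ℝ) : WithTop ℝ)) ∧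
  ∃ h : ℕ, 0 < h ∧ h ≤ Nb ∧ ∀ j, j < c → ((q j : VV) : Om) ∈ SM h

/-- the ideal `K`: the intersection of all `IQ vv q c`, `q` an arc. -/
noncomputable def Karc {A : Type*} [CommRing A] [Algebra ℂ A] (vv : ℕ → A) (c Nb : ℕ) : Ideal A :=
  ⨅ q : {q : ℕ → VV // IsArc c Nb q}, IQ vv q.1 c

theorem mem_Karc {A : Type*} [CommRing A] [Algebra ℂ A] {vv : ℕ → A} {c Nb : ℕ} {a : A} :
    a ∈ Karc vv c Nb ↔ ∀ q : ℕ → VV, IsArc c Nb q → a ∈ IQ vv q c := by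
  unfold Karc
  rw [Ideal.mem_iInf]
  exact ⟨fun h q hq => h ⟨q, hq⟩, fun h q => h q.1 q.2⟩

/-- the quasi-polynomial bound. -/
def wbs (r c : ℕ) : ℕ := ((r + 1) ^ 6 * wst r (c ^ 2) ((r + 1) ^ c * c.factorial)) ^ c

end Pool.DeB
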