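import Pool.Agent.Lib.DeB.Defs

/-!
Module Core (220 lines). Lemma 4 of the paper (pure algebra).
PROOF. For `L : ℕ` let `n_L(a) = #{χ ∈ cl a : p^L * e a χ ≠ 0} ≤ m`, non-increasing in `L`;
`M_L = max_a n_L(a)` (a supremum of natural numbers `≤ m`, attained: `X` is nonempty). `M_L ≤ m` is
non-increasing in `L`. Among `L = 5, 10, ..., 5(m+2)` (`m+2` values, `M_L` takes at most `m+1`
values and is monotone) there are `L'` and `L = L' + 5` with `M_L = M_{L'} =: M`. So
`5 ≤ L' ≤ 5(m+1)`. Choose `a0` with `n_L(a0) = M`; then `M ≤ n_{L'}(a0) ≤ M`, so the two sets for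
`a0` are equal: with `E χ = e a0 χ` and `live = {χ ∈ cl a0 : p^L E χ ≠ 0}`, every `χ ∉ live` has
`p^{L'} E χ = 0`.
Fix `b : X`.
(E) `χ` live: there is `ψ ∈ cl b` with `p^(L-1) * E χ * e b ψ ≠ 0`, since
    `p^L E χ = p^(L-1) E χ * ∑_ψ e b ψ`.
(U) `χ` live: there is at most one `ψ` with `p^(L'+1) E χ e b ψ ≠ 0` (such `ψ` is in `cl b` by `h0`).
    Suppose `ψ1 ≠ ψ2` are two. For the other live `χ'` choose `ψ(χ')` by (E); as `L - 1 ≥ L' + 1`,
    `p^(L'+1) E χ' e b ψ(χ') ≠ 0`. This gives a set of `M+1` pairs `(χ,ψ)` with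
    `p^(L'+1) E χ e b ψ ≠ 0`. Choose `s : ℂ` such that the `χ + s • ψ` are pairwise different for these
    pairs (for two different pairs with the same `ψ` this is automatic; if `ψ ≠ ψ'` at most one `s` is
    bad: `s • (ψ - ψ') = χ' - χ`; finitely many bad `s`, `ℂ` is infinite). For each pair
    `p^(L'+1) E χ e b ψ = p^L' * ∑_ξ E χ e b ψ e (a0 + s b) ξ`, so there is `ξ ∈ cl (a0 + s b)` with
    `p^L' * E χ * e b ψ * e (a0+s b) ξ ≠ 0`; by `h2` (`L' ≥ 1`) `ξ = χ + s • ψ`, and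
    `p^L' e (a0+sb) ξ ≠ 0`. So `n_{L'}(a0 + s b) ≥ M + 1`, contradiction.
By (E), (U) there is exactly one `ψ =: g χ b` with `p^(L'+1) E χ e b ψ ≠ 0` for `χ` live, and
  (*) `p^(L'+2) E χ = p^(L'+1) E χ * ∑_ψ e b ψ = p^(L'+1) E χ * e b (g χ b)`.
Linearity of `g χ`: let `b'' = b + s b'`, `ψ = g χ b`, `ψ' = g χ b'`, `ψ'' = g χ b''`. By (*) used three
times `p^(L'+1) E χ e b ψ e b' ψ' e b'' ψ'' = p^(L'+4) E χ`. If `ψ + s ψ' ≠ ψ''` then `h2` gives
`p * (that) = 0`, so `p^(L'+5) E χ = p^L E χ = 0`, contradiction. (From `g(b + s b') = g b + s g b'` for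
all `b, b', s`: `s = 1`: additive, so `g 0 = 0`, and `b = 0`: homogeneous.)
`η χ = p^(5m+8-(L'+3)) * p^(L'+2) E χ` for live `χ`: it is a multiple of `e b (g χ b)` by (*), and the sum is
`p^(5m+8-(L'+3)) * p^(L'+2) * (p - ∑_{χ ∈ cl a0 not live} E χ) = p^(5m+8)`.
(index the live classes by `Fin n`, e.g. by `Finset.equivFin`.)
-/

set_option autoImplicit false

namespace Pool.DeB

open scoped Classical in
/-- the number of classes which are not killed by `p ^ L` -/
private noncomputable def cnt {X U B : Type*} [CommRing B] (p : B) (cl : X → Finset U)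
    (e : X → U → B) (L : ℕ) (a : X) : ℕ := ((cl a).filter fun χ => p ^ L * e a χ ≠ 0).card

private lemma cnt_le {X U B : Type*} [CommRing B] (p : B) (m : ℕ) (cl : X → Finset U)
    (hcl : ∀ a, (cl a).card ≤ m) (e : X → U → B) (L : ℕ) (a : X) : cnt p cl e L a ≤ m := by
  classical
  unfold cnt
  exact (Finset.card_filter_le _ _).trans (hcl a)

private lemma pow_ne {B : Type*} [CommRing B] (p x : B) {L L' : ℕ} (h : L' ≤ L)
    (hx : p ^ L * x ≠ 0) : p ^ L' * x ≠ 0 := by
  intro h0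
  apply hx
  obtain ⟨k, rfl⟩ := Nat.exists_eq_add_of_le h
  rw [pow_add, mul_comm (p ^ L'), mul_assoc, h0, mul_zero]

private lemma cnt_anti {X U B : Type*} [CommRing B] (p : B) (cl : X → Finset U)
    (e : X → U → B) {L L' : ℕ} (h : L' ≤ L) (a : X) : cnt p cl e L a ≤ cnt p cl e L' a := by
  classical
  apply Finset.card_le_card
  intro χ hχ
  rw [Finset.mem_filter] at hχ ⊢
  exact ⟨hχ.1, pow_ne p _ h hχ.2⟩

private lemma exists_max {X : Type*} [Nonempty X] (f : X → ℕ) (m : ℕ) (h : ∀ a, f a ≤ m) :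
    ∃ a, ∀ a', f a' ≤ f a := by
  refine ⟨Function.argmin (fun a => m - f a), fun a' => ?_⟩
  have h1 := Function.argmin_le (fun a => m - f a) a'
  have h2 := h a'
  have h3 := h (Function.argmin (fun a => m - f a))
  omega

private lemma exists_level {X U B : Type*} [Nonempty X] [CommRing B] (p : B) (m : ℕ)
    (cl : X → Finset U) (hcl : ∀ a, (cl a).card ≤ m) (e : X → U → B) :
    ∃ (L' : ℕ) (a0 : X), 1 ≤ L' ∧ L' ≤ 5 * m + 5 ∧
      (∀ a, cnt p cl e L' a ≤ cnt p cl e (L' + 5) a0) ∧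
      cnt p cl e L' a0 = cnt p cl e (L' + 5) a0 := by
  choose A hA using fun L => exists_max (cnt p cl e L) m (cnt_le p m cl hcl e L)
  have h1 : ∃ j, j ≤ m ∧ cnt p cl e (5 * (j + 1)) (A (5 * (j + 1))) ≤
      cnt p cl e (5 * (j + 1) + 5) (A (5 * (j + 1) + 5)) := by
    by_contra hcon
    push Not at hcon
    have h2 : ∀ j, j ≤ m + 1 →
        cnt p cl e (5 * (j + 1)) (A (5 * (j + 1))) + j ≤ m := by
      intro j
      induction j with
      | zero => intro _; simpa using cnt_le p m cl hcl e _ _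
      | succ j ih =>
        intro hj
        have h3 := ih (by omega)
        have h4 := hcon j (by omega)
        have h5 : 5 * (j + 1) + 5 = 5 * (j + 1 + 1) := by ring
        rw [h5] at h4
        omega
    have := h2 (m + 1) le_rfl
    omega
  obtain ⟨j, hj, h2⟩ := h1
  refine ⟨5 * (j + 1), A (5 * (j + 1) + 5), by omega, by omega, fun a => (hA _ a).trans h2, ?_⟩
  exact le_antisymm ((hA _ _).trans h2) (cnt_anti p cl e (by omega) _)

private lemma exists_s {U : Type*} [AddCommGroup U] [Module ℂ U] (S : Finset (U × U)) :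
    ∃ s : ℂ, ∀ x ∈ S, ∀ y ∈ S, x.1 + s • x.2 = y.1 + s • y.2 → x = y := by
  have h1 : ∀ x y : U × U, x ≠ y → {s : ℂ | x.1 + s • x.2 = y.1 + s • y.2}.Finite := by
    intro x y hxy
    apply Set.Subsingleton.finite
    intro s hs t ht
    have hs' : x.1 + s • x.2 = y.1 + s • y.2 := hs
    have ht' : x.1 + t • x.2 = y.1 + t • y.2 := ht
    by_contra hst
    apply hxy
    have h2 : (s - t) • (x.2 - y.2) = 0 := by
      have h3 : (s - t) • (x.2 - y.2) = (x.1 + s • x.2 - (y.1 + s • y.2)) -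
          (x.1 + t • x.2 - (y.1 + t • y.2)) := by module
      rw [h3, hs', ht']
      simp
    have h4 : x.2 = y.2 := by
      rcases smul_eq_zero.mp h2 with h5 | h5
      · exact absurd (sub_eq_zero.mp h5) hst
      · exact sub_eq_zero.mp h5
    have h6 : x.1 = y.1 := by
      rw [h4] at hs'
      exact add_right_cancel hs'
    exact Prod.ext h6 h4
  have h2 : (⋃ x ∈ S, ⋃ y ∈ S, ⋃ _ : x ≠ y, {s : ℂ | x.1 + s • x.2 = y.1 + s • y.2}).Finite := by
    apply Set.Finite.biUnion (Finset.finite_toSet S)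
    intro x _
    apply Set.Finite.biUnion (Finset.finite_toSet S)
    intro y _
    apply Set.finite_iUnion
    exact fun h => h1 x y h
  obtain ⟨s, hs⟩ := h2.infinite_compl.nonempty
  refine ⟨s, fun x hx y hy hxy => ?_⟩
  by_contra hne
  apply hs
  simp only [Set.mem_iUnion]
  exact ⟨x, hx, y, hy, hne, hxy⟩

theorem core {X U B : Type*} [AddCommGroup X] [Module ℂ X] [AddCommGroup U] [Module ℂ U]
    [CommRing B] (p : B) (m : ℕ) (cl : X → Finset U) (hcl : ∀ a, (cl a).card ≤ m)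
    (e : X → U → B) (h0 : ∀ a χ, χ ∉ cl a → e a χ = 0) (h1 : ∀ a, ∑ χ ∈ cl a, e a χ = p)
    (h2 : ∀ (a b : X) (s : ℂ) (χ χ' χ'' : U), χ + s • χ' ≠ χ'' →
      p * e a χ * e b χ' * e (a + s • b) χ'' = 0) :
    ∃ (n : ℕ) (γ : Fin n → (X →ₗ[ℂ] U)) (η : Fin n → B), ∑ j, η j = p ^ (5 * m + 8) ∧
      ∀ j b, γ j b ∈ cl b ∧ ∃ k, η j = k * e b (γ j b) := by
  classical
  obtain ⟨L, a0, hL1, hL2, hmax, heq⟩ := exists_level p m cl hcl e
  set E : U → B := e a0 with hE
  set live : Finset U := (cl a0).filter fun χ => p ^ (L + 5) * E χ ≠ 0 with hlive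
  have hcard : cnt p cl e (L + 5) a0 = live.card := by
    simp only [cnt, hlive, hE]
  -- dead classes
  have hdead : ∀ χ ∈ cl a0, χ ∉ live → p ^ L * E χ = 0 := by
    intro χ hχ hn
    have h3 : (cl a0).filter (fun χ => p ^ (L + 5) * e a0 χ ≠ 0) =
        (cl a0).filter (fun χ => p ^ L * e a0 χ ≠ 0) := by
      apply Finset.eq_of_subset_of_card_le
      · intro χ hχ
        rw [Finset.mem_filter] at hχ ⊢
        exact ⟨hχ.1, pow_ne p _ (by omega) hχ.2⟩
      · exact heq.le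
    by_contra h4
    apply hn
    rw [hlive, h3, Finset.mem_filter]
    exact ⟨hχ, h4⟩
  have hliv : ∀ χ ∈ live, p ^ (L + 5) * E χ ≠ 0 := fun χ hχ => (Finset.mem_filter.mp hχ).2
  -- (E)
  have hEx : ∀ χ ∈ live, ∀ b, ∃ ψ ∈ cl b, p ^ (L + 4) * E χ * e b ψ ≠ 0 := by
    intro χ hχ b
    by_contra hcon
    push Not at hcon
    apply hliv χ hχ
    have h3 : p ^ (L + 5) * E χ = ∑ ψ ∈ cl b, p ^ (L + 4) * E χ * e b ψ := by
      rw [← Finset.mul_sum, h1 b]
      ring
    rw [h3]
    exact Finset.sum_eq_zero hcon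
  have hdown : ∀ x : B, p ^ (L + 4) * x ≠ 0 → p ^ (L + 1) * x ≠ 0 := fun x hx =>
    pow_ne p x (by omega) hx
  -- (U)
  have hUn : ∀ χ ∈ live, ∀ b ψ1 ψ2, p ^ (L + 1) * E χ * e b ψ1 ≠ 0 →
      p ^ (L + 1) * E χ * e b ψ2 ≠ 0 → ψ1 = ψ2 := by
    intro χ hχ b ψ1 ψ2 hψ1 hψ2
    by_contra hne
    choose! Ψ hΨ1 hΨ2 using fun χ' hχ' => hEx χ' hχ' b
    let F : U → U × U := fun χ' => (χ', if χ' = χ then ψ1 else Ψ χ')
    have hFinj : Function.Injective F := fun x y hxy => (Prod.ext_iff.mp hxy).1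
    let S : Finset (U × U) := insert (χ, ψ2) (live.image F)
    have hnot : (χ, ψ2) ∉ live.image F := by
      intro hmem
      obtain ⟨x, _, hx⟩ := Finset.mem_image.mp hmem
      have hx1 : x = χ := (Prod.ext_iff.mp hx).1
      have hx2 : (if x = χ then ψ1 else Ψ x) = ψ2 := (Prod.ext_iff.mp hx).2
      rw [if_pos hx1] at hx2
      exact hne hx2
    have hScard : S.card = live.card + 1 := by
      rw [Finset.card_insert_of_notMem hnot, Finset.card_image_of_injective _ hFinj]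
    have hS : ∀ x ∈ S, p ^ (L + 1) * E x.1 * e b x.2 ≠ 0 := by
      intro x hx
      rcases Finset.mem_insert.mp hx with rfl | hx
      · exact hψ2
      · obtain ⟨χ', hχ', rfl⟩ := Finset.mem_image.mp hx
        show p ^ (L + 1) * E χ' * e b (if χ' = χ then ψ1 else Ψ χ') ≠ 0
        by_cases hc : χ' = χ
        · rw [if_pos hc, hc]
          exact hψ1
        · rw [if_neg hc, mul_assoc]
          apply hdown
          rw [← mul_assoc]
          exact hΨ2 χ' hχ'
    obtain ⟨s, hs⟩ := exists_s S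
    have hsub : S.image (fun x => x.1 + s • x.2) ⊆
        (cl (a0 + s • b)).filter fun ξ => p ^ L * e (a0 + s • b) ξ ≠ 0 := by
      intro ξ hξ
      obtain ⟨x, hx, rfl⟩ := Finset.mem_image.mp hξ
      have h3 : ∃ ξ ∈ cl (a0 + s • b), p ^ L * E x.1 * e b x.2 * e (a0 + s • b) ξ ≠ 0 := by
        by_contra hcon
        push Not at hcon
        apply hS x hx
        have h4 : p ^ (L + 1) * E x.1 * e b x.2 =
            ∑ ξ ∈ cl (a0 + s • b), p ^ L * E x.1 * e b x.2 * e (a0 + s • b) ξ := by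
          rw [← Finset.mul_sum, h1 (a0 + s • b)]
          ring
        rw [h4]
        exact Finset.sum_eq_zero hcon
      obtain ⟨ξ, hξ1, hξ2⟩ := h3
      have h5 : x.1 + s • x.2 = ξ := by
        by_contra hne'
        apply hξ2
        obtain ⟨k, hk⟩ : ∃ k, L = k + 1 := ⟨L - 1, by omega⟩
        have h6 := h2 a0 b s x.1 x.2 ξ hne'
        rw [hk, pow_succ]
        linear_combination p ^ k * h6
      rw [Finset.mem_filter, h5]
      refine ⟨hξ1, fun h6 => hξ2 ?_⟩
      linear_combination (E x.1 * e b x.2) * h6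
    have h3 := Finset.card_le_card hsub
    rw [Finset.card_image_of_injOn (fun x hx y hy hxy => hs x hx y hy hxy), hScard] at h3
    have h4 := hmax (a0 + s • b)
    rw [hcard] at h4
    have h5 : cnt p cl e L (a0 + s • b) =
        ((cl (a0 + s • b)).filter fun ξ => p ^ L * e (a0 + s • b) ξ ≠ 0).card := by
      simp only [cnt]
    omega
  choose! g hg1 hg2 using hEx
  have hg3 : ∀ χ ∈ live, ∀ b, p ^ (L + 1) * E χ * e b (g χ b) ≠ 0 := by
    intro χ hχ b
    rw [mul_assoc]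
    apply hdown
    rw [← mul_assoc]
    exact hg2 χ hχ b
  have hstar : ∀ χ ∈ live, ∀ b, p ^ (L + 2) * E χ = p ^ (L + 1) * E χ * e b (g χ b) := by
    intro χ hχ b
    have h3 : p ^ (L + 2) * E χ = ∑ ψ ∈ cl b, p ^ (L + 1) * E χ * e b ψ := by
      rw [← Finset.mul_sum, h1 b]
      ring
    rw [h3, Finset.sum_eq_single (g χ b)]
    · intro ψ _ hψ
      by_contra h4
      exact hψ (hUn χ hχ b ψ (g χ b) h4 (hg3 χ hχ b))
    · intro h4
      exact absurd (hg1 χ hχ b) h4
  have hlin : ∀ χ ∈ live, ∀ (b b' : X) (s : ℂ), g χ (b + s • b') = g χ b + s • g χ b' := by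
    intro χ hχ b b' s
    by_contra hne
    apply hliv χ hχ
    have h3 := hstar χ hχ b
    have h4 := hstar χ hχ b'
    have h5 := hstar χ hχ (b + s • b')
    have h6 := h2 b b' s (g χ b) (g χ b') (g χ (b + s • b')) (fun h => hne h.symm)
    set x := e b (g χ b)
    set y := e b' (g χ b')
    set z := e (b + s • b') (g χ (b + s • b'))
    have h7 : p ^ (L + 5) * E χ = p ^ (L + 1) * E χ * (p * x * y * z) := by
      have e1 : p ^ (L + 5) * E χ = p ^ 3 * (p ^ (L + 2) * E χ) := by ring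
      have e2 : p ^ 3 * (p ^ (L + 1) * E χ * x) = p ^ 2 * x * (p ^ (L + 2) * E χ) := by ring
      have e3 : p ^ 2 * x * (p ^ (L + 1) * E χ * y) = p * x * y * (p ^ (L + 2) * E χ) := by ring
      rw [e1, h3, e2, h4, e3, h5]
      ring
    rw [h7, h6, mul_zero]
  let G : live → (X →ₗ[ℂ] U) := fun χ =>
    { toFun := g χ.1
      map_add' := fun b b' => by
        have := hlin χ.1 χ.2 b b' 1
        rwa [one_smul, one_smul] at this
      map_smul' := fun s b' => by
        have h3 := hlin χ.1 χ.2 0 0 1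
        rw [one_smul, one_smul, add_zero] at h3
        have h4 : g χ.1 0 = 0 := by
          have := h3.symm
          rwa [add_eq_left] at this
        have h5 := hlin χ.1 χ.2 0 b' s
        rw [zero_add, h4, zero_add] at h5
        rw [RingHom.id_apply]
        exact h5 }
  refine ⟨live.card, fun j => G (live.equivFin.symm j),
    fun j => p ^ (5 * m + 8 - (L + 3)) * (p ^ (L + 2) * E (live.equivFin.symm j).1), ?_, ?_⟩
  · rw [← Finset.mul_sum]
    have h3 : ∑ j, p ^ (L + 2) * E (live.equivFin.symm j).1 = ∑ χ ∈ live, p ^ (L + 2) * E χ := by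
      rw [Equiv.sum_comp live.equivFin.symm (fun χ : live => p ^ (L + 2) * E χ.1)]
      exact Finset.sum_coe_sort live (fun χ => p ^ (L + 2) * E χ)
    have h4 : ∑ χ ∈ live, p ^ (L + 2) * E χ = ∑ χ ∈ cl a0, p ^ (L + 2) * E χ := by
      apply Finset.sum_subset (Finset.filter_subset _ _)
      intro χ hχ hn
      have h5 := hdead χ hχ hn
      linear_combination p ^ 2 * h5
    rw [h3, h4, ← Finset.mul_sum, h1 a0, ← pow_succ, ← pow_add]
    congr 1
    omega
  · intro j b
    have hχ := (live.equivFin.symm j).2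
    refine ⟨hg1 _ hχ b, p ^ (5 * m + 8 - (L + 3)) * (p ^ (L + 1) * E (live.equivFin.symm j).1), ?_⟩
    show p ^ (5 * m + 8 - (L + 3)) * (p ^ (L + 2) * E (live.equivFin.symm j).1) = _
    rw [hstar _ hχ b]
    show _ = _ * e b (g (live.equivFin.symm j).1 b)
    ring

end Pool.DeB
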