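import Pool.Agent.Lib.DeB.Defs

/-!
Module Decomp (170 lines). Decomposition of a functional on a finite-dimensional commutative algebra.
PROOF. `A` is Artinian (`FiniteDimensional`), finitely many maximal ideals `M_1, ..., M_k`, `k ≤ finrank` (`A → ∏ A ⧸ M_i` is surjective
and every factor is `≠ 0`). `A ⧸ M_i ≅ ℂ` (`ℂ` algebraically closed, finite-dimensional field extension), giving characters
`χ_i : A →ₐ[ℂ] ℂ` with kernel `M_i`. The `M_i^r` are pairwise coprime and `⨅ M_i^r = ∏ M_i^r = (∏ M_i)^r = (nilradical)^r = 0`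
(an element `x` of a nil ideal in an algebra of dimension `≤ r`: the ideal `J` = nilradical is nilpotent and the chain `J ⊋ J^2 ⊋ ...`
strictly decreases until `0`, so `J^r = 0`). Chinese remainder: there are `e_i ∈ A` with `∑ e_i = 1` and `e_i ∈ M_j^r` for all `j ≠ i`
(`Ideal.exists_sum...`/`Ideal.quotientInfRingEquivPiQuotient`). Then `x * e_i = 0` for `x ∈ M_i^r` (`x e_i ∈ ⨅ M_j^r = 0`).
`φ(x) = ∑_i φ(x e_i)`; `φ_i(x) = φ(x e_i)` vanishes on `M_i^r`. For `x ∈ A`, `x = χ_i(x) + n`, `n = x - χ_i(x) ∈ M_i`: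
`φ_i(x^d) = ∑_{j ≤ d} binom(d,j) χ_i(x)^(d-j) φ_i(n^j)` and the terms `j ≥ r` vanish.
-/

set_option autoImplicit false

namespace Pool.DeB

open Function in
private theorem exists_char {A : Type*} [CommRing A] [Algebra ℂ A] [FiniteDimensional ℂ A]
    (M : Ideal A) [hM : M.IsMaximal] :
    ∃ χ : A →ₐ[ℂ] ℂ, RingHom.ker (χ : A →+* ℂ) = M := by
  haveI : IsDomain (A ⧸ M) := inferInstance
  haveI : Module.Finite ℂ (A ⧸ M) := inferInstance
  haveI : Algebra.IsIntegral ℂ (A ⧸ M) := inferInstance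
  have hb : Bijective (algebraMap ℂ (A ⧸ M)) := IsAlgClosed.algebraMap_bijective_of_isIntegral
  let e : ℂ ≃ₐ[ℂ] (A ⧸ M) := AlgEquiv.ofBijective (Algebra.ofId ℂ (A ⧸ M)) hb
  refine ⟨(e.symm : (A ⧸ M) →ₐ[ℂ] ℂ).comp (Ideal.Quotient.mkₐ ℂ M), ?_⟩
  ext x
  rw [RingHom.mem_ker]
  show e.symm (Ideal.Quotient.mk M x) = 0 ↔ x ∈ M
  rw [EmbeddingLike.map_eq_zero_iff, Ideal.Quotient.eq_zero_iff_mem]

private theorem pow_bot {A : Type*} [CommRing A] [Algebra ℂ A] [FiniteDimensional ℂ A] {r : ℕ}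
    (hr : Module.finrank ℂ A ≤ r) (J : Ideal A) (hJ : J ≤ Ideal.jacobson ⊥) : J ^ r = ⊥ := by
  haveI : IsNoetherianRing A := IsNoetherianRing.of_finite ℂ A
  have key : ∀ i : ℕ, J ^ i = ⊥ ∨
      Module.finrank ℂ ((J ^ i).restrictScalars ℂ) + i ≤ Module.finrank ℂ A := by
    intro i
    induction i with
    | zero =>
      right
      rw [pow_zero, Ideal.one_eq_top, Submodule.restrictScalars_top, finrank_top, add_zero]
    | succ i ih =>
      rcases ih with ih | ih
      · left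
        rw [eq_bot_iff, ← ih]
        exact Ideal.pow_le_pow_right (Nat.le_succ i)
      · by_cases h : J ^ (i + 1) = J ^ i
        · left
          have h1 : (J ^ i : Ideal A) = ⊥ := by
            refine Submodule.eq_bot_of_le_smul_of_le_jacobson_bot J (J ^ i)
              (IsNoetherian.noetherian _) ?_ hJ
            rw [smul_eq_mul, ← pow_succ', h]
          rw [h, h1]
        · right
          have hle : J ^ (i + 1) ≤ J ^ i := Ideal.pow_le_pow_right (Nat.le_succ i)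
          have hlt : (J ^ (i + 1)).restrictScalars ℂ < (J ^ i).restrictScalars ℂ := by
            refine lt_of_le_of_ne (fun x hx => hle hx) fun h' => h ?_
            exact Submodule.restrictScalars_injective ℂ A A h'
          have h2 := Submodule.finrank_lt_finrank_of_lt hlt
          omega
  rcases key r with h | h
  · exact h
  · have h0 : Module.finrank ℂ ((J ^ r).restrictScalars ℂ) = 0 := by omega
    rw [Submodule.finrank_eq_zero] at h0
    exact (Submodule.restrictScalars_eq_bot_iff ℂ A A).mp h0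

theorem functional_decomp {A : Type*} [CommRing A] [Algebra ℂ A] [FiniteDimensional ℂ A] {r : ℕ}
    (hr : Module.finrank ℂ A ≤ r) (φ : A →ₗ[ℂ] ℂ) :
    ∃ (k : ℕ) (χ : Fin k → (A →ₐ[ℂ] ℂ)) (ψ : Fin k → (A →ₗ[ℂ] ℂ)), k ≤ r ∧
      (∀ i, ∀ x ∈ (RingHom.ker (χ i : A →+* ℂ)) ^ r, ψ i x = 0) ∧
      ∀ (x : A) (d : ℕ), φ (x ^ d) = ∑ i, ∑ j ∈ Finset.range (min r (d + 1)),
        (d.choose j : ℂ) * χ i x ^ (d - j) * ψ i ((x - algebraMap ℂ A (χ i x)) ^ j) := by
  classical
  haveI : Finite (A →ₐ[ℂ] ℂ) := Finite.algHom ℂ A ℂ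
  let k := Nat.card (A →ₐ[ℂ] ℂ)
  let ε : (A →ₐ[ℂ] ℂ) ≃ Fin k := Finite.equivFin _
  let χ : Fin k → (A →ₐ[ℂ] ℂ) := fun i => ε.symm i
  have hχs : ∀ c : A →ₐ[ℂ] ℂ, ∃ i, χ i = c := fun c => ⟨ε c, ε.symm_apply_apply c⟩
  have hχi : ∀ i j, χ i = χ j → i = j := fun i j h => ε.symm.injective h
  let K : Fin k → Ideal A := fun i => RingHom.ker (χ i : A →+* ℂ)
  have hK : ∀ i, ∀ x, x ∈ K i ↔ χ i x = 0 := fun i x => RingHom.mem_ker
  have hn : ∀ i x, x - algebraMap ℂ A (χ i x) ∈ K i := by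
    intro i x
    rw [hK, map_sub, AlgHom.commutes]
    exact sub_self _
  have hcop : Pairwise (Function.onFun IsCoprime K) := by
    intro i j hij
    have hne : χ i ≠ χ j := fun h => hij (hχi i j h)
    obtain ⟨x, hx⟩ : ∃ x, χ i x ≠ χ j x := by
      by_contra hcon
      push Not at hcon
      exact hne (AlgHom.ext hcon)
    show IsCoprime (K i) (K j)
    rw [Ideal.isCoprime_iff_exists]
    have hc : χ j x - χ i x ≠ 0 := sub_ne_zero.mpr (Ne.symm hx)
    refine ⟨algebraMap ℂ A (χ j x - χ i x)⁻¹ * (x - algebraMap ℂ A (χ i x)),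
      Ideal.mul_mem_left _ _ (hn i x),
      -(algebraMap ℂ A (χ j x - χ i x)⁻¹ * (x - algebraMap ℂ A (χ j x))),
      neg_mem (Ideal.mul_mem_left _ _ (hn j x)), ?_⟩
    have h1 : algebraMap ℂ A (χ j x - χ i x)⁻¹ * algebraMap ℂ A (χ j x - χ i x) = 1 := by
      rw [← map_mul, inv_mul_cancel₀ hc, map_one]
    rw [map_sub] at h1
    linear_combination h1
  have hJ : (⨅ i, K i) ≤ Ideal.jacobson ⊥ := by
    refine le_sInf ?_
    rintro M ⟨-, hM⟩
    haveI := hM
    obtain ⟨c, hc⟩ := exists_char M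
    obtain ⟨i, rfl⟩ := hχs c
    rw [← hc]
    exact iInf_le K i
  have hJr := pow_bot hr _ hJ
  let N : Fin k → Ideal A := fun i => K i ^ r
  have hNcop : Pairwise (Function.onFun IsCoprime N) := fun i j hij => (hcop hij).pow
  have hNbot : (⨅ i, N i) = ⊥ := by
    have h1 : ∏ i ∈ (Finset.univ : Finset (Fin k)), N i = ⨅ i ∈ (Finset.univ : Finset (Fin k)), N i :=
      Ideal.prod_eq_iInf_of_pairwise_isCoprime fun i _ j _ hij => hNcop hij
    have h2 : ∏ i ∈ (Finset.univ : Finset (Fin k)), K i = ⨅ i ∈ (Finset.univ : Finset (Fin k)), K i :=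
      Ideal.prod_eq_iInf_of_pairwise_isCoprime fun i _ j _ hij => hcop hij
    have h3 : ∏ i ∈ (Finset.univ : Finset (Fin k)), N i = (∏ i ∈ (Finset.univ : Finset (Fin k)), K i) ^ r :=
      Finset.prod_pow _ _ _
    simp only [Finset.mem_univ, iInf_true] at h1 h2
    rw [← h1, h3, h2, hJr]
  have hdec : ∀ i, ∃ e : A, ∀ j, e - (if j = i then 1 else 0) ∈ N j := fun i =>
    Ideal.exists_forall_sub_mem_ideal hNcop fun j => if j = i then 1 else 0
  choose e he using hdec
  have hsum : ∑ i, e i = 1 := by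
    have h1 : ∑ i, e i - 1 ∈ ⨅ i, N i := by
      rw [Ideal.mem_iInf]
      intro j
      have h2 : ∑ i, e i - 1 = ∑ i, (e i - (if j = i then 1 else 0)) := by
        rw [Finset.sum_sub_distrib]
        simp
      rw [h2]
      exact Ideal.sum_mem _ fun i _ => he i j
    rw [hNbot, Ideal.mem_bot] at h1
    exact sub_eq_zero.mp h1
  have hzero : ∀ i, ∀ x ∈ K i ^ r, x * e i = 0 := by
    intro i x hx
    have h1 : x * e i ∈ ⨅ j, N j := by
      rw [Ideal.mem_iInf]
      intro j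
      by_cases hji : j = i
      · subst hji
        exact Ideal.mul_mem_right _ _ hx
      · have h2 := he i j
        rw [if_neg hji, sub_zero] at h2
        exact Ideal.mul_mem_left _ _ h2
    rwa [hNbot, Ideal.mem_bot] at h1
  let ψ : Fin k → (A →ₗ[ℂ] ℂ) := fun i => φ ∘ₗ LinearMap.mulRight ℂ (e i)
  have hψ : ∀ i x, ψ i x = φ (x * e i) := fun i x => rfl
  have hψ0 : ∀ i, ∀ x ∈ K i ^ r, ψ i x = 0 := by
    intro i x hx
    rw [hψ, hzero i x hx, map_zero]
  refine ⟨k, χ, ψ, (card_algHom_le_finrank ℂ A ℂ).trans hr, hψ0, ?_⟩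
  intro x d
  have h1 : φ (x ^ d) = ∑ i, ψ i (x ^ d) := by
    simp only [hψ]
    rw [← map_sum, ← Finset.mul_sum, hsum, mul_one]
  rw [h1]
  refine Finset.sum_congr rfl fun i _ => ?_
  have h2 : x ^ d = ∑ j ∈ Finset.range (d + 1), ((d.choose j : ℂ) * χ i x ^ (d - j)) •
      (x - algebraMap ℂ A (χ i x)) ^ j := by
    conv_lhs => rw [show x = (x - algebraMap ℂ A (χ i x)) + algebraMap ℂ A (χ i x) by ring]
    rw [add_pow]
    refine Finset.sum_congr rfl fun j _ => ?_
    rw [Algebra.smul_def, map_mul, map_pow, map_natCast]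
    ring
  rw [h2, map_sum]
  simp only [map_smul, smul_eq_mul]
  symm
  refine Finset.sum_subset ?_ ?_
  · intro j hj
    rw [Finset.mem_range] at hj ⊢
    omega
  · intro j hj hj'
    rw [Finset.mem_range] at hj hj'
    have hrj : r ≤ j := by omega
    have h3 : (x - algebraMap ℂ A (χ i x)) ^ j ∈ K i ^ r :=
      Ideal.pow_le_pow_right hrj (Ideal.pow_mem_pow (hn i x) j)
    rw [hψ0 i _ h3, mul_zero]

end Pool.DeB
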