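import Mathlib

/-!
# Sub-exponential debordering of border Waring rank (MP_e00b88_lc): definitions
Paper: /team-store/MP_e00b88_lc_paper19.md

`Om` is the field of Hahn series with real exponents and complex coefficients (type synonym, so that
the unwanted power series algebra instance is not found). `Om.cf f e` is the coefficient of `t^e`,
`v` the order, `VV` the valuation ring, `res` the residue map, `tp κ = t^κ`, `SM M` the series with
exponents in `(1/M) ℤ`. Basic facts are in this file; use them instead of unfolding `Om`.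
-/

set_option autoImplicit false

open Polynomial

namespace Pool.DeB

/-! ### Waring-type functions on a complex vector space -/

/-- `F : X → ℂ` is a sum of `s` terms `c_i L_i ^ D` with linear forms `L_i`. -/
def IsW {X : Type*} [AddCommGroup X] [Module ℂ X] (s D : ℕ) (F : X → ℂ) : Prop :=
  ∃ (c : Fin s → ℂ) (L : Fin s → (X →ₗ[ℂ] ℂ)), ∀ a, F a = ∑ i, c i * (L i a) ^ D

/-- For all functionals `φ` on `A` vanishing on `I` and all `j ≤ r` the function `a ↦ φ (y a ^ j)`
is a sum of `w` powers of linear forms. -/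
def HW {X A : Type*} [AddCommGroup X] [Module ℂ X] [CommRing A] [Algebra ℂ A]
    (y : X →ₗ[ℂ] A) (r : ℕ) (I : Ideal A) (w : ℕ) : Prop :=
  ∀ φ : A →ₗ[ℂ] ℂ, (∀ a ∈ I, φ a = 0) → ∀ j ≤ r, IsW w j (fun a => φ (y a ^ j))

/-! ### The Hahn field -/

/-- Hahn series with real exponents and complex coefficients. -/
def Om : Type := HahnSeries ℝ ℂ

noncomputable instance : Field Om := inferInstanceAs (Field (HahnSeries ℝ ℂ))

noncomputable instance : Algebra ℂ Om := (HahnSeries.C : ℂ →+* HahnSeries ℝ ℂ).toAlgebra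

/-- coefficient of `t^e` -/
def cf (f : Om) (e : ℝ) : ℂ := HahnSeries.coeff f e

/-- the order -/
noncomputable def v (f : Om) : WithTop ℝ := HahnSeries.orderTop f

/-- the power `t^κ`. -/
noncomputable def tp (κ : ℝ) : Om := HahnSeries.single κ (1 : ℂ)

theorem Om_ext {f g : Om} (h : ∀ e, cf f e = cf g e) : f = g :=
  HahnSeries.ext (funext h)

theorem cf_add (f g : Om) (e : ℝ) : cf (f + g) e = cf f e + cf g e := HahnSeries.coeff_add

theorem cf_neg (f : Om) (e : ℝ) : cf (-f) e = - cf f e := HahnSeries.coeff_neg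

theorem cf_sub (f g : Om) (e : ℝ) : cf (f - g) e = cf f e - cf g e := HahnSeries.coeff_sub

theorem cf_zero (e : ℝ) : cf (0 : Om) e = 0 := HahnSeries.coeff_zero

theorem alg_def (u : ℂ) : algebraMap ℂ Om u = (HahnSeries.single 0 u : HahnSeries ℝ ℂ) := rfl

theorem smul_def' (u : ℂ) (f : Om) : u • f = algebraMap ℂ Om u * f := rfl

theorem cf_alg_mul (u : ℂ) (f : Om) (e : ℝ) : cf (algebraMap ℂ Om u * f) e = u * cf f e :=
  HahnSeries.coeff_single_zero_mul

theorem cf_smul (u : ℂ) (f : Om) (e : ℝ) : cf (u • f) e = u * cf f e := cf_alg_mul u f e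

theorem cf_alg (u : ℂ) (e : ℝ) : cf (algebraMap ℂ Om u) e = if e = 0 then u else 0 := by
  rw [alg_def]
  by_cases h : e = 0
  · subst h
    simp [cf]
  · rw [if_neg h]
    exact HahnSeries.coeff_single_of_ne h

theorem cf_tp (κ e : ℝ) : cf (tp κ) e = if e = κ then 1 else 0 := by
  by_cases h : e = κ
  · subst h
    simp [cf, tp]
  · rw [if_neg h]
    exact HahnSeries.coeff_single_of_ne h

theorem cf_tp_mul (κ : ℝ) (f : Om) (e : ℝ) : cf (tp κ * f) e = cf f (e - κ) := by
  have h := HahnSeries.coeff_single_mul (Γ' := ℝ) (r := (1 : ℂ)) (x := (f : HahnSeries ℝ ℂ))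
    (a := e) (b := κ)
  rw [one_mul] at h
  exact h

theorem v_eq_top {f : Om} : v f = ⊤ ↔ f = 0 := HahnSeries.orderTop_eq_top

theorem v_zero : v (0 : Om) = ⊤ := v_eq_top.2 rfl

theorem v_ne_top {f : Om} : v f ≠ ⊤ ↔ f ≠ 0 := v_eq_top.not

theorem v_mul (f g : Om) : v (f * g) = v f + v g := HahnSeries.orderTop_mul f g

theorem v_one : v (1 : Om) = 0 := HahnSeries.orderTop_one

theorem v_neg (f : Om) : v (-f) = v f := HahnSeries.orderTop_neg

theorem v_add_ge (f g : Om) : min (v f) (v g) ≤ v (f + g) := by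
  have h : min (HahnSeries.orderTop (f : HahnSeries ℝ ℂ)) (HahnSeries.orderTop (g : HahnSeries ℝ ℂ))
    ≤ HahnSeries.orderTop ((f : HahnSeries ℝ ℂ) + g) := HahnSeries.min_orderTop_le_orderTop_add
  exact h

theorem v_sub_ge (f g : Om) : min (v f) (v g) ≤ v (f - g) := by
  rw [sub_eq_add_neg, ← v_neg g]
  exact v_add_ge f (-g)

theorem v_sub_comm (f g : Om) : v (f - g) = v (g - f) := by
  rw [← v_neg (f - g), neg_sub]

theorem v_add_eq_left {f g : Om} (h : v f < v g) : v (f + g) = v f :=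
  HahnSeries.orderTop_add_eq_left h

theorem v_add_eq_right {f g : Om} (h : v g < v f) : v (f + g) = v g :=
  HahnSeries.orderTop_add_eq_right h

theorem le_v_iff {f : Om} {i : WithTop ℝ} : i ≤ v f ↔ ∀ e : ℝ, (e : WithTop ℝ) < i → cf f e = 0 :=
  HahnSeries.le_orderTop_iff_forall

theorem cf_eq_zero_of_lt {f : Om} {e : ℝ} (h : (e : WithTop ℝ) < v f) : cf f e = 0 :=
  HahnSeries.coeff_eq_zero_of_lt_orderTop h

theorem v_le_of_cf_ne {f : Om} {e : ℝ} (h : cf f e ≠ 0) : v f ≤ e :=
  HahnSeries.orderTop_le_of_coeff_ne_zero h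

theorem cf_v_ne {f : Om} {e : ℝ} (h : v f = e) : cf f e ≠ 0 :=
  HahnSeries.coeff_orderTop_ne h

theorem v_tp (κ : ℝ) : v (tp κ) = (κ : WithTop ℝ) := HahnSeries.orderTop_single one_ne_zero

theorem tp_ne_zero (κ : ℝ) : tp κ ≠ 0 := by
  rw [← v_ne_top, v_tp]
  exact WithTop.coe_ne_top

theorem tp_zero : tp 0 = 1 := rfl

theorem tp_add (κ l : ℝ) : tp (κ + l) = tp κ * tp l := by
  have h := HahnSeries.single_mul_single (a := κ) (b := l) (r := (1 : ℂ)) (s := (1 : ℂ))
  rw [one_mul] at h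
  exact h.symm

theorem tp_neg (κ : ℝ) : tp (-κ) = (tp κ)⁻¹ := by
  apply eq_inv_of_mul_eq_one_left
  rw [← tp_add, neg_add_cancel, tp_zero]

theorem tp_sub (κ l : ℝ) : tp (κ - l) = tp κ / tp l := by
  rw [sub_eq_add_neg, tp_add, tp_neg, div_eq_mul_inv]

theorem tp_nsmul (n : ℕ) (κ : ℝ) : tp (n * κ) = tp κ ^ n := by
  induction n with
  | zero => simp [tp_zero]
  | succ n ih => rw [pow_succ, ← ih, ← tp_add]; congr 1; push_cast; ring

theorem v_alg {u : ℂ} (hu : u ≠ 0) : v (algebraMap ℂ Om u) = 0 :=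
  HahnSeries.orderTop_single hu

theorem v_alg_ge (u : ℂ) : (0 : WithTop ℝ) ≤ v (algebraMap ℂ Om u) := by
  by_cases h : u = 0
  · subst h; rw [map_zero, v_zero]; exact le_top
  · rw [v_alg h]

theorem v_pow (f : Om) (n : ℕ) : v (f ^ n) = n • v f := by
  induction n with
  | zero => simp [v_one]
  | succ n ih => rw [pow_succ, v_mul, ih, succ_nsmul]

theorem v_sum_ge {ι : Type*} (s : Finset ι) (f : ι → Om) (i : WithTop ℝ)
    (h : ∀ k ∈ s, i ≤ v (f k)) : i ≤ v (∑ k ∈ s, f k) := by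
  classical
  induction s using Finset.induction_on with
  | empty => rw [Finset.sum_empty, v_zero]; exact le_top
  | insert a s ha ih =>
    rw [Finset.sum_insert ha]
    refine le_trans (le_min (h a (Finset.mem_insert_self a s)) (ih fun k hk =>
      h k (Finset.mem_insert_of_mem hk))) (v_add_ge _ _)

theorem v_prod {ι : Type*} (s : Finset ι) (f : ι → Om) : v (∏ k ∈ s, f k) = ∑ k ∈ s, v (f k) := by
  classical
  induction s using Finset.induction_on with
  | empty => simp [v_one]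
  | insert a s ha ih => rw [Finset.prod_insert ha, Finset.sum_insert ha, v_mul, ih]

/-- the valuation ring `{v ≥ 0}` of `Om`. -/
noncomputable def VV : Subalgebra ℂ Om where
  carrier := {f | (0 : WithTop ℝ) ≤ v f}
  mul_mem' := by
    intro a b ha hb
    have ha' : (0 : WithTop ℝ) ≤ v a := ha
    have hb' : (0 : WithTop ℝ) ≤ v b := hb
    show (0 : WithTop ℝ) ≤ v (a * b)
    rw [v_mul]
    exact add_nonneg ha' hb'
  add_mem' := by
    intro a b ha hb
    have ha' : (0 : WithTop ℝ) ≤ v a := ha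
    have hb' : (0 : WithTop ℝ) ≤ v b := hb
    exact le_trans (le_min ha' hb') (v_add_ge a b)
  algebraMap_mem' := fun u => v_alg_ge u

theorem mem_VV {f : Om} : f ∈ VV ↔ (0 : WithTop ℝ) ≤ v f := Iff.rfl

theorem tp_mem_VV {κ : ℝ} (h : 0 ≤ κ) : tp κ ∈ VV := by
  rw [mem_VV, v_tp]
  exact_mod_cast h

/-- the power `t^κ` as an element of the valuation ring (`κ` is replaced by `|κ|`). -/
noncomputable def tV (κ : ℝ) : VV := ⟨tp |κ|, tp_mem_VV (abs_nonneg κ)⟩

theorem tV_coe {κ : ℝ} (h : 0 ≤ κ) : ((tV κ : VV) : Om) = tp κ := by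
  show tp |κ| = tp κ
  rw [abs_of_nonneg h]

/-- divisibility in the valuation ring -/
theorem VV_dvd_iff {f g : VV} : f ∣ g ↔ v (f : Om) ≤ v (g : Om) := by
  constructor
  · rintro ⟨h, rfl⟩
    have h2 : (0 : WithTop ℝ) ≤ v (h : Om) := h.2
    have h3 : ((f * h : VV) : Om) = (f : Om) * (h : Om) := rfl
    rw [h3, v_mul]
    exact le_add_of_nonneg_right h2
  · intro h
    by_cases hf : (f : Om) = 0
    · rw [hf, v_zero, top_le_iff, v_eq_top] at h
      have h1 : g = 0 := Subtype.ext h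
      rw [h1]; exact dvd_zero f
    · have hq : (g : Om) / (f : Om) ∈ VV := by
        rw [mem_VV]
        by_contra hlt
        push Not at hlt
        have e1 : (g : Om) = (g : Om) / (f : Om) * (f : Om) := (div_mul_cancel₀ _ hf).symm
        have e2 : v (g : Om) = v ((g : Om) / (f : Om)) + v (f : Om) := by
          conv_lhs => rw [e1]
          rw [v_mul]
        obtain ⟨x, hx⟩ := WithTop.ne_top_iff_exists.1 (v_ne_top.2 hf)
        have hne : v ((g : Om) / (f : Om)) ≠ ⊤ := ne_top_of_lt hlt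
        obtain ⟨z, hz⟩ := WithTop.ne_top_iff_exists.1 hne
        rw [e2, ← hx, ← hz] at h
        rw [← hz] at hlt
        have h5 : x ≤ z + x := by exact_mod_cast h
        have h6 : z < 0 := by exact_mod_cast hlt
        linarith
      refine ⟨⟨_, hq⟩, Subtype.ext ?_⟩
      show (g : Om) = (f : Om) * ((g : Om) / (f : Om))
      rw [mul_div_cancel₀ _ hf]

theorem VV_dvd_total (f g : VV) : f ∣ g ∨ g ∣ f := by
  rw [VV_dvd_iff, VV_dvd_iff]
  exact le_total _ _

theorem v_pos_iff {f : Om} (h : f ∈ VV) : (0 : WithTop ℝ) < v f ↔ cf f 0 = 0 := by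
  constructor
  · intro h2
    exact cf_eq_zero_of_lt (by exact_mod_cast h2)
  · intro h2
    refine lt_of_le_of_ne (mem_VV.1 h) ?_
    intro h3
    exact cf_v_ne (by rw [← h3]; rfl) h2

/-- the residue map: the coefficient of `t^0`. -/
noncomputable def res : VV →ₐ[ℂ] ℂ where
  toFun f := cf (f : Om) 0
  map_one' := by
    have h := cf_alg 1 0
    rw [map_one, if_pos rfl] at h
    exact h
  map_mul' := by
    intro f g
    show cf ((f : Om) * (g : Om)) 0 = cf (f : Om) 0 * cf (g : Om) 0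
    set a : ℂ := cf (f : Om) 0 with ha
    have h1 : (f : Om) - algebraMap ℂ Om a ∈ VV := VV.sub_mem f.2 (VV.algebraMap_mem a)
    have h2 : cf ((f : Om) - algebraMap ℂ Om a) 0 = 0 := by
      rw [cf_sub, cf_alg, if_pos rfl, ha, sub_self]
    have h3 := (v_pos_iff h1).2 h2
    have h4 : (0 : WithTop ℝ) < v (((f : Om) - algebraMap ℂ Om a) * (g : Om)) := by
      rw [v_mul]
      exact add_pos_of_pos_of_nonneg h3 g.2
    have h5 : (f : Om) * (g : Om) = algebraMap ℂ Om a * (g : Om) +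
        ((f : Om) - algebraMap ℂ Om a) * (g : Om) := by ring
    have h6 : cf (((f : Om) - algebraMap ℂ Om a) * (g : Om)) 0 = 0 :=
      cf_eq_zero_of_lt (by exact_mod_cast h4)
    rw [h5, cf_add, cf_alg_mul, h6, add_zero]
  map_zero' := cf_zero 0
  map_add' := fun f g => cf_add _ _ 0
  commutes' := by
    intro u
    show cf (algebraMap ℂ Om u) 0 = u
    rw [cf_alg, if_pos rfl]

theorem res_apply (f : VV) : res f = cf (f : Om) 0 := rfl

theorem res_eq_zero_iff {f : VV} : res f = 0 ↔ (0 : WithTop ℝ) < v (f : Om) := by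
  rw [v_pos_iff f.2]; rfl

/-- series all of whose exponents are in `(1/M) ℤ`. -/
noncomputable def SM (M : ℕ) : Subalgebra ℂ Om where
  carrier := {f | ∀ e : ℝ, cf f e ≠ 0 → ∃ k : ℤ, (M : ℝ) * e = k}
  mul_mem' := by
    intro a b ha hb e he
    have h := HahnSeries.support_mul_subset (x := (a : HahnSeries ℝ ℂ)) (y := (b : HahnSeries ℝ ℂ))
      (show e ∈ _ from he)
    obtain ⟨x, hx, z, hz, rfl⟩ := h
    obtain ⟨k, hk⟩ := ha x hx
    obtain ⟨l, hl⟩ := hb z hz
    exact ⟨k + l, by push_cast; rw [← hk, ← hl]; ring⟩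
  add_mem' := by
    intro a b ha hb e he
    by_cases h : cf a e = 0
    · have h2 : cf b e ≠ 0 := by
        intro h3
        apply he
        rw [cf_add, h, h3, add_zero]
      exact hb e h2
    · exact ha e h
  algebraMap_mem' := by
    intro u e he
    rw [cf_alg] at he
    by_cases h : e = 0
    · exact ⟨0, by rw [h]; simp⟩
    · rw [if_neg h] at he
      exact absurd rfl he

theorem mem_SM {M : ℕ} {f : Om} : f ∈ SM M ↔ ∀ e : ℝ, cf f e ≠ 0 → ∃ k : ℤ, (M : ℝ) * e = k :=
  Iff.rfl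

theorem SM_mul_le (M h : ℕ) : SM M ≤ SM (M * h) := by
  intro f hf e he
  obtain ⟨k, hk⟩ := hf e he
  exact ⟨k * h, by push_cast; rw [← hk]; ring⟩

theorem tp_mem_SM {M : ℕ} {κ : ℝ} (h : ∃ k : ℤ, (M : ℝ) * κ = k) : tp κ ∈ SM M := by
  intro e he
  rw [cf_tp] at he
  by_cases h2 : e = κ
  · rw [h2]; exact h
  · rw [if_neg h2] at he
    exact absurd rfl he

theorem v_SM {M : ℕ} {f : Om} (hf : f ∈ SM M) {κ : ℝ} (h : v f = κ) : ∃ k : ℤ, (M : ℝ) * κ = k :=
  hf κ (cf_v_ne h)

/-- truncation: keep the exponents `< κ`. -/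
noncomputable def trunc (κ : ℝ) : Om →ₗ[ℂ] Om where
  toFun f := HahnSeries.truncLT κ (f : HahnSeries ℝ ℂ)
  map_add' := fun f g => HahnSeries.truncLT_add κ _ _
  map_smul' := by
    intro u f
    apply Om_ext
    intro e
    rw [RingHom.id_apply, cf_smul]
    show (if e < κ then cf (u • f) e else 0) = u * (if e < κ then cf f e else 0)
    rw [cf_smul]
    split_ifs <;> simp

theorem cf_trunc (κ : ℝ) (f : Om) (e : ℝ) : cf (trunc κ f) e = if e < κ then cf f e else 0 := rfl

theorem trunc_sub_mem {κ : ℝ} (f : Om) : (κ : WithTop ℝ) ≤ v (f - trunc κ f) := by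
  rw [le_v_iff]
  intro e he
  have h : e < κ := by exact_mod_cast he
  rw [cf_sub, cf_trunc, if_pos h, sub_self]

theorem trunc_eq_zero {κ : ℝ} {f : Om} (h : (κ : WithTop ℝ) ≤ v f) : trunc κ f = 0 := by
  apply Om_ext
  intro e
  rw [cf_trunc, cf_zero]
  split_ifs with h2
  · exact cf_eq_zero_of_lt (lt_of_lt_of_le (by exact_mod_cast h2) h)
  · rfl

theorem trunc_mem_VV {κ : ℝ} {f : Om} (h : f ∈ VV) : trunc κ f ∈ VV := by
  rw [mem_VV, le_v_iff]
  intro e he
  rw [cf_trunc]
  split_ifs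
  · exact cf_eq_zero_of_lt (lt_of_lt_of_le he h)
  · rfl

theorem trunc_mem_SM {κ : ℝ} {M : ℕ} {f : Om} (h : f ∈ SM M) : trunc κ f ∈ SM M := by
  intro e he
  rw [cf_trunc] at he
  split_ifs at he
  · exact h e he
  · exact absurd rfl he

/-! ### Gauss valuations, residues -/

/-- Gauss valuation on the unit disc: minimum of the orders of the coefficients. -/
noncomputable def gn (P : Om[X]) : WithTop ℝ := P.support.inf (fun i => v (P.coeff i))

/-- substitution `z = c + t^κ u`. -/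
noncomputable def scal (c : Om) (κ : ℝ) (P : Om[X]) : Om[X] := P.comp (C (tp κ) * X + C c)

/-- Gauss valuation on the disc `D(c,κ)`. -/
noncomputable def gv (c : Om) (κ : ℝ) (P : Om[X]) : WithTop ℝ := gn (scal c κ P)

/-- `ρ` is the sum of the residues of `N / d` in the set `S`. -/
def IsRes (S : Set Om) (N d : Om[X]) (ρ : Om) : Prop :=
  ∃ D D' A B : Om[X], D.Monic ∧ d = D * D' ∧ (∀ z, D.IsRoot z → z ∈ S) ∧ (∀ z ∈ S, ¬ D'.IsRoot z) ∧
    N = A * D' + B * D ∧ A.degree < D.degree ∧ ρ = A.coeff (D.natDegree - 1)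

/-- `G` dominates at `ω`: the value of `d G` is nonzero and has the smallest order. -/
def Dom {ι : Type*} (d : ι → Om[X]) (ω : Om) (G : ι) : Prop :=
  (d G).eval ω ≠ 0 ∧ ∀ G', v ((d G).eval ω) ≤ v ((d G').eval ω)

/-- `G` dominates on the disc `D(c,κ)`. -/
def DomD {ι : Type*} (d : ι → Om[X]) (c : Om) (κ : ℝ) (G : ι) : Prop :=
  d G ≠ 0 ∧ ∀ G', gv c κ (d G) ≤ gv c κ (d G')

/-- closed disc -/
def cdisc (c : Om) (κ : ℝ) : Set Om := {z | (κ : WithTop ℝ) ≤ v (z - c)}

/-- open disc -/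
def odisc (c : Om) (κ : ℝ) : Set Om := {z | (κ : WithTop ℝ) < v (z - c)}

end Pool.DeB
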