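import Pool.Agent.Lib.DeB.Defs

/-!
Definitions for Proposition 12 (residues on the tree of discs).
-/

set_option autoImplicit false

open Polynomial

namespace Pool.DeB

/-- the hypotheses of Proposition 12. -/
structure ResData {ι : Type} (d N : ι → Om[X]) (G0 : ι) (b M0 r : ℕ) : Prop where
  hM0 : 0 < M0
  hb : 0 < b
  hd : ∀ G, d G ≠ 0
  hdeg : ∀ G, (d G).natDegree ≤ b
  hdV : ∀ G i, (d G).coeff i ∈ VV
  hdS : ∀ G i, (d G).coeff i ∈ SM M0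
  hG0 : ∃ u : ℂ, u ≠ 0 ∧ d G0 = C (algebraMap ℂ Om u) * X ^ b
  hN0 : (N G0).degree < (b : WithBot ℕ)
  hyp : ∀ ω ∈ VV, (∃ h : ℕ, 1 ≤ h ∧ h ≤ b ^ 2 ∧ ω ∈ SM (M0 * h)) → ∀ G, Dom d ω G →
    (∀ G', Dom d ω G' →
      (N G).eval ω / (d G).eval ω - (N G').eval ω / (d G').eval ω ∈ VV) ∧
    tp r * ((N G).eval ω / (d G).eval ω) ∈ VV

/-- common denominator of all breakpoints -/
def Qn (M0 b : ℕ) : ℕ := M0 * b.factorial * b.factorial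

/-- `(c, κ)` is a vertex at which the hypothesis can be used. -/
def Vert (M0 b : ℕ) (c : Om) (κ : ℝ) : Prop :=
  c ∈ VV ∧ 0 ≤ κ ∧ ∃ h : ℕ, 1 ≤ h ∧ h ≤ b ^ 2 ∧ c ∈ SM (M0 * h) ∧ tp κ ∈ SM (M0 * h)

/-- the line `(G, i)` is active at `(c, κ)`. -/
def Act {ι : Type} (d : ι → Om[X]) (c : Om) (κ : ℝ) (G : ι) (i : ℕ) : Prop :=
  (taylor c (d G)).coeff i ≠ 0 ∧ ∀ G' i',
    v ((taylor c (d G)).coeff i) + ((i * κ : ℝ) : WithTop ℝ) ≤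
      v ((taylor c (d G')).coeff i') + ((i' * κ : ℝ) : WithTop ℝ)

/-- lines of different slope at the center `c` cross only at multiples of `1/Q`. -/
def NoX {ι : Type} (d : ι → Om[X]) (c : Om) (Q : ℝ) : Prop :=
  ∀ G i G' i', (taylor c (d G)).coeff i ≠ 0 → (taylor c (d G')).coeff i' ≠ 0 → i ≠ i' → ∀ κ : ℝ,
    v ((taylor c (d G)).coeff i) + ((i * κ : ℝ) : WithTop ℝ) =
      v ((taylor c (d G')).coeff i') + ((i' * κ : ℝ) : WithTop ℝ) → ∃ k : ℤ, Q * κ = k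

/-- the roots in `VV` of all the `d G`. -/
def ZZ {ι : Type} (d : ι → Om[X]) : Set Om := {c | c ∈ VV ∧ ∃ G, (d G).IsRoot c}

/-- the claim `P(k)` of the induction. -/
def PK {ι : Type} (d N : ι → Om[X]) (Q : ℝ) (k : ℕ) : Prop :=
  ∀ c ∈ ZZ d, ∀ G, DomD d c ((k + 1 / 2) / Q) G → ∀ ρ,
    IsRes (cdisc c ((k + 1 / 2) / Q)) (N G) (d G) ρ → ρ ∈ VV

end Pool.DeB
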