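import Pool.Agent.Lib.DeB.Defs

/-!
Module WBasic. Elementary facts on `IsW s D F`.
-/

set_option autoImplicit false

namespace Pool.DeB

variable {X Z : Type*} [AddCommGroup X] [Module ℂ X] [AddCommGroup Z] [Module ℂ Z]

theorem isW_zero (s D : ℕ) : IsW (X := X) s D (fun _ => 0) := by
  refine ⟨fun _ => 0, fun _ => 0, fun a => ?_⟩
  simp

theorem isW_add {s s' D : ℕ} {F G : X → ℂ} (hF : IsW s D F) (hG : IsW s' D G) :
    IsW (s + s') D (fun a => F a + G a) := by
  obtain ⟨c, L, h⟩ := hF
  obtain ⟨c', L', h'⟩ := hG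
  refine ⟨Fin.append c c', Fin.append L L', fun a => ?_⟩
  rw [Fin.sum_univ_add]
  simp only [Fin.append_left, Fin.append_right]
  rw [h a, h' a]

theorem isW_mono {s s' D : ℕ} (h : s ≤ s') {F : X → ℂ} (hF : IsW s D F) : IsW s' D F := by
  obtain ⟨k, rfl⟩ := Nat.exists_eq_add_of_le h
  have := isW_add hF (isW_zero (X := X) k D)
  simpa using this

theorem isW_smul {s D : ℕ} {F : X → ℂ} (u : ℂ) (hF : IsW s D F) : IsW s D (fun a => u * F a) := by
  obtain ⟨c, L, h⟩ := hF
  refine ⟨fun i => u * c i, L, fun a => ?_⟩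
  show u * F a = _
  rw [h a, Finset.mul_sum]
  exact Finset.sum_congr rfl fun i _ => by ring

theorem isW_sum {ι : Type*} (S : Finset ι) {s D : ℕ} {F : ι → X → ℂ} (h : ∀ i ∈ S, IsW s D (F i)) :
    IsW (S.card * s) D (fun a => ∑ i ∈ S, F i a) := by
  classical
  induction S using Finset.induction_on with
  | empty => simpa using isW_zero (X := X) (0 * s) D
  | insert i S hi ih =>
    have h1 := h i (Finset.mem_insert_self i S)
    have h2 := ih fun j hj => h j (Finset.mem_insert_of_mem hj)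
    have h3 := isW_add h1 h2
    refine isW_mono (le_of_eq ?_) (F := fun a => ∑ j ∈ insert i S, F j a) (s := s + S.card * s) ?_
    · rw [Finset.card_insert_of_notMem hi]; ring
    · have e : (fun a => ∑ j ∈ insert i S, F j a) = fun a => F i a + ∑ j ∈ S, F j a := by
        funext a
        rw [Finset.sum_insert hi]
      rw [e]
      exact h3

theorem isW_comp {s D : ℕ} {F : X → ℂ} (hF : IsW s D F) (T : Z →ₗ[ℂ] X) :
    IsW s D (fun a => F (T a)) := by
  obtain ⟨c, L, h⟩ := hF
  refine ⟨c, fun i => (L i).comp T, fun a => ?_⟩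
  show F (T a) = _
  rw [h (T a)]
  rfl

end Pool.DeB
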