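import Pool.Agent.Lib.DeB.Defs

/-!
Module WInterp (100 lines). Interpolation (E3 of the paper).
For linear forms `γ 0, ..., γ (P-1)` and a linear functional `ψ` on `ℂ[X]`,
`a ↦ ψ ((∑ l, γ l a X^l)^D)` is a sum of `P D + 1` terms `c_p L_p^D`.
PROOF. `H_a = (∑_{l<P} C (γ l a) * X^l)^D` has degree `≤ (P-1) D ≤ P D`. Take `K = P D + 1` distinct
numbers `θ_p`, `p < K` (e.g. `θ_p = p`). By Lagrange interpolation (`Lagrange.sum_basis`,
`Lagrange.eq_interpolate` or the Vandermonde matrix) `H_a = ∑_p C (H_a.eval θ_p) * B_p` with fixed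
polynomials `B_p` (independent of `a`). So `ψ H_a = ∑_p ψ (B_p) * (H_a.eval θ_p)` and
`H_a.eval θ_p = (∑_l θ_p^l γ l a)^D` is the `D`-th power of the linear form `∑_l θ_p^l • γ l`.
(`P = 0`: `H_a = 0^D`, covered by the same argument.)
-/

set_option autoImplicit false

open Polynomial

namespace Pool.DeB

variable {X : Type*} [AddCommGroup X] [Module ℂ X]

theorem isW_interp (P D : ℕ) (γ : Fin P → (X →ₗ[ℂ] ℂ)) (ψ : ℂ[X] →ₗ[ℂ] ℂ) :
    IsW (P * D + 1) D
      (fun a => ψ ((∑ l : Fin P, Polynomial.C (γ l a) * Polynomial.X ^ (l : ℕ)) ^ D)) := by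
  have hinj : Set.InjOn (fun i : Fin (P * D + 1) => ((i : ℕ) : ℂ))
      (Finset.univ : Finset (Fin (P * D + 1))) := by
    intro i _ j _ hij
    exact Fin.ext (Nat.cast_injective hij)
  refine ⟨fun i => ψ (Lagrange.basis Finset.univ (fun i : Fin (P * D + 1) => ((i : ℕ) : ℂ)) i),
    fun i => ∑ l : Fin P, (((i : ℕ) : ℂ) ^ (l : ℕ)) • γ l, fun a => ?_⟩
  have hdeg : ((∑ l : Fin P, Polynomial.C (γ l a) * Polynomial.X ^ (l : ℕ)) ^ D : ℂ[X]).degree <
      ((Finset.univ : Finset (Fin (P * D + 1))).card : WithBot ℕ) := by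
    have h1 : (∑ l : Fin P, Polynomial.C (γ l a) * Polynomial.X ^ (l : ℕ) : ℂ[X]).natDegree ≤ P :=
      Polynomial.natDegree_sum_le_of_forall_le _ _ fun l _ =>
        (Polynomial.natDegree_C_mul_X_pow_le _ _).trans l.2.le
    have h2 : ((∑ l : Fin P, Polynomial.C (γ l a) * Polynomial.X ^ (l : ℕ)) ^ D : ℂ[X]).natDegree ≤
        P * D := Polynomial.natDegree_pow_le.trans (by rw [mul_comm P D]; exact Nat.mul_le_mul_left D h1)
    rw [Finset.card_univ, Fintype.card_fin]
    exact Polynomial.degree_le_natDegree.trans_lt (by exact_mod_cast Nat.lt_succ_of_le h2)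
  have hL := Lagrange.eq_interpolate hinj hdeg
  rw [Lagrange.interpolate_apply] at hL
  have h3 := congrArg ψ hL
  rw [map_sum] at h3
  refine h3.trans (Finset.sum_congr rfl fun i _ => ?_)
  rw [← Polynomial.smul_eq_C_mul, map_smul, smul_eq_mul, mul_comm, Polynomial.eval_pow,
    Polynomial.eval_finsetSum, LinearMap.sum_apply]
  congr 2
  refine Finset.sum_congr rfl fun l _ => ?_
  rw [Polynomial.eval_mul, Polynomial.eval_C, Polynomial.eval_pow, Polynomial.eval_X,
    LinearMap.smul_apply, smul_eq_mul, mul_comm]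

end Pool.DeB
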