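import Pool.Agent.Lib.DeB.Defs

/-!
Module WMul (120 lines). Products of powers of linear forms (E2 of the paper).
PROOF of `isW_pow_mul_pow`: put `E = D + D'`. For `θ : ℂ`,
`(x + θ z)^E = ∑_{i ≤ E} θ^i (E choose i) x^(E-i) z^i`. Take `E+1` distinct numbers `θ_0..θ_E`
(e.g. `θ_p = p`); the Vandermonde matrix `θ_p^i` is invertible, so there are `λ_p` (depending only
on `E, D'`) with `∑_p λ_p θ_p^i = if i = D' then 1 / (E choose D') else 0` for all `i ≤ E`; then
`x^D z^D' = ∑_p λ_p (x + θ_p z)^E`. Use it with `x = L a`, `z = L' a`, the linear forms are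
`L + θ_p • L'`.
-/

set_option autoImplicit false

namespace Pool.DeB

variable {X : Type*} [AddCommGroup X] [Module ℂ X]

/-- a sum over a finite index type -/
private theorem isW_of_fintype {ι : Type*} [Fintype ι] {N D : ℕ} (hN : Fintype.card ι = N)
    (c : ι → ℂ) (L : ι → (X →ₗ[ℂ] ℂ)) {F : X → ℂ} (h : ∀ a, F a = ∑ i, c i * (L i a) ^ D) :
    IsW N D F := by
  let e : ι ≃ Fin N := Fintype.equivFinOfCardEq hN
  refine ⟨fun i => c (e.symm i), fun i => L (e.symm i), fun a => ?_⟩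
  rw [h a]
  exact (Equiv.sum_comp e.symm (fun i => c i * (L i a) ^ D)).symm

/-- the coefficients `λ_p` -/
private theorem exists_lam (E D' : ℕ) (hD : D' ≤ E) : ∃ lam : Fin (E + 1) → ℂ,
    ∀ i ∈ Finset.range (E + 1), ∑ p, lam p * ((p : ℕ) : ℂ) ^ i =
      if i = D' then ((E.choose D' : ℕ) : ℂ)⁻¹ else 0 := by
  have hinj : Function.Injective (fun p : Fin (E + 1) => (((p : ℕ) : ℂ))) := by
    intro p q hpq
    have h1 : ((p : ℕ) : ℂ) = ((q : ℕ) : ℂ) := hpq
    exact Fin.ext (by exact_mod_cast h1)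
  have hdet : (Matrix.vandermonde (fun p : Fin (E + 1) => (((p : ℕ) : ℂ)))).det ≠ 0 :=
    Matrix.det_vandermonde_ne_zero_iff.2 hinj
  set V := Matrix.vandermonde (fun p : Fin (E + 1) => (((p : ℕ) : ℂ))) with hV
  let tgt : Fin (E + 1) → ℂ := fun i => if (i : ℕ) = D' then ((E.choose D' : ℕ) : ℂ)⁻¹ else 0
  refine ⟨Matrix.vecMul tgt V⁻¹, fun i hi => ?_⟩
  have hi' : i < E + 1 := Finset.mem_range.1 hi
  have h2 : Matrix.vecMul (Matrix.vecMul tgt V⁻¹) V = tgt := by
    rw [Matrix.vecMul_vecMul, Matrix.nonsing_inv_mul _ (isUnit_iff_ne_zero.2 hdet),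
      Matrix.vecMul_one]
  have h3 := congrFun h2 ⟨i, hi'⟩
  exact h3

theorem isW_pow_mul_pow (D D' : ℕ) (L L' : X →ₗ[ℂ] ℂ) :
    IsW (D + D' + 1) (D + D') (fun a => L a ^ D * L' a ^ D') := by
  obtain ⟨lam, hlam⟩ := exists_lam (D + D') D' (Nat.le_add_left _ _)
  refine ⟨lam, fun p => ((p : ℕ) : ℂ) • L' + L, fun a => ?_⟩
  have h1 : ∀ p : Fin (D + D' + 1), (((((p : ℕ) : ℂ) • L' + L) : X →ₗ[ℂ] ℂ) a) ^ (D + D') =
      ∑ m ∈ Finset.range (D + D' + 1), ((p : ℕ) : ℂ) ^ m *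
        ((L' a) ^ m * (L a) ^ (D + D' - m) * ((D + D').choose m : ℕ)) := by
    intro p
    rw [LinearMap.add_apply, LinearMap.smul_apply, smul_eq_mul, add_pow]
    refine Finset.sum_congr rfl fun m _ => ?_
    rw [mul_pow]
    ring
  simp only [h1, Finset.mul_sum]
  rw [Finset.sum_comm]
  have h2 : ∀ m ∈ Finset.range (D + D' + 1), ∑ p : Fin (D + D' + 1), lam p *
      (((p : ℕ) : ℂ) ^ m * ((L' a) ^ m * (L a) ^ (D + D' - m) * ((D + D').choose m : ℕ))) =
      (if m = D' then (((D + D').choose D' : ℕ) : ℂ)⁻¹ else 0) *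
        ((L' a) ^ m * (L a) ^ (D + D' - m) * ((D + D').choose m : ℕ)) := by
    intro m hm
    rw [← hlam m hm, Finset.sum_mul]
    refine Finset.sum_congr rfl fun p _ => ?_
    ring
  rw [Finset.sum_congr rfl h2, Finset.sum_eq_single D']
  · rw [if_pos rfl, Nat.add_sub_cancel]
    have h3 : (((D + D').choose D' : ℕ) : ℂ) ≠ 0 := by
      have := Nat.choose_pos (Nat.le_add_left D' D)
      exact_mod_cast this.ne'
    field_simp
  · intro m _ hm
    rw [if_neg hm, zero_mul]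
  · intro h
    exact absurd (Finset.mem_range.2 (by omega)) h

theorem isW_mul {s s' D D' : ℕ} {F G : X → ℂ} (hF : IsW s D F) (hG : IsW s' D' G) :
    IsW (s * s' * (D + D' + 1)) (D + D') (fun a => F a * G a) := by
  obtain ⟨c, L, h⟩ := hF
  obtain ⟨c', L', h'⟩ := hG
  choose d M hM using fun i j => isW_pow_mul_pow D D' (L i) (L' j)
  refine isW_of_fintype (ι := (Fin s × Fin s') × Fin (D + D' + 1)) (by simp)
    (fun q => c q.1.1 * c' q.1.2 * d q.1.1 q.1.2 q.2) (fun q => M q.1.1 q.1.2 q.2) fun a => ?_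
  rw [h a, h' a, Finset.sum_mul_sum, Fintype.sum_prod_type, Fintype.sum_prod_type]
  refine Finset.sum_congr rfl fun i _ => Finset.sum_congr rfl fun j _ => ?_
  have h5 : c i * L i a ^ D * (c' j * L' j a ^ D') = c i * c' j * (L i a ^ D * L' j a ^ D') := by
    ring
  rw [h5]
  have h6 := hM i j a
  simp only at h6
  rw [h6, Finset.mul_sum]
  refine Finset.sum_congr rfl fun p _ => ?_
  ring

theorem isW_lin_mul {s D : ℕ} {F : X → ℂ} (L : X →ₗ[ℂ] ℂ) (hF : IsW s D F) :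
    IsW (s * (D + 2)) (D + 1) (fun a => L a * F a) := by
  have h1 : IsW 1 1 (fun a => L a) := ⟨fun _ => 1, fun _ => L, fun a => by simp⟩
  have h2 := isW_mul h1 hF
  have e1 : 1 * s * (1 + D + 1) = s * (D + 2) := by ring
  have e2 : 1 + D = D + 1 := Nat.add_comm 1 D
  rw [e1, e2] at h2
  exact h2

end Pool.DeB
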