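import Pool.Agent.Lib.DeB.Defs
import Pool.Agent.Lib.DeB.WBasic
import Pool.Agent.Lib.DeB.WMul
import Pool.Agent.Lib.DeB.WInterp

/-!
Module Direct (220 lines). Lemma 6 of the paper.
PROOF. Let `φ : A → ℂ` vanish on `ker f`; there is a `ℂ`-linear `φ' : D → ℂ` with `φ' (f a) = φ a` (factor `φ` through the
range of `f` and extend, `LinearMap.exists_extend`). Let `e_k` be a basis of `X` (`n ≤ r` elements), `a_k` coordinates,
`Y_a = f (y a) - gh a` (linear in `a`; `gh a` means its image in `D`), `z_k = Y_{e_k}`, so `Y_a = ∑_k a_k z_k`. For `j ≤ r`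
`f (y a)^j = ∑_{i ≤ j} binom(j,i) gh(a)^(j-i) Y_a^i` (`add_pow`), the terms with `i ≥ M` vanish, and
`Y_a^i = ∑_{k : Fin i → Fin n} a_{k_1}...a_{k_i} z_{k_1}...z_{k_i}` (`Finset.sum_pow'`/`Finset.prod_univ_sum` with constant
families: `(∑_k x_k)^i = ∑_{k : Fin i → Fin n} ∏_t x_{k t}`). So
`φ (y a ^ j) = ∑_{i < M, i ≤ j} binom(j,i) ∑_k (∏_t a_{k_t}) φ'(gh(a)^(j-i) z_k)`, `z_k = ∏_t z_{k_t}`.
(A) `a ↦ φ'(gh(a)^E z)` is in `IsW (P*E+1) E`, `E = j - i ≤ r`: with `τ = tV (1/Nn)` (`(1/Nn : ℝ) ≥ 0`) we have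
  `gh a = ∑_{l<P} γ_l(a) τ^l`, `γ_l(a) = cf (gh a) (l/Nn)` (linear in `a`; `Om_ext`, `cf_tp`, `tp_nsmul`), so with
  `ψ : ℂ[X] → ℂ`, `ψ p = φ'(algebraMap VV D (aeval τ p) * z)`, the function is `ψ((∑ C (γ_l a) X^l)^E)`: `isW_interp`.
(B) multiply by `i` linear forms: `isW_lin_mul` `i` times: factor `(E+2)(E+3)...(E+i+1) ≤ (r+1)^i` as `E + i = j ≤ r`.
  So each term is in `IsW ((P*r+1) * (r+1)^M) j` (`isW_mono`).
Sum over `i < M` (`M` values) and `k` (`n^i ≤ r^M` values): `M * r^M * (r+1)^M * (P*r+1) ≤ (r+1)^(3M) (P*r+1)`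
(`M ≤ 2^M ≤ (r+1)^M` as `r ≥ 1`).
-/

set_option autoImplicit false

namespace Pool.DeB

private theorem isW_lin_prod {X : Type*} [AddCommGroup X] [Module ℂ X] {s E r : ℕ} {F : X → ℂ}
    (hF : IsW s E F) : ∀ (i : ℕ) (L : Fin i → (X →ₗ[ℂ] ℂ)), E + i ≤ r →
      IsW (s * (r + 1) ^ i) (E + i) (fun a => (∏ t, L t a) * F a) := by
  intro i
  induction i with
  | zero =>
    intro L _
    simpa using hF
  | succ i ih =>
    intro L hi
    have h1 := ih (fun t => L t.succ) (by omega)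
    have h2 := isW_lin_mul (L 0) h1
    have h3 : s * (r + 1) ^ i * (E + i + 2) ≤ s * (r + 1) ^ (i + 1) := by
      rw [pow_succ, ← mul_assoc]
      exact Nat.mul_le_mul_left _ (by omega)
    have h4 := isW_mono h3 h2
    have h5 : (fun a => (∏ t, L t a) * F a) =
        fun a => L 0 a * ((∏ t : Fin i, L t.succ a) * F a) := by
      funext a
      rw [Fin.prod_univ_succ, mul_assoc]
    rw [h5]
    exact h4

private theorem gh_eq {X : Type*} [AddCommGroup X] [Module ℂ X]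
    {Nn P : ℕ} (hNn : 0 < Nn) (gh : X →ₗ[ℂ] VV)
    (hgh : ∀ a (e : ℝ), cf ((gh a : VV) : Om) e ≠ 0 → ∃ l : ℕ, l < P ∧ (Nn : ℝ) * e = l) (a : X) :
    ((gh a : VV) : Om) = ∑ l : Fin P, cf ((gh a : VV) : Om) ((l : ℕ) / (Nn : ℝ)) •
      tp (1 / (Nn : ℝ)) ^ (l : ℕ) := by
  have hN : (Nn : ℝ) ≠ 0 := by
    have : (0 : ℝ) < Nn := by exact_mod_cast hNn
    exact this.ne'
  have hsum : ∀ (S : Finset (Fin P)) (g : Fin P → Om) (e : ℝ),
      cf (∑ l ∈ S, g l) e = ∑ l ∈ S, cf (g l) e := by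
    intro S g e
    classical
    induction S using Finset.induction_on with
    | empty => rw [Finset.sum_empty, Finset.sum_empty, cf_zero]
    | insert a S ha ih => rw [Finset.sum_insert ha, Finset.sum_insert ha, cf_add, ih]
  apply Om_ext
  intro e
  rw [hsum]
  have h1 : ∀ l : Fin P, cf (cf ((gh a : VV) : Om) ((l : ℕ) / (Nn : ℝ)) •
      tp (1 / (Nn : ℝ)) ^ (l : ℕ)) e =
        if e = (l : ℕ) / (Nn : ℝ) then cf ((gh a : VV) : Om) e else 0 := by
    intro l
    rw [cf_smul, ← tp_nsmul, cf_tp]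
    have h2 : ((l : ℕ) : ℝ) * (1 / (Nn : ℝ)) = (l : ℕ) / (Nn : ℝ) := by ring
    rw [h2]
    split_ifs with h3
    · rw [mul_one, h3]
    · rw [mul_zero]
  rw [Finset.sum_congr rfl fun l _ => h1 l]
  by_cases h0 : cf ((gh a : VV) : Om) e = 0
  · rw [h0]
    simp
  · obtain ⟨l, hl, hle⟩ := hgh a e h0
    have he : e = (l : ℝ) / (Nn : ℝ) := by
      rw [← hle]
      field_simp
    rw [Finset.sum_eq_single (⟨l, hl⟩ : Fin P)]
    · rw [if_pos he]
    · intro l' _ hne
      rw [if_neg]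
      intro h4
      apply hne
      apply Fin.ext
      rw [he] at h4
      have h5 : (l : ℝ) = ((l' : ℕ) : ℝ) := by
        field_simp at h4
        exact h4
      exact_mod_cast h5.symm
    · intro h
      exact absurd (Finset.mem_univ _) h

private theorem cfL_exists (e : ℝ) : ∃ T : VV →ₗ[ℂ] ℂ, ∀ g : VV, T g = cf (g : Om) e :=
  ⟨{ toFun := fun g => cf (g : Om) e
     map_add' := fun _ _ => cf_add _ _ e
     map_smul' := fun u _ => cf_smul u _ e }, fun _ => rfl⟩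

private theorem isW_A {X D : Type*} [AddCommGroup X] [Module ℂ X]
    [CommRing D] [Algebra ℂ D] [Algebra VV D] [IsScalarTower ℂ VV D]
    {Nn P : ℕ} (hNn : 0 < Nn) (gh : X →ₗ[ℂ] VV)
    (hgh : ∀ a (e : ℝ), cf ((gh a : VV) : Om) e ≠ 0 → ∃ l : ℕ, l < P ∧ (Nn : ℝ) * e = l)
    (φ : D →ₗ[ℂ] ℂ) (z : D) (E : ℕ) :
    IsW (P * E + 1) E (fun a => φ (algebraMap VV D (gh a) ^ E * z)) := by
  choose T hT using fun l : Fin P => cfL_exists ((l : ℕ) / (Nn : ℝ))
  set τ : VV := tV (1 / (Nn : ℝ)) with hτ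
  let ψ : Polynomial ℂ →ₗ[ℂ] ℂ :=
    φ ∘ₗ (LinearMap.mulRight ℂ z) ∘ₗ (IsScalarTower.toAlgHom ℂ VV D).toLinearMap ∘ₗ
      (Polynomial.aeval τ : Polynomial ℂ →ₐ[ℂ] VV).toLinearMap
  have h := isW_interp P E (fun l => (T l).comp gh) ψ
  have key : ∀ a, (Polynomial.aeval τ (∑ l : Fin P, Polynomial.C ((T l) (gh a)) *
      Polynomial.X ^ (l : ℕ)) : VV) = gh a := by
    intro a
    apply Subtype.ext
    rw [gh_eq hNn gh hgh a, map_sum]
    have h0 : ((∑ l : Fin P, (Polynomial.aeval τ) (Polynomial.C ((T l) (gh a)) *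
        Polynomial.X ^ (l : ℕ)) : VV) : Om) = ∑ l : Fin P, (((Polynomial.aeval τ)
          (Polynomial.C ((T l) (gh a)) * Polynomial.X ^ (l : ℕ)) : VV) : Om) := by
      exact map_sum VV.val _ _
    rw [h0]
    refine Finset.sum_congr rfl fun l _ => ?_
    rw [map_mul, Polynomial.aeval_C, map_pow, Polynomial.aeval_X, hT, ← Algebra.smul_def]
    have h2 : ((τ : VV) : Om) = tp (1 / (Nn : ℝ)) := tV_coe (by positivity)
    rw [← h2]
    rfl
  have e1 : (fun a => φ (algebraMap VV D (gh a) ^ E * z)) = fun a =>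
      ψ ((∑ l : Fin P, Polynomial.C (((T l).comp gh) a) * Polynomial.X ^ (l : ℕ)) ^ E) := by
    funext a
    show _ = φ ((algebraMap VV D (Polynomial.aeval τ ((∑ l : Fin P,
      Polynomial.C ((T l) (gh a)) * Polynomial.X ^ (l : ℕ)) ^ E))) * z)
    rw [map_pow, key a, map_pow]
  rw [e1]
  exact h

theorem direct_bound {X A D : Type*} [AddCommGroup X] [Module ℂ X] [FiniteDimensional ℂ X]
    [CommRing A] [Algebra ℂ A] [CommRing D] [Algebra ℂ D] [Algebra VV D] [IsScalarTower ℂ VV D]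
    (y : X →ₗ[ℂ] A) {r : ℕ} (hr1 : 1 ≤ r) (hX : Module.finrank ℂ X ≤ r) (f : A →ₐ[ℂ] D)
    {Nn P M : ℕ} (hNn : 0 < Nn) (gh : X →ₗ[ℂ] VV)
    (hgh : ∀ a (e : ℝ), cf ((gh a : VV) : Om) e ≠ 0 → ∃ l : ℕ, l < P ∧ (Nn : ℝ) * e = l)
    (h : ∀ a, (f (y a) - algebraMap VV D (gh a)) ^ M = 0) :
    HW y r (RingHom.ker (f : A →+* D)) ((r + 1) ^ (3 * M) * (P * r + 1)) := by
  classical
  intro φ hφ j hj
  -- factor φ through f
  obtain ⟨φ', hφ'⟩ : ∃ φ' : D →ₗ[ℂ] ℂ, ∀ a, φ' (f a) = φ a := by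
    have h1 : φ ∈ (LinearMap.ker f.toLinearMap).dualAnnihilator := by
      rw [Submodule.mem_dualAnnihilator]
      intro a ha
      exact hφ a ha
    rw [← LinearMap.range_dualMap_eq_dualAnnihilator_ker] at h1
    obtain ⟨φ', h2⟩ := h1
    exact ⟨φ', fun a => by rw [← h2]; rfl⟩
  set n := Module.finrank ℂ X with hn
  let b : Module.Basis (Fin n) ℂ X := Module.finBasis ℂ X
  let ι : VV →ₗ[ℂ] D := (IsScalarTower.toAlgHom ℂ VV D).toLinearMap
  let Y : X →ₗ[ℂ] D := f.toLinearMap ∘ₗ y - ι ∘ₗ gh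
  have hY : ∀ a, Y a = f (y a) - algebraMap VV D (gh a) := fun a => rfl
  -- the terms
  let G : ℕ → X → ℂ := fun i a => φ' ((Y a) ^ i * algebraMap VV D (gh a) ^ (j - i) *
    ((j.choose i : ℕ) : D))
  have hsum : ∀ a, φ (y a ^ j) = ∑ i ∈ (Finset.range (j + 1)).filter (fun i => i < M), G i a := by
    intro a
    have e1 : f (y a ^ j) = (Y a + algebraMap VV D (gh a)) ^ j := by
      rw [map_pow, hY, sub_add_cancel]
    rw [← hφ', e1, add_pow, map_sum]
    symm
    apply Finset.sum_subset (Finset.filter_subset _ _)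
    intro i hi1 hi2
    have hi3 : M ≤ i := by
      by_contra hlt
      exact hi2 (Finset.mem_filter.2 ⟨hi1, by omega⟩)
    have e2 : (Y a) ^ i = 0 := pow_eq_zero_of_le hi3 (h a)
    show φ' _ = 0
    rw [e2, zero_mul, zero_mul, map_zero]
  -- each term
  have hterm : ∀ i ∈ (Finset.range (j + 1)).filter (fun i => i < M),
      IsW ((r + 1) ^ M * ((P * r + 1) * (r + 1) ^ M)) j (G i) := by
    intro i hi
    rw [Finset.mem_filter, Finset.mem_range] at hi
    obtain ⟨hij, hiM⟩ := hi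
    have hexp : ∀ a, G i a = ((j.choose i : ℕ) : ℂ) * ∑ κ : Fin i → Fin n,
        (∏ t, (b.coord (κ t)) a) * φ' (algebraMap VV D (gh a) ^ (j - i) *
          ∏ t, Y (b (κ t))) := by
      intro a
      have e1 : Y a = ∑ k, (b.coord k a) • Y (b k) := by
        conv_lhs => rw [← b.sum_repr a]
        rw [map_sum]
        exact Finset.sum_congr rfl fun k _ => by rw [map_smul]; rfl
      have e2 : (Y a) ^ i = ∑ κ : Fin i → Fin n, (∏ t, (b.coord (κ t)) a) • ∏ t, Y (b (κ t)) := by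
        rw [e1, Fintype.sum_pow]
        refine Finset.sum_congr rfl fun κ _ => ?_
        rw [Finset.prod_smul]
      show φ' _ = _
      rw [e2, Finset.sum_mul, Finset.sum_mul, map_sum, Finset.mul_sum]
      refine Finset.sum_congr rfl fun κ _ => ?_
      have e3 : ((∏ t, (b.coord (κ t)) a) • ∏ t, Y (b (κ t))) *
          algebraMap VV D (gh a) ^ (j - i) * ((j.choose i : ℕ) : D) =
            (((j.choose i : ℕ) : ℂ) * ∏ t, (b.coord (κ t)) a) •
              (algebraMap VV D (gh a) ^ (j - i) * ∏ t, Y (b (κ t))) := by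
        rw [mul_smul, smul_mul_assoc, smul_mul_assoc]
        rw [smul_comm (((j.choose i : ℕ) : ℂ)), Nat.cast_smul_eq_nsmul ℂ, nsmul_eq_mul]
        congr 1
        ring
      rw [e3, map_smul, smul_eq_mul, mul_assoc]
    have h1 : ∀ κ : Fin i → Fin n, IsW ((P * r + 1) * (r + 1) ^ M) j (fun a =>
        (∏ t, (b.coord (κ t)) a) * φ' (algebraMap VV D (gh a) ^ (j - i) *
          ∏ t, Y (b (κ t)))) := by
      intro κ
      have h2 := isW_A hNn gh hgh φ' (∏ t, Y (b (κ t))) (j - i)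
      have h3 := isW_lin_prod (r := r) h2 i (fun t => b.coord (κ t)) (by omega)
      have h4 : j - i + i = j := by omega
      rw [h4] at h3
      refine isW_mono ?_ h3
      apply Nat.mul_le_mul
      · have : P * (j - i) ≤ P * r := Nat.mul_le_mul_left _ (by omega)
        omega
      · exact Nat.pow_le_pow_right (by omega) hiM.le
    have h2 := isW_sum (Finset.univ : Finset (Fin i → Fin n)) fun κ _ => h1 κ
    have h3 := isW_smul ((j.choose i : ℕ) : ℂ) h2
    have h4 : G i = fun a => ((j.choose i : ℕ) : ℂ) * ∑ κ : Fin i → Fin n,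
        (∏ t, (b.coord (κ t)) a) * φ' (algebraMap VV D (gh a) ^ (j - i) *
          ∏ t, Y (b (κ t))) := funext hexp
    rw [h4]
    refine isW_mono ?_ h3
    apply Nat.mul_le_mul_right
    rw [Finset.card_univ, Fintype.card_fun, Fintype.card_fin, Fintype.card_fin]
    calc n ^ i ≤ (r + 1) ^ i := Nat.pow_le_pow_left (by omega) i
      _ ≤ (r + 1) ^ M := Nat.pow_le_pow_right (by omega) hiM.le
  have h5 := isW_sum _ hterm
  have h6 : (fun a => φ (y a ^ j)) =
      fun a => ∑ i ∈ (Finset.range (j + 1)).filter (fun i => i < M), G i a := funext hsum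
  rw [h6]
  refine isW_mono ?_ h5
  have hcard : ((Finset.range (j + 1)).filter (fun i => i < M)).card ≤ (r + 1) ^ M := by
    calc ((Finset.range (j + 1)).filter (fun i => i < M)).card
        ≤ (Finset.range M).card := by
          apply Finset.card_le_card
          intro i hi
          rw [Finset.mem_filter] at hi
          exact Finset.mem_range.2 hi.2
      _ = M := Finset.card_range M
      _ ≤ 2 ^ M := Nat.lt_two_pow_self.le
      _ ≤ (r + 1) ^ M := Nat.pow_le_pow_left (by omega) M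
  calc ((Finset.range (j + 1)).filter (fun i => i < M)).card *
        ((r + 1) ^ M * ((P * r + 1) * (r + 1) ^ M))
      ≤ (r + 1) ^ M * ((r + 1) ^ M * ((P * r + 1) * (r + 1) ^ M)) :=
        Nat.mul_le_mul_right _ hcard
    _ = (r + 1) ^ (3 * M) * (P * r + 1) := by ring

end Pool.DeB
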