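import Pool.Agent.Lib.DeB.Defs2
import Pool.Agent.Lib.DeB.PU

/-!
Module Excl (110 lines). Lemma 3 of the paper (exclusion).
PROOF. Let `J = {k : k * e = 0}` (the annihilator ideal of `e`) and work in `B' = B ⧸ J`: there
`pr Y1 R1 = 0`, `pr Y2 R2 = 0`, `pr (Y1 + s Y2) R3 = 0`, and we must show `w0^(m^3) = 0` in `B'`
(then `w0^(m^3) * e = 0`). Claim: `∏_{ρ1 ∈ R1} ∏_{ρ2 ∈ R2} ∏_{ρ3 ∈ R3} (ρ1 + s ρ2 - ρ3) = 0` in `B'`.
By (T0) (`prod_eq_zero_of_dvd`) for `Y1, R1` it is enough that `Y1 - ρ1` divides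
`f ρ1 = ∏_{ρ2} ∏_{ρ3} (ρ1 + s ρ2 - ρ3)`, i.e. `f ρ1 = 0` in `B'' = B' ⧸ (Y1 - ρ1)`; by (T0) in `B''` for
`Y2, R2` it is enough that `∏_{ρ3} (ρ1 + s ρ2 - ρ3) = 0` in `B''' = B'' ⧸ (Y2 - ρ2)`; and there
`ρ1 + s ρ2 = Y1 + s Y2`, so this product is `pr (Y1 + s Y2) R3 = 0`.
Each factor `ρ1 + s ρ2 - ρ3` (an element of `V`) has class `χ1 + s χ2 - χ3 ≠ 0`, so it is not
divisible by `w0` and by `hdiv` it divides `w0`; the product has at most `m^3` factors, so it divides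
`w0^(m^3)` in `V`.
-/

set_option autoImplicit false

namespace Pool.DeB

private theorem ex_t0 {V B : Type*} [CommRing V] [CommRing B] [Algebra V B] (J : Ideal B) (Y : B)
    (R : Multiset V) (f : V → B) (h : pr Y R ∈ J)
    (hf : ∀ ρ ∈ R, f ρ ∈ J ⊔ Ideal.span {Y - algebraMap V B ρ}) : (R.map f).prod ∈ J := by
  have key : ∀ S : Multiset V, S ≤ R → ∃ b : B, (S.map f).prod - b * pr Y S ∈ J := by
    intro S
    induction S using Multiset.induction_on with
    | empty =>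
      intro _
      exact ⟨1, by simp [pr]⟩
    | cons ρ S ih =>
      intro hS
      obtain ⟨b, hb⟩ := ih ((Multiset.le_cons_self S ρ).trans hS)
      have h1 := hf ρ (Multiset.mem_of_le hS (Multiset.mem_cons_self ρ S))
      obtain ⟨x, hx, z, hz, hxz⟩ := Submodule.mem_sup.1 h1
      obtain ⟨k, rfl⟩ := Ideal.mem_span_singleton'.1 hz
      refine ⟨k * b, ?_⟩
      have e1 : pr Y (ρ ::ₘ S) = (Y - algebraMap V B ρ) * pr Y S := by
        unfold pr
        rw [Multiset.map_cons, Multiset.prod_cons]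
      rw [Multiset.map_cons, Multiset.prod_cons, e1, ← hxz]
      have e2 : (x + k * (Y - algebraMap V B ρ)) * (S.map f).prod -
          k * b * ((Y - algebraMap V B ρ) * pr Y S) =
          (S.map f).prod * x + (k * (Y - algebraMap V B ρ)) * ((S.map f).prod - b * pr Y S) := by
        ring
      rw [e2]
      exact J.add_mem (J.mul_mem_left _ hx) (J.mul_mem_left _ hb)
  obtain ⟨b, hb⟩ := key R le_rfl
  have e : (R.map f).prod = ((R.map f).prod - b * pr Y R) + b * pr Y R := by ring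
  rw [e]
  exact J.add_mem hb (J.mul_mem_left _ h)

private theorem ex_congr {V B : Type*} [CommRing V] [CommRing B] [Algebra V B] (J : Ideal B)
    (a b : B) (h : a - b ∈ J) (R : Multiset V) : pr a R - pr b R ∈ J := by
  induction R using Multiset.induction_on with
  | empty => simp [pr]
  | cons ρ S ih =>
    have e1 : ∀ c : B, pr c (ρ ::ₘ S) = (c - algebraMap V B ρ) * pr c S := by
      intro c
      unfold pr
      rw [Multiset.map_cons, Multiset.prod_cons]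
    rw [e1, e1]
    have e2 : (a - algebraMap V B ρ) * pr a S - (b - algebraMap V B ρ) * pr b S =
        pr a S * (a - b) + (b - algebraMap V B ρ) * (pr a S - pr b S) := by ring
    rw [e2]
    exact J.add_mem (J.mul_mem_left _ h) (J.mul_mem_left _ ih)

private theorem ex_dvd {V W : Type*} [CommRing V] (a : V) (R : Multiset W) (f : W → V) (m : ℕ)
    (hm : R.card ≤ m) (hf : ∀ ρ ∈ R, f ρ ∣ a) : (R.map f).prod ∣ a ^ m := by
  have h1 : (R.map f).prod ∣ a ^ R.card := by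
    induction R using Multiset.induction_on with
    | empty => simp
    | cons ρ S ih =>
      rw [Multiset.map_cons, Multiset.prod_cons, Multiset.card_cons, pow_succ']
      exact mul_dvd_mul (hf ρ (Multiset.mem_cons_self ρ S))
        (ih (le_trans (by rw [Multiset.card_cons]; omega) hm)
          fun σ hσ => hf σ (Multiset.mem_cons_of_mem hσ))
  exact h1.trans (pow_dvd_pow a hm)

theorem exclusion {V B : Type*} [CommRing V] [CommRing B] [Algebra V B] (w0 : V)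
    (hdiv : ∀ x : V, w0 ∣ x ∨ x ∣ w0) (m : ℕ) (R1 R2 R3 : Multiset V) (h1 : R1.card ≤ m)
    (h2 : R2.card ≤ m) (h3 : R3.card ≤ m) (χ1 χ2 χ3 : V ⧸ Ideal.span {w0})
    (hc1 : ∀ ρ ∈ R1, cls w0 ρ = χ1) (hc2 : ∀ ρ ∈ R2, cls w0 ρ = χ2) (hc3 : ∀ ρ ∈ R3, cls w0 ρ = χ3)
    (Y1 Y2 e : B) (s : V) (hne : χ1 + cls w0 s * χ2 ≠ χ3) (he1 : pr Y1 R1 * e = 0)
    (he2 : pr Y2 R2 * e = 0) (he3 : pr (Y1 + algebraMap V B s * Y2) R3 * e = 0) :
    (algebraMap V B w0) ^ (m ^ 3) * e = 0 := by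
  obtain ⟨J, hJ⟩ : ∃ J : Ideal B, ∀ k, k ∈ J ↔ k * e = 0 :=
    ⟨LinearMap.ker (LinearMap.toSpanSingleton B B e), fun k => by
      rw [LinearMap.mem_ker, LinearMap.toSpanSingleton_apply, smul_eq_mul]⟩
  have hG : ∀ ρ1 ρ2 : V, algebraMap V B (R3.map (fun ρ3 => ρ1 + s * ρ2 - ρ3)).prod =
      pr (algebraMap V B (ρ1 + s * ρ2)) R3 := by
    intro ρ1 ρ2
    unfold pr
    rw [map_multiset_prod, Multiset.map_map]
    congr 1
    apply Multiset.map_congr rfl
    intro ρ3 _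
    simp
  have hmem : algebraMap V B (R1.map (fun ρ1 => (R2.map (fun ρ2 =>
      (R3.map (fun ρ3 => ρ1 + s * ρ2 - ρ3)).prod)).prod)).prod ∈ J := by
    rw [map_multiset_prod, Multiset.map_map]
    apply ex_t0 J Y1 R1 _ ((hJ _).2 he1)
    intro ρ1 hρ1
    rw [Function.comp_apply, map_multiset_prod, Multiset.map_map]
    apply ex_t0 _ Y2 R2 _ (Ideal.mem_sup_left ((hJ _).2 he2))
    intro ρ2 hρ2
    rw [Function.comp_apply, hG]
    set J2 : Ideal B := J ⊔ Ideal.span {Y1 - algebraMap V B ρ1} ⊔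
      Ideal.span {Y2 - algebraMap V B ρ2} with hJ2
    have m1 : Y1 - algebraMap V B ρ1 ∈ J2 :=
      Ideal.mem_sup_left (Ideal.mem_sup_right (Ideal.mem_span_singleton_self _))
    have m2 : Y2 - algebraMap V B ρ2 ∈ J2 :=
      Ideal.mem_sup_right (Ideal.mem_span_singleton_self _)
    have m3 : algebraMap V B (ρ1 + s * ρ2) - (Y1 + algebraMap V B s * Y2) ∈ J2 := by
      have e4 : algebraMap V B (ρ1 + s * ρ2) - (Y1 + algebraMap V B s * Y2) =
          - (Y1 - algebraMap V B ρ1) + (- algebraMap V B s) * (Y2 - algebraMap V B ρ2) := by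
        rw [map_add, map_mul]
        ring
      rw [e4]
      exact J2.add_mem (J2.neg_mem m1) (J2.mul_mem_left _ m2)
    have m4 := ex_congr J2 _ _ m3 R3
    have m5 : pr (Y1 + algebraMap V B s * Y2) R3 ∈ J2 :=
      Ideal.mem_sup_left (Ideal.mem_sup_left ((hJ _).2 he3))
    have m6 := J2.add_mem m4 m5
    rwa [sub_add_cancel] at m6
  have hdv : (R1.map (fun ρ1 => (R2.map (fun ρ2 =>
      (R3.map (fun ρ3 => ρ1 + s * ρ2 - ρ3)).prod)).prod)).prod ∣ ((w0 ^ m) ^ m) ^ m := by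
    apply ex_dvd _ R1 _ m h1
    intro ρ1 hρ1
    apply ex_dvd _ R2 _ m h2
    intro ρ2 hρ2
    apply ex_dvd _ R3 _ m h3
    intro ρ3 hρ3
    rcases hdiv (ρ1 + s * ρ2 - ρ3) with h | h
    · exfalso
      apply hne
      have h5 := cls_eq_iff.2 h
      rw [← hc1 ρ1 hρ1, ← hc2 ρ2 hρ2, ← hc3 ρ3 hρ3, ← h5]
      unfold cls
      rw [map_add, map_mul]
    · exact h
  obtain ⟨k, hk⟩ := hdv
  have e5 : ((w0 ^ m) ^ m) ^ m = w0 ^ (m ^ 3) := by
    rw [← pow_mul, ← pow_mul]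
    congr 1
    ring
  rw [← map_pow, ← e5, hk, map_mul, mul_comm (algebraMap V B _) (algebraMap V B k), mul_assoc,
    (hJ _).1 hmem, mul_zero]

end Pool.DeB
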