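import Pool.Agent.Lib.DeB.LamDefs

/-!
Module Extract (70 lines). From functions to polynomials.
PROOF. `F(a) = ∑ i, c i * (L i a)^d`. As `d ≥ 1` and `ℂ` is algebraically closed, `c i = (e i)^d` (`IsAlgClosed.exists_pow_nat_eq`).
`ℓ i = ∑ j, C (e i * L i (Pi.single j 1)) * X j` (homogeneous of degree one; zero is allowed), `eval a (ℓ i) = e i * L i a`.
`eval a F = eval a (∑ i, ℓ i ^ d)` for all `a`: `MvPolynomial.funext`.
-/

/-!
Module Extract (70 lines). From functions to polynomials.
PROOF. `F(a) = ∑ i, c i * (L i a)^d`. As `d ≥ 1` and `ℂ` is algebraically closed, `c i = (e i)^d` (`IsAlgClosed.exists_pow_nat_eq`).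
`ℓ i = ∑ j, C (e i * L i (Pi.single j 1)) * X j` (homogeneous of degree one; zero is allowed), `eval a (ℓ i) = e i * L i a`.
`eval a F = eval a (∑ i, ℓ i ^ d)` for all `a`: `MvPolynomial.funext`.
-/

set_option autoImplicit false

open MvPolynomial

namespace Pool.DeB

theorem waring_of_isW {n d w : ℕ} (hd : 1 ≤ d) {F : MvPolynomial (Fin n) ℂ}
    (h : IsW w d (fun a : Fin n → ℂ => eval a F)) :
    ∃ ℓ : Fin w → MvPolynomial (Fin n) ℂ, (∀ i, (ℓ i).IsHomogeneous 1) ∧ F = ∑ i, ℓ i ^ d := by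
  obtain ⟨c, L, hL⟩ := h
  have hex : ∀ i, ∃ e : ℂ, e ^ d = c i := fun i =>
    IsAlgClosed.exists_pow_nat_eq (c i) (Nat.pos_of_ne_zero (by omega))
  choose e he using hex
  refine ⟨fun i => ∑ j, C (e i * L i (Pi.single j 1)) * X j, fun i => ?_, ?_⟩
  · apply IsHomogeneous.sum
    intro j _
    exact isHomogeneous_C_mul_X _ _
  · apply MvPolynomial.funext
    intro a
    have h0 : eval a F = ∑ i, c i * (L i) a ^ d := hL a
    rw [h0, map_sum]
    refine Finset.sum_congr rfl fun i _ => ?_
    rw [map_pow, map_sum]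
    have h1 : ∑ j, eval a (C (e i * L i (Pi.single j 1)) * X j) = e i * L i a := by
      have h2 : a = ∑ j, a j • (Pi.single j (1 : ℂ) : Fin n → ℂ) := by
        funext k
        simp [Finset.sum_apply, Pi.single_apply]
      conv_rhs => rw [h2, map_sum, Finset.mul_sum]
      refine Finset.sum_congr rfl fun j _ => ?_
      rw [map_mul, eval_C, eval_X, map_smul, smul_eq_mul]
      ring
    rw [h1, mul_pow, he]

end Pool.DeB
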