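import Pool.Agent.Lib.DeB.LamDefs
import Pool.Agent.Lib.DeB.Lam
import Pool.Agent.Lib.DeB.RankMin

/-!
Module Hankel (200 lines). Lemma 15 of the paper: `A = ℂ[X] ⧸ radF F`.
PROOFS.
hankel_det: `F` a limit of `G_k = ∑_{i<r} (lf p_{k,i})^d` (`eq_lf`). `lam (G_k) (g h) = ∑_i eval p_{k,i} ((g h)_d)` and
  `(g h)_d = ∑_{e ≤ d} g_e h_{d-e}` (homogeneous components), so `lam (G_k) (g h) = ∑_{(i,e)} (eval p_{k,i} g_e) * (eval p_{k,i} h_{d-e})`, a sum over
  `Fin r × Fin (d+1)`: the `(K+1) × (K+1)` matrix `lam (G_k) (g_i h_j)`, `K = r (d+1)`, is a product of a `(K+1) × K` and a `K × (K+1)`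
  matrix, so its determinant is `0` (rank `≤ K`: `Matrix.rank_mul_le`, `Matrix.rank_of_isUnit`, or a nonzero vector in the kernel
  of the second factor: `Matrix.exists_mulVec_eq_zero_iff`). The determinant is continuous: limit `k → ∞` (`lam_tendsto`,
  `tendsto_finset_sum`, `tendsto_finset_prod`, `Matrix.det_apply`).
quotient: `b g h = lam F (g * h)` (bilinear), `ker b = radF F` as submodule; `finrank_of_minors`.
nilpotent: `X_j^(d+1) ∈ radF F` and more generally for a linear form `lf a`: `(lf a)^(d+1) * h` has no component of degree `d`, and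
  `lam F` only sees the component of degree `d` (`F` homogeneous of degree `d`: `F.coeff β = 0` for `|β| ≠ d`).
-/

/-!
Module Hankel (200 lines). Lemma 15 of the paper: `A = ℂ[X] ⧸ radF F`.
PROOFS.
hankel_det: `F` a limit of `G_k = ∑_{i<r} (lf p_{k,i})^d` (`eq_lf`). `lam (G_k) (g h) = ∑_i eval p_{k,i} ((g h)_d)` and
  `(g h)_d = ∑_{e ≤ d} g_e h_{d-e}` (homogeneous components), so `lam (G_k) (g h) = ∑_{(i,e)} (eval p_{k,i} g_e) * (eval p_{k,i} h_{d-e})`, a sum over
  `Fin r × Fin (d+1)`: the `(K+1) × (K+1)` matrix `lam (G_k) (g_i h_j)`, `K = r (d+1)`, is a product of a `(K+1) × K` and a `K × (K+1)`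
  matrix, so its determinant is `0` (rank `≤ K`: `Matrix.rank_mul_le`, `Matrix.rank_of_isUnit`, or a nonzero vector in the kernel
  of the second factor: `Matrix.exists_mulVec_eq_zero_iff`). The determinant is continuous: limit `k → ∞` (`lam_tendsto`,
  `tendsto_finset_sum`, `tendsto_finset_prod`, `Matrix.det_apply`).
quotient: `b g h = lam F (g * h)` (bilinear), `ker b = radF F` as submodule; `finrank_of_minors`.
nilpotent: `X_j^(d+1) ∈ radF F` and more generally for a linear form `lf a`: `(lf a)^(d+1) * h` has no component of degree `d`, and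
  `lam F` only sees the component of degree `d` (`F` homogeneous of degree `d`: `F.coeff β = 0` for `|β| ≠ d`).
-/

set_option autoImplicit false

open MvPolynomial

namespace Pool.DeB

open Filter Topology

private theorem hk_comp {n : ℕ} (d : ℕ) (p : Fin n → ℂ) (g h : MvPolynomial (Fin n) ℂ) :
    eval p (homogeneousComponent d (g * h)) =
      ∑ e : Fin (d + 1), eval p (homogeneousComponent (e : ℕ) g) *
        eval p (homogeneousComponent (d - (e : ℕ)) h) := by
  induction g using MvPolynomial.induction_on' with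
  | add g1 g2 hg1 hg2 =>
    rw [add_mul, map_add, map_add, hg1, hg2, ← Finset.sum_add_distrib]
    refine Finset.sum_congr rfl fun e _ => ?_
    rw [map_add, map_add, add_mul]
  | monomial β u =>
    induction h using MvPolynomial.induction_on' with
    | add h1 h2 hh1 hh2 =>
      rw [mul_add, map_add, map_add, hh1, hh2, ← Finset.sum_add_distrib]
      refine Finset.sum_congr rfl fun e _ => ?_
      rw [map_add (homogeneousComponent (d - (e : ℕ))), map_add, mul_add]
    | monomial γ w =>
      have hm : ∀ (k : ℕ) (δ : Fin n →₀ ℕ) (c : ℂ), homogeneousComponent k (monomial δ c) =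
          if k = δ.degree then monomial δ c else 0 := by
        intro k δ c
        exact homogeneousComponent_of_mem ((mem_homogeneousSubmodule _ _).2
          (isHomogeneous_monomial c rfl))
      rw [monomial_mul, hm]
      simp only [hm]
      by_cases hd : d = (β + γ).degree
      · rw [if_pos hd]
        have hd2 : d = β.degree + γ.degree := by rw [hd, map_add]
        rw [Finset.sum_eq_single (⟨β.degree, by omega⟩ : Fin (d + 1))]
        · rw [if_pos rfl, if_pos (by show d - β.degree = γ.degree; omega), ← map_mul,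
            monomial_mul]
        · intro b _ hb
          rw [if_neg (fun hh => hb (Fin.ext hh)), map_zero, zero_mul]
        · intro hh
          exact absurd (Finset.mem_univ _) hh
      · rw [if_neg hd, map_zero]
        symm
        refine Finset.sum_eq_zero fun e _ => ?_
        by_cases h1 : (e : ℕ) = β.degree
        · have h2 : ¬ d - (e : ℕ) = γ.degree := by
            intro h3
            apply hd
            rw [map_add]
            have := e.2
            omega
          rw [if_neg h2, map_zero, mul_zero]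
        · rw [if_neg h1, map_zero, zero_mul]

private theorem hk_det_mul {N K : ℕ} (hNK : K < N) {ι : Type*} [Fintype ι] [DecidableEq ι]
    (hι : Fintype.card ι = K) (A : Matrix (Fin N) ι ℂ) (B : Matrix ι (Fin N) ℂ) :
    (A * B).det = 0 := by
  by_contra hne
  have h1 : (A * B).rank = N := by
    rw [Matrix.rank_of_isUnit _ ((Matrix.isUnit_iff_isUnit_det _).2 (isUnit_iff_ne_zero.2 hne)),
      Fintype.card_fin]
  have h2 : (A * B).rank ≤ A.rank := Matrix.rank_mul_le_left A B
  have h3 : A.rank ≤ Fintype.card ι := Matrix.rank_le_card_width A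
  omega

theorem hankel_det {n d r : ℕ} {F : MvPolynomial (Fin n) ℂ} (hB : BorderLe F d r)
    (g h : Fin (r * (d + 1) + 1) → MvPolynomial (Fin n) ℂ) :
    (Matrix.of (fun i j => lam F (g i * h j))).det = 0 := by
  obtain ⟨G, hG, hlim⟩ := hB
  have hz : ∀ k, (Matrix.of (fun i j => lam (G k) (g i * h j))).det = 0 := by
    intro k
    obtain ⟨ℓ, hℓ, hGk⟩ := hG k
    have hex : ∀ i, ∃ a : Fin n → ℂ, ℓ i = lf a := fun i => eq_lf (hℓ i)
    choose p hp using hex
    have e1 : (Matrix.of (fun i j => lam (G k) (g i * h j)) :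
        Matrix (Fin (r * (d + 1) + 1)) (Fin (r * (d + 1) + 1)) ℂ) =
        (Matrix.of fun i (x : Fin r × Fin (d + 1)) =>
          eval (p x.1) (homogeneousComponent (x.2 : ℕ) (g i))) *
        (Matrix.of fun (x : Fin r × Fin (d + 1)) j =>
          eval (p x.1) (homogeneousComponent (d - (x.2 : ℕ)) (h j))) := by
      ext i j
      rw [Matrix.mul_apply, Matrix.of_apply, hGk, lam_sum, Fintype.sum_prod_type]
      refine Finset.sum_congr rfl fun l _ => ?_
      rw [hp l, lam_of_pow, hk_comp]
      rfl
    rw [e1]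
    exact hk_det_mul (K := r * (d + 1)) (by omega)
      (by rw [Fintype.card_prod, Fintype.card_fin, Fintype.card_fin]) _ _
  have hcont : Tendsto (fun k => (Matrix.of (fun i j => lam (G k) (g i * h j))).det) atTop
      (𝓝 (Matrix.of (fun i j => lam F (g i * h j))).det) := by
    simp only [Matrix.det_apply]
    refine tendsto_finsetSum _ fun σ _ => ?_
    refine Tendsto.const_smul ?_ _
    refine tendsto_finsetProd _ fun i _ => ?_
    exact lam_tendsto hlim _
  have hcz : Tendsto (fun k => (Matrix.of (fun i j => lam (G k) (g i * h j))).det) atTop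
      (𝓝 0) := by
    simp only [hz]
    exact tendsto_const_nhds
  exact tendsto_nhds_unique hcont hcz

private noncomputable def hk_b {n : ℕ} (F : MvPolynomial (Fin n) ℂ) :
    MvPolynomial (Fin n) ℂ →ₗ[ℂ] MvPolynomial (Fin n) ℂ →ₗ[ℂ] ℂ :=
  LinearMap.compr₂ (LinearMap.mul ℂ (MvPolynomial (Fin n) ℂ)) (lam F)

private theorem hk_b_apply {n : ℕ} (F g h : MvPolynomial (Fin n) ℂ) :
    hk_b F g h = lam F (g * h) := rfl

private theorem hk_ker {n : ℕ} (F : MvPolynomial (Fin n) ℂ) :
    LinearMap.ker (hk_b F) = (radF F).restrictScalars ℂ := by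
  ext g
  rw [LinearMap.mem_ker, Submodule.restrictScalars_mem]
  constructor
  · intro hg h
    rw [← hk_b_apply, hg]
    rfl
  · intro hg
    apply LinearMap.ext
    intro h
    exact hg h

theorem radF_finite {n d r : ℕ} {F : MvPolynomial (Fin n) ℂ} (hB : BorderLe F d r) :
    FiniteDimensional ℂ (MvPolynomial (Fin n) ℂ ⧸ radF F) ∧
      Module.finrank ℂ (MvPolynomial (Fin n) ℂ ⧸ radF F) ≤ r * (d + 1) := by
  obtain ⟨h1, h2⟩ := finrank_of_minors (hk_b F) (r * (d + 1)) fun g h => hankel_det hB g h
  let e : (MvPolynomial (Fin n) ℂ ⧸ LinearMap.ker (hk_b F)) ≃ₗ[ℂ]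
      (MvPolynomial (Fin n) ℂ ⧸ radF F) :=
    (Submodule.quotEquivOfEq _ _ (hk_ker F)).trans
      (Submodule.Quotient.restrictScalarsEquiv ℂ (radF F))
  constructor
  · exact Module.Finite.equiv e
  · rw [← e.finrank_eq]
    exact h2

private theorem hk_lam_hom {n d : ℕ} {F : MvPolynomial (Fin n) ℂ} (hF : F.IsHomogeneous d)
    {g : MvPolynomial (Fin n) ℂ} (hg : ∀ β ∈ g.support, β.degree ≠ d) : lam F g = 0 := by
  rw [g.as_sum, map_sum]
  refine Finset.sum_eq_zero fun β hβ => ?_
  rw [lam_monomial]
  have h1 : coeff β F = 0 := by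
    by_contra hne
    apply hg β hβ
    rw [Finsupp.degree_eq_weight_one]
    exact hF hne
  rw [h1, zero_div, mul_zero]

theorem lf_pow_mem {n d : ℕ} {F : MvPolynomial (Fin n) ℂ} (hF : F.IsHomogeneous d)
    (a : Fin n → ℂ) : lf a ^ (d + 1) ∈ radF F := by
  intro h
  have hlf : (lf a).IsHomogeneous 1 := IsHomogeneous.sum _ _ _ fun j _ => isHomogeneous_C_mul_X _ _
  have hp : (lf a ^ (d + 1)).IsHomogeneous (d + 1) := by
    have := hlf.pow (d + 1)
    rwa [one_mul] at this
  induction h using MvPolynomial.induction_on' with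
  | monomial β u =>
    apply hk_lam_hom hF
    intro γ hγ hγd
    have h1 : (lf a ^ (d + 1) * monomial β u).IsHomogeneous (d + 1 + β.degree) :=
      hp.mul (isHomogeneous_monomial u rfl)
    have h3 : γ.degree = Finsupp.weight (1 : Fin n → ℕ) γ := by
      rw [Finsupp.degree_eq_weight_one]
      rfl
    have h2 : γ.degree = d + 1 + β.degree := h3.trans (h1 (mem_support_iff.1 hγ))
    omega
  | add p q hp' hq' => rw [mul_add, map_add, hp', hq', add_zero]

end Pool.DeB
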