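import Pool.Agent.Lib.DeB.NDefs

/-!
Module NBasic (200 lines). Basic facts on `NQ`, `IQ`.
PROOFS.
pow_finrank: `a` nilpotent in a commutative algebra of dimension `≤ r`: multiplication by `a` is a nilpotent
  endomorphism of a space of dimension `≤ r`, so its `r`-th power is `0` (`Module.End` nilpotent: `IsNilpotent` and
  `LinearMap.charpoly`/`Module.finrank_..`, e.g. `LinearMap.IsNilpotent..pow_finrank`, or: ranges of the powers
  strictly decrease until `0`), apply to `1`.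
tV_mem: `t^e ⊗ 1 ∈ NQ` for `j < i`, `v (q j) ≤ κ`, `e = r κ`: modulo `NQ`, `q_j^r ⊗ 1 = 1 ⊗ vv_j^r = 0` (`pow_finrank`), and
  `q_j^r` divides `t^(r κ)` in `VV` (`VV_dvd_iff`, `v_pow`).
succ: `Set.range` over `Fin (i+1)` with `Function.update q i ω`: the generators with `j < i` do not change (`j ≠ i`), the last one
  is `1 ⊗ vv_i - ω ⊗ 1`.
unit: if `v ω = 0` then `ω` is a unit of `VV`, `vv_i` is nilpotent: `1 ⊗ vv_i - ω ⊗ 1` is a unit (`IsNilpotent` minus unit).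
zero: `IQ vv q 1 = ⊥`: let `1 ⊗ a = (1 ⊗ v - t ⊗ 1) * β` (`t = tV 1`, `v = vv 0`, `Ideal.mem_span_singleton`). Multiply with
  `∑_{k<r} (1 ⊗ v)^k (t ⊗ 1)^(r-1-k)` (`Commute.geom_sum₂_mul`, `geom_sum₂`): `∑_{k<r} t^(r-1-k) ⊗ v^k a = (1 ⊗ v^r - t^r ⊗ 1) β = - t^r β`.
  For a functional `φ : A → ℂ` apply `VV ⊗ A → VV ⊗ ℂ ≅ VV`, `f ⊗ a ↦ φ a • f` (`VV`-linear): `∑_k φ(v^k a) t^(r-1-k) = - t^r β_φ`, `β_φ ∈ VV`.
  Coefficient of `t^(r-1)` (`cf`, real exponent `r-1`; `r = finrank + 1 ≥ 1`): on the left `φ(a)` (the exponents `r-1-k` are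
  different), on the right `0` (order `≥ r`). So `φ(a) = 0` for all `φ`: `a = 0`.
-/

set_option autoImplicit false

open TensorProduct

namespace Pool.DeB

variable {A : Type*} [CommRing A] [Algebra ℂ A]

theorem pow_finrank [FiniteDimensional ℂ A] {r : ℕ} (hA : Module.finrank ℂ A ≤ r) {a : A}
    (ha : IsNilpotent a) : a ^ r = 0 := by
  have h1 : (LinearMap.mulLeft ℂ a).charpoly = Polynomial.X ^ Module.finrank ℂ A := by
    rw [LinearMap.charpoly_eq_X_pow_iff]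
    intro m
    obtain ⟨n, hn⟩ := ha
    refine ⟨n, ?_⟩
    rw [LinearMap.pow_mulLeft, hn, LinearMap.mulLeft_apply, zero_mul]
  have h2 := LinearMap.aeval_self_charpoly (LinearMap.mulLeft ℂ a)
  rw [h1, map_pow, Polynomial.aeval_X, LinearMap.pow_mulLeft] at h2
  have h3 : a ^ Module.finrank ℂ A = 0 := by
    have h4 := congrArg (fun f : A →ₗ[ℂ] A => f 1) h2
    simpa using h4
  exact pow_eq_zero_of_le hA h3

private theorem nb_aux1 {R : Type*} [CommRing R] (I : Ideal R) (x y : R) (h : x - y ∈ I) (r : ℕ)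
    (hx : x ^ r = 0) : y ^ r ∈ I := by
  have h2 : x - y ∣ x ^ r - y ^ r := sub_dvd_pow_sub_pow _ _ r
  rw [hx, zero_sub, dvd_neg] at h2
  exact Ideal.mem_of_dvd _ h2 h

private theorem nb_aux2 {R : Type*} [CommRing R] (n u : R) (hn : IsNilpotent n) (hu : IsUnit u) :
    IsUnit (n - u) := by
  have h4 := hn.isUnit_add_left_of_commute hu.neg (Commute.all _ _)
  rw [neg_add_eq_sub] at h4
  exact h4

private theorem nb_aux3 {R : Type*} [CommRing R] (x y a β : R) (n : ℕ) (hx : x ^ n = 0)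
    (hβ : β * (x - y) = a) :
    (∑ k ∈ Finset.range n, x ^ k * y ^ (n - 1 - k)) * a + y ^ n * β = 0 := by
  have h := geom_sum₂_mul x y n
  rw [hx, zero_sub] at h
  rw [← hβ]
  linear_combination β * h

private theorem nb_map (x : VV) : algebraMap VV (VV ⊗[ℂ] A) x = x ⊗ₜ[ℂ] (1 : A) := rfl

private theorem nb_gq_mem (vv : ℕ → A) (q : ℕ → VV) {i j : ℕ} (hj : j < i) :
    gq vv q j ∈ NQ vv q i :=
  Ideal.subset_span ⟨⟨j, hj⟩, rfl⟩

theorem tV_mem_NQ [FiniteDimensional ℂ A] {r : ℕ} (hA : Module.finrank ℂ A ≤ r) {vv : ℕ → A}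
    {q : ℕ → VV} {i j : ℕ} (hj : j < i) (hn : IsNilpotent (vv j)) {κ : ℝ} (hκ : 0 ≤ κ)
    (hv : v ((q j : VV) : Om) ≤ (κ : WithTop ℝ)) :
    algebraMap VV (VV ⊗[ℂ] A) (tV (r * κ)) ∈ NQ vv q i := by
  have h1 : algebraMap VV (VV ⊗[ℂ] A) (q j ^ r) ∈ NQ vv q i := by
    have h2 : (q j ⊗ₜ[ℂ] (1 : A)) ^ r ∈ NQ vv q i := by
      refine nb_aux1 (NQ vv q i) ((1 : VV) ⊗ₜ[ℂ] vv j) (q j ⊗ₜ[ℂ] (1 : A))
        (nb_gq_mem vv q hj) r ?_
      rw [Algebra.TensorProduct.tmul_pow, pow_finrank hA hn, tmul_zero]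
    have h3 : algebraMap VV (VV ⊗[ℂ] A) (q j ^ r) = (q j ⊗ₜ[ℂ] (1 : A)) ^ r := by
      rw [map_pow, nb_map]
    rw [h3]
    exact h2
  have hr : (0 : ℝ) ≤ r * κ := mul_nonneg (Nat.cast_nonneg r) hκ
  have h4 : q j ^ r ∣ tV (r * κ) := by
    rw [VV_dvd_iff, tV_coe hr, v_tp]
    have h5 : (((q j ^ r : VV)) : Om) = ((q j : VV) : Om) ^ r := rfl
    rw [h5, v_pow]
    refine (nsmul_le_nsmul_right hv r).trans (le_of_eq ?_)
    rw [← WithTop.coe_nsmul, nsmul_eq_mul]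
  exact Ideal.mem_of_dvd _ (map_dvd (algebraMap VV (VV ⊗[ℂ] A)) h4) h1

theorem NQ_succ (vv : ℕ → A) (q : ℕ → VV) (i : ℕ) (ω : VV) :
    NQ vv (Function.update q i ω) (i + 1) =
      NQ vv q i ⊔ Ideal.span {(1 : VV) ⊗ₜ[ℂ] vv i - algebraMap VV (VV ⊗[ℂ] A) ω} := by
  have hne : ∀ j, j < i → gq vv (Function.update q i ω) j = gq vv q j := by
    intro j hj
    unfold gq
    rw [Function.update_of_ne hj.ne]
  have hi : gq vv (Function.update q i ω) i =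
      (1 : VV) ⊗ₜ[ℂ] vv i - algebraMap VV (VV ⊗[ℂ] A) ω := by
    unfold gq
    rw [Function.update_self, nb_map]
  apply le_antisymm
  · refine Ideal.span_le.2 ?_
    rintro _ ⟨⟨j, hj⟩, rfl⟩
    show gq vv (Function.update q i ω) j ∈ _
    rcases Nat.lt_succ_iff_lt_or_eq.1 hj with h | h
    · rw [hne j h]
      exact Ideal.mem_sup_left (nb_gq_mem vv q h)
    · rw [h, hi]
      exact Ideal.mem_sup_right (Ideal.mem_span_singleton_self _)
  · refine sup_le (Ideal.span_le.2 ?_) ?_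
    · rintro _ ⟨⟨j, hj⟩, rfl⟩
      show gq vv q j ∈ _
      rw [← hne j hj]
      exact nb_gq_mem _ _ (Nat.lt_succ_of_lt hj)
    · rw [Ideal.span_singleton_le_iff_mem, ← hi]
      exact nb_gq_mem _ _ (Nat.lt_succ_self i)

theorem NQ_unit {vv : ℕ → A} {i : ℕ} (hn : IsNilpotent (vv i)) (q : ℕ → VV) {ω : VV}
    (hω : v ((ω : VV) : Om) = 0) : NQ vv (Function.update q i ω) (i + 1) = ⊤ := by
  rw [NQ_succ]
  refine Ideal.eq_top_of_isUnit_mem _ (Ideal.mem_sup_right (Ideal.mem_span_singleton_self _)) ?_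
  have h1 : IsUnit ω := by
    refine isUnit_of_dvd_one (VV_dvd_iff.2 ?_)
    rw [hω]
    exact (VV.one_mem : (1 : Om) ∈ VV)
  have h3 : IsNilpotent ((1 : VV) ⊗ₜ[ℂ] vv i) :=
    hn.map ((Algebra.TensorProduct.includeRight : A →ₐ[ℂ] VV ⊗[ℂ] A) : A →+* VV ⊗[ℂ] A)
  exact nb_aux2 _ _ h3 (h1.map (algebraMap VV (VV ⊗[ℂ] A)))

private noncomputable def nbL (φ : A →ₗ[ℂ] ℂ) : VV ⊗[ℂ] A →ₗ[ℂ] VV :=
  (TensorProduct.rid ℂ VV).toLinearMap ∘ₗ LinearMap.lTensor VV φ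

private theorem nbL_tmul (φ : A →ₗ[ℂ] ℂ) (f : VV) (a : A) : nbL φ (f ⊗ₜ[ℂ] a) = φ a • f := by
  show (TensorProduct.rid ℂ VV) (LinearMap.lTensor VV φ (f ⊗ₜ[ℂ] a)) = φ a • f
  rw [LinearMap.lTensor_tmul, TensorProduct.rid_tmul]

private theorem nbL_mul (φ : A →ₗ[ℂ] ℂ) (s : VV) (β : VV ⊗[ℂ] A) :
    nbL φ ((s ⊗ₜ[ℂ] (1 : A)) * β) = s * nbL φ β := by
  induction β using TensorProduct.induction_on with
  | zero => rw [mul_zero, map_zero, mul_zero]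
  | tmul f a =>
    rw [Algebra.TensorProduct.tmul_mul_tmul, nbL_tmul, nbL_tmul, one_mul, mul_smul_comm]
  | add x y hx hy => rw [mul_add, map_add, hx, hy, map_add, mul_add]

theorem IQ_one [FiniteDimensional ℂ A] {vv : ℕ → A} (hn : IsNilpotent (vv 0)) {q : ℕ → VV}
    (hq : q 0 = tV 1) : IQ vv q 1 = ⊥ := by
  rw [eq_bot_iff]
  intro a ha
  rw [mem_IQ] at ha
  have h0 : NQ vv q 1 = Ideal.span {gq vv q 0} := by
    unfold NQ
    congr 1
    ext x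
    constructor
    · rintro ⟨⟨j, hj⟩, rfl⟩
      have : j = 0 := by omega
      subst this
      rfl
    · intro hx
      exact ⟨0, (Set.mem_singleton_iff.1 hx).symm⟩
  rw [h0, Ideal.mem_span_singleton'] at ha
  obtain ⟨β, hβ⟩ := ha
  obtain ⟨r, hr⟩ := hn
  have hr1 : vv 0 ^ (r + 1) = 0 := by rw [pow_succ, hr, zero_mul]
  have h2 : (∑ k ∈ Finset.range (r + 1), ((1 : VV) ⊗ₜ[ℂ] vv 0) ^ k *
      (q 0 ⊗ₜ[ℂ] (1 : A)) ^ (r + 1 - 1 - k)) * ((1 : VV) ⊗ₜ[ℂ] a) +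
      (q 0 ^ (r + 1)) ⊗ₜ[ℂ] (1 : A) * β = 0 := by
    have h1 := nb_aux3 ((1 : VV) ⊗ₜ[ℂ] vv 0) (q 0 ⊗ₜ[ℂ] (1 : A)) ((1 : VV) ⊗ₜ[ℂ] a) β (r + 1)
      (by rw [Algebra.TensorProduct.tmul_pow, hr1, tmul_zero]) hβ
    have h1' : (q 0 ⊗ₜ[ℂ] (1 : A)) ^ (r + 1) = (q 0 ^ (r + 1)) ⊗ₜ[ℂ] (1 : A) := by
      rw [Algebra.TensorProduct.tmul_pow, one_pow]
    rw [h1'] at h1
    exact h1
  rw [Submodule.mem_bot]
  rw [← Module.forall_dual_apply_eq_zero_iff ℂ a]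
  intro φ
  have h3 := congrArg (nbL φ) h2
  rw [map_add, map_zero, nbL_mul, Finset.sum_mul, map_sum] at h3
  have h4 : ∀ k ∈ Finset.range (r + 1), nbL φ (((1 : VV) ⊗ₜ[ℂ] vv 0) ^ k *
      (q 0 ⊗ₜ[ℂ] (1 : A)) ^ (r + 1 - 1 - k) * ((1 : VV) ⊗ₜ[ℂ] a)) =
      φ (vv 0 ^ k * a) • q 0 ^ (r - k) := by
    intro k _
    rw [Algebra.TensorProduct.tmul_pow, Algebra.TensorProduct.tmul_pow,
      Algebra.TensorProduct.tmul_mul_tmul, Algebra.TensorProduct.tmul_mul_tmul, nbL_tmul,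
      one_pow, one_pow, one_mul, mul_one, mul_one, Nat.add_sub_cancel]
  rw [Finset.sum_congr rfl h4] at h3
  replace h3 := eq_neg_of_add_eq_zero_left h3
  have hqm : ∀ m : ℕ, ((q 0 ^ m : VV) : Om) = tp m := by
    intro m
    have : ((q 0 ^ m : VV) : Om) = ((q 0 : VV) : Om) ^ m := rfl
    rw [this, hq, tV_coe zero_le_one, ← tp_nsmul, mul_one]
  have h5 := congrArg (fun f : VV => cf (f : Om) (r : ℝ)) h3
  have hL : cf ((∑ k ∈ Finset.range (r + 1), φ (vv 0 ^ k * a) • q 0 ^ (r - k) : VV) : Om) (r : ℝ) =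
      φ a := by
    have hs : ∀ s : Finset ℕ, cf ((∑ k ∈ s, φ (vv 0 ^ k * a) • q 0 ^ (r - k) : VV) : Om) (r : ℝ) =
        ∑ k ∈ s, φ (vv 0 ^ k * a) * (if (r : ℝ) = ((r - k : ℕ) : ℝ) then 1 else 0) := by
      classical
      intro s
      induction s using Finset.induction_on with
      | empty => rw [Finset.sum_empty, Finset.sum_empty]; exact cf_zero _
      | insert x s hx ih =>
        rw [Finset.sum_insert hx, Finset.sum_insert hx, ← ih]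
        have e1 : ((φ (vv 0 ^ x * a) • q 0 ^ (r - x) +
            ∑ k ∈ s, φ (vv 0 ^ k * a) • q 0 ^ (r - k) : VV) : Om) =
            φ (vv 0 ^ x * a) • ((q 0 ^ (r - x) : VV) : Om) +
            ((∑ k ∈ s, φ (vv 0 ^ k * a) • q 0 ^ (r - k) : VV) : Om) := rfl
        rw [e1, cf_add, cf_smul, hqm, cf_tp]
    rw [hs, Finset.sum_range_succ', Finset.sum_eq_zero, zero_add]
    · rw [pow_zero, one_mul, Nat.sub_zero, if_pos rfl, mul_one]
    · intro k hk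
      have hk' := Finset.mem_range.1 hk
      have : ¬ ((r : ℝ) = ((r - (k + 1) : ℕ) : ℝ)) := by
        intro h
        have := Nat.cast_injective h
        omega
      rw [if_neg this, mul_zero]
  have hR : cf ((-(q 0 ^ (r + 1) * nbL φ β) : VV) : Om) (r : ℝ) = 0 := by
    have e1 : ((-(q 0 ^ (r + 1) * nbL φ β) : VV) : Om) =
        -(((q 0 ^ (r + 1) : VV) : Om) * ((nbL φ β : VV) : Om)) := rfl
    rw [e1, cf_neg, hqm, cf_tp_mul, cf_eq_zero_of_lt, neg_zero]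
    refine lt_of_lt_of_le ?_ (nbL φ β).2
    have : (r : ℝ) - ((r + 1 : ℕ) : ℝ) < 0 := by push_cast; linarith
    exact_mod_cast this
  exact hL.symm.trans (h5.trans hR)

end Pool.DeB
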