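import Pool.Agent.Lib.DeB.Defs
import Pool.Agent.Lib.DeB.WBasic

/-!
Module HBasic (100 lines). (W1), (W2) of the paper.
`colE I k = (I : k)`.
PROOFS. mono: a functional vanishing on `I'` vanishes on `I`. monow: `isW_mono`.
`hw_iInf`: let `φ` vanish on `⨅ i, I i`. In the dual space `Module.Dual ℂ A` (finite-dimensional,
`finrank = finrank A`), the dual annihilator of an infimum of subspaces is the supremum of the
annihilators (`Subspace.dualAnnihilator_iInf_eq`, or `Submodule.dualAnnihilator` lemmas for
subspaces of finite-dimensional spaces), so `φ` is in the span of the union of the annihilators of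
the `I i`; a vector of the span of a set `S` is a combination of at most `finrank` elements of `S`
(e.g. `exists_linearIndependent`/a maximal linearly independent subset of `S` is finite with at
most `finrank A ≤ r` elements and has the same span). Each of these at most `r` functionals
vanishes on some `I i`, so its function is in `IsW w j`; `isW_smul`, `isW_sum`, `isW_mono`.
-/

set_option autoImplicit false

namespace Pool.DeB

variable {X A : Type*} [AddCommGroup X] [Module ℂ X] [CommRing A] [Algebra ℂ A]

/-- the ideal `(I : k)`. -/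
def colE {B : Type*} [CommRing B] (I : Ideal B) (k : B) : Ideal B where
  carrier := {a | a * k ∈ I}
  add_mem' := by
    intro a b ha hb
    show (a + b) * k ∈ I
    rw [add_mul]
    exact I.add_mem ha hb
  zero_mem' := by
    show (0 : B) * k ∈ I
    rw [zero_mul]
    exact I.zero_mem
  smul_mem' := by
    intro c a ha
    show (c * a) * k ∈ I
    rw [mul_assoc]
    exact I.mul_mem_left c ha

theorem mem_colE {B : Type*} [CommRing B] {I : Ideal B} {k a : B} : a ∈ colE I k ↔ a * k ∈ I :=
  Iff.rfl

theorem hw_mono {y : X →ₗ[ℂ] A} {r : ℕ} {I I' : Ideal A} {w : ℕ} (h : I ≤ I') (hI : HW y r I w) :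
    HW y r I' w := by
  intro φ hφ j hj
  exact hI φ (fun a ha => hφ a (h ha)) j hj

theorem hw_monow {y : X →ₗ[ℂ] A} {r : ℕ} {I : Ideal A} {w w' : ℕ} (h : w ≤ w')
    (hI : HW y r I w) : HW y r I w' := by
  intro φ hφ j hj
  exact isW_mono h (hI φ hφ j hj)

theorem hw_iInf [FiniteDimensional ℂ A] {y : X →ₗ[ℂ] A} {r : ℕ} (hr : Module.finrank ℂ A ≤ r)
    {ι : Type*} (I : ι → Ideal A) {w : ℕ} (h : ∀ i, HW y r (I i) w) :
    HW y r (⨅ i, I i) (r * w) := by
  classical
  intro φ hφ j hj
  set S : Set (Module.Dual ℂ A) := {ψ | ∃ i, ∀ a ∈ I i, ψ a = 0} with hS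
  set W : Submodule ℂ (Module.Dual ℂ A) := Submodule.span ℂ S with hW
  have hφW : φ ∈ W := by
    rw [← Subspace.dualCoannihilator_dualAnnihilator_eq (W := W), Submodule.mem_dualAnnihilator]
    intro x hx
    apply hφ
    rw [Ideal.mem_iInf]
    intro i
    have h1 : x ∈ (I i).restrictScalars ℂ := by
      rw [← Subspace.forall_mem_dualAnnihilator_apply_eq_zero_iff]
      intro ψ hψ
      rw [Submodule.mem_dualAnnihilator] at hψ
      rw [Submodule.mem_dualCoannihilator] at hx
      exact hx ψ (Submodule.subset_span ⟨i, fun a ha => hψ a ha⟩)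
    exact h1
  obtain ⟨b, hbS, hbspan, hbli⟩ := exists_linearIndependent ℂ S
  have hbfin : b.Finite := hbli.setFinite
  have hcard : hbfin.toFinset.card ≤ r := by
    have : Fintype b := hbfin.fintype
    have h1 := hbli.fintype_card_le_finrank
    rw [Subspace.dual_finrank_eq] at h1
    have h2 : hbfin.toFinset.card = Fintype.card b := by
      rw [Set.Finite.card_toFinset]
    rw [h2]
    exact h1.trans hr
  have hφb : φ ∈ Submodule.span ℂ (hbfin.toFinset : Set (Module.Dual ℂ A)) := by
    rw [Set.Finite.coe_toFinset, hbspan]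
    exact hφW
  obtain ⟨c, -, hc⟩ := Submodule.mem_span_finset.1 hφb
  have h1 : IsW (hbfin.toFinset.card * w) j
      (fun a => ∑ ψ ∈ hbfin.toFinset, c ψ * ψ (y a ^ j)) := by
    apply isW_sum
    intro ψ hψ
    apply isW_smul
    obtain ⟨i, hi⟩ := hbS (hbfin.mem_toFinset.1 hψ)
    exact h i ψ hi j hj
  have h2 : (fun a => φ (y a ^ j)) = fun a => ∑ ψ ∈ hbfin.toFinset, c ψ * ψ (y a ^ j) := by
    funext a
    conv_lhs => rw [← hc]
    rw [LinearMap.sum_apply]
    rfl
  rw [h2]
  exact isW_mono (Nat.mul_le_mul_right w hcard) h1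

end Pool.DeB
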