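import Pool.Agent.Lib.DeB.Defs
import Pool.Agent.Lib.DeB.WBasic
import Pool.Agent.Lib.DeB.WMul
import Pool.Agent.Lib.DeB.HBasic

/-!
Module HSplit (220 lines). The splitting lemma (W3).
PROOF. If `1 ∈ K` then `(I : 1) = I`, so `HW I w2` and `w2 ≤ (r+1)^5 * w1 * w2` (`hw_monow`).
Let `1 ∉ K`. Let `Q = A ⧸ K`, `π : A → Q` the quotient map; choose a `ℂ`-linear section
`θ : Q → A` of `π` with `θ 1 = 1` (take any linear section `θ0` (`π` is surjective,
`LinearMap.exists_rightInverse_of_surjective`) and a functional `g : Q → ℂ` with `g 1 = 1`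
(`1 ≠ 0` in `Q`), `θ q = θ0 q + g q • (1 - θ0 1)`: note `1 - θ0 1 ∈ K`). Let `eb` be a basis of `Q`
(`Module.finBasis ℂ Q`, at most `r` elements) and `ek` a basis of `X` (`n ≤ r` elements), `a_k` the
coordinates of `a`. For `J ≤ r`, `φ` vanishing on `I`: by induction on `J` (telescoping)
  `y_a^J = θ(π(y_a)^J) + ∑_{j<J} y_a^(J-1-j) * E_j(a)`,
  `E_j(a) = y_a * θ(π(y_a)^j) - θ(π(y_a)^(j+1))`.
Writing `π(y_a)^j = ∑_b f_{jb}(a) eb_b` with `f_{jb}(a) = eb.coord b (π(y_a)^j)` and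
`y_a = ∑_k a_k y_{e_k}`: `E_j(a) = ∑_{k,b} a_k f_{jb}(a) κ_{kb}`, where
`κ_{kb} = y_{e_k} * θ(eb_b) - θ(π(y_{e_k}) * eb_b) ∈ K` (as `π` of it is `0`).
Hence `φ(y_a^J) = φ(θ(π(y_a)^J)) + ∑_{j<J,k,b} a_k f_{jb}(a) φ(y_a^(J-1-j) κ_{kb})`.
`φ ∘ θ ∘ π` and `eb.coord b ∘ π` vanish on `K`, so their functions are in `IsW w1`; the functional
`c ↦ φ(c κ_{kb})` vanishes on `(I : κ_{kb})`, so `a ↦ φ(y_a^(J-1-j) κ_{kb})` is in
`IsW w2 (J-1-j)`. By `isW_lin_mul` and `isW_mul` each term is in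
`IsW (w1 (j+2) w2 (J+1)) J`, at most `IsW ((r+1)^2 w1 w2) J`. Total
`w1 + r * r * r * (r+1)^2 w1 w2 ≤ (r+1)^5 w1 w2`.
-/

set_option autoImplicit false

namespace Pool.DeB

variable {X A : Type*} [AddCommGroup X] [Module ℂ X] [CommRing A] [Algebra ℂ A]

/-- the projection as a linear map -/
private noncomputable def hsp (K : Ideal A) : A →ₗ[ℂ] (A ⧸ K) := (Ideal.Quotient.mkₐ ℂ K).toLinearMap

private theorem hsp_mul (K : Ideal A) (a b : A) : hsp K (a * b) = hsp K a * hsp K b :=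
  map_mul (Ideal.Quotient.mkₐ ℂ K) a b

private theorem hsp_pow (K : Ideal A) (a : A) (j : ℕ) : hsp K (a ^ j) = hsp K a ^ j :=
  map_pow (Ideal.Quotient.mkₐ ℂ K) a j

private theorem hsp_one (K : Ideal A) : hsp K 1 = 1 := map_one (Ideal.Quotient.mkₐ ℂ K)

private theorem hsp_eq_zero (K : Ideal A) {a : A} : hsp K a = 0 ↔ a ∈ K :=
  Ideal.Quotient.eq_zero_iff_mem

private theorem hsp_surj (K : Ideal A) : Function.Surjective (hsp K) :=
  Ideal.Quotient.mkₐ_surjective ℂ K

private theorem exists_section (K : Ideal A) (h : (1 : A) ∉ K) :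
    ∃ θ : (A ⧸ K) →ₗ[ℂ] A, (∀ q, hsp K (θ q) = q) ∧ θ 1 = 1 := by
  obtain ⟨θ0, h0⟩ := (hsp K).exists_rightInverse_of_surjective
    (LinearMap.range_eq_top.2 (hsp_surj K))
  have h0' : ∀ q, hsp K (θ0 q) = q := fun q => LinearMap.congr_fun h0 q
  have h1 : (1 : A ⧸ K) ≠ 0 := by
    rw [← hsp_one K, Ne, hsp_eq_zero]
    exact h
  obtain ⟨g, hg⟩ := Module.Projective.exists_dual_eq_one ℂ h1
  refine ⟨θ0 + (LinearMap.toSpanSingleton ℂ A (1 - θ0 1)).comp g, ?_, ?_⟩
  · intro q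
    rw [LinearMap.add_apply, map_add, h0', LinearMap.comp_apply, LinearMap.toSpanSingleton_apply,
      map_smul, map_sub, hsp_one, h0', sub_self, smul_zero, add_zero]
  · rw [LinearMap.add_apply, LinearMap.comp_apply, hg, LinearMap.toSpanSingleton_apply, one_smul,
      add_sub_cancel]

private theorem telesc (K : Ideal A) (θ : (A ⧸ K) →ₗ[ℂ] A) (h1 : θ 1 = 1) (x : A) (J : ℕ) :
    x ^ J = θ (hsp K x ^ J) + ∑ j ∈ Finset.range J, x ^ (J - 1 - j) *
      (x * θ (hsp K x ^ j) - θ (hsp K x ^ (j + 1))) := by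
  induction J with
  | zero => simp [h1]
  | succ J ih =>
    rw [Finset.sum_range_succ]
    have e : ∑ j ∈ Finset.range J, x ^ (J + 1 - 1 - j) *
        (x * θ (hsp K x ^ j) - θ (hsp K x ^ (j + 1))) =
        x * ∑ j ∈ Finset.range J, x ^ (J - 1 - j) *
          (x * θ (hsp K x ^ j) - θ (hsp K x ^ (j + 1))) := by
      rw [Finset.mul_sum]
      apply Finset.sum_congr rfl
      intro j hj
      rw [Finset.mem_range] at hj
      have : J + 1 - 1 - j = (J - 1 - j) + 1 := by omega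
      rw [this, pow_succ]
      ring
    have e2 : J + 1 - 1 - J = 0 := by omega
    rw [e, e2, pow_zero, one_mul, pow_succ, mul_comm]
    conv_lhs => rw [ih]
    ring

/-- the element `κ` -/
private noncomputable def kap (K : Ideal A) (θ : (A ⧸ K) →ₗ[ℂ] A) (x : A) (q : A ⧸ K) : A :=
  x * θ q - θ (hsp K x * q)

private theorem kap_mem (K : Ideal A) (θ : (A ⧸ K) →ₗ[ℂ] A) (h : ∀ q, hsp K (θ q) = q) (x : A)
    (q : A ⧸ K) : kap K θ x q ∈ K := by
  rw [← hsp_eq_zero, kap, map_sub, hsp_mul, h, h, sub_self]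

private theorem kap_sum (K : Ideal A) (θ : (A ⧸ K) →ₗ[ℂ] A) {n m : ℕ} (c : Fin n → ℂ)
    (x : Fin n → A) (f : Fin m → ℂ) (q : Fin m → A ⧸ K) :
    kap K θ (∑ k, c k • x k) (∑ b, f b • q b) =
      ∑ k, ∑ b, (c k * f b) • kap K θ (x k) (q b) := by
  simp only [kap, map_sum, map_smul, Finset.sum_mul_sum, smul_sub, Finset.sum_sub_distrib]
  congr 1
  · apply Finset.sum_congr rfl
    intro k _
    apply Finset.sum_congr rfl
    intro b _
    rw [smul_mul_smul_comm]
  · apply Finset.sum_congr rfl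
    intro k _
    apply Finset.sum_congr rfl
    intro b _
    rw [smul_mul_smul_comm, map_smul]

theorem hw_split [FiniteDimensional ℂ A] [FiniteDimensional ℂ X] {y : X →ₗ[ℂ] A} {r : ℕ}
    (hr : Module.finrank ℂ A ≤ r) (hX : Module.finrank ℂ X ≤ r) {I K : Ideal A} (hIK : I ≤ K)
    {w1 w2 : ℕ} (h1 : 1 ≤ w1) (h2 : 1 ≤ w2) (hK : HW y r K w1)
    (hc : ∀ k ∈ K, HW y r (colE I k) w2) : HW y r I ((r + 1) ^ 5 * w1 * w2) := by
  by_cases h : (1 : A) ∈ K
  · have h3 := hc 1 h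
    have h4 : colE I 1 = I := by
      ext a
      rw [mem_colE, mul_one]
    rw [h4] at h3
    refine hw_monow ?_ h3
    have : 1 ≤ (r + 1) ^ 5 * w1 := Nat.one_le_iff_ne_zero.2 (by positivity)
    nlinarith
  · obtain ⟨θ, hθ, hθ1⟩ := exists_section K h
    intro φ hφ J hJ
    have : FiniteDimensional ℂ (A ⧸ K) := FiniteDimensional.of_surjective (hsp K) (hsp_surj K)
    have hm : Module.finrank ℂ (A ⧸ K) ≤ r :=
      (LinearMap.finrank_le_finrank_of_surjective (hsp_surj K)).trans hr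
    set n := Module.finrank ℂ X with hn
    set m := Module.finrank ℂ (A ⧸ K) with hmm
    let ek : Module.Basis (Fin n) ℂ X := Module.finBasis ℂ X
    let eb : Module.Basis (Fin m) ℂ (A ⧸ K) := Module.finBasis ℂ (A ⧸ K)
    -- the functions
    let L : Fin n → (X →ₗ[ℂ] ℂ) := fun k => ek.coord k
    let f : ℕ → Fin m → X → ℂ := fun j b a => eb.coord b (hsp K (y a ^ j))
    let g : ℕ → Fin n → Fin m → X → ℂ := fun i k b a =>
      φ (y a ^ i * kap K θ (y (ek k)) (eb b))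
    have hf : ∀ j ≤ r, ∀ b, IsW w1 j (f j b) := by
      intro j hj b
      exact hK ((eb.coord b).comp (hsp K)) (fun a ha => by
        rw [LinearMap.comp_apply, (hsp_eq_zero K).2 ha, map_zero]) j hj
    have hg : ∀ i ≤ r, ∀ k b, IsW w2 i (g i k b) := by
      intro i hi k b
      exact hc _ (kap_mem K θ hθ (y (ek k)) (eb b))
        (φ.comp (LinearMap.mulRight ℂ (kap K θ (y (ek k)) (eb b)))) (fun a ha => by
          rw [LinearMap.comp_apply, LinearMap.mulRight_apply]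
          exact hφ _ ha) i hi
    have key : ∀ a, φ (y a ^ J) = φ (θ (hsp K (y a ^ J))) +
        ∑ j ∈ Finset.range J, ∑ k, ∑ b, L k a * (f j b a * g (J - 1 - j) k b a) := by
      intro a
      have e0 := telesc K θ hθ1 (y a) J
      have e1 : ∀ j, y a * θ (hsp K (y a) ^ j) - θ (hsp K (y a) ^ (j + 1)) =
          ∑ k, ∑ b, (L k a * f j b a) • kap K θ (y (ek k)) (eb b) := by
        intro j
        have e2 : y a = ∑ k, L k a • y (ek k) := by
          conv_lhs => rw [← ek.sum_repr a]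
          rw [map_sum]
          apply Finset.sum_congr rfl
          intro k _
          rw [map_smul]
          rfl
        have e3 : hsp K (y a) ^ j = ∑ b, f j b a • eb b := by
          rw [← hsp_pow]
          conv_lhs => rw [← eb.sum_repr (hsp K (y a ^ j))]
          rfl
        have e4 : y a * θ (hsp K (y a) ^ j) - θ (hsp K (y a) ^ (j + 1)) =
            kap K θ (y a) (hsp K (y a) ^ j) := by
          rw [kap, pow_succ']
        rw [e4, e3]
        conv_lhs => rw [e2]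
        rw [kap_sum]
      rw [hsp_pow]
      conv_lhs => rw [e0, map_add, map_sum]
      congr 1
      apply Finset.sum_congr rfl
      intro j _
      rw [e1 j, Finset.mul_sum, map_sum]
      apply Finset.sum_congr rfl
      intro k _
      rw [Finset.mul_sum, map_sum]
      apply Finset.sum_congr rfl
      intro b _
      rw [mul_smul_comm, map_smul, smul_eq_mul, mul_assoc]
    have hF0 : IsW w1 J (fun a => φ (θ (hsp K (y a ^ J)))) :=
      hK ((φ.comp θ).comp (hsp K)) (fun a ha => by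
        rw [LinearMap.comp_apply, (hsp_eq_zero K).2 ha, map_zero]) J hJ
    have hterm : ∀ j ∈ Finset.range J, ∀ k b,
        IsW ((r + 1) ^ 2 * w1 * w2) J (fun a => L k a * (f j b a * g (J - 1 - j) k b a)) := by
      intro j hj k b
      rw [Finset.mem_range] at hj
      have h3 := isW_mul (hf j (by omega) b) (hg (J - 1 - j) (by omega) k b)
      have h4 := isW_lin_mul (L k) h3
      have e1 : j + (J - 1 - j) = J - 1 := by omega
      rw [e1] at h4
      have e2 : J - 1 + 1 = J := by omega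
      have e3 : J - 1 + 2 = J + 1 := by omega
      rw [e2, e3] at h4
      refine isW_mono ?_ h4
      have h5 : J * (J + 1) ≤ (r + 1) ^ 2 := by nlinarith
      calc w1 * w2 * J * (J + 1) = (J * (J + 1)) * w1 * w2 := by ring
        _ ≤ (r + 1) ^ 2 * w1 * w2 := by gcongr
    have hsum := isW_sum (Finset.range J) (fun j hj => isW_sum (Finset.univ : Finset (Fin n))
      (fun k _ => isW_sum (Finset.univ : Finset (Fin m)) (fun b _ => hterm j hj k b)))
    rw [Finset.card_range, Finset.card_univ, Finset.card_univ, Fintype.card_fin,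
      Fintype.card_fin] at hsum
    have htot := isW_add hF0 hsum
    have e : (fun a => φ (y a ^ J)) = fun a => φ (θ (hsp K (y a ^ J))) +
        ∑ j ∈ Finset.range J, ∑ k, ∑ b, L k a * (f j b a * g (J - 1 - j) k b a) :=
      funext key
    rw [e]
    refine isW_mono ?_ htot
    have h5 : J * (n * (m * ((r + 1) ^ 2 * w1 * w2))) ≤ r * (r * (r * ((r + 1) ^ 2 * w1 * w2))) := by
      gcongr
    have h6 : w1 ≤ (r + 1) ^ 2 * w1 * w2 := by
      have h7 : 1 ≤ (r + 1) ^ 2 * w2 := Nat.one_le_iff_ne_zero.2 (by positivity)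
      nlinarith
    have h8 : (r ^ 3 + 1) ≤ (r + 1) ^ 3 := by ring_nf; nlinarith [sq_nonneg r]
    calc w1 + J * (n * (m * ((r + 1) ^ 2 * w1 * w2)))
        ≤ (r + 1) ^ 2 * w1 * w2 + r * (r * (r * ((r + 1) ^ 2 * w1 * w2))) := add_le_add h6 h5
      _ = (r ^ 3 + 1) * ((r + 1) ^ 2 * w1 * w2) := by ring
      _ ≤ (r + 1) ^ 3 * ((r + 1) ^ 2 * w1 * w2) := Nat.mul_le_mul_right _ h8
      _ = (r + 1) ^ 5 * w1 * w2 := by ring

/-- (W4) -/
theorem hw_sq [FiniteDimensional ℂ A] [FiniteDimensional ℂ X] {y : X →ₗ[ℂ] A} {r : ℕ}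
    (hr : Module.finrank ℂ A ≤ r) (hX : Module.finrank ℂ X ≤ r) {I K : Ideal A} (hIK : I ≤ K)
    {w : ℕ} (h1 : 1 ≤ w) (hK : HW y r K w) (hsq : ∀ a ∈ K, ∀ b ∈ K, a * b ∈ I) :
    HW y r I ((r + 1) ^ 5 * w * w) :=
  hw_split hr hX hIK h1 h1 hK (fun k hk => hw_mono (fun a ha => hsq a ha k hk) hK)

end Pool.DeB
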