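import Pool.Agent.Lib.DeB.StDefs

/-!
Module Nilp (100 lines).
PROOF of `nilp`. Let `Y = f (y a) - gh a` (image in `B`). For `ρ ∈ R a`: `ρ = gh a + t^κ u_ρ` with `u_ρ ∈ VV` (`close`,
`VV_dvd_iff`, `tV_coe`), so `f (y a) - ρ = Y - t^κ u_ρ`. Modulo the ideal `J' ⊔ (t^κ)` the product over `R a` is `Y^(card)`, and
it is in `J ≤ J'`: so `Y^(card) ∈ J' ⊔ span {t^κ}`, hence `Y^m` too (`card ≤ m`), `Y^m = j + t^κ b`, and
`(Y^m)^e ∈ J' ⊔ span {(t^κ)^e} = J'` (binomial theorem or `Ideal.Quotient`: in `B ⧸ J'`, `Y^m = t^κ b`, so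
`Y^(m e) = (t^κ)^e b^e = 0`).
-/

/-!
Module Nilp (100 lines).
PROOF of `nilp`. Let `Y = f (y a) - gh a` (image in `B`). For `ρ ∈ R a`: `ρ = gh a + t^κ u_ρ` with `u_ρ ∈ VV` (`close`,
`VV_dvd_iff`, `tV_coe`), so `f (y a) - ρ = Y - t^κ u_ρ`. Modulo the ideal `J' ⊔ (t^κ)` the product over `R a` is `Y^(card)`, and
it is in `J ≤ J'`: so `Y^(card) ∈ J' ⊔ span {t^κ}`, hence `Y^m` too (`card ≤ m`), `Y^m = j + t^κ b`, and
`(Y^m)^e ∈ J' ⊔ span {(t^κ)^e} = J'` (binomial theorem or `Ideal.Quotient`: in `B ⧸ J'`, `Y^m = t^κ b`, so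
`Y^(m e) = (t^κ)^e b^e = 0`).
-/

set_option autoImplicit false

namespace Pool.DeB

private theorem mk_prod_eq {B : Type*} [CommRing B] (I : Ideal B) (c Y : B) (M : Multiset B)
    (h : ∀ b ∈ M, Ideal.Quotient.mk I (c - b) = Ideal.Quotient.mk I Y) :
    Ideal.Quotient.mk I ((M.map fun b => c - b).prod) = Ideal.Quotient.mk I (Y ^ M.card) := by
  induction M using Multiset.induction_on with
  | empty => simp
  | cons b M ih =>
    rw [Multiset.map_cons, Multiset.prod_cons, map_mul, h b (Multiset.mem_cons_self b M),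
      ih (fun b' hb' => h b' (Multiset.mem_cons_of_mem hb')), Multiset.card_cons, pow_succ, map_mul,
      mul_comm]

theorem nilp {X A B : Type*} [AddCommGroup X] [Module ℂ X] [CommRing A] [Algebra ℂ A] [CommRing B]
    [Algebra ℂ B] [Algebra VV B] {y : X →ₗ[ℂ] A} {f : A →ₐ[ℂ] B} {m Nn : ℕ}
    {J : Ideal B} {κ : ℝ} {gh : X →ₗ[ℂ] VV} {R : X → Multiset VV} (hκ : 0 ≤ κ)
    (S : St y f m Nn J κ gh R) {J' : Ideal B} (hJ : J ≤ J') {e : ℕ}
    (he : algebraMap VV B (tV κ) ^ e ∈ J') (a : X) :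
    (f (y a) - algebraMap VV B (gh a)) ^ (m * e) ∈ J' := by
  set Y : B := f (y a) - algebraMap VV B (gh a) with hY
  set t : B := algebraMap VV B (tV κ) with ht
  have hdiv : ∀ ρ ∈ R a, ∃ u : VV, ρ = gh a + tV κ * u := by
    intro ρ hρ
    have h1 := S.close a ρ hρ
    have h2 : tV κ ∣ ρ - gh a := by
      rw [VV_dvd_iff, tV_coe hκ, v_tp]
      exact h1
    obtain ⟨u, hu⟩ := h2
    exact ⟨u, by rw [← hu]; ring⟩
  have h1 : Ideal.Quotient.mk (Ideal.span {t}) (pr (f (y a)) (R a)) =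
      Ideal.Quotient.mk (Ideal.span {t}) (Y ^ (R a).card) := by
    have h2 := mk_prod_eq (Ideal.span {t}) (f (y a)) Y ((R a).map (algebraMap VV B)) (by
      intro b hb
      obtain ⟨ρ, hρ, rfl⟩ := Multiset.mem_map.1 hb
      obtain ⟨u, rfl⟩ := hdiv ρ hρ
      rw [Ideal.Quotient.eq, Ideal.mem_span_singleton]
      refine ⟨- algebraMap VV B u, ?_⟩
      rw [hY, map_add, map_mul]
      ring)
    rw [Multiset.card_map, Multiset.map_map] at h2
    exact h2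
  rw [Ideal.Quotient.eq, Ideal.mem_span_singleton] at h1
  obtain ⟨b, hb⟩ := h1
  have h3 : Y ^ (R a).card = pr (f (y a)) (R a) - t * b := by rw [← hb]; ring
  have h4 : Y ^ m = Y ^ (m - (R a).card) * (pr (f (y a)) (R a) - t * b) := by
    rw [← h3, ← pow_add, Nat.sub_add_cancel (S.card_le a)]
  have hrel : pr (f (y a)) (R a) ∈ J' := hJ (S.rel a)
  rw [← Ideal.Quotient.eq_zero_iff_mem, map_pow, pow_mul, ← map_pow, h4, map_mul, map_sub, map_mul,
    Ideal.Quotient.eq_zero_iff_mem.2 hrel, zero_sub, mul_pow, neg_pow, mul_pow, ← map_pow _ t,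
    Ideal.Quotient.eq_zero_iff_mem.2 he, zero_mul, mul_zero, mul_zero]

end Pool.DeB
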