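import Pool.Agent.Lib.DeB.StDefs
import Pool.Agent.Lib.DeB.Nilp
import Pool.Agent.Lib.DeB.Direct
import Pool.Agent.Lib.DeB.HBasic

/-!
Module StDirect (90 lines). The direct bound in a state.
PROOF. Let `D = B ⧸ J'`, `f' = mk ∘ f : A →ₐ D`; `D` is a `VV`-algebra (composition), and `IsScalarTower ℂ VV D`. By `nilp`
`(f' (y a) - gh a)^(m e) = 0` in `D`. `direct_bound` with `M = m * e` and `P`: an exponent `e' ≥ 0` of `gh a` has
`Nn e' = l` with `l < P` since `Nn * e' < Nn * κ ≤ P`. The kernel of `f'` is `J'.comap f`. `wdir` is monotone in `M`.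
-/

set_option autoImplicit false

namespace Pool.DeB

theorem st_direct {X A B : Type*} [AddCommGroup X] [Module ℂ X] [FiniteDimensional ℂ X]
    [CommRing A] [Algebra ℂ A] [CommRing B]
    [Algebra ℂ B] [Algebra VV B] [IsScalarTower ℂ VV B] {y : X →ₗ[ℂ] A} {f : A →ₐ[ℂ] B}
    {r m Nn : ℕ} (hr1 : 1 ≤ r) (hX : Module.finrank ℂ X ≤ r) (hNn : 0 < Nn)
    {J : Ideal B} {κ : ℝ} {gh : X →ₗ[ℂ] VV} {R : X → Multiset VV} (hκ : 0 ≤ κ)
    (S : St y f m Nn J κ gh R) {J' : Ideal B} (hJ : J ≤ J') {e : ℕ}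
    (he : algebraMap VV B (tV κ) ^ e ∈ J') {P M : ℕ} (hP : (Nn : ℝ) * κ ≤ P) (hM : m * e ≤ M) :
    HW y r (J'.comap (f : A →+* B)) (wdir r M P) := by
  have hn := nilp hκ S hJ he
  let f' : A →ₐ[ℂ] (B ⧸ J') := (Ideal.Quotient.mkₐ ℂ J').comp f
  have hker : RingHom.ker (f' : A →+* (B ⧸ J')) = J'.comap (f : A →+* B) := by
    ext x
    rw [RingHom.mem_ker, Ideal.mem_comap]
    exact Ideal.Quotient.eq_zero_iff_mem
  have hgh : ∀ a (e' : ℝ), cf ((gh a : VV) : Om) e' ≠ 0 → ∃ l : ℕ, l < P ∧ (Nn : ℝ) * e' = l := by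
    intro a e' he'
    obtain ⟨h0, h1, l, hl⟩ := S.ghe a e' he'
    refine ⟨l, ?_, hl⟩
    have h2 : (l : ℝ) < P := by
      rw [← hl]
      exact lt_of_lt_of_le (mul_lt_mul_of_pos_left h1 (by exact_mod_cast hNn)) hP
    exact_mod_cast h2
  have h : ∀ a, (f' (y a) - algebraMap VV (B ⧸ J') (gh a)) ^ (m * e) = 0 := by
    intro a
    have h1 : (Ideal.Quotient.mk J') ((f (y a) - algebraMap VV B (gh a)) ^ (m * e)) = 0 :=
      Ideal.Quotient.eq_zero_iff_mem.2 (hn a)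
    rw [map_pow, map_sub] at h1
    exact h1
  have key := direct_bound y hr1 hX f' hNn gh hgh h
  rw [hker] at key
  refine hw_monow ?_ key
  unfold wdir
  exact Nat.mul_le_mul_right _ (Nat.pow_le_pow_right (by omega) (Nat.mul_le_mul_left 3 hM))

end Pool.DeB
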