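import Pool.Agent.Lib.DeB.Defs2
import Pool.Agent.Lib.DeB.PU
import Pool.Agent.Lib.DeB.Excl
import Pool.Agent.Lib.DeB.Core

/-!
Module StageP (90 lines). Proposition 5 of the paper: from `partition_unity`, `exclusion`, `core`.
PROOF. For every `a` take `e a` from `partition_unity` for `R a` and `Y = y a` (`Classical.choose`).
Apply `core` with `U = V ⧸ (w0)`, `p = w0^(m^3)`, `cl a = clset w0 (R a)`: the number of classes is at
most `card (R a) ≤ m`; `h2` is `exclusion` with `R1 = sub w0 (R a) χ` etc., `Y1 = y a`, `Y2 = y b`, the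
scalar `algebraMap ℂ V s` (`s • χ' = cls (algebraMap ℂ V s) * χ'`; `y (a + s • b) = y a + s • y b`), and the element
`e a χ * e b χ' * e (a + s • b) χ''`. `γ j b ∈ clset` and `η j = k * e b (γ j b)` give
`pr (y b) (sub w0 (R b) (γ j b)) * η j = 0`. `(w0^(m^3))^(5m+8) = w0^(m^3 (5m+8))`.
-/

set_option autoImplicit false

namespace Pool.DeB

theorem stage_step {V B X : Type*} [CommRing V] [Algebra ℂ V] [CommRing B] [Algebra V B]
    [Algebra ℂ B] [IsScalarTower ℂ V B] [AddCommGroup X] [Module ℂ X] (y : X →ₗ[ℂ] B) (w0 : V)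
    (hdiv : ∀ x : V, w0 ∣ x ∨ x ∣ w0) (m : ℕ) (R : X → Multiset V) (hR : ∀ a, (R a).card ≤ m)
    (h : ∀ a, pr (y a) (R a) = 0) :
    ∃ (n : ℕ) (γ : Fin n → (X →ₗ[ℂ] (V ⧸ Ideal.span {w0}))) (η : Fin n → B),
      ∑ j, η j = (algebraMap V B w0) ^ (m ^ 3 * (5 * m + 8)) ∧
      ∀ j b, γ j b ∈ clset w0 (R b) ∧ pr (y b) (sub w0 (R b) (γ j b)) * η j = 0 := by
  have hcls : ∀ (s : ℂ) (χ : V ⧸ Ideal.span {w0}), s • χ = cls w0 (algebraMap ℂ V s) * χ := by
    intro s χ
    rw [Algebra.smul_def]
    rfl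
  have hpu := fun a => partition_unity w0 hdiv m (R a) (hR a) (y a) (h a)
  choose e he0 he1 he2 using hpu
  have hsm : ∀ (a b : X) (s : ℂ), y (a + s • b) = y a + algebraMap V B (algebraMap ℂ V s) * y b := by
    intro a b s
    rw [map_add, map_smul, Algebra.smul_def, IsScalarTower.algebraMap_apply ℂ V B s]
  have hcard : ∀ a, (clset w0 (R a)).card ≤ m := by
    intro a
    classical
    unfold clset
    refine le_trans (Multiset.toFinset_card_le _) ?_
    rw [Multiset.card_map]
    exact hR a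
  obtain ⟨n, γ, η, hs, hη⟩ := core (X := X) (U := V ⧸ Ideal.span {w0}) (B := B)
    ((algebraMap V B w0) ^ (m ^ 3)) m (fun a => clset w0 (R a)) hcard e he0 he2 (by
      intro a b s χ χ' χ'' hne
      rw [hcls] at hne
      have hx := exclusion w0 hdiv m (sub w0 (R a) χ) (sub w0 (R b) χ')
        (sub w0 (R (a + s • b)) χ'') (le_trans (card_sub_le _ _ _) (hR _))
        (le_trans (card_sub_le _ _ _) (hR _)) (le_trans (card_sub_le _ _ _) (hR _)) χ χ' χ''
        (fun ρ hρ => (mem_sub.1 hρ).2) (fun ρ hρ => (mem_sub.1 hρ).2)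
        (fun ρ hρ => (mem_sub.1 hρ).2) (y a) (y b) (e a χ * e b χ' * e (a + s • b) χ'')
        (algebraMap ℂ V s) hne
        (by
          have := he1 a χ
          calc pr (y a) (sub w0 (R a) χ) * (e a χ * e b χ' * e (a + s • b) χ'')
              = (pr (y a) (sub w0 (R a) χ) * e a χ) * (e b χ' * e (a + s • b) χ'') := by ring
            _ = 0 := by rw [this, zero_mul])
        (by
          have := he1 b χ'
          calc pr (y b) (sub w0 (R b) χ') * (e a χ * e b χ' * e (a + s • b) χ'')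
              = (pr (y b) (sub w0 (R b) χ') * e b χ') * (e a χ * e (a + s • b) χ'') := by ring
            _ = 0 := by rw [this, zero_mul])
        (by
          have := he1 (a + s • b) χ''
          rw [← hsm]
          calc pr (y (a + s • b)) (sub w0 (R (a + s • b)) χ'') *
                (e a χ * e b χ' * e (a + s • b) χ'')
              = (pr (y (a + s • b)) (sub w0 (R (a + s • b)) χ'') * e (a + s • b) χ'') *
                (e a χ * e b χ') := by ring
            _ = 0 := by rw [this, zero_mul])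
      rw [← hx]
      ring)
  refine ⟨n, γ, η, ?_, ?_⟩
  · rw [hs, ← pow_mul]
  · intro j b
    obtain ⟨h1, k, hk⟩ := hη j b
    refine ⟨h1, ?_⟩
    rw [hk]
    calc pr (y b) (sub w0 (R b) (γ j b)) * (k * e b (γ j b))
        = k * (pr (y b) (sub w0 (R b) (γ j b)) * e b (γ j b)) := by ring
      _ = 0 := by rw [he1 b, mul_zero]

end Pool.DeB
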