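import Pool.Agent.Lib.DeB.StDefs
import Pool.Agent.Lib.DeB.StageP

/-!
Module StNext (200 lines). From a state at radius `κ` to finitely many states at radius `2κ`.
PROOF. Apply `stage_step` to the ring `B' = B ⧸ J` (a `VV`-algebra), `y' a = mk (f (y a))`, `w0 = tV (2κ)`, `R`
(`hdiv`: `VV_dvd_total`): `γ j : X → VV ⧸ (w0)`, `η' j ∈ B'`, `∑ η' j = w0^(Est m)`; lift `η' j = mk (η j)`. Put `J' j = (J : η j)
= colE-like ideal {b | b * η j ∈ J}`, `R' j a = sub w0 (R a) (γ j a)`. `gh' j a` = truncation `trunc (2κ)` of any representative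
of `γ j a`: this is well defined and `ℂ`-linear in `a` (`trunc (2κ)` is `ℂ`-linear on `Om`, maps `VV` to `VV` and kills
`t^(2κ) VV` (`trunc_eq_zero`); so it induces a `ℂ`-linear map `VV ⧸ span {w0} → VV`, compose with `γ j`).
Check of `St` at `2κ`: card: `card_sub_le`. mem_SM: `sub ≤ R`. ghe: `γ j a ∈ clset w0 (R a)`, so it is the class of some
`ρ ∈ R a`, `gh' j a = trunc (2κ) ρ`, whose exponents are exponents of `ρ ∈ SM Nn`, `≥ 0` (`ρ ∈ VV`) and `< 2κ`; `Nn * e` is an integer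
`≥ 0`, so a natural number. close: for `ρ' ∈ R' j a`, `ρ'` and the representative differ by a multiple of `t^(2κ)`, and
`ρ - trunc (2κ) ρ` has order `≥ 2κ` (`trunc_sub_mem`). rel: `pr (y' a) (R' j a) * η' j = 0` in `B ⧸ J`, so
`pr (f (y a)) (R' j a) * η j ∈ J`.
Last claim: if `b * η j ∈ J` for all `j` then `b * w0^(Est m) ∈ J`, as `w0^(Est m) - ∑ η j ∈ J`.
-/

set_option autoImplicit false

namespace Pool.DeB

/-- truncation on the valuation ring -/
private noncomputable def trV (κ : ℝ) : VV →ₗ[ℂ] VV where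
  toFun f := ⟨trunc κ (f : Om), trunc_mem_VV f.2⟩
  map_add' f g := Subtype.ext (map_add (trunc κ) (f : Om) (g : Om))
  map_smul' u f := Subtype.ext (map_smul (trunc κ) u (f : Om))

private theorem trV_coe (κ : ℝ) (f : VV) : ((trV κ f : VV) : Om) = trunc κ (f : Om) := rfl

private noncomputable def TT (κ : ℝ) (χ : VV ⧸ Ideal.span {tV κ}) : VV :=
  trV κ (Function.surjInv (Ideal.Quotient.mk_surjective (I := Ideal.span {tV κ})) χ)

private theorem TT_cls {κ : ℝ} (hκ : 0 ≤ κ) (x : VV) : TT κ (cls (tV κ) x) = trV κ x := by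
  unfold TT
  set z := Function.surjInv (Ideal.Quotient.mk_surjective (I := Ideal.span {tV κ}))
    (cls (tV κ) x) with hz
  have h1 : cls (tV κ) z = cls (tV κ) x :=
    Function.surjInv_eq (Ideal.Quotient.mk_surjective (I := Ideal.span {tV κ})) _
  rw [cls_eq_iff, VV_dvd_iff, tV_coe hκ, v_tp] at h1
  have h2 : trV κ (z - x) = 0 := Subtype.ext (trunc_eq_zero h1)
  rw [map_sub, sub_eq_zero] at h2
  exact h2

private noncomputable def TL {X : Type*} [AddCommGroup X] [Module ℂ X] {κ : ℝ} (hκ : 0 ≤ κ)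
    (γ : X →ₗ[ℂ] (VV ⧸ Ideal.span {tV κ})) : X →ₗ[ℂ] VV where
  toFun a := TT κ (γ a)
  map_add' a b := by
    obtain ⟨x, hx⟩ := Ideal.Quotient.mk_surjective (γ a)
    obtain ⟨z, hz⟩ := Ideal.Quotient.mk_surjective (γ b)
    have h1 : γ (a + b) = cls (tV κ) (x + z) := by
      rw [map_add, ← hx, ← hz]
      rfl
    have h2 : γ a = cls (tV κ) x := hx.symm
    have h3 : γ b = cls (tV κ) z := hz.symm
    rw [h1, h2, h3, TT_cls hκ, TT_cls hκ, TT_cls hκ, map_add]
  map_smul' u a := by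
    obtain ⟨x, hx⟩ := Ideal.Quotient.mk_surjective (γ a)
    have h1 : γ (u • a) = cls (tV κ) (u • x) := by
      rw [map_smul, ← hx]
      rfl
    have h2 : γ a = cls (tV κ) x := hx.symm
    rw [h1, h2, TT_cls hκ, TT_cls hκ, map_smul, RingHom.id_apply]

private theorem TL_apply {X : Type*} [AddCommGroup X] [Module ℂ X] {κ : ℝ} (hκ : 0 ≤ κ)
    (γ : X →ₗ[ℂ] (VV ⧸ Ideal.span {tV κ})) (a : X) (x : VV) (hx : cls (tV κ) x = γ a) :
    TL hκ γ a = trV κ x := by
  show TT κ (γ a) = _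
  rw [← hx, TT_cls hκ]

private theorem mk_pr {B : Type*} [CommRing B] [Algebra VV B] (J : Ideal B) (Y : B)
    (R : Multiset VV) :
    Ideal.Quotient.mk J (pr Y R) = pr (Ideal.Quotient.mk J Y) R := by
  unfold pr
  rw [map_multiset_prod, Multiset.map_map]
  congr 1

theorem st_next {X A B : Type*} [AddCommGroup X] [Module ℂ X]
    [CommRing A] [Algebra ℂ A] [CommRing B]
    [Algebra ℂ B] [Algebra VV B] [IsScalarTower ℂ VV B] {y : X →ₗ[ℂ] A} {f : A →ₐ[ℂ] B}
    {m Nn : ℕ} {J : Ideal B} {κ : ℝ} {gh : X →ₗ[ℂ] VV} {R : X → Multiset VV} (hκ : 0 < κ)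
    (S : St y f m Nn J κ gh R) :
    ∃ (n : ℕ) (J' : Fin n → Ideal B) (gh' : Fin n → (X →ₗ[ℂ] VV)) (R' : Fin n → X → Multiset VV),
      (∀ j, St y f m Nn (J' j) (2 * κ) (gh' j) (R' j)) ∧
      ∀ b : B, (∀ j, b ∈ J' j) → b * algebraMap VV B (tV (2 * κ)) ^ Est m ∈ J := by
  have hκ2 : (0 : ℝ) ≤ 2 * κ := by linarith
  set y' : X →ₗ[ℂ] (B ⧸ J) := (Ideal.Quotient.mkₐ ℂ J).toLinearMap ∘ₗ f.toLinearMap ∘ₗ y with hy'
  have hya : ∀ a, y' a = Ideal.Quotient.mk J (f (y a)) := fun a => rfl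
  obtain ⟨n, γ, η', hsum, hη⟩ := stage_step (V := VV) (B := B ⧸ J) y' (tV (2 * κ))
    (fun x => VV_dvd_total _ _) m R S.card_le (fun a => by
      rw [hya, ← mk_pr, Ideal.Quotient.eq_zero_iff_mem]
      exact S.rel a)
  choose η hηm using fun j => Ideal.Quotient.mk_surjective (I := J) (η' j)
  refine ⟨n, fun j => Submodule.comap (LinearMap.mulRight B (η j)) J, fun j => TL hκ2 (γ j),
    fun j a => sub (tV (2 * κ)) (R a) (γ j a), ?_, ?_⟩
  · intro j
    refine ⟨?_, ?_, ?_, ?_, ?_⟩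
    · intro a
      exact le_trans (card_sub_le _ _ _) (S.card_le a)
    · intro a ρ hρ
      exact S.mem_SM a ρ (mem_sub.1 hρ).1
    · intro a e he
      obtain ⟨ρ, hρ, hc⟩ := mem_clset.1 (hη j a).1
      rw [TL_apply hκ2 (γ j) a ρ hc, trV_coe, cf_trunc] at he
      split_ifs at he with h1
      · have h0 : 0 ≤ e := by
          by_contra hneg
          push Not at hneg
          apply he
          apply cf_eq_zero_of_lt
          refine lt_of_lt_of_le ?_ (mem_VV.1 ρ.2)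
          exact_mod_cast hneg
        refine ⟨h0, h1, ?_⟩
        obtain ⟨k, hk⟩ := mem_SM.1 (S.mem_SM a ρ hρ) e he
        have hk0 : 0 ≤ k := by
          have : (0 : ℝ) ≤ (k : ℝ) := by
            rw [← hk]
            positivity
          exact_mod_cast this
        refine ⟨k.toNat, ?_⟩
        rw [hk]
        have : ((k.toNat : ℤ) : ℝ) = (k : ℝ) := by rw [Int.toNat_of_nonneg hk0]
        rw [← this]
        rfl
      · exact absurd rfl he
    · intro a ρ hρ
      rw [TL_apply hκ2 (γ j) a ρ (mem_sub.1 hρ).2, trV_coe]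
      exact trunc_sub_mem _
    · intro a
      show pr (f (y a)) (sub (tV (2 * κ)) (R a) (γ j a)) * η j ∈ J
      rw [← Ideal.Quotient.eq_zero_iff_mem, map_mul, mk_pr, hηm j]
      exact (hη j a).2
  · intro b hb
    rw [← Ideal.Quotient.eq_zero_iff_mem, map_mul, map_pow]
    have h1 : (Ideal.Quotient.mk J (algebraMap VV B (tV (2 * κ)))) ^ Est m = ∑ j, η' j := by
      rw [hsum]
      rfl
    rw [h1, Finset.mul_sum]
    refine Finset.sum_eq_zero fun j _ => ?_
    rw [← hηm j, ← map_mul, Ideal.Quotient.eq_zero_iff_mem]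
    exact hb j

end Pool.DeB
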