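import Pool.Agent.Lib.DeB.StDefs
import Pool.Agent.Lib.DeB.StDirect
import Pool.Agent.Lib.DeB.StNext
import Pool.Agent.Lib.DeB.HSplit

/-!
Module Stages (180 lines). Proposition 7 of the paper.
PROOF. Put `M = 2 m Est(m)`, `P = 2 r Nn + 1`, `W = wdir r M P`, `F = (r+1)^6 * W` (`≥ 1`). Claim by induction on `j`: for every state
`St y f m Nn J κ gh R` with `0 < κ`, `κ ≤ 2 r k0` and `r k0 ≤ 2^j κ`:  `HW y r (J.comap f) (F^(j+1))`.
If `r k0 ≤ κ` (in particular `j = 0`): `algebraMap (tV κ) = 0` in `B` (`tV (r k0)` divides `tV κ` in `VV`), so it is in `J`, `st_direct`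
with `J' = J`, `e = 1`, `m ≤ M` (`m ≥ 1`), `Nn κ ≤ 2 r Nn ≤ P` (`k0 ≤ 1`); `W ≤ F^(j+1)` (`hw_monow`).
Otherwise `κ < r k0`, so `2κ ≤ 2 r k0`, `j ≥ 1`. `w0 = tV (2κ)`, `E = Est m`. `st_next`: states `J' j'` at `2κ`, `r k0 ≤ 2^(j-1) (2κ)`: by
induction `HW y r ((J' j').comap f) (F^j)`. `K = (J ⊔ span {w0^E}).comap f`: `st_direct` with `e = 2E`:
`algebraMap (tV κ)^(2E) = algebraMap (tV (2κ))^E` (`tp_add`), `M = m * 2E`. `hw_split` with `I = J.comap f`: for `k ∈ K`,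
`f k = u + w0^E b`, `u ∈ J`; if `a ∈ ⨅ j', (J' j').comap f` then `f a * w0^E ∈ J`, so `f (a k) ∈ J`: so
`⨅ j', (J' j').comap f ≤ colE I k` and `HW y r (colE I k) (r * F^j)` by `hw_iInf`, `hw_mono` (if `n = 0` the infimum is `⊤`; fine).
Result `(r+1)^5 * W * (r * F^j) ≤ F^(j+1)` (needs `1 ≤ r * F^j`).
Start: `J = ⊥`, `κ = k0`, `gh = 0`, `R`; `j = Nat.log 2 r + 1` (`r ≤ 2^j`: `Nat.lt_pow_succ_log_self`); the kernel of `f` is
`⊥.comap f`. `k0 ≤ 2 r k0`.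
-/

set_option autoImplicit false

namespace Pool.DeB

private lemma tV_sq {κ : ℝ} (hκ : 0 < κ) : (tV κ : VV) ^ 2 = tV (2 * κ) := by
  apply Subtype.ext
  show ((tV κ : VV) : Om) ^ 2 = ((tV (2 * κ) : VV) : Om)
  rw [tV_coe hκ.le, tV_coe (by linarith), ← tp_nsmul]
  norm_num

private lemma one_le_wdir (r M P : ℕ) : 1 ≤ wdir r M P := by
  unfold wdir
  exact Nat.one_le_iff_ne_zero.2 (by positivity)

private lemma stages_aux {X A B : Type*} [AddCommGroup X] [Module ℂ X] [FiniteDimensional ℂ X]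
    [CommRing A] [Algebra ℂ A] [FiniteDimensional ℂ A] [CommRing B]
    [Algebra ℂ B] [Algebra VV B] [IsScalarTower ℂ VV B] (y : X →ₗ[ℂ] A) (f : A →ₐ[ℂ] B)
    {r m Nn : ℕ} (hr1 : 1 ≤ r) (hA : Module.finrank ℂ A ≤ r) (hX : Module.finrank ℂ X ≤ r)
    (hm : 1 ≤ m) (hNn : 0 < Nn) {k0 : ℝ} (hk0 : 0 < k0) (hk1 : k0 ≤ 1)
    (hB : algebraMap VV B (tV (r * k0)) = 0) (j : ℕ) :
    ∀ (J : Ideal B) (κ : ℝ) (gh : X →ₗ[ℂ] VV) (R : X → Multiset VV), 0 < κ →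
      κ ≤ 2 * (r * k0) → r * k0 ≤ 2 ^ j * κ → St y f m Nn J κ gh R →
      HW y r (J.comap (f : A →+* B))
        (((r + 1) ^ 6 * wdir r (2 * m * Est m) (2 * r * Nn + 1)) ^ (j + 1)) := by
  set W := wdir r (2 * m * Est m) (2 * r * Nn + 1) with hW
  set F := (r + 1) ^ 6 * W with hF
  have hW1 : 1 ≤ W := one_le_wdir _ _ _
  have hWF : W ≤ F := by
    have : 1 ≤ (r + 1) ^ 6 := Nat.one_le_iff_ne_zero.2 (by positivity)
    rw [hF]
    nlinarith
  have hF1 : 1 ≤ F := hW1.trans hWF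
  have hE1 : 1 ≤ Est m := by
    unfold Est
    have h1 : 1 ≤ m ^ 3 := Nat.one_le_pow _ _ hm
    nlinarith
  have hr' : (1 : ℝ) ≤ r := by exact_mod_cast hr1
  have hNn' : (0 : ℝ) < Nn := by exact_mod_cast hNn
  have hP : ∀ κ : ℝ, κ ≤ 2 * (r * k0) → (Nn : ℝ) * κ ≤ ((2 * r * Nn + 1 : ℕ) : ℝ) := by
    intro κ hκ
    push_cast
    have h1 : (Nn : ℝ) * κ ≤ Nn * (2 * (r * k0)) := mul_le_mul_of_nonneg_left hκ hNn'.le
    have h2 : (r : ℝ) * k0 ≤ r * 1 := mul_le_mul_of_nonneg_left hk1 (by linarith)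
    have h3 : (Nn : ℝ) * (2 * (r * k0)) ≤ Nn * (2 * r) :=
      mul_le_mul_of_nonneg_left (by linarith) hNn'.le
    linarith
  have hdir : ∀ (J : Ideal B) (κ : ℝ) (gh : X →ₗ[ℂ] VV) (R : X → Multiset VV), 0 < κ →
      κ ≤ 2 * (r * k0) → r * k0 ≤ κ → St y f m Nn J κ gh R →
      ∀ j, HW y r (J.comap (f : A →+* B)) (F ^ (j + 1)) := by
    intro J κ gh R hκ hκ2 hκ3 S j
    have h1 : algebraMap VV B (tV κ) = 0 := by
      have h2 : (tV (r * k0) : VV) ∣ tV κ := by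
        rw [VV_dvd_iff, tV_coe (by positivity), tV_coe hκ.le, v_tp, v_tp]
        exact_mod_cast hκ3
      obtain ⟨c, hc⟩ := h2
      rw [hc, map_mul, hB, zero_mul]
    have h3 := st_direct hr1 hX hNn hκ.le S (le_refl J) (e := 1)
      (by rw [h1, pow_one]; exact J.zero_mem) (hP κ hκ2)
      (M := 2 * m * Est m) (by nlinarith)
    refine hw_monow ?_ h3
    calc W ≤ F := hWF
      _ = F ^ 1 := (pow_one F).symm
      _ ≤ F ^ (j + 1) := Nat.pow_le_pow_right hF1 (by omega)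
  induction j with
  | zero =>
    intro J κ gh R hκ hκ2 hκ3 S
    rw [pow_zero, one_mul] at hκ3
    exact hdir J κ gh R hκ hκ2 hκ3 S 0
  | succ j ih =>
    intro J κ gh R hκ hκ2 hκ3 S
    by_cases hcase : r * k0 ≤ κ
    · exact hdir J κ gh R hκ hκ2 hcase S (j + 1)
    push Not at hcase
    obtain ⟨n, J', gh', R', hSt, hmul⟩ := st_next hκ S
    have hih : ∀ i, HW y r ((J' i).comap (f : A →+* B)) (F ^ (j + 1)) := by
      intro i
      apply ih (J' i) (2 * κ) (gh' i) (R' i) (by linarith) (by linarith) _ (hSt i)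
      rw [pow_succ] at hκ3
      linarith
    set w0 : B := algebraMap VV B (tV (2 * κ)) with hw0
    set K : Ideal A := (J ⊔ Ideal.span {w0 ^ Est m}).comap (f : A →+* B) with hK
    have hKW : HW y r K W := by
      apply st_direct hr1 hX hNn hκ.le S (J' := J ⊔ Ideal.span {w0 ^ Est m}) le_sup_left
        (e := 2 * Est m) _ (hP κ hκ2) (M := 2 * m * Est m) (by nlinarith)
      have h9 : algebraMap VV B (tV κ) ^ (2 * Est m) = w0 ^ Est m := by
        rw [pow_mul, hw0, ← tV_sq hκ, map_pow]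
      rw [h9]
      exact Ideal.mem_sup_right (Ideal.mem_span_singleton_self _)
    have hcol : ∀ k ∈ K, HW y r (colE (J.comap (f : A →+* B)) k) (r * F ^ (j + 1)) := by
      intro k hk
      refine hw_mono ?_ (hw_iInf hA (fun i => (J' i).comap (f : A →+* B)) hih)
      intro a ha
      rw [Ideal.mem_iInf] at ha
      have h1 : (f a) * w0 ^ Est m ∈ J := hmul (f a) (fun i => ha i)
      have h2 : f k ∈ J ⊔ Ideal.span {w0 ^ Est m} := hk
      obtain ⟨u, hu, b, hb, hub⟩ := Submodule.mem_sup.1 h2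
      obtain ⟨c, rfl⟩ := Ideal.mem_span_singleton'.1 hb
      rw [mem_colE]
      show f (a * k) ∈ J
      rw [map_mul, ← hub]
      have h3 : f a * (u + c * w0 ^ Est m) = f a * u + c * (f a * w0 ^ Est m) := by ring
      rw [h3]
      exact J.add_mem (J.mul_mem_left _ hu) (J.mul_mem_left _ h1)
    have hpos : 1 ≤ r * F ^ (j + 1) :=
      Nat.one_le_iff_ne_zero.2 (Nat.mul_ne_zero (by omega) (pow_ne_zero _ (by omega)))
    have hsp := hw_split hA hX (I := J.comap (f : A →+* B)) (K := K)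
      (Ideal.comap_mono le_sup_left) hW1 hpos hKW hcol
    refine hw_monow ?_ hsp
    have h5 : (r + 1) ^ 5 * r ≤ (r + 1) ^ 6 := by
      rw [pow_succ (r + 1) 5]
      exact Nat.mul_le_mul_left _ (by omega)
    calc (r + 1) ^ 5 * W * (r * F ^ (j + 1)) = ((r + 1) ^ 5 * r) * W * F ^ (j + 1) := by ring
      _ ≤ (r + 1) ^ 6 * W * F ^ (j + 1) :=
          Nat.mul_le_mul_right _ (Nat.mul_le_mul_right _ h5)
      _ = F ^ (j + 1 + 1) := by rw [← hF, pow_succ F (j + 1), mul_comm]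

/-- Proposition 7. -/
theorem stages {X A B : Type*} [AddCommGroup X] [Module ℂ X] [FiniteDimensional ℂ X]
    [CommRing A] [Algebra ℂ A] [FiniteDimensional ℂ A] [CommRing B]
    [Algebra ℂ B] [Algebra VV B] [IsScalarTower ℂ VV B] (y : X →ₗ[ℂ] A) (f : A →ₐ[ℂ] B)
    {r m Nn : ℕ} (hr1 : 1 ≤ r) (hA : Module.finrank ℂ A ≤ r) (hX : Module.finrank ℂ X ≤ r)
    (hm : 1 ≤ m) (hNn : 0 < Nn) {k0 : ℝ} (hk0 : 0 < k0) (hk1 : k0 ≤ 1)
    (hB : algebraMap VV B (tV (r * k0)) = 0) (R : X → Multiset VV) (hR : ∀ a, (R a).card ≤ m)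
    (hRS : ∀ a, ∀ ρ ∈ R a, (ρ : Om) ∈ SM Nn)
    (hRv : ∀ a, ∀ ρ ∈ R a, (k0 : WithTop ℝ) ≤ v (ρ : Om)) (hrel : ∀ a, pr (f (y a)) (R a) = 0) :
    HW y r (RingHom.ker (f : A →+* B)) (wst r m Nn) := by
  have hr' : (1 : ℝ) ≤ r := by exact_mod_cast hr1
  have hS : St y f m Nn ⊥ k0 0 R := by
    refine ⟨hR, hRS, ?_, ?_, ?_⟩
    · intro a e he
      exfalso
      apply he
      exact cf_zero e
    · intro a ρ hρ
      have h1 : (ρ : Om) - (((0 : X →ₗ[ℂ] VV) a : VV) : Om) = (ρ : Om) := sub_zero _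
      rw [h1]
      exact hRv a ρ hρ
    · intro a
      rw [hrel a]
      exact Ideal.zero_mem _
  have h1 : (r : ℝ) * k0 ≤ 2 ^ (Nat.log 2 r + 1) * k0 := by
    apply mul_le_mul_of_nonneg_right _ hk0.le
    have := Nat.lt_pow_succ_log_self (b := 2) (by norm_num) r
    exact_mod_cast this.le
  exact stages_aux y f hr1 hA hX hm hNn hk0 hk1 hB (Nat.log 2 r + 1) ⊥ k0 0 R hk0
    (by nlinarith) h1 hS

end Pool.DeB
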