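import Pool.Agent.Lib.DeB.NDefs
import Pool.Agent.Lib.DeB.NBasic
import Pool.Agent.Lib.DeB.HSplit
import Pool.Agent.Lib.DeB.ArcStep

/-!
Module NodeStep (200 lines). One node of the recursion (proof of Prop. 13, first part).
PROOF. Let `Wset = {ω : VV // ∃ h, 1 ≤ h ∧ h ≤ r^2 ∧ (ω : Om) ∈ SM (M0*h)}` and `K = ⨅ ω : Wset, IQ vv (update q i ω) (i+1)`. For every
`ω ∈ Wset`: `HW y r (IQ vv (update q i ω) (i+1)) w`: if `0 < v ω` this is `h`; if `v ω = 0` the ideal is `⊤` (`NQ_unit`), functionals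
vanishing on `⊤` are `0`, and `0` is in `IsW w j` (`isW_zero`). `hw_iInf`: `HW y r K (r * w)`. `IQ vv q i ≤ K` by `NQ_succ`.
`a, a' ∈ K ⟹ a a' ∈ IQ vv q i`: `arc_step` for `R = VV ⊗ A`, the basis `Algebra.TensorProduct.basis VV (Module.finBasis ℂ A)` indexed by
`Fin n`, `n = finrank ℂ A` (`n > 0` as `A` is nontrivial; `n ≤ r`), `g = fun j : Fin i => gq vv q j`, `w = 1 ⊗ vv_i` (nilpotent), `x = 1 ⊗ a`,
`x' = 1 ⊗ a'`. Matrix entries: `leftMulMatrix (1 ⊗ a)` has entries in `ℂ` (`algebraMap`), so in `SM M0`; `leftMulMatrix (q_j ⊗ 1) = q_j • 1`;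
so those of `g j` are in `SM M0`. `algebraMap (tV r) ∈ Ideal.span (range g) = NQ vv q i` by `tV_mem_NQ` with `j = 0`, `κ = 1`
(`r * 1 = r`). `h ≤ n^2 ≤ r^2`. Then `hw_sq` with `I = IQ vv q i`, `K`: `(r+1)^5 (r w)(r w) ≤ (r+1)^7 w w` (`hw_monow`; `1 ≤ r * w`).
-/

set_option autoImplicit false

open TensorProduct

namespace Pool.DeB

private theorem mat_one_tmul {A : Type*} [CommRing A] [Algebra ℂ A] {n : ℕ}
    (b : Module.Basis (Fin n) ℂ A) (M0 : ℕ) (a : A) (i l : Fin n) :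
    ((Algebra.leftMulMatrix (Algebra.TensorProduct.basis VV b) ((1 : VV) ⊗ₜ[ℂ] a) i l : VV) : Om) ∈
      SM M0 := by
  rw [Algebra.leftMulMatrix_eq_repr_mul, Algebra.TensorProduct.basis_apply,
    Algebra.TensorProduct.tmul_mul_tmul, one_mul, Algebra.TensorProduct.basis_repr_tmul, one_smul,
    Finsupp.mapRange_apply]
  exact (SM M0).algebraMap_mem _

private theorem mat_tmul_one {A : Type*} [CommRing A] [Algebra ℂ A] {n : ℕ}
    (b : Module.Basis (Fin n) ℂ A) {M0 : ℕ} {q : VV} (hq : (q : Om) ∈ SM M0) (i l : Fin n) :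
    ((Algebra.leftMulMatrix (Algebra.TensorProduct.basis VV b) (q ⊗ₜ[ℂ] (1 : A)) i l : VV) : Om) ∈
      SM M0 := by
  rw [Algebra.leftMulMatrix_eq_repr_mul, Algebra.TensorProduct.basis_apply,
    Algebra.TensorProduct.tmul_mul_tmul, mul_one, one_mul, Algebra.TensorProduct.basis_repr_tmul,
    Finsupp.smul_apply, Finsupp.mapRange_apply]
  exact (SM M0).mul_mem hq ((SM M0).algebraMap_mem _)

theorem node_step {X A : Type*} [AddCommGroup X] [Module ℂ X] [FiniteDimensional ℂ X]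
    [CommRing A] [Algebra ℂ A] [FiniteDimensional ℂ A] [Nontrivial A] {y : X →ₗ[ℂ] A} {r : ℕ}
    (hA : Module.finrank ℂ A ≤ r) (hX : Module.finrank ℂ X ≤ r) {vv : ℕ → A}
    (hn : ∀ j, IsNilpotent (vv j)) {q : ℕ → VV} {i : ℕ} (hi : 1 ≤ i) (hq0 : q 0 = tV 1) {M0 : ℕ}
    (hM0 : 0 < M0) (hqS : ∀ j, j < i → ((q j : VV) : Om) ∈ SM M0) {w : ℕ} (hw : 1 ≤ w)
    (h : ∀ ω : VV, (0 : WithTop ℝ) < v ((ω : VV) : Om) →
      (∃ h : ℕ, 1 ≤ h ∧ h ≤ r ^ 2 ∧ ((ω : VV) : Om) ∈ SM (M0 * h)) →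
      HW y r (IQ vv (Function.update q i ω) (i + 1)) w) :
    HW y r (IQ vv q i) ((r + 1) ^ 7 * w * w) := by
  classical
  have hn0 : 0 < Module.finrank ℂ A := Module.finrank_pos
  have hr0 : 1 ≤ r := le_trans hn0 hA
  let Wset : Type := {ω : VV // ∃ h : ℕ, 1 ≤ h ∧ h ≤ r ^ 2 ∧ ((ω : VV) : Om) ∈ SM (M0 * h)}
  let Kf : Wset → Ideal A := fun ω => IQ vv (Function.update q i ω.1) (i + 1)
  have hKf : ∀ ω : Wset, HW y r (Kf ω) w := by
    intro ω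
    rcases (lt_or_eq_of_le (mem_VV.1 ω.1.2)) with hpos | h0
    · exact h ω.1 hpos ω.2
    · have h1 : Kf ω = ⊤ := by
        show IQ vv (Function.update q i ω.1) (i + 1) = ⊤
        rw [IQ, NQ_unit (hn i) q h0.symm, Ideal.comap_top]
      rw [h1]
      intro φ hφ j _
      have h2 : (fun a => φ (y a ^ j)) = fun _ => (0 : ℂ) := by
        funext a
        exact hφ _ Submodule.mem_top
      rw [h2]
      exact isW_zero w j
  have hK := hw_iInf hA Kf hKf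
  have hIK : IQ vv q i ≤ ⨅ ω, Kf ω := by
    refine le_iInf fun ω => ?_
    intro a ha
    rw [mem_IQ] at ha
    show a ∈ IQ vv (Function.update q i ω.1) (i + 1)
    rw [mem_IQ, NQ_succ]
    exact (le_sup_left : NQ vv q i ≤ _) ha
  have hKmem : ∀ a ∈ (⨅ ω, Kf ω), ∀ ω : VV,
      (∃ h : ℕ, 1 ≤ h ∧ h ≤ (Module.finrank ℂ A) ^ 2 ∧ (ω : Om) ∈ SM (M0 * h)) →
      (1 : VV) ⊗ₜ[ℂ] a ∈ Ideal.span (Set.range (fun j : Fin i => gq vv q j)) ⊔
        Ideal.span {(1 : VV) ⊗ₜ[ℂ] vv i - algebraMap VV (VV ⊗[ℂ] A) ω} := by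
    rintro a ha ω ⟨k, hk1, hk2, hk3⟩
    have h1 := (Ideal.mem_iInf.1 ha) ⟨ω, k, hk1, hk2.trans (Nat.pow_le_pow_left hA 2), hk3⟩
    have h2 : a ∈ IQ vv (Function.update q i ω) (i + 1) := h1
    rw [mem_IQ, NQ_succ] at h2
    exact h2
  have hsq : ∀ a ∈ (⨅ ω, Kf ω), ∀ b ∈ (⨅ ω, Kf ω), a * b ∈ IQ vv q i := by
    intro a ha b hb
    rw [mem_IQ]
    have e1 : (1 : VV) ⊗ₜ[ℂ] (a * b) = ((1 : VV) ⊗ₜ[ℂ] a) * ((1 : VV) ⊗ₜ[ℂ] b) := by
      rw [Algebra.TensorProduct.tmul_mul_tmul, one_mul]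
    rw [e1]
    have hwn : IsNilpotent ((1 : VV) ⊗ₜ[ℂ] vv i) := by
      obtain ⟨k, hk⟩ := hn i
      refine ⟨k, ?_⟩
      rw [Algebra.TensorProduct.tmul_pow, hk, TensorProduct.tmul_zero]
    refine arc_step (r := r) hn0 (Algebra.TensorProduct.basis VV (Module.finBasis ℂ A))
      (fun j : Fin i => gq vv q j) hwn hM0 ?_ (fun i' l => mat_one_tmul _ M0 _ i' l) ?_
      (hKmem a ha) (hKmem b hb)
    · intro j i' l
      show ((Algebra.leftMulMatrix _ ((1 : VV) ⊗ₜ[ℂ] vv j - q j ⊗ₜ[ℂ] (1 : A)) i' l : VV) : Om) ∈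
        SM M0
      rw [map_sub, Matrix.sub_apply]
      exact (SM M0).sub_mem (mat_one_tmul _ M0 _ i' l) (mat_tmul_one _ (hqS j j.2) i' l)
    · have h1 := tV_mem_NQ (vv := vv) (q := q) (κ := 1) hA (by omega : 0 < i) (hn 0) zero_le_one
        (by rw [hq0, tV_coe zero_le_one, v_tp])
      rw [mul_one] at h1
      exact h1
  have hfin := hw_sq hA hX hIK (Nat.mul_pos hr0 hw) hK hsq
  refine hw_monow ?_ hfin
  have h1 : r * r ≤ (r + 1) ^ 2 := by nlinarith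
  calc (r + 1) ^ 5 * (r * w) * (r * w) = (r + 1) ^ 5 * (r * r) * (w * w) := by ring
    _ ≤ (r + 1) ^ 5 * (r + 1) ^ 2 * (w * w) := by gcongr
    _ = (r + 1) ^ 7 * w * w := by ring

end Pool.DeB
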