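import Pool.Agent.Lib.DeB.RegDefs

/-!
Module LinSpec (110 lines). Linear independence is generic along a line.
PROOF. `F_i(s) = aeval (snoc v (b + s a)) (H i)` is a polynomial in `s` with coefficients in `A`: there is
`P_i ∈ A[X]`, `P_i = aeval (snoc (C ∘ v) (C b + X * C a)) (H i)`, with `F_i(s) = P_i.eval (algebraMap ℂ A s)`. In coordinates with
respect to a basis of `A` (`Module.finBasis ℂ A`) the coordinates of `F_i(s)` are polynomials in `s` over `ℂ`. At `s = 0` the
family is independent, so some `|ι| × |ι|` minor of the coordinate matrix is nonzero at `s = 0` (rank of the matrix with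
independent columns; e.g. extend: there is a linear map `A → (ι → ℂ)` mapping the family to the standard basis at `s = 0`
(`LinearIndependent` gives a left inverse: `LinearMap.exists_leftInverse_of_injective`), compose, and take the determinant of
the square matrix of the images of `F_i(s)`: a polynomial `δ(s)` with `δ(0) = 1`). `δ` has finitely many roots, and
`δ(s) ≠ 0` implies that the images, so the `F_i(s)`, are independent.
-/

set_option autoImplicit false

open MvPolynomial

namespace Pool.DeB

theorem linInd_line {A : Type*} [CommRing A] [Algebra ℂ A] [FiniteDimensional ℂ A] {c : ℕ}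
    {ι : Type*} [Finite ι] (H : ι → MvPolynomial (Fin (c + 1)) ℂ) (w : Fin c → A) (b a : A)
    (h : LinearIndependent ℂ (fun i => aeval (Fin.snoc w b : Fin (c + 1) → A) (H i))) :
    {s : ℂ | ¬ LinearIndependent ℂ
      (fun i => aeval (Fin.snoc w (b + s • a) : Fin (c + 1) → A) (H i))}.Finite := by
  classical
  have : Fintype ι := Fintype.ofFinite ι
  -- the polynomials in s
  set P : ι → Polynomial A := fun i =>
    aeval (Fin.snoc (fun k => Polynomial.C (w k)) (Polynomial.C b + Polynomial.X * Polynomial.C a) :
      Fin (c + 1) → Polynomial A) (H i) with hP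
  have hPe : ∀ (i : ι) (s : ℂ), (P i).eval (algebraMap ℂ A s)
      = aeval (Fin.snoc w (b + s • a) : Fin (c + 1) → A) (H i) := by
    intro i s
    have h1 : ((Polynomial.evalRingHom (algebraMap ℂ A s)).comp
        (aeval (Fin.snoc (fun k => Polynomial.C (w k))
          (Polynomial.C b + Polynomial.X * Polynomial.C a) :
          Fin (c + 1) → Polynomial A) : MvPolynomial (Fin (c + 1)) ℂ →ₐ[ℂ] Polynomial A).toRingHom)
        = (aeval (Fin.snoc w (b + s • a) : Fin (c + 1) → A) :
            MvPolynomial (Fin (c + 1)) ℂ →ₐ[ℂ] A).toRingHom := by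
      apply MvPolynomial.ringHom_ext
      · intro z
        simp [Polynomial.algebraMap_apply]
      · intro k
        refine Fin.lastCases ?_ (fun k => ?_) k
        · simp only [AlgHom.toRingHom_eq_coe, RingHom.coe_comp, RingHom.coe_coe, Function.comp_apply,
            aeval_X, Fin.snoc_last, Polynomial.coe_evalRingHom, Polynomial.eval_add,
            Polynomial.eval_mul, Polynomial.eval_C, Polynomial.eval_X, Algebra.smul_def]
        · simp
    exact RingHom.congr_fun h1 (H i)
  -- the linear map
  obtain ⟨L, hL⟩ := LinearMap.exists_leftInverse_of_injective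
    (Fintype.linearCombination ℂ (fun i => aeval (Fin.snoc w b : Fin (c + 1) → A) (H i)))
    (by
      rw [LinearMap.ker_eq_bot']
      intro g hg
      rw [Fintype.linearCombination_apply] at hg
      funext i
      exact Fintype.linearIndependent_iff.1 h g hg i)
  have hL1 : ∀ j, L (aeval (Fin.snoc w b : Fin (c + 1) → A) (H j)) = Pi.single j 1 := by
    intro j
    have := LinearMap.congr_fun hL (Pi.single j 1)
    simpa [Fintype.linearCombination_apply_single] using this
  set Q : Matrix ι ι (Polynomial ℂ) := fun i j =>
    ∑ n ∈ Finset.range ((P j).natDegree + 1),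
      Polynomial.C (L ((P j).coeff n) i) * Polynomial.X ^ n with hQ
  have hQe : ∀ (i j : ι) (s : ℂ), (Q i j).eval s = L ((P j).eval (algebraMap ℂ A s)) i := by
    intro i j s
    rw [hQ, Polynomial.eval_finsetSum, Polynomial.eval_eq_sum_range, map_sum, Finset.sum_apply]
    refine Finset.sum_congr rfl fun n _ => ?_
    have : (P j).coeff n * (algebraMap ℂ A s) ^ n = (s ^ n) • (P j).coeff n := by
      rw [Algebra.smul_def, map_pow, mul_comm]
    rw [this, map_smul, Polynomial.eval_mul, Polynomial.eval_C, Polynomial.eval_pow,
      Polynomial.eval_X, Pi.smul_apply, smul_eq_mul, mul_comm]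
  set δ : Polynomial ℂ := Q.det with hδ
  have hδe : ∀ s, δ.eval s = (Matrix.of fun i j => (Q i j).eval s).det := by
    intro s
    rw [hδ, ← Polynomial.coe_evalRingHom, RingHom.map_det]
    rfl
  have hδ0 : δ.eval 0 = 1 := by
    rw [hδe]
    have : (Matrix.of fun i j => (Q i j).eval (0 : ℂ)) = 1 := by
      ext i j
      rw [Matrix.of_apply, hQe, hPe]
      simp only [zero_smul, add_zero]
      rw [hL1, Matrix.one_apply, Pi.single_apply]
    rw [this, Matrix.det_one]
  have hδne : δ ≠ 0 := by
    rintro h0
    rw [h0] at hδ0
    simp at hδ0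
  refine (Polynomial.rootSet_finite δ ℂ).subset ?_
  intro s hs
  rw [Polynomial.mem_rootSet]
  refine ⟨hδne, ?_⟩
  by_contra hne
  apply hs
  rw [Polynomial.coe_aeval_eq_eval, hδe] at hne
  have hu : IsUnit (Matrix.of fun i j => (Q i j).eval s) := by
    rw [Matrix.isUnit_iff_isUnit_det]
    exact isUnit_iff_ne_zero.2 hne
  have hc := Matrix.linearIndependent_cols_of_isUnit hu
  refine LinearIndependent.of_comp L ?_
  have he : (L ∘ fun i => aeval (Fin.snoc w (b + s • a) : Fin (c + 1) → A) (H i))
      = (Matrix.of fun i j => (Q i j).eval s).col := by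
    funext j
    funext i
    simp only [Function.comp_apply]
    rw [← hPe, ← hQe]
    rfl
  rw [he]
  exact hc

end Pool.DeB
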