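import Pool.Agent.Lib.DeB.RegDefs

/-!
Module MonCount (90 lines). `dim {polynomials in c+1 variables of degree ≤ m} = binom(m+c+1, c+1)`.
PROOF. The monomials `monomial β 1`, `β.degree ≤ m`, are a basis of `PolS c 0 m` (it is
`MvPolynomial.restrictSupport`-like; `Finsupp.supported`/`MvPolynomial.basisMonomials` restricted). So the dimension is the
number of `β : Fin (c+1) →₀ ℕ` with `∑ β_i ≤ m`; adding a slack variable `β_{c+1} = m - ∑ β_i` these correspond to
`Finset.finsuppAntidiag`/`Sym (Fin (c+2)) m`, whose cardinality is `Nat.multichoose (c+2) m = binom(m+c+1, m)`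
(`Sym.card_sym_eq_multichoose`, `Nat.multichoose_eq`, `Nat.choose_symm_add`); or induction on `c` / `m`. Only `≥` is needed.
Finite-dimensionality of `PolS c s m`: it is spanned by finitely many monomials.
-/

/-!
Module MonCount (90 lines). `dim {polynomials in c+1 variables of degree ≤ m} = binom(m+c+1, c+1)`.
PROOF. The monomials `monomial β 1`, `β.degree ≤ m`, are a basis of `PolS c 0 m` (it is
`MvPolynomial.restrictSupport`-like; `Finsupp.supported`/`MvPolynomial.basisMonomials` restricted). So the dimension is the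
number of `β : Fin (c+1) →₀ ℕ` with `∑ β_i ≤ m`; adding a slack variable `β_{c+1} = m - ∑ β_i` these correspond to
`Finset.finsuppAntidiag`/`Sym (Fin (c+2)) m`, whose cardinality is `Nat.multichoose (c+2) m = binom(m+c+1, m)`
(`Sym.card_sym_eq_multichoose`, `Nat.multichoose_eq`, `Nat.choose_symm_add`); or induction on `c` / `m`. Only `≥` is needed.
Finite-dimensionality of `PolS c s m`: it is spanned by finitely many monomials.
-/

set_option autoImplicit false

namespace Pool.DeB

private theorem mono_mem (c s m : ℕ) (β : Fin (c + 1) →₀ ℕ) (h1 : s ≤ β.degree)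
    (h2 : β.degree ≤ m) : MvPolynomial.monomial β (1 : ℂ) ∈ PolS c s m := by
  classical
  intro γ hγ
  rw [MvPolynomial.coeff_monomial] at hγ
  by_cases h : β = γ
  · rw [← h]; exact ⟨h1, h2⟩
  · rw [if_neg h] at hγ; exact absurd rfl hγ

private theorem polS_span' (c s m : ℕ) : PolS c s m = Submodule.span ℂ
    {G | ∃ β : Fin (c + 1) →₀ ℕ, s ≤ β.degree ∧ β.degree ≤ m ∧ G = MvPolynomial.monomial β 1} := by
  apply le_antisymm
  · intro G hG
    rw [MvPolynomial.as_sum G]
    refine Submodule.sum_mem _ fun β hβ => ?_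
    obtain ⟨h1, h2⟩ := hG β (MvPolynomial.mem_support_iff.1 hβ)
    have h3 : MvPolynomial.monomial β (G.coeff β) =
        G.coeff β • MvPolynomial.monomial β (1 : ℂ) := by
      rw [MvPolynomial.smul_monomial, smul_eq_mul, mul_one]
    rw [h3]
    exact Submodule.smul_mem _ _ (Submodule.subset_span ⟨β, h1, h2, rfl⟩)
  · rw [Submodule.span_le]
    rintro _ ⟨β, h1, h2, rfl⟩
    exact mono_mem c s m β h1 h2

instance polS_finite (c s m : ℕ) : FiniteDimensional ℂ (PolS c s m) := by
  rw [polS_span']
  apply FiniteDimensional.span_of_finite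
  refine ((Finsupp.finite_of_degree_le (σ := Fin (c + 1)) m).image
    (fun β => MvPolynomial.monomial β (1 : ℂ))).subset ?_
  rintro _ ⟨β, h1, h2, rfl⟩
  exact ⟨β, h2, rfl⟩

private noncomputable def cutL {c : ℕ} (γ : Fin (c + 2) →₀ ℕ) : Fin (c + 1) →₀ ℕ :=
  Finsupp.equivFunOnFinite.symm fun i => γ i.castSucc

private theorem cutL_apply {c : ℕ} (γ : Fin (c + 2) →₀ ℕ) (i : Fin (c + 1)) :
    cutL γ i = γ i.castSucc := rfl

theorem choose_le_finrank (c m : ℕ) :
    (m + c + 1).choose (c + 1) ≤ Module.finrank ℂ (PolS c 0 m) := by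
  classical
  have hsum : ∀ γ ∈ Finset.finsuppAntidiag (Finset.univ : Finset (Fin (c + 2))) m,
      (cutL γ).degree + γ (Fin.last (c + 1)) = m := by
    intro γ hγ
    rw [Finset.mem_finsuppAntidiag] at hγ
    have h1 := hγ.1
    rw [Fin.sum_univ_castSucc] at h1
    rw [Finsupp.degree_eq_sum, ← h1]
    rfl
  let b : {γ // γ ∈ Finset.finsuppAntidiag (Finset.univ : Finset (Fin (c + 2))) m} →
      PolS c 0 m := fun γ =>
    ⟨MvPolynomial.monomial (cutL γ.1) 1, mono_mem c 0 m _ (Nat.zero_le _)
      (by have := hsum γ.1 γ.2; omega)⟩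
  have hinj : Function.Injective fun γ :
      {γ // γ ∈ Finset.finsuppAntidiag (Finset.univ : Finset (Fin (c + 2))) m} => cutL γ.1 := by
    intro γ γ' h
    have h' : cutL γ.1 = cutL γ'.1 := h
    apply Subtype.ext
    ext i
    induction i using Fin.lastCases with
    | last =>
      have h1 := hsum γ.1 γ.2
      have h2 := hsum γ'.1 γ'.2
      rw [h'] at h1
      omega
    | cast i =>
      have := DFunLike.congr_fun h' i
      exact this
  have hli : LinearIndependent ℂ b := by
    apply LinearIndependent.of_comp (PolS c 0 m).subtype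
    have h1 := (MvPolynomial.basisMonomials (Fin (c + 1)) ℂ).linearIndependent.comp _ hinj
    rw [MvPolynomial.coe_basisMonomials] at h1
    exact h1
  have h2 := hli.fintype_card_le_finrank
  rw [Fintype.card_coe, Finset.card_finsuppAntidiag_nat_eq_choose, Finset.card_univ,
    Fintype.card_fin] at h2
  have h3 : (c + 2 + m - 1).choose m = (m + c + 1).choose (c + 1) := by
    have h4 : c + 2 + m - 1 = m + (c + 1) := by omega
    rw [h4, Nat.choose_symm_add, Nat.add_assoc]
  rw [h3] at h2
  exact h2

/-- `PolS` is spanned by its monomials. -/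
theorem polS_span (c s m : ℕ) : PolS c s m = Submodule.span ℂ
    {G | ∃ β : Fin (c + 1) →₀ ℕ, s ≤ β.degree ∧ β.degree ≤ m ∧ G = MvPolynomial.monomial β 1} :=
  polS_span' c s m

end Pool.DeB
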