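import Pool.Agent.Lib.DeB.RegDefs

/-!
Module Shear (170 lines). The linear change of variables `T_i ↦ T_i - λ_i T_last`.
PROOFS. shear_aeval: both sides are algebra homomorphisms of `G`; compare on the variables (`MvPolynomial.algHom_ext`, cases
  `i = Fin.castSucc j` or `Fin.last`): `(v_i + λ_i z) - λ_i z = v_i`. shear_neg: same. shear_mem: enough for monomials
  (`G = ∑ monomial β (coeff β G)`): the image of a monomial of degree `e` is a product of `e` linear forms, so homogeneous of
  degree `e` (`IsHomogeneous` API: `IsHomogeneous.prod`, `IsHomogeneous.pow`, or `MvPolynomial.IsHomogeneous.aeval`), so all its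
  monomials have degree `e`. shear_coeff_last: the coefficient of `T_last^k` of `H` is the coefficient of `T^k` of the one
  variable polynomial obtained by the substitution `T_i ↦ 0 (i < c), T_last ↦ T` (an algebra homomorphism `τ` to `ℂ[X]`);
  `τ (shear l G)` = `G` with `T_i ↦ -l_i T`, `T_last ↦ T`; on a monomial of degree `e` this is `eval (-l,1) * T^e`.
exists_lambda: `L ≠ 0` homogeneous of degree `k`; if `L(-λ, 1) = 0` for all `λ ∈ ℂ^c` then `L(w, s) = s^k L(w/s, 1) = 0` for all
  `w` and `s ≠ 0`, so `T_last * L` vanishes on all of `ℂ^(c+1)`: `MvPolynomial.funext`, domain: `L = 0`.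
-/

set_option autoImplicit false

open MvPolynomial

namespace Pool.DeB

private theorem tau_coeff {c : ℕ} (H : MvPolynomial (Fin (c + 1)) ℂ) (k : ℕ) :
    (aeval (Fin.snoc (fun _ => 0) Polynomial.X : Fin (c + 1) → Polynomial ℂ) H).coeff k =
      H.coeff (Finsupp.single (Fin.last c) k) := by
  classical
  rw [aeval_def, eval₂_eq', Polynomial.finsetSum_coeff]
  have h : ∀ d ∈ H.support, ((algebraMap ℂ (Polynomial ℂ)) (coeff d H) *
      ∏ i, (Fin.snoc (fun _ => 0) Polynomial.X : Fin (c + 1) → Polynomial ℂ) i ^ d i).coeff k =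
      if d = Finsupp.single (Fin.last c) k then coeff d H else 0 := by
    intro d _
    rw [Fin.prod_univ_castSucc]
    simp only [Fin.snoc_castSucc, Fin.snoc_last]
    by_cases h0 : ∀ i : Fin c, d i.castSucc = 0
    · have h1 : (∏ i : Fin c, (0 : Polynomial ℂ) ^ d i.castSucc) = 1 :=
        Finset.prod_eq_one fun i _ => by rw [h0 i, pow_zero]
      rw [h1, one_mul, Polynomial.algebraMap_apply, Algebra.algebraMap_self, RingHom.id_apply,
        Polynomial.coeff_C_mul, Polynomial.coeff_X_pow]
      by_cases h2 : k = d (Fin.last c)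
      · have h3 : d = Finsupp.single (Fin.last c) k := by
          ext i
          refine Fin.lastCases ?_ (fun j => ?_) i
          · rw [Finsupp.single_eq_same, h2]
          · rw [h0 j, Finsupp.single_eq_of_ne (Fin.castSucc_lt_last j).ne]
        rw [if_pos h2, if_pos h3, mul_one]
      · have h3 : d ≠ Finsupp.single (Fin.last c) k := by
          intro h3
          apply h2
          rw [h3, Finsupp.single_eq_same]
        rw [if_neg h2, if_neg h3, mul_zero]
    · push Not at h0
      obtain ⟨i, hi⟩ := h0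
      have h1 : (∏ i : Fin c, (0 : Polynomial ℂ) ^ d i.castSucc) = 0 :=
        Finset.prod_eq_zero (Finset.mem_univ i) (zero_pow hi)
      have h3 : d ≠ Finsupp.single (Fin.last c) k := by
        intro h3
        apply hi
        rw [h3, Finsupp.single_eq_of_ne (Fin.castSucc_lt_last i).ne]
      rw [h1, zero_mul, mul_zero, Polynomial.coeff_zero, if_neg h3]
  rw [Finset.sum_congr rfl h, Finset.sum_ite_eq']
  split_ifs with h2
  · rfl
  · exact (notMem_support_iff.1 h2).symm

private theorem line_coeff {c : ℕ} (e : Fin (c + 1) → ℂ) (G : MvPolynomial (Fin (c + 1)) ℂ)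
    (k : ℕ) :
    (aeval (fun i => Polynomial.C (e i) * Polynomial.X : Fin (c + 1) → Polynomial ℂ) G).coeff k =
      eval e (homogeneousComponent k G) := by
  classical
  rw [aeval_def, eval₂_eq', Polynomial.finsetSum_coeff, homogeneousComponent_apply, map_sum,
    Finset.sum_filter]
  refine Finset.sum_congr rfl fun d _ => ?_
  have h1 : (∏ i, (Polynomial.C (e i) * Polynomial.X) ^ d i : Polynomial ℂ) =
      Polynomial.C (∏ i, e i ^ d i) * Polynomial.X ^ d.degree := by
    rw [Finset.prod_congr rfl fun i _ => mul_pow _ _ _, Finset.prod_mul_distrib,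
      Finset.prod_pow_eq_pow_sum, map_prod, Finsupp.degree_eq_sum]
    simp only [map_pow]
  rw [h1, Polynomial.algebraMap_apply, Algebra.algebraMap_self, RingHom.id_apply,
    Polynomial.coeff_C_mul, Polynomial.coeff_C_mul, Polynomial.coeff_X_pow]
  by_cases h2 : d.degree = k
  · rw [if_pos h2, if_pos h2.symm, eval_monomial, Finsupp.prod_fintype _ _ (fun i => pow_zero _),
      mul_one]
  · rw [if_neg h2, if_neg (fun h => h2 h.symm), mul_zero, mul_zero]

private theorem eval_scale {c k : ℕ} {L : MvPolynomial (Fin (c + 1)) ℂ} (hL : L.IsHomogeneous k)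
    (s : ℂ) (y : Fin (c + 1) → ℂ) : eval (fun i => s * y i) L = s ^ k * eval y L := by
  rw [eval_eq', eval_eq', Finset.mul_sum]
  refine Finset.sum_congr rfl fun d hd => ?_
  have h1 : d.degree = k := by
    by_contra h
    exact (mem_support_iff.1 hd) (hL.coeff_eq_zero h)
  rw [Finset.prod_congr rfl fun i _ => mul_pow _ _ _, Finset.prod_mul_distrib,
    Finset.prod_pow_eq_pow_sum, ← Finsupp.degree_eq_sum, h1]
  ring

theorem shear_aeval {A : Type*} [CommRing A] [Algebra ℂ A] {c : ℕ} (l : Fin c → ℂ) (w : Fin c → A)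
    (z : A) (G : MvPolynomial (Fin (c + 1)) ℂ) :
    aeval (Fin.snoc (fun i => w i + l i • z) z : Fin (c + 1) → A) (shear l G) =
      aeval (Fin.snoc w z : Fin (c + 1) → A) G := by
  have h : (aeval (Fin.snoc (fun i => w i + l i • z) z : Fin (c + 1) → A)).comp (shear l) =
      aeval (Fin.snoc w z : Fin (c + 1) → A) := by
    apply MvPolynomial.algHom_ext
    intro i
    rw [AlgHom.comp_apply, shear, aeval_X, aeval_X]
    refine Fin.lastCases ?_ (fun j => ?_) i
    · rw [Fin.snoc_last, aeval_X, Fin.snoc_last, Fin.snoc_last]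
    · rw [Fin.snoc_castSucc, map_sub, map_mul, aeval_X, aeval_X, Fin.snoc_castSucc, Fin.snoc_last,
        aeval_C, ← Algebra.smul_def, Fin.snoc_castSucc, add_sub_cancel_right]
  exact DFunLike.congr_fun h G

theorem shear_neg {c : ℕ} (l : Fin c → ℂ) (G : MvPolynomial (Fin (c + 1)) ℂ) :
    shear (-l) (shear l G) = G := by
  have h : (shear (-l)).comp (shear l) = AlgHom.id ℂ _ := by
    apply MvPolynomial.algHom_ext
    intro i
    rw [AlgHom.comp_apply, AlgHom.id_apply, shear, shear, aeval_X]
    refine Fin.lastCases ?_ (fun j => ?_) i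
    · rw [Fin.snoc_last, aeval_X, Fin.snoc_last]
    · rw [Fin.snoc_castSucc, map_sub, map_mul, aeval_X, aeval_X, Fin.snoc_castSucc, Fin.snoc_last,
        aeval_C, Pi.neg_apply, map_neg, MvPolynomial.algebraMap_eq]
      ring
  exact DFunLike.congr_fun h G

theorem shear_mem {c s m : ℕ} (l : Fin c → ℂ) {G : MvPolynomial (Fin (c + 1)) ℂ}
    (hG : G ∈ PolS c s m) : shear l G ∈ PolS c s m := by
  have hX : ∀ i, (Fin.snoc (fun i => X i.castSucc - C (l i) * X (Fin.last c)) (X (Fin.last c)) :
      Fin (c + 1) → MvPolynomial (Fin (c + 1)) ℂ) i |>.IsHomogeneous 1 := by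
    intro i
    refine Fin.lastCases ?_ (fun j => ?_) i
    · rw [Fin.snoc_last]
      exact isHomogeneous_X ℂ _
    · rw [Fin.snoc_castSucc]
      exact (isHomogeneous_X ℂ _).sub (isHomogeneous_C_mul_X _ _)
  rw [← G.support_sum_monomial_coeff, map_sum]
  refine Submodule.sum_mem _ fun β hβ => ?_
  have h1 := hG β (mem_support_iff.1 hβ)
  have h2 : (shear l (monomial β (coeff β G))).IsHomogeneous (1 * β.degree) :=
    (isHomogeneous_monomial (coeff β G) rfl).aeval _ hX
  intro γ hγ
  have h3 : γ.degree = 1 * β.degree := by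
    by_contra h
    exact hγ (h2.coeff_eq_zero h)
  rw [h3, one_mul]
  exact h1

theorem shear_coeff_last {c : ℕ} (l : Fin c → ℂ) (G : MvPolynomial (Fin (c + 1)) ℂ) (k : ℕ) :
    (shear l G).coeff (Finsupp.single (Fin.last c) k) =
      eval (Fin.snoc (fun i => - l i) 1 : Fin (c + 1) → ℂ) (homogeneousComponent k G) := by
  rw [← tau_coeff, ← line_coeff]
  have h : (aeval (Fin.snoc (fun _ => 0) Polynomial.X : Fin (c + 1) → Polynomial ℂ)).comp
      (shear l) = aeval (fun i => Polynomial.C ((Fin.snoc (fun i => - l i) 1 :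
        Fin (c + 1) → ℂ) i) * Polynomial.X : Fin (c + 1) → Polynomial ℂ) := by
    apply MvPolynomial.algHom_ext
    intro i
    rw [AlgHom.comp_apply, shear, aeval_X, aeval_X]
    refine Fin.lastCases ?_ (fun j => ?_) i
    · rw [Fin.snoc_last, aeval_X, Fin.snoc_last, Fin.snoc_last, map_one, one_mul]
    · rw [Fin.snoc_castSucc, map_sub, map_mul, aeval_X, aeval_X, Fin.snoc_castSucc, Fin.snoc_last,
        aeval_C, Fin.snoc_castSucc, map_neg, Polynomial.algebraMap_apply,
        Algebra.algebraMap_self, RingHom.id_apply]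
      ring
  exact congrArg (fun p => Polynomial.coeff p k) (DFunLike.congr_fun h G)

theorem exists_lambda {c k : ℕ} {L : MvPolynomial (Fin (c + 1)) ℂ} (hL : L.IsHomogeneous k)
    (h0 : L ≠ 0) : ∃ l : Fin c → ℂ, eval (Fin.snoc (fun i => - l i) 1 : Fin (c + 1) → ℂ) L ≠ 0 := by
  by_contra hcon
  push Not at hcon
  have h1 : X (Fin.last c) * L = 0 := by
    apply MvPolynomial.funext
    intro x
    rw [map_mul, eval_X, map_zero]
    by_cases hs : x (Fin.last c) = 0
    · rw [hs, zero_mul]
    · have h2 : x = fun i => x (Fin.last c) * (Fin.snoc (fun i => - (- (x i.castSucc /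
          x (Fin.last c)))) 1 : Fin (c + 1) → ℂ) i := by
        funext i
        refine Fin.lastCases ?_ (fun j => ?_) i
        · rw [Fin.snoc_last, mul_one]
        · rw [Fin.snoc_castSucc]
          field_simp
      have h3 := hcon (fun i => - (x i.castSucc / x (Fin.last c)))
      have h4 : eval x L = 0 := by
        rw [h2, eval_scale hL, h3, mul_zero]
      rw [h4, mul_zero]
  rcases mul_eq_zero.1 h1 with h | h
  · exact X_ne_zero _ h
  · exact h0 h

end Pool.DeB
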