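import Pool.Agent.Lib.DeB.RegDefs
import Pool.Agent.Lib.DeB.MonCount
import Pool.Agent.Lib.DeB.Shear
import Pool.Agent.Lib.DeB.LinSpec

/-!
Module RegRel (260 lines). Lemma 8 of the paper.
PROOF. For `u : Fin (c+1) → X` let `ev u : MvPolynomial → A`, `ev u G = aeval (y ∘ u) G` (linear). `V_s = PolS c s m`.
`m'` = the largest `s ≤ m + 1` such that for every `u` the map `ev u` is not injective on `V_s` (`s = 0` has this property:
`finrank V_0 ≥ binom(m+c+1,c+1) > r ≥ finrank A`; for `s = m+1`, `V_s = 0` and it does not hold: so `m' ≤ m`). By maximality there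
is `u1` with `ev u1` injective on `V_{m'+1}`: `O1 = {u : ev u injective on V_{m'+1}}` is nonempty. Let `ρ` be the maximum of
`finrank (ev u (V_{m'}))` over `O1` (bounded by `finrank A`), attained at `u* = (v*, b)` (`v* i = u* (castSucc i)`, `b = u* last`).
There is `G ≠ 0` in `V_{m'}` with `ev u* G = 0`; `G ∉ V_{m'+1}`, so `L = homogeneousComponent m' G ≠ 0`. `exists_lambda`: `l` with
`L(-l, 1) ≠ 0`. Put `vv i = v* i + l i • b`. `G' = shear l G ∈ V_{m'}` (`shear_mem`), `aeval (snoc (y vv) (y b)) G' = 0` (`shear_aeval`),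
its coefficient at `T_last^m'` is `e = L(-l,1) ≠ 0` (`shear_coeff_last`); `e⁻¹ • G'` shows `Reg m' m (y ∘ vv) (y b)`.
Let `uλ = (vv, b)`. `ev uλ ∘ shear l = ev u*`, and `shear l` maps `V_s` onto `V_s` bijectively (inverse `shear (-l)`), so `uλ ∈ O1` and
`finrank (ev uλ (V_{m'})) = ρ`. Let `V' = {H ∈ V_{m'} : coeff (T_last^m') H = 0}`. Every `H ∈ V_{m'}` is `H' + t G'` with `H' ∈ V'`, so
`ev uλ V' = ev uλ V_{m'}`, of dimension `ρ`. Choose `H_1..H_ρ ∈ V'` with `ev uλ H_i` independent, and a basis `B_1..B_k` of `V_{m'+1}`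
(`ev uλ B_j` independent). Let `a : X`. `linInd_line` (with `w = y ∘ vv`, `y b`, `y a`): for all but finitely many `s` the
families `ev u(s) H_i` and `ev u(s) B_j`, `u(s) = (vv, b + s a)`, are independent; so `u(s) ∈ O1` and
`ρ ≤ finrank (ev u(s) V') ≤ finrank (ev u(s) V_{m'}) ≤ ρ`: so `ev u(s) V' = ev u(s) V_{m'}` contains `ev u(s) (T_last^m')` (this monomial
is in `V_{m'}` because `m' ≤ m`): `H ∈ V'` with the same value, and `T_last^m' - H` shows `Reg m' m (y ∘ vv) (y (b + s a))`.
-/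

set_option autoImplicit false

namespace Pool.DeB

/-- evaluation -/
private noncomputable def Ev {X A : Type*} [AddCommGroup X] [Module ℂ X] [CommRing A] [Algebra ℂ A]
    (y : X →ₗ[ℂ] A) {c : ℕ} (p : (Fin c → X) × X) : MvPolynomial (Fin (c + 1)) ℂ →ₗ[ℂ] A :=
  (MvPolynomial.aeval (Fin.snoc (fun i => y (p.1 i)) (y p.2) : Fin (c + 1) → A)).toLinearMap

private lemma Ev_apply {X A : Type*} [AddCommGroup X] [Module ℂ X] [CommRing A] [Algebra ℂ A]
    (y : X →ₗ[ℂ] A) {c : ℕ} (p : (Fin c → X) × X) (G : MvPolynomial (Fin (c + 1)) ℂ) :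
    Ev y p G = MvPolynomial.aeval (Fin.snoc (fun i => y (p.1 i)) (y p.2) : Fin (c + 1) → A) G := rfl

private lemma exists_max_on {P : Type*} (f : P → ℕ) (n : ℕ) (h : ∀ a, f a ≤ n) (O : Set P)
    (hO : O.Nonempty) : ∃ a ∈ O, ∀ a' ∈ O, f a' ≤ f a := by
  haveI : Nonempty O := hO.to_subtype
  refine ⟨_, (Function.argmin (fun a : O => n - f a.1)).2, fun a' ha' => ?_⟩
  have h1 := Function.argmin_le (fun a : O => n - f a.1) ⟨a', ha'⟩
  have h2 := h a'
  have h3 := h (Function.argmin (fun a : O => n - f a.1)).1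
  simp only at h1
  omega

/-- injectivity of the evaluation on `PolS c s m` -/
private def InjP {X A : Type*} [AddCommGroup X] [Module ℂ X] [CommRing A] [Algebra ℂ A]
    (y : X →ₗ[ℂ] A) {c : ℕ} (m s : ℕ) (p : (Fin c → X) × X) : Prop :=
  ∀ G ∈ PolS c s m, Ev y p G = 0 → G = 0

private lemma exists_m' {X A : Type*} [AddCommGroup X] [Module ℂ X] [CommRing A] [Algebra ℂ A]
    [FiniteDimensional ℂ A] (y : X →ₗ[ℂ] A) {r c m : ℕ} (hA : Module.finrank ℂ A ≤ r)
    (hc : r < (m + c + 1).choose (c + 1)) :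
    ∃ m' : ℕ, m' ≤ m ∧ (∀ p : (Fin c → X) × X, ¬ InjP y m m' p) ∧
      ∃ p : (Fin c → X) × X, InjP y m (m' + 1) p := by
  by_contra hcon
  push Not at hcon
  have h0 : ∀ p : (Fin c → X) × X, ¬ InjP y m 0 p := by
    intro p hp
    have h1 : Module.finrank ℂ (PolS c 0 m) ≤ Module.finrank ℂ A := by
      apply LinearMap.finrank_le_finrank_of_injective (f := (Ev y p).domRestrict (PolS c 0 m))
      rw [← LinearMap.ker_eq_bot, LinearMap.ker_eq_bot']
      intro G hG
      exact Subtype.ext (hp G.1 G.2 hG)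
    have h2 := choose_le_finrank c m
    omega
  have h1 : ∀ s, s ≤ m + 1 → ∀ p : (Fin c → X) × X, ¬ InjP y m s p := by
    intro s
    induction s with
    | zero => exact fun _ => h0
    | succ s ih => exact fun hs => hcon s (by omega) (ih (by omega))
  apply h1 (m + 1) le_rfl (0, 0)
  intro G hG _
  ext β
  by_contra hβ
  rw [MvPolynomial.coeff_zero] at hβ
  have := hG β hβ
  omega

/-- Lemma 8. -/
theorem regular_relation {X A : Type*} [AddCommGroup X] [Module ℂ X] [CommRing A] [Algebra ℂ A]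
    [FiniteDimensional ℂ A] (y : X →ₗ[ℂ] A) {r c m : ℕ} (hA : Module.finrank ℂ A ≤ r)
    (hc : r < (m + c + 1).choose (c + 1)) :
    ∃ m' : ℕ, m' ≤ m ∧ ∃ (vv : Fin c → X) (b : X), Reg m' m (fun i => y (vv i)) (y b) ∧
      ∀ a : X, {s : ℂ | ¬ Reg m' m (fun i => y (vv i)) (y (b + s • a))}.Finite := by
  classical
  obtain ⟨m', hm', hbad, p1, hp1⟩ := exists_m' y hA hc
  refine ⟨m', hm', ?_⟩
  set V := PolS c m' m with hV
  set V1 := PolS c (m' + 1) m with hV1
  obtain ⟨ps, hps, hmax⟩ := exists_max_on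
    (fun p : (Fin c → X) × X => Module.finrank ℂ (V.map (Ev y p))) (Module.finrank ℂ A)
    (fun p => Submodule.finrank_le _) {p | InjP y m (m' + 1) p} ⟨p1, hp1⟩
  have hps' : InjP y m (m' + 1) ps := hps
  obtain ⟨G, hGV, hG0, hGne⟩ : ∃ G ∈ V, Ev y ps G = 0 ∧ G ≠ 0 := by
    have := hbad ps
    unfold InjP at this
    push Not at this
    exact this
  -- the leading part
  have hL0 : MvPolynomial.homogeneousComponent m' G ≠ 0 := by
    intro hL
    apply hGne
    apply hps' G _ hG0
    intro β hβ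
    have h1 := hGV β hβ
    refine ⟨?_, h1.2⟩
    by_contra h2
    have h3 : β.degree = m' := by omega
    have h4 := MvPolynomial.coeff_homogeneousComponent m' G β
    rw [hL, if_pos h3, MvPolynomial.coeff_zero] at h4
    exact hβ h4.symm
  obtain ⟨l, hl⟩ := exists_lambda (MvPolynomial.homogeneousComponent_isHomogeneous m' G) hL0
  rw [← shear_coeff_last] at hl
  set e0 := (shear l G).coeff (Finsupp.single (Fin.last c) m') with he0
  set vv : Fin c → X := fun i => ps.1 i + l i • ps.2 with hvv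
  set b : X := ps.2 with hb
  have hsh : ∀ H, Ev y (vv, b) (shear l H) = Ev y ps H := by
    intro H
    rw [Ev_apply, Ev_apply]
    have h1 : (fun i => y ((vv, b).1 i)) = fun i => y (ps.1 i) + l i • y ps.2 := by
      funext i
      show y (ps.1 i + l i • ps.2) = _
      rw [map_add, map_smul]
    rw [h1]
    exact shear_aeval l (fun i => y (ps.1 i)) (y ps.2) H
  have hsh2 : ∀ H, Ev y (vv, b) H = Ev y ps (shear (-l) H) := by
    intro H
    rw [← hsh]
    have := shear_neg (-l) H
    rw [neg_neg] at this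
    rw [this]
  have hG'V : shear l G ∈ V := shear_mem l hGV
  have hG'0 : Ev y (vv, b) (shear l G) = 0 := by rw [hsh, hG0]
  have hO : InjP y m (m' + 1) (vv, b) := by
    intro H hH hH0
    rw [hsh2] at hH0
    have h1 := hps' _ (shear_mem (-l) hH) hH0
    have h2 := shear_neg (-l) H
    rw [neg_neg, h1, map_zero] at h2
    exact h2.symm
  have hmapeq : V.map (Ev y (vv, b)) = V.map (Ev y ps) := by
    apply le_antisymm
    · rintro _ ⟨H, hH, rfl⟩
      exact ⟨shear (-l) H, shear_mem (-l) hH, (hsh2 H).symm⟩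
    · rintro _ ⟨H, hH, rfl⟩
      exact ⟨shear l H, shear_mem l hH, hsh H⟩
  set V' : Submodule ℂ (MvPolynomial (Fin (c + 1)) ℂ) := V ⊓
    LinearMap.ker (MvPolynomial.lcoeff ℂ (Finsupp.single (Fin.last c) m')) with hV'
  have hmemV' : ∀ H, H ∈ V' ↔ H ∈ V ∧ H.coeff (Finsupp.single (Fin.last c) m') = 0 := by
    intro H
    rw [hV', Submodule.mem_inf, LinearMap.mem_ker, MvPolynomial.lcoeff_apply]
  have hmapV' : V'.map (Ev y (vv, b)) = V.map (Ev y (vv, b)) := by
    apply le_antisymm
    · exact Submodule.map_mono inf_le_left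
    · rintro _ ⟨H, hH, rfl⟩
      refine ⟨H - (H.coeff (Finsupp.single (Fin.last c) m') / e0) • shear l G, ?_, ?_⟩
      · rw [SetLike.mem_coe, hmemV']
        refine ⟨V.sub_mem hH (V.smul_mem _ hG'V), ?_⟩
        rw [MvPolynomial.coeff_sub, MvPolynomial.coeff_smul, ← he0, smul_eq_mul,
          div_mul_cancel₀ _ hl, sub_self]
      · rw [map_sub, map_smul, hG'0, smul_zero, sub_zero]
  refine ⟨vv, b, ⟨e0⁻¹ • shear l G, V.smul_mem _ hG'V, ?_, ?_⟩, ?_⟩
  · rw [MvPolynomial.coeff_smul, ← he0, smul_eq_mul, inv_mul_cancel₀ hl]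
  · have h1 : Ev y (vv, b) (e0⁻¹ • shear l G) = 0 := by rw [map_smul, hG'0, smul_zero]
    exact h1
  intro a
  -- independent families
  set W := V'.map (Ev y (vv, b)) with hW
  set bW := Module.finBasis ℂ W with hbW
  have hH : ∀ i, ∃ H ∈ V', Ev y (vv, b) H = (bW i : A) := fun i => (bW i).2
  choose H hHV hHe using hH
  have hHind : LinearIndependent ℂ (fun i => MvPolynomial.aeval
      (Fin.snoc (fun i => y (vv i)) (y b) : Fin (c + 1) → A) (H i)) := by
    have h1 : (fun i => MvPolynomial.aeval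
      (Fin.snoc (fun i => y (vv i)) (y b) : Fin (c + 1) → A) (H i)) = fun i => (bW i : A) := by
      funext i
      exact hHe i
    rw [h1]
    exact bW.linearIndependent.map' W.subtype (Submodule.ker_subtype W)
  set bB := Module.finBasis ℂ V1 with hbB
  have hBind : LinearIndependent ℂ (fun j => MvPolynomial.aeval
      (Fin.snoc (fun i => y (vv i)) (y b) : Fin (c + 1) → A) ((bB j : V1) : MvPolynomial _ ℂ)) := by
    apply bB.linearIndependent.map' ((Ev y (vv, b)).domRestrict V1)
    rw [LinearMap.ker_eq_bot']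
    intro x hx
    exact Subtype.ext (hO x.1 x.2 hx)
  have hf1 := linInd_line H (fun i => y (vv i)) (y b) (y a) hHind
  have hf2 := linInd_line (fun j => ((bB j : V1) : MvPolynomial _ ℂ)) (fun i => y (vv i)) (y b)
    (y a) hBind
  apply (hf1.union hf2).subset
  intro s hs
  by_contra hns
  rw [Set.mem_union, not_or] at hns
  obtain ⟨hn1, hn2⟩ := hns
  have hn1' : LinearIndependent ℂ (fun i => MvPolynomial.aeval
      (Fin.snoc (fun i => y (vv i)) (y b + s • y a) : Fin (c + 1) → A) (H i)) := by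
    by_contra h; exact hn1 h
  have hn2' : LinearIndependent ℂ (fun j => MvPolynomial.aeval
      (Fin.snoc (fun i => y (vv i)) (y b + s • y a) : Fin (c + 1) → A)
        ((bB j : V1) : MvPolynomial _ ℂ)) := by
    by_contra h; exact hn2 h
  have hys : y b + s • y a = y (b + s • a) := by rw [map_add, map_smul]
  rw [hys] at hn1' hn2'
  apply hs
  set q : (Fin c → X) × X := (vv, b + s • a) with hq
  have hqO : InjP y m (m' + 1) q := by
    intro K hK hK0
    have h1 := bB.sum_repr ⟨K, hK⟩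
    have h2 : K = ∑ j, bB.repr ⟨K, hK⟩ j • ((bB j : V1) : MvPolynomial _ ℂ) := by
      have := congrArg (fun x : V1 => (x : MvPolynomial (Fin (c + 1)) ℂ)) h1
      simp only [Submodule.coe_sum, Submodule.coe_smul] at this
      exact this.symm
    have h3 : ∑ j, bB.repr ⟨K, hK⟩ j • Ev y q ((bB j : V1) : MvPolynomial _ ℂ) = 0 := by
      rw [← hK0]
      conv_rhs => rw [h2]
      rw [map_sum]
      simp only [map_smul]
    have h4 := Fintype.linearIndependent_iff.1 hn2' _ h3
    rw [h2]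
    exact Finset.sum_eq_zero fun j _ => by rw [h4 j, zero_smul]
  have hle : Module.finrank ℂ (V.map (Ev y q)) ≤ Module.finrank ℂ (V.map (Ev y ps)) := hmax q hqO
  have hρ : Module.finrank ℂ (V.map (Ev y ps)) ≤ Module.finrank ℂ (V'.map (Ev y q)) := by
    rw [← hmapeq, ← hmapV']
    have h1 : LinearIndependent ℂ (fun i => (⟨Ev y q (H i), H i, hHV i, rfl⟩ : V'.map (Ev y q))) := by
      apply LinearIndependent.of_comp (V'.map (Ev y q)).subtype
      exact hn1'
    have h2 := h1.fintype_card_le_finrank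
    rwa [Fintype.card_fin] at h2
  have heq : V'.map (Ev y q) = V.map (Ev y q) :=
    Submodule.eq_of_le_of_finrank_le (Submodule.map_mono inf_le_left) (hle.trans hρ)
  have hT : (MvPolynomial.monomial (Finsupp.single (Fin.last c) m') (1 : ℂ)) ∈ V := by
    intro β hβ
    rw [MvPolynomial.coeff_monomial] at hβ
    have h1 : Finsupp.single (Fin.last c) m' = β := by
      by_contra h2
      rw [if_neg h2] at hβ
      exact hβ rfl
    rw [← h1, Finsupp.degree_single]
    exact ⟨le_rfl, hm'⟩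
  have hTm : Ev y q (MvPolynomial.monomial (Finsupp.single (Fin.last c) m') (1 : ℂ)) ∈
      V'.map (Ev y q) := by
    rw [heq]
    exact ⟨_, hT, rfl⟩
  obtain ⟨K, hK, hKe⟩ := hTm
  have hK' := (hmemV' K).1 hK
  refine ⟨MvPolynomial.monomial (Finsupp.single (Fin.last c) m') (1 : ℂ) - K,
    V.sub_mem hT hK'.1, ?_, ?_⟩
  · rw [MvPolynomial.coeff_sub, MvPolynomial.coeff_monomial, if_pos rfl, hK'.2, sub_zero]
  · have h1 : Ev y q (MvPolynomial.monomial (Finsupp.single (Fin.last c) m') (1 : ℂ) - K) = 0 := by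
      rw [map_sub, hKe, sub_self]
    exact h1

end Pool.DeB
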