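import Pool.Agent.Lib.DeB.NDefs
import Pool.Agent.Lib.DeB.NBasic
import Pool.Agent.Lib.DeB.NodeStep
import Pool.Agent.Lib.DeB.NodeLast
import Pool.Agent.Lib.DeB.RegRel

/-!
Module Prop13 (170 lines). Proposition 13 of the paper.
PROOF. If `A` is trivial (subsingleton) every functional is `0`: `HW` by `isW_zero`. Otherwise `r ≥ 1`. `regular_relation`: `m'`, `vX : Fin c → X`, `b`.
`vv j = y (vX j)` for `j < c`, `0` otherwise (all nilpotent). Claim, by downward induction on `i` from `c` to `1`: for every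
`q : ℕ → VV` with `q 0 = tV 1`, `0 < v (q j)` for `j < i`, and all `q j ∈ SM M` (`j < i`) for some `0 < M ≤ r^(2(i-1))`:
 `HW y r (IQ vv q i) (W i)`, where `W c = wst r (m^2) (r^(2(c-1)) * m!)` and `(r+1)^7 * W i = ((r+1)^7 * W c)^(2^(c-i))`, e.g. define
 `W i` by `W (i) = (r+1)^7 * W (i+1) * W (i+1)`.
`i = c`: `node_last`, `wst` is monotone in its last argument (`Nn ↦ (..Nn..)^_`), `hw_monow`.
`i < c`: `node_step` with `M0 = M`: for `ω ∈ SM (M h)`, `h ≤ r^2`: `update q i ω` satisfies the conditions for `i + 1` with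
`M * h ≤ r^(2 i)` (`SM_mul_le` for the `q j`; `update` at `0`: `i ≥ 1`).
`i = 1`: `q = fun _ => tV 1` (`v (tV 1) = 1 > 0`, `M = 1`): `HW y r (IQ vv q 1) (W 1)`, `IQ_one`: it is `⊥`.
`W 1 ≤ (r+1)^7 W 1 = ((r+1)^7 W c)^(2^(c-1)) = w13 r c m`.
-/

set_option autoImplicit false

namespace Pool.DeB

private lemma wst_mono {r m Nn Nn' : ℕ} (h : Nn ≤ Nn') : wst r m Nn ≤ wst r m Nn' := by
  unfold wst wdir
  gcongr

private lemma one_le_wst (r m Nn : ℕ) : 1 ≤ wst r m Nn := by
  unfold wst wdir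
  exact Nat.one_le_iff_ne_zero.2 (by positivity)

/-- the bounds of the recursion -/
private def FW (r W : ℕ) : ℕ → ℕ
  | 0 => W
  | n + 1 => (r + 1) ^ 7 * FW r W n * FW r W n

private lemma FW_eq (r W n : ℕ) : (r + 1) ^ 7 * FW r W n = ((r + 1) ^ 7 * W) ^ 2 ^ n := by
  induction n with
  | zero => simp [FW]
  | succ n ih =>
    have h1 : (r + 1) ^ 7 * FW r W (n + 1) = ((r + 1) ^ 7 * FW r W n) ^ 2 := by
      show (r + 1) ^ 7 * ((r + 1) ^ 7 * FW r W n * FW r W n) = _
      ring
    rw [h1, ih, ← pow_mul, pow_succ 2 n]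

private lemma one_le_FW {r W : ℕ} (h : 1 ≤ W) (n : ℕ) : 1 ≤ FW r W n := by
  have h1 := FW_eq r W n
  have h2 : 0 < ((r + 1) ^ 7 * W) ^ 2 ^ n := by positivity
  rw [← h1] at h2
  exact Nat.pos_of_mul_pos_left h2

/-- Proposition 13. -/
theorem prop13 {X A : Type*} [AddCommGroup X] [Module ℂ X] [FiniteDimensional ℂ X]
    [CommRing A] [Algebra ℂ A] [FiniteDimensional ℂ A] {y : X →ₗ[ℂ] A} {r c m : ℕ}
    (hA : Module.finrank ℂ A ≤ r) (hX : Module.finrank ℂ X ≤ r) (hnil : ∀ a, IsNilpotent (y a))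
    (hc : 1 ≤ c) (hm : 1 ≤ m) (hcm : r < (m + c + 1).choose (c + 1)) :
    HW y r ⊥ (w13 r c m) := by
  classical
  rcases subsingleton_or_nontrivial A with hsub | hnt
  · intro φ _ j _
    have h1 : (fun a => φ (y a ^ j)) = fun _ => (0 : ℂ) := by
      funext a
      rw [Subsingleton.elim (y a ^ j) 0, map_zero]
    rw [h1]
    exact isW_zero _ _
  have hr1 : 1 ≤ r := le_trans Module.finrank_pos hA
  obtain ⟨m', hm', vX, b, h0, h1⟩ := regular_relation y hA hcm
  set vv : ℕ → A := fun j => if h : j < c then y (vX ⟨j, h⟩) else 0 with hvvdef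
  have hvv : ∀ i : Fin c, vv i = y (vX i) := by
    intro i
    rw [hvvdef]
    simp
  have hn : ∀ j, IsNilpotent (vv j) := by
    intro j
    rw [hvvdef]
    dsimp only
    split_ifs with h
    · exact hnil _
    · exact IsNilpotent.zero
  set Wc : ℕ := wst r (m ^ 2) (r ^ (2 * (c - 1)) * m.factorial) with hWc
  have hWc1 : 1 ≤ Wc := one_le_wst _ _ _
  have key : ∀ n i : ℕ, 1 ≤ i → i + n = c → ∀ (q : ℕ → VV) (M : ℕ), q 0 = tV 1 →
      (∀ j, j < i → (0 : WithTop ℝ) < v ((q j : VV) : Om)) → 0 < M → M ≤ r ^ (2 * (i - 1)) →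
      (∀ j, j < i → ((q j : VV) : Om) ∈ SM M) → HW y r (IQ vv q i) (FW r Wc n) := by
    intro n
    induction n with
    | zero =>
      intro i hi hin q M hq0 hq hM hMle hqS
      have hic : i = c := by omega
      subst hic
      have h2 := node_last hr1 hA hX hnil hc hm hm' vX b h0 h1 hvv hq0 hq hM hqS
      refine hw_monow ?_ h2
      exact wst_mono (Nat.mul_le_mul_right _ hMle)
    | succ n ih =>
      intro i hi hin q M hq0 hq hM hMle hqS
      refine node_step hA hX hn hi hq0 hM hqS (one_le_FW hWc1 n) ?_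
      rintro ω hω ⟨h, hh1, hhr, hωS⟩
      refine ih (i + 1) (by omega) (by omega) _ (M * h) ?_ ?_ (by positivity) ?_ ?_
      · rw [Function.update_of_ne (by omega)]
        exact hq0
      · intro j hj
        by_cases hji : j = i
        · subst hji
          rw [Function.update_self]
          exact hω
        · rw [Function.update_of_ne hji]
          exact hq j (by omega)
      · calc M * h ≤ r ^ (2 * (i - 1)) * r ^ 2 := Nat.mul_le_mul hMle hhr
          _ = r ^ (2 * (i + 1 - 1)) := by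
            rw [← pow_add]
            congr 1
            omega
      · intro j hj
        by_cases hji : j = i
        · subst hji
          rw [Function.update_self]
          exact hωS
        · rw [Function.update_of_ne hji]
          exact SM_mul_le M h (hqS j (by omega))
  have h2 := key (c - 1) 1 le_rfl (by omega) (fun _ => tV 1) 1 rfl
    (fun j _ => by
      rw [tV_coe zero_le_one, v_tp]
      exact_mod_cast (zero_lt_one : (0 : ℝ) < 1)) one_pos (by simp)
    (fun j _ => by
      rw [tV_coe zero_le_one]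
      exact tp_mem_SM ⟨1, by simp⟩)
  rw [IQ_one (hn 0) rfl] at h2
  refine hw_monow ?_ h2
  have h3 := FW_eq r Wc (c - 1)
  calc FW r Wc (c - 1) ≤ (r + 1) ^ 7 * FW r Wc (c - 1) :=
        Nat.le_mul_of_pos_left _ (by positivity)
    _ = w13 r c m := h3

end Pool.DeB
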