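import Pool.Agent.Lib.DeB.Extract
import Pool.Agent.Lib.DeB.Hankel
import Pool.Agent.Lib.DeB.Prop13
import Pool.Agent.Lib.DeB.WBasic

/-!
Module FinalA. Waring rank from border Waring rank, explicit bound `w13 (r (d+1)) c m`.
-/

set_option autoImplicit false

open MvPolynomial

namespace Pool.DeB

private theorem lf_add' {n : ℕ} (a b : Fin n → ℂ) : lf (a + b) = lf a + lf b := by
  simp only [lf, Pi.add_apply, map_add, add_mul, Finset.sum_add_distrib]

private theorem lf_smul' {n : ℕ} (u : ℂ) (a : Fin n → ℂ) : lf (u • a) = u • lf a := by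
  simp only [lf, Pi.smul_apply, smul_eq_mul, map_mul, Finset.smul_sum, MvPolynomial.smul_eq_C_mul,
    mul_assoc]

theorem border_waring {n d r c m : ℕ} {F : MvPolynomial (Fin n) ℂ} (hF : F.IsHomogeneous d)
    (hB : BorderLe F d r) (hd : 1 ≤ d) (hc : 1 ≤ c) (hm : 1 ≤ m)
    (hK : r * (d + 1) < (m + c + 1).choose (c + 1)) :
    ∃ ℓ : Fin (w13 (r * (d + 1)) c m) → MvPolynomial (Fin n) ℂ,
      (∀ i, (ℓ i).IsHomogeneous 1) ∧ F = ∑ i, ℓ i ^ d := by
  rcases Nat.eq_zero_or_pos r with hr | hr
  · subst hr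
    obtain ⟨g, hg, hlim⟩ := hB
    have hF0 : F = 0 := by
      ext β
      rw [coeff_zero]
      have h1 : ∀ k, coeff β (g k) = 0 := by
        intro k
        obtain ⟨ℓ, -, h2⟩ := hg k
        rw [h2]
        simp
      have h2 := hlim β
      simp only [h1] at h2
      exact tendsto_nhds_unique h2 tendsto_const_nhds
    refine ⟨fun _ => 0, fun _ => isHomogeneous_zero _ _ _, ?_⟩
    rw [hF0]
    simp [zero_pow (by omega : d ≠ 0)]
  · obtain ⟨hfin, hrank⟩ := radF_finite hB
    have hdK : d ≤ r * (d + 1) := by nlinarith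
    let y0 : (Fin n → ℂ) →ₗ[ℂ] (MvPolynomial (Fin n) ℂ ⧸ radF F) :=
      { toFun := fun a => Ideal.Quotient.mk (radF F) (lf a)
        map_add' := fun a b => by rw [lf_add', map_add]
        map_smul' := fun u a => by
          rw [lf_smul', RingHom.id_apply]
          rfl }
    have hy0 : ∀ a, y0 a = Ideal.Quotient.mk (radF F) (lf a) := fun a => rfl
    have hnil0 : ∀ a, IsNilpotent (y0 a) := by
      intro a
      refine ⟨d + 1, ?_⟩
      rw [hy0, ← map_pow, Ideal.Quotient.eq_zero_iff_mem]
      exact lf_pow_mem hF a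
    have hX : Module.finrank ℂ (LinearMap.range y0) ≤ r * (d + 1) :=
      le_trans (Submodule.finrank_le _) hrank
    have hnil : ∀ a : LinearMap.range y0, IsNilpotent ((LinearMap.range y0).subtype a) := by
      rintro ⟨_, a, rfl⟩
      exact hnil0 a
    have h13 := prop13 (y := (LinearMap.range y0).subtype) hrank hX hnil hc hm hK
    -- the functional
    let φ : (MvPolynomial (Fin n) ℂ ⧸ radF F) →ₗ[ℂ] ℂ :=
      ((radF F).restrictScalars ℂ).liftQ (lam F) (by
        intro g hg
        have h1 := hg 1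
        rw [mul_one] at h1
        exact h1)
    have hφ : ∀ g, φ (Ideal.Quotient.mk (radF F) g) = lam F g := fun g => rfl
    have h1 := h13 φ (by
      intro a ha
      rw [(Submodule.mem_bot _).1 ha, map_zero]) d hdK
    have h2 := isW_comp h1 (y0.rangeRestrict)
    refine waring_of_isW hd ?_
    have h3 : (fun a : Fin n → ℂ => eval a F) =
        fun a => φ (((LinearMap.range y0).subtype (y0.rangeRestrict a)) ^ d) := by
      funext a
      show _ = φ ((y0 a) ^ d)
      rw [hy0, ← map_pow, hφ, lam_lf_pow hF]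
    rw [h3]
    exact h2

end Pool.DeB
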