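import Pool.Agent.Lib.DeB.Extract
import Pool.Agent.Lib.DeB.AffLim
import Pool.Agent.Lib.DeB.Decomp
import Pool.Agent.Lib.DeB.WBasic
import Pool.Agent.Lib.DeB.WMul

/-!
Module FinalB (200 lines). Waring rank from border Waring rank for `d ≥ r`: bound `r * r * (d+1) * w` for any valid `w`.
PROOF. `affine_limit`: `x0`, `μ`. Let `J = {g | ∀ h, μ (g h) = 0}` (an ideal, as `radF`), `A = MvPolynomial (Fin n) ℂ ⧸ J`; `finrank_of_minors` for
`b g h = μ (g h)`: `finrank A ≤ r`. `y0 a = mk (C (dt x0 a) + lf a)`, linear; `φ : A → ℂ` induced by `μ`; `φ((y0 a)^d) = eval a F`.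
`functional_decomp`: `eval a F = ∑_{i<k} ∑_{j<min r (d+1)} binom(d,j) χ_i(y0 a)^(d-j) ψ_i(n_i(a)^j)`, `n_i(a) = y0 a - χ_i(y0 a)`.
For fixed `i`: `A_i = A ⧸ (ker χ_i)^r`, `finrank ≤ r`; `y_i a = mk (n_i(a))`, linear in `a`, nilpotent (`n_i(a) ∈ ker χ_i`, so `y_i(a)^r = 0`); `ψ_i`
factors through `A_i`: `ψ_i'`. `X = range y_i ⊆ A_i` (a type in `Type`); `hW`: `HW (X.subtype) r ⊥ w`; so (`isW_comp`) `a ↦ ψ_i'((y_i a)^j)` is in
`IsW w j` for `j ≤ r`. Multiply by the power `χ_i(y0 a)^(d-j)` of a linear form (in `IsW 1 (d-j)`): `isW_mul`: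
`IsW (w * (d+1)) d` (`mul_comm`; `isW_mono`). Sum over `j < r` and `i < k ≤ r` (`isW_smul`, `isW_sum`). `waring_of_isW` (`d ≥ 1`).
-/

set_option autoImplicit false

open MvPolynomial

namespace Pool.DeB

private theorem fb_dt_add {n : ℕ} (p a b : Fin n → ℂ) : dt p (a + b) = dt p a + dt p b := by
  simp only [dt, Pi.add_apply, mul_add, Finset.sum_add_distrib]

private theorem fb_dt_smul {n : ℕ} (p : Fin n → ℂ) (u : ℂ) (a : Fin n → ℂ) :
    dt p (u • a) = u * dt p a := by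
  simp only [dt, Pi.smul_apply, smul_eq_mul, Finset.mul_sum]
  exact Finset.sum_congr rfl fun j _ => by ring

private theorem fb_lf_add {n : ℕ} (a b : Fin n → ℂ) : lf (a + b) = lf a + lf b := by
  simp only [lf, Pi.add_apply, map_add, add_mul, Finset.sum_add_distrib]

private theorem fb_lf_smul {n : ℕ} (u : ℂ) (a : Fin n → ℂ) : lf (u • a) = u • lf a := by
  simp only [lf, Pi.smul_apply, smul_eq_mul, map_mul, Finset.smul_sum, MvPolynomial.smul_eq_C_mul,
    mul_assoc]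

/-- the radical of the form `(g,h) ↦ μ (g h)`. -/
private def fbRad {n : ℕ} (μ : MvPolynomial (Fin n) ℂ →ₗ[ℂ] ℂ) :
    Ideal (MvPolynomial (Fin n) ℂ) where
  carrier := {g | ∀ h, μ (g * h) = 0}
  add_mem' := by
    intro a b ha hb h
    rw [add_mul, map_add, ha h, hb h, add_zero]
  zero_mem' := by
    intro h
    rw [zero_mul, map_zero]
  smul_mem' := by
    intro c a ha h
    show μ (c * a * h) = 0
    have e : c * a * h = a * (c * h) := by ring
    rw [e]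
    exact ha _

private noncomputable def fb_b {n : ℕ} (μ : MvPolynomial (Fin n) ℂ →ₗ[ℂ] ℂ) :
    MvPolynomial (Fin n) ℂ →ₗ[ℂ] MvPolynomial (Fin n) ℂ →ₗ[ℂ] ℂ :=
  LinearMap.compr₂ (LinearMap.mul ℂ (MvPolynomial (Fin n) ℂ)) μ

private theorem fb_b_apply {n : ℕ} (μ : MvPolynomial (Fin n) ℂ →ₗ[ℂ] ℂ)
    (g h : MvPolynomial (Fin n) ℂ) : fb_b μ g h = μ (g * h) := rfl

private theorem fb_ker {n : ℕ} (μ : MvPolynomial (Fin n) ℂ →ₗ[ℂ] ℂ) :
    LinearMap.ker (fb_b μ) = (fbRad μ).restrictScalars ℂ := by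
  ext g
  rw [LinearMap.mem_ker, Submodule.restrictScalars_mem]
  constructor
  · intro hg h
    rw [← fb_b_apply, hg]
    rfl
  · intro hg
    apply LinearMap.ext
    intro h
    exact hg h

private theorem fb_finite {n r : ℕ} (μ : MvPolynomial (Fin n) ℂ →ₗ[ℂ] ℂ)
    (hμ : ∀ g h : Fin (r + 1) → MvPolynomial (Fin n) ℂ,
        (Matrix.of (fun i j => μ (g i * h j))).det = 0) :
    FiniteDimensional ℂ (MvPolynomial (Fin n) ℂ ⧸ fbRad μ) ∧
      Module.finrank ℂ (MvPolynomial (Fin n) ℂ ⧸ fbRad μ) ≤ r := by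
  obtain ⟨h1, h2⟩ := finrank_of_minors (fb_b μ) r fun g h => hμ g h
  let e : (MvPolynomial (Fin n) ℂ ⧸ LinearMap.ker (fb_b μ)) ≃ₗ[ℂ]
      (MvPolynomial (Fin n) ℂ ⧸ fbRad μ) :=
    (Submodule.quotEquivOfEq _ _ (fb_ker μ)).trans
      (Submodule.Quotient.restrictScalarsEquiv ℂ (fbRad μ))
  constructor
  · exact Module.Finite.equiv e
  · rw [← e.finrank_eq]
    exact h2

/-- one local factor -/
private theorem fb_local {X A : Type} [AddCommGroup X] [Module ℂ X] [CommRing A] [Algebra ℂ A]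
    [FiniteDimensional ℂ A] {r w : ℕ} (hr : Module.finrank ℂ A ≤ r) (hW : HWall r w)
    (y0 : X →ₗ[ℂ] A) (χ : A →ₐ[ℂ] ℂ) (ψ : A →ₗ[ℂ] ℂ)
    (hψ : ∀ x ∈ (RingHom.ker (χ : A →+* ℂ)) ^ r, ψ x = 0) (j : ℕ) (hj : j ≤ r) :
    IsW w j (fun a => ψ ((y0 a - algebraMap ℂ A (χ (y0 a))) ^ j)) := by
  set I : Ideal A := (RingHom.ker (χ : A →+* ℂ)) ^ r with hI
  let nl : X →ₗ[ℂ] A := y0 - ((Algebra.linearMap ℂ A).comp χ.toLinearMap).comp y0
  have hnl : ∀ a, nl a = y0 a - algebraMap ℂ A (χ (y0 a)) := fun a => rfl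
  let q : A →ₐ[ℂ] (A ⧸ I) := Ideal.Quotient.mkₐ ℂ I
  have hq : ∀ x, q x = Ideal.Quotient.mk I x := fun x => rfl
  have hqs : Function.Surjective q := Ideal.Quotient.mkₐ_surjective ℂ I
  have : FiniteDimensional ℂ (A ⧸ I) :=
    Module.Finite.of_surjective q.toLinearMap hqs
  have hrk : Module.finrank ℂ (A ⧸ I) ≤ r :=
    le_trans (LinearMap.finrank_le_finrank_of_surjective (f := q.toLinearMap) hqs) hr
  let yi : X →ₗ[ℂ] (A ⧸ I) := q.toLinearMap.comp nl
  have hyi : ∀ a, yi a = q (nl a) := fun a => rfl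
  have hnil : ∀ a, IsNilpotent (yi a) := by
    intro a
    refine ⟨r, ?_⟩
    rw [hyi, ← map_pow, hq, Ideal.Quotient.eq_zero_iff_mem, hI]
    apply Ideal.pow_mem_pow
    rw [RingHom.mem_ker]
    show χ (nl a) = 0
    rw [hnl, map_sub, AlgHom.commutes]
    simp
  have hX : Module.finrank ℂ (LinearMap.range yi) ≤ r :=
    le_trans (Submodule.finrank_le _) hrk
  have hnil2 : ∀ a : LinearMap.range yi, IsNilpotent ((LinearMap.range yi).subtype a) := by
    rintro ⟨_, a, rfl⟩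
    exact hnil a
  have h13 := hW _ _ (LinearMap.range yi).subtype hrk hX hnil2
  let ψ' : (A ⧸ I) →ₗ[ℂ] ℂ := (I.restrictScalars ℂ).liftQ ψ (by
    intro g hg
    exact hψ g hg)
  have hψ' : ∀ x, ψ' (q x) = ψ x := fun x => rfl
  have h1 := h13 ψ' (by
    intro a ha
    rw [(Submodule.mem_bot _).1 ha, map_zero]) j hj
  have h2 := isW_comp h1 (yi.rangeRestrict)
  have h3 : (fun a : X => ψ ((y0 a - algebraMap ℂ A (χ (y0 a))) ^ j)) =
      fun a => ψ' (((LinearMap.range yi).subtype (yi.rangeRestrict a)) ^ j) := by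
    funext a
    show _ = ψ' ((yi a) ^ j)
    rw [hyi, ← map_pow, hψ', hnl]
  rw [h3]
  exact h2

theorem border_waring_large {n d r w : ℕ} {F : MvPolynomial (Fin n) ℂ} (hF : F.IsHomogeneous d)
    (hB : BorderLe F d r) (hd : 1 ≤ d) (hdr : r ≤ d) (hW : HWall r w) :
    ∃ ℓ : Fin (r * r * (d + 1) * w) → MvPolynomial (Fin n) ℂ,
      (∀ i, (ℓ i).IsHomogeneous 1) ∧ F = ∑ i, ℓ i ^ d := by
  obtain ⟨x0, μ, hμ, hμF⟩ := affine_limit hdr hF hB
  obtain ⟨hfin, hrk⟩ := fb_finite μ hμ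
  let y0 : (Fin n → ℂ) →ₗ[ℂ] (MvPolynomial (Fin n) ℂ ⧸ fbRad μ) :=
    { toFun := fun a => Ideal.Quotient.mk (fbRad μ) (C (dt x0 a) + lf a)
      map_add' := fun a b => by
        have e : (C (dt x0 (a + b)) + lf (a + b) : MvPolynomial (Fin n) ℂ) =
            (C (dt x0 a) + lf a) + (C (dt x0 b) + lf b) := by
          rw [fb_lf_add, fb_dt_add, C_add]
          ring
        rw [e, map_add]
      map_smul' := fun u a => by
        have e : (C (dt x0 (u • a)) + lf (u • a) : MvPolynomial (Fin n) ℂ) =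
            u • (C (dt x0 a) + lf a) := by
          rw [fb_lf_smul, fb_dt_smul, C_mul, smul_add, MvPolynomial.smul_eq_C_mul,
            MvPolynomial.smul_eq_C_mul]
        rw [e]
        rfl }
  have hy0 : ∀ a, y0 a = Ideal.Quotient.mk (fbRad μ) (C (dt x0 a) + lf a) := fun a => rfl
  let φ : (MvPolynomial (Fin n) ℂ ⧸ fbRad μ) →ₗ[ℂ] ℂ :=
    ((fbRad μ).restrictScalars ℂ).liftQ μ (by
      intro g hg
      have h1 := hg 1
      rw [mul_one] at h1
      exact h1)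
  have hφ : ∀ g, φ (Ideal.Quotient.mk (fbRad μ) g) = μ g := fun g => rfl
  obtain ⟨k, χ, ψ, hk, hψ, hdec⟩ := functional_decomp hrk φ
  refine waring_of_isW hd ?_
  have h3 : (fun a : Fin n → ℂ => eval a F) =
      fun a => ∑ i : Fin k, ∑ j ∈ Finset.range (min r (d + 1)),
        (d.choose j : ℂ) * (ψ i ((y0 a - algebraMap ℂ _ (χ i (y0 a))) ^ j) *
          χ i (y0 a) ^ (d - j)) := by
    funext a
    rw [← hμF a, ← hφ, map_pow, ← hy0, hdec]
    refine Finset.sum_congr rfl fun i _ => Finset.sum_congr rfl fun j _ => ?_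
    ring
  rw [h3]
  have h4 : ∀ i : Fin k, ∀ j ∈ Finset.range (min r (d + 1)),
      IsW (w * 1 * (d + 1)) d (fun a => (d.choose j : ℂ) *
        (ψ i ((y0 a - algebraMap ℂ _ (χ i (y0 a))) ^ j) * χ i (y0 a) ^ (d - j))) := by
    intro i j hj
    have hj1 : j < min r (d + 1) := Finset.mem_range.1 hj
    have hjr : j ≤ r := by omega
    have hjd : j ≤ d := by omega
    apply isW_smul
    have h5 := fb_local hrk hW y0 (χ i) (ψ i) (hψ i) j hjr
    have h6 : IsW 1 (d - j) (fun a : Fin n → ℂ => χ i (y0 a) ^ (d - j)) := by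
      refine ⟨fun _ => 1, fun _ => (χ i).toLinearMap.comp y0, fun a => ?_⟩
      simp
    have h7 := isW_mul h5 h6
    have e : j + (d - j) = d := by omega
    rw [e] at h7
    exact h7
  have h5 : ∀ i ∈ (Finset.univ : Finset (Fin k)),
      IsW (r * (w * 1 * (d + 1))) d (fun a => ∑ j ∈ Finset.range (min r (d + 1)),
        (d.choose j : ℂ) * (ψ i ((y0 a - algebraMap ℂ _ (χ i (y0 a))) ^ j) *
          χ i (y0 a) ^ (d - j))) := by
    intro i _
    refine isW_mono ?_ (isW_sum _ (h4 i))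
    rw [Finset.card_range]
    exact Nat.mul_le_mul_right _ (min_le_left _ _)
  refine isW_mono ?_ (isW_sum _ h5)
  rw [Finset.card_univ, Fintype.card_fin]
  calc k * (r * (w * 1 * (d + 1))) ≤ r * (r * (w * 1 * (d + 1))) := Nat.mul_le_mul_right _ hk
    _ = r * r * (d + 1) * w := by ring

end Pool.DeB
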