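import Pool.Agent.Lib.DeB.Defs

/-!
Definitions for section 4 (from border rank to algebras).
-/

set_option autoImplicit false

open MvPolynomial Filter Topology

namespace Pool.DeB

/-- `F` is a limit of forms `∑_{i<r} ℓ_i^d`: border Waring rank `≤ r`. -/
def BorderLe {n : ℕ} (F : MvPolynomial (Fin n) ℂ) (d r : ℕ) : Prop :=
  ∃ g : ℕ → MvPolynomial (Fin n) ℂ,
    (∀ k, ∃ ℓ : Fin r → MvPolynomial (Fin n) ℂ,
      (∀ i, (ℓ i).IsHomogeneous 1) ∧ g k = ∑ i, ℓ i ^ d) ∧
    ∀ m : Fin n →₀ ℕ, Tendsto (fun k => coeff m (g k)) atTop (𝓝 (coeff m F))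

/-- apolarity: `X^β ↦ coeff_β(F) / multinomial(β)`. -/
noncomputable def lam {n : ℕ} (F : MvPolynomial (Fin n) ℂ) : MvPolynomial (Fin n) ℂ →ₗ[ℂ] ℂ :=
  (basisMonomials (Fin n) ℂ).constr ℂ (fun β => F.coeff β / (β.multinomial : ℂ))

/-- the radical of the form `(g,h) ↦ lam F (g h)`. -/
noncomputable def radF {n : ℕ} (F : MvPolynomial (Fin n) ℂ) : Ideal (MvPolynomial (Fin n) ℂ) where
  carrier := {g | ∀ h, lam F (g * h) = 0}
  add_mem' := by
    intro a b ha hb h
    rw [add_mul, map_add, ha h, hb h, add_zero]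
  zero_mem' := by
    intro h
    rw [zero_mul, map_zero]
  smul_mem' := by
    intro c a ha h
    show lam F (c * a * h) = 0
    have e : c * a * h = a * (c * h) := by ring
    rw [e]
    exact ha _

/-- the linear form `∑ a_j X_j`. -/
noncomputable def lf {n : ℕ} (a : Fin n → ℂ) : MvPolynomial (Fin n) ℂ := ∑ j, C (a j) * X j

end Pool.DeB
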