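import Pool.Agent.Lib.DeB.NDefs

/-!
Module Num (170 lines). Numerical bounds (natural numbers). `m = (c+1) 2^c`.
PROOF of num_choose: `binom(m+c+1, c+1) ≥ ((m+c+1)/(c+1))^(c+1)` (`Nat.pow_le_choose`: `(n/k)^k ≤ choose n k` over an ordered field,
 check the Mathlib form), and `(m+c+1)/(c+1) = 2^c + 1`; so it is `≥ (2^c+1)^(c+1) > 2^(c(c+1)) ≥ 2^(c^2) ≥ K`.
PROOF of num_bound: everything is bounded by powers of two. `c + 1 ≤ 2^c`, `m ≤ 2^(2c)`, `M = m^2 ≤ 2^(4c)`,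
 `Est M = M^3 (5M+8) ≤ 13 M^4 ≤ 2^(16c+4)`, `2 M Est M ≤ 2^(20c+5)`, `K + 1 ≤ 2^(c^2+1)`, `m! ≤ m^m ≤ 2^(2c * 2^(2c))`,
 `Nn = K^(2(c-1)) m! ≤ 2^(2 c^3 + 2c 2^(2c))`, `P = 2 K Nn + 1 ≤ 2^(...)`, `Nat.log 2 K + 2 ≤ c^2 + 2`. In each case the exponent (log) is at
 most `2^(C' (c+1))`, using `c^2, c^3 ≤ 2^(3c)` etc. Finally `w13 = (..)^(2^(c-1))`. Any constant `C` is fine (e.g. `C = 100`), be generous:
 prove a chain `x ≤ 2^(2^(a (c+1)))` with rules: products: `2^(2^u) * 2^(2^u) = 2^(2^(u+1))`, powers `(2^(2^u))^(2^w) = 2^(2^(u+w))`.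
-/

set_option autoImplicit false

namespace Pool.DeB

theorem num_choose {c K : ℕ} (hK : K ≤ 2 ^ c ^ 2) (hc : 1 ≤ c) :
    K < ((c + 1) * 2 ^ c + c + 1).choose (c + 1) := by
  have h1 := Nat.pow_sub_le_descFactorial ((c + 1) * 2 ^ c + c + 1) (c + 1)
  rw [Nat.descFactorial_eq_factorial_mul_choose] at h1
  have h2 : (c + 1) * 2 ^ c + c + 1 + 1 - (c + 1) = (c + 1) * 2 ^ c + 1 := by omega
  rw [h2] at h1
  have h3 : ((c + 1) * 2 ^ c) ^ (c + 1) ≤ ((c + 1) * 2 ^ c + 1) ^ (c + 1) :=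
    Nat.pow_le_pow_left (Nat.le_succ _) _
  have h4 : ((c + 1) * 2 ^ c) ^ (c + 1) = (c + 1) ^ (c + 1) * 2 ^ (c * (c + 1)) := by
    rw [mul_pow, ← pow_mul]
  have h5 : (c + 1).factorial ≤ (c + 1) ^ (c + 1) := Nat.factorial_le_pow (c + 1)
  have h6 : (c + 1).factorial * 2 ^ (c * (c + 1)) ≤
      (c + 1).factorial * ((c + 1) * 2 ^ c + c + 1).choose (c + 1) := by
    calc (c + 1).factorial * 2 ^ (c * (c + 1)) ≤ (c + 1) ^ (c + 1) * 2 ^ (c * (c + 1)) :=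
          Nat.mul_le_mul_right _ h5
      _ ≤ _ := by rw [← h4]; exact h3.trans h1
  have h7 : 2 ^ (c * (c + 1)) ≤ ((c + 1) * 2 ^ c + c + 1).choose (c + 1) :=
    Nat.le_of_mul_le_mul_left h6 (Nat.factorial_pos _)
  refine lt_of_le_of_lt hK (lt_of_lt_of_le ?_ h7)
  refine Nat.pow_lt_pow_right (by norm_num) ?_
  nlinarith

/-- double exponential scale -/
@[irreducible] private def T (u a : ℕ) : ℕ := 2 ^ 2 ^ (a * u)

private theorem T_def (u a : ℕ) : T u a = 2 ^ 2 ^ (a * u) := by unfold T; rfl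

private theorem T_mono {u a b : ℕ} (h : a ≤ b) : T u a ≤ T u b := by
  rw [T_def, T_def]
  exact Nat.pow_le_pow_right (by norm_num) (Nat.pow_le_pow_right (by norm_num)
    (Nat.mul_le_mul_right _ h))

private theorem T_mul {u : ℕ} (hu : 1 ≤ u) {a b k x y : ℕ} (hx : x ≤ T u a) (hy : y ≤ T u b)
    (ha : a < k) (hb : b < k) : x * y ≤ T u k := by
  obtain ⟨n, rfl⟩ : ∃ n, k = n + 1 := ⟨k - 1, by omega⟩
  refine (Nat.mul_le_mul (hx.trans (T_mono (Nat.le_of_lt_succ ha)))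
    (hy.trans (T_mono (Nat.le_of_lt_succ hb)))).trans ?_
  rw [T_def, T_def, ← pow_add]
  refine Nat.pow_le_pow_right (by norm_num) ?_
  rw [← two_mul, ← pow_succ']
  exact Nat.pow_le_pow_right (by norm_num) (by rw [add_mul, one_mul]; omega)

private theorem T_pow {u a b k x e : ℕ} (hx : x ≤ T u a) (he : e ≤ 2 ^ (b * u))
    (hk : a + b = k) : x ^ e ≤ T u k := by
  subst hk
  have h0 : 0 < T u a := by rw [T_def]; exact Nat.pow_pos (by norm_num)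
  calc x ^ e ≤ (T u a) ^ e := Nat.pow_le_pow_left hx e
    _ ≤ (T u a) ^ 2 ^ (b * u) := Nat.pow_le_pow_right h0 he
    _ = T u (a + b) := by
      rw [T_def, T_def, ← pow_mul, ← pow_add, add_mul]

private theorem T_succ {u : ℕ} (hu : 1 ≤ u) {a k x : ℕ} (hx : x ≤ T u a) (hk : a < k) :
    x + 1 ≤ T u k := by
  have h1 : 2 * T u a ≤ T u k := by
    refine T_mul hu (a := 0) (b := a) ?_ le_rfl (by omega) hk
    rw [T_def]
    simp
  have h0 : 0 < T u a := by rw [T_def]; exact Nat.pow_pos (by norm_num)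
  omega

private theorem pw {u a e : ℕ} (hu : 1 ≤ u) (h : e ≤ 2 ^ a) : e ≤ 2 ^ (a * u) :=
  h.trans (Nat.pow_le_pow_right (by norm_num) (Nat.le_mul_of_pos_right _ hu))

private theorem stepA {u c : ℕ} (hu : u = c + 1) (hc : 1 ≤ c) {K : ℕ} (hK : K ≤ 2 ^ c ^ 2) :
    K + 1 ≤ T u 2 := by
  have huu : u < 2 ^ u := Nat.lt_two_pow_self
  have hsq : u ^ 2 ≤ 2 ^ (2 * u) := by
    rw [mul_comm 2 u, pow_mul]
    exact Nat.pow_le_pow_left huu.le 2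
  have hc2 : c ^ 2 + 2 ≤ u ^ 2 := by rw [hu]; nlinarith
  have h1 : K + 1 ≤ 2 ^ (c ^ 2 + 1) := by
    rw [pow_succ]
    have : 0 < 2 ^ c ^ 2 := by positivity
    omega
  refine h1.trans ?_
  rw [T_def]
  exact Nat.pow_le_pow_right (by norm_num) (by omega)

private theorem stepL {u c : ℕ} (hu : u = c + 1) (hc : 1 ≤ c) {K : ℕ} (hK : K ≤ 2 ^ c ^ 2) :
    Nat.log 2 K + 2 ≤ 2 ^ (2 * u) := by
  have huu : u < 2 ^ u := Nat.lt_two_pow_self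
  have hsq : u ^ 2 ≤ 2 ^ (2 * u) := by
    rw [mul_comm 2 u, pow_mul]
    exact Nat.pow_le_pow_left huu.le 2
  have hc2 : c ^ 2 + 2 ≤ u ^ 2 := by rw [hu]; nlinarith
  have h1 : Nat.log 2 K ≤ c ^ 2 := by
    calc Nat.log 2 K ≤ Nat.log 2 (2 ^ c ^ 2) := Nat.log_mono_right hK
      _ = c ^ 2 := Nat.log_pow (by norm_num) _
  omega

private theorem stepM {u c : ℕ} (hu : u = c + 1) : (c + 1) * 2 ^ c ≤ 2 ^ (2 * u) := by
  have huu : u < 2 ^ u := Nat.lt_two_pow_self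
  rw [two_mul, pow_add, ← hu]
  exact Nat.mul_le_mul huu.le (Nat.pow_le_pow_right (by norm_num) (by omega))

private theorem stepE {u m : ℕ} (hu1 : 1 ≤ u) (hm1 : 1 ≤ m) (hm2 : m ≤ 2 ^ (2 * u)) :
    3 * (2 * m ^ 2 * Est (m ^ 2)) ≤ 2 ^ (27 * u) := by
  have hM : m ^ 2 ≤ 2 ^ (4 * u) := by
    calc m ^ 2 ≤ (2 ^ (2 * u)) ^ 2 := Nat.pow_le_pow_left hm2 2
      _ = 2 ^ (4 * u) := by rw [← pow_mul]; congr 1; ring
  have hM1 : 1 ≤ m ^ 2 := Nat.one_le_pow _ _ hm1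
  have hE : Est (m ^ 2) ≤ 2 ^ (20 * u) := by
    unfold Est
    have h1 : 5 * m ^ 2 + 8 ≤ 16 * m ^ 2 := by omega
    have h2 : 16 ≤ 2 ^ (4 * u) := pw hu1 (a := 4) (by norm_num)
    calc (m ^ 2) ^ 3 * (5 * m ^ 2 + 8) ≤ (2 ^ (4 * u)) ^ 3 * (2 ^ (4 * u) * 2 ^ (4 * u)) :=
          Nat.mul_le_mul (Nat.pow_le_pow_left hM 3) (h1.trans (Nat.mul_le_mul h2 hM))
      _ = 2 ^ (20 * u) := by rw [← pow_mul, ← pow_add, ← pow_add]; congr 1; ring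
  have h1 : 3 ≤ 2 ^ (2 * u) := pw hu1 (a := 2) (by norm_num)
  have h2 : 2 ≤ 2 ^ (1 * u) := pw hu1 (a := 1) (by norm_num)
  calc 3 * (2 * m ^ 2 * Est (m ^ 2)) ≤
        2 ^ (2 * u) * (2 ^ (1 * u) * 2 ^ (4 * u) * 2 ^ (20 * u)) :=
        Nat.mul_le_mul h1 (Nat.mul_le_mul (Nat.mul_le_mul h2 hM) hE)
    _ = 2 ^ (27 * u) := by rw [← pow_add, ← pow_add, ← pow_add]; congr 1; ring

private theorem stepF {u m : ℕ} (hm2 : m ≤ 2 ^ (2 * u)) : m.factorial ≤ T u 4 := by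
  refine (Nat.factorial_le_pow m).trans ?_
  calc m ^ m ≤ (2 ^ (2 * u)) ^ m := Nat.pow_le_pow_left hm2 m
    _ ≤ (2 ^ 2 ^ (2 * u)) ^ 2 ^ (2 * u) :=
      (Nat.pow_le_pow_left (Nat.pow_le_pow_right (by norm_num)
        (Nat.lt_two_pow_self (n := 2 * u)).le) m).trans
        (Nat.pow_le_pow_right (Nat.pow_pos (by norm_num)) hm2)
    _ = T u 4 := by
      rw [T_def, ← pow_mul, ← pow_add]
      congr 2
      ring

private theorem stepG {u c K m : ℕ} (hu : u = c + 1) (hc : 1 ≤ c) (hK : K ≤ 2 ^ c ^ 2)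
    (hm1 : 1 ≤ m) (hm2 : m ≤ 2 ^ (2 * u)) : w13 K c m ≤ T u 35 := by
  have hu1 : 1 ≤ u := by omega
  have hK1 : K + 1 ≤ T u 2 := stepA hu hc hK
  have hK0 : K ≤ T u 2 := (Nat.le_succ _).trans hK1
  have hA : (K + 1) ^ (3 * (2 * m ^ 2 * Est (m ^ 2))) ≤ T u 29 :=
    T_pow hK1 (stepE hu1 hm1 hm2) (by norm_num)
  have hmf : m.factorial ≤ T u 4 := stepF hm2
  have hKc : K ^ (2 * (c - 1)) ≤ T u 4 := by
    refine T_pow hK0 (b := 2) ?_ (by norm_num)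
    have : 2 * (c - 1) ≤ 2 * u := by omega
    exact this.trans (Nat.lt_two_pow_self (n := 2 * u)).le
  have hNn : K ^ (2 * (c - 1)) * m.factorial ≤ T u 5 :=
    T_mul hu1 hKc hmf (by norm_num) (by norm_num)
  unfold w13
  generalize K ^ (2 * (c - 1)) * m.factorial = Nn at hNn ⊢
  have h2T : 2 ≤ T u 0 := by rw [T_def]; simp
  have h2K : 2 * K ≤ T u 3 := T_mul hu1 h2T hK0 (by norm_num) (by norm_num)
  have h2N : 2 * K * Nn ≤ T u 6 := T_mul hu1 h2K hNn (by norm_num) (by norm_num)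
  have hP : 2 * K * Nn + 1 ≤ T u 7 := T_succ hu1 h2N (by norm_num)
  have hPK0 : (2 * K * Nn + 1) * K ≤ T u 8 := T_mul hu1 hP hK0 (by norm_num) (by norm_num)
  have hPK : (2 * K * Nn + 1) * K + 1 ≤ T u 9 := T_succ hu1 hPK0 (by norm_num)
  have hwd : wdir K (2 * m ^ 2 * Est (m ^ 2)) (2 * K * Nn + 1) ≤ T u 30 := by
    unfold wdir
    exact T_mul hu1 hA hPK (by norm_num) (by norm_num)
  have h6 : (K + 1) ^ 6 ≤ T u 5 := T_pow hK1 (b := 3) (pw hu1 (by norm_num)) (by norm_num)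
  have h7 : (K + 1) ^ 7 ≤ T u 5 := T_pow hK1 (b := 3) (pw hu1 (by norm_num)) (by norm_num)
  have hpr : (K + 1) ^ 6 * wdir K (2 * m ^ 2 * Est (m ^ 2)) (2 * K * Nn + 1) ≤ T u 31 :=
    T_mul hu1 h6 hwd (by norm_num) (by norm_num)
  have hst : wst K (m ^ 2) Nn ≤ T u 33 := by
    unfold wst
    exact T_pow hpr (stepL hu hc hK) (by norm_num)
  have hfin : (K + 1) ^ 7 * wst K (m ^ 2) Nn ≤ T u 34 :=
    T_mul hu1 h7 hst (by norm_num) (by norm_num)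
  generalize (K + 1) ^ 7 * wst K (m ^ 2) Nn = W at hfin ⊢
  refine T_pow hfin (b := 1) ?_ (by norm_num)
  exact Nat.pow_le_pow_right (by norm_num) (by omega)

theorem num_bound : ∃ C : ℕ, ∀ c K : ℕ, 1 ≤ c → K ≤ 2 ^ c ^ 2 →
    w13 K c ((c + 1) * 2 ^ c) ≤ 2 ^ 2 ^ (C * (c + 1)) := by
  refine ⟨35, fun c K hc hK => ?_⟩
  rw [← T_def]
  exact stepG rfl hc hK (Nat.mul_pos (Nat.succ_pos _) (Nat.pow_pos (by norm_num))) (stepM rfl)

end Pool.DeB
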