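import Pool.Agent.Lib.DeB.Defs

/-!
Module NumFam (120 lines). Numerics for families (real numbers).
For all `C, C0, s` there is `C1` such that for all large `n` and all `K ≤ C0 (n+1)^s` there is `c ≥ 1` with `K ≤ 2^(c^2)` and
`2^(2^(C (c+1))) ≤ 2^(2^(C1 sqrt(log n)))` (real powers).
PROOF. Let `c = ⌈sqrt(log2 (K+1))⌉ + 1` (natural number; `Real.logb 2`), so `c^2 ≥ log2 (K+1)` and `K ≤ 2^(c^2)`; `c + 1 ≤ sqrt(log2 (C0 (n+1)^s + 1)) + 3`.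
For `n ≥ 3`: `log2 (C0 (n+1)^s + 1) ≤ D log n` with `D = D(C0, s)` (`n + 1 ≤ n^2`, `C0 + 1 ≤ 2^C0 ≤ n^C0`, `log n ≥ 1`), so
`c + 1 ≤ sqrt(D) sqrt(log n) + 3 ≤ (sqrt D + 3) sqrt(log n)`. `C1 = C (sqrt D + 3)`; monotonicity of `2^x` (`Real.rpow_le_rpow_of_exponent_le`).
-/

set_option autoImplicit false

open Filter

namespace Pool.DeB

theorem num_family (C C0 s : ℕ) : ∃ C1 : ℝ, ∀ᶠ n : ℕ in atTop, ∀ K : ℕ, K ≤ C0 * (n + 1) ^ s →
    ∃ c : ℕ, 1 ≤ c ∧ K ≤ 2 ^ c ^ 2 ∧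
      ((2 ^ 2 ^ (C * (c + 1)) : ℕ) : ℝ) ≤ (2 : ℝ) ^ ((2 : ℝ) ^ (C1 * Real.sqrt (Real.log n))) := by
  have hlog2 : (0 : ℝ) < Real.log 2 := Real.log_pos (by norm_num)
  set D : ℝ := Real.logb 2 (C0 + 1) + 2 * s / Real.log 2 with hD
  have hb : (0 : ℝ) ≤ Real.logb 2 (C0 + 1) :=
    Real.logb_nonneg (by norm_num) (by have : (0 : ℝ) ≤ C0 := Nat.cast_nonneg C0
                                       linarith)
  have hD0 : 0 ≤ D := by rw [hD]; positivity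
  refine ⟨C * (Real.sqrt D + 3), ?_⟩
  filter_upwards [eventually_ge_atTop 3] with n hn K hK
  have hn3 : (3 : ℝ) ≤ n := by exact_mod_cast hn
  have hlogn : 1 ≤ Real.log n := by
    have h1 : Real.exp 1 ≤ n := le_trans Real.exp_one_lt_d9.le (by norm_num; linarith)
    have h2 := Real.log_le_log (Real.exp_pos 1) h1
    rwa [Real.log_exp] at h2
  have hK1 : (0 : ℝ) ≤ K := Nat.cast_nonneg K
  have hKn : ((K : ℝ) + 1) ≤ (C0 + 1) * ((n : ℝ) + 1) ^ s := by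
    have h1 : (K : ℝ) ≤ C0 * ((n : ℝ) + 1) ^ s := by exact_mod_cast hK
    have h2 : (1 : ℝ) ≤ ((n : ℝ) + 1) ^ s := one_le_pow₀ (by linarith)
    nlinarith
  have hlb : Real.logb 2 ((K : ℝ) + 1) ≤ D * Real.log n := by
    have h1 : Real.logb 2 ((K : ℝ) + 1) ≤ Real.logb 2 ((C0 + 1) * ((n : ℝ) + 1) ^ s) :=
      Real.logb_le_logb_of_le (by norm_num) (by linarith) hKn
    have hC0 : (0 : ℝ) < (C0 : ℝ) + 1 := by positivity
    have hn1 : (0 : ℝ) < (n : ℝ) + 1 := by positivity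
    rw [Real.logb_mul hC0.ne' (pow_pos hn1 s).ne'] at h1
    have h3 : Real.logb 2 (((n : ℝ) + 1) ^ s) = s * (Real.log (n + 1) / Real.log 2) := by
      rw [Real.logb, Real.log_pow]
      ring
    have h4 : Real.log ((n : ℝ) + 1) ≤ 2 * Real.log n := by
      have h5 : (n : ℝ) + 1 ≤ (n : ℝ) ^ 2 := by nlinarith
      have h6 := Real.log_le_log hn1 h5
      rw [Real.log_pow] at h6
      exact_mod_cast h6
    have h7 : (s : ℝ) * (Real.log (n + 1) / Real.log 2) ≤ 2 * s / Real.log 2 * Real.log n := by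
      have h8 : (s : ℝ) * (Real.log (n + 1) / Real.log 2) ≤ s * ((2 * Real.log n) / Real.log 2) := by
        gcongr
      refine h8.trans (le_of_eq ?_)
      ring
    have h9 : Real.logb 2 ((C0 : ℝ) + 1) ≤ Real.logb 2 (C0 + 1) * Real.log n := by
      nlinarith
    rw [hD, add_mul]
    rw [h3] at h1
    linarith
  set x : ℝ := Real.sqrt (Real.logb 2 ((K : ℝ) + 1)) with hx
  have hlK : 0 ≤ Real.logb 2 ((K : ℝ) + 1) := Real.logb_nonneg (by norm_num) (by linarith)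
  have hx0 : 0 ≤ x := Real.sqrt_nonneg _
  have hxle : x ≤ Real.sqrt D * Real.sqrt (Real.log n) := by
    rw [hx, ← Real.sqrt_mul hD0]
    exact Real.sqrt_le_sqrt hlb
  have hs1 : 1 ≤ Real.sqrt (Real.log n) := by
    rw [Real.one_le_sqrt]
    exact hlogn
  refine ⟨⌈x⌉₊ + 1, by omega, ?_, ?_⟩
  · have h1 : x ≤ ((⌈x⌉₊ + 1 : ℕ) : ℝ) := by
      have := Nat.le_ceil x
      push_cast
      linarith
    have h2 : Real.logb 2 ((K : ℝ) + 1) ≤ (((⌈x⌉₊ + 1) ^ 2 : ℕ) : ℝ) := by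
      have h3 : Real.logb 2 ((K : ℝ) + 1) = x ^ 2 := by
        rw [hx, Real.sq_sqrt hlK]
      rw [h3]
      push_cast at h1 ⊢
      gcongr
    have h4 : (K : ℝ) + 1 ≤ (2 : ℝ) ^ ((((⌈x⌉₊ + 1) ^ 2 : ℕ)) : ℝ) := by
      rwa [Real.logb_le_iff_le_rpow (by norm_num) (by linarith)] at h2
    rw [Real.rpow_natCast] at h4
    have h5 : K + 1 ≤ 2 ^ (⌈x⌉₊ + 1) ^ 2 := by exact_mod_cast h4
    omega
  · have hceil : ((⌈x⌉₊ : ℕ) : ℝ) < x + 1 := Nat.ceil_lt_add_one hx0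
    have h1 : (((C * (⌈x⌉₊ + 1 + 1) : ℕ)) : ℝ) ≤ C * (Real.sqrt D + 3) * Real.sqrt (Real.log n) := by
      push_cast
      have hC : (0 : ℝ) ≤ C := Nat.cast_nonneg C
      have h2 : ((⌈x⌉₊ : ℕ) : ℝ) + 1 + 1 ≤ (Real.sqrt D + 3) * Real.sqrt (Real.log n) := by
        nlinarith
      calc (C : ℝ) * (((⌈x⌉₊ : ℕ) : ℝ) + 1 + 1) ≤ C * ((Real.sqrt D + 3) * Real.sqrt (Real.log n)) :=
            mul_le_mul_of_nonneg_left h2 hC
        _ = _ := by ring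
    have h3 : ((2 ^ 2 ^ (C * (⌈x⌉₊ + 1 + 1)) : ℕ) : ℝ) =
        (2 : ℝ) ^ ((2 : ℝ) ^ (((C * (⌈x⌉₊ + 1 + 1) : ℕ)) : ℝ)) := by
      rw [Real.rpow_natCast]
      have h4 : ((2 : ℝ) ^ (C * (⌈x⌉₊ + 1 + 1))) = ((2 ^ (C * (⌈x⌉₊ + 1 + 1)) : ℕ) : ℝ) := by
        push_cast
        rfl
      rw [h4, Real.rpow_natCast]
      push_cast
      rfl
    rw [h3]
    exact Real.rpow_le_rpow_of_exponent_le (by norm_num)
      (Real.rpow_le_rpow_of_exponent_le (by norm_num) h1)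

end Pool.DeB
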