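import Pool.Agent.Lib.DeB.FinalA
import Pool.Agent.Lib.DeB.Num
import Pool.Agent.Lib.DeB.NumFam

/-!
Module Main (150 lines). The main theorem for single forms and for families.
PROOFS.
main_form: `C` from `num_bound`, enlarged by `2`. `d ≥ 1`: `border_waring` with `m = (c+1) 2^c`, `K = r (d+1)`, `num_choose`. `R = w13 K c m`.
 `d = 0`: `g k = ∑_{i<r} 1 = r`, so `F = C r = ∑_{i<r} ℓ_i^0` with `ℓ_i = 0`, `R = r ≤ 2^(c^2) ≤ 2^(2^(C (c+1)))` (`c^2 ≤ 2^(2(c+1))`).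
main_family: `hN`: `d n ≤ C0 (n+1)^s`; `hb`: `r ≤ C0' n^s'`; so `K = r (d n + 1) ≤ C2 (n+1)^s2`. `num_family` with `C` of `main_form`, `C2`, `s2`.
 The Chow decomposition: `ℓ' i j = ℓ i` for all `j : Fin (d n)`, `∏ j, ℓ i = ℓ i ^ d n`.
-/

set_option autoImplicit false

open MvPolynomial Filter Topology

namespace Pool.DeB

private theorem main_form_zero {n r : ℕ} {F : MvPolynomial (Fin n) ℂ} (hB : BorderLe F 0 r) :
    F = ∑ i : Fin r, (0 : MvPolynomial (Fin n) ℂ) ^ 0 := by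
  obtain ⟨g, hg, hlim⟩ := hB
  ext m
  have h1 : ∀ k, g k = ∑ i : Fin r, (0 : MvPolynomial (Fin n) ℂ) ^ 0 := by
    intro k
    obtain ⟨ℓ, -, hk⟩ := hg k
    rw [hk]
    simp
  have h2 := hlim m
  have h3 : (fun k => coeff m (g k)) =
      fun _ : ℕ => coeff m (∑ i : Fin r, (0 : MvPolynomial (Fin n) ℂ) ^ 0) := by
    funext k
    rw [h1 k]
  rw [h3] at h2
  exact tendsto_nhds_unique h2 tendsto_const_nhds

theorem main_form : ∃ C : ℕ, ∀ (n d r c : ℕ) (F : MvPolynomial (Fin n) ℂ), F.IsHomogeneous d →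
    BorderLe F d r → 1 ≤ c → r * (d + 1) ≤ 2 ^ c ^ 2 →
    ∃ R : ℕ, R ≤ 2 ^ 2 ^ (C * (c + 1)) ∧ ∃ ℓ : Fin R → MvPolynomial (Fin n) ℂ,
      (∀ i, (ℓ i).IsHomogeneous 1) ∧ F = ∑ i, ℓ i ^ d := by
  obtain ⟨C0, hC0⟩ := num_bound
  refine ⟨C0 + 2, ?_⟩
  intro n d r c F hF hB hc hK
  rcases Nat.eq_zero_or_pos d with hd | hd
  · subst hd
    refine ⟨r, ?_, fun _ => 0, fun _ => isHomogeneous_zero _ _ _, main_form_zero hB⟩
    have h1 : r ≤ 2 ^ c ^ 2 := by simpa using hK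
    refine h1.trans (Nat.pow_le_pow_right (by norm_num) ?_)
    have h2 : c ≤ 2 ^ (c + 1) := (Nat.lt_two_pow_self.le).trans
      (Nat.pow_le_pow_right (by norm_num) (by omega))
    calc c ^ 2 ≤ (2 ^ (c + 1)) ^ 2 := Nat.pow_le_pow_left h2 2
      _ = 2 ^ (2 * (c + 1)) := by rw [← pow_mul, mul_comm]
      _ ≤ 2 ^ ((C0 + 2) * (c + 1)) :=
        Nat.pow_le_pow_right (by norm_num) (Nat.mul_le_mul_right _ (by omega))
  · have hm : 1 ≤ (c + 1) * 2 ^ c := Nat.mul_pos (by omega) (Nat.two_pow_pos c)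
    obtain ⟨ℓ, hℓ, hsum⟩ := border_waring hF hB hd hc hm (num_choose hK hc)
    refine ⟨w13 (r * (d + 1)) c ((c + 1) * 2 ^ c), ?_, ℓ, hℓ, hsum⟩
    refine (hC0 c (r * (d + 1)) hc hK).trans (Nat.pow_le_pow_right (by norm_num)
      (Nat.pow_le_pow_right (by norm_num) (Nat.mul_le_mul_right _ (by omega))))

theorem main_family (N d : ℕ → ℕ) (f : (n : ℕ) → MvPolynomial (Fin (N n)) ℂ)
    (hN : ∃ C s : ℕ, ∀ n, N n ≤ C * (n + 1) ^ s ∧ d n ≤ C * (n + 1) ^ s)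
    (hf : ∀ n, (f n).IsHomogeneous (d n))
    (hb : ∃ C s : ℕ, ∀ᶠ n in atTop, ∃ r : ℕ, r ≤ C * n ^ s ∧ BorderLe (f n) (d n) r) :
    ∃ C1 : ℝ, ∀ᶠ n : ℕ in atTop, ∃ R : ℕ,
      (R : ℝ) ≤ (2 : ℝ) ^ ((2 : ℝ) ^ (C1 * Real.sqrt (Real.log n))) ∧
      (∃ ℓ : Fin R → MvPolynomial (Fin (N n)) ℂ,
        (∀ i, (ℓ i).IsHomogeneous 1) ∧ f n = ∑ i, ℓ i ^ d n) ∧
      ∃ ℓ : Fin R → Fin (d n) → MvPolynomial (Fin (N n)) ℂ,
        (∀ i j, (ℓ i j).IsHomogeneous 1) ∧ f n = ∑ i, ∏ j, ℓ i j := by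
  obtain ⟨Ca, sa, hNa⟩ := hN
  obtain ⟨Cb, sb, hbb⟩ := hb
  obtain ⟨C, hC⟩ := main_form
  obtain ⟨C1, hC1⟩ := num_family C (Cb * (Ca + 1)) (sb + sa)
  refine ⟨C1, ?_⟩
  filter_upwards [hbb, hC1] with n hn1 hn2
  obtain ⟨r, hr, hB⟩ := hn1
  have hK : r * (d n + 1) ≤ Cb * (Ca + 1) * (n + 1) ^ (sb + sa) := by
    have h1 : r ≤ Cb * (n + 1) ^ sb :=
      hr.trans (Nat.mul_le_mul_left _ (Nat.pow_le_pow_left (by omega) _))
    have h2 : d n + 1 ≤ (Ca + 1) * (n + 1) ^ sa := by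
      have h3 := (hNa n).2
      have h4 : 1 ≤ (n + 1) ^ sa := Nat.one_le_pow _ _ (by omega)
      calc d n + 1 ≤ Ca * (n + 1) ^ sa + (n + 1) ^ sa := Nat.add_le_add h3 h4
        _ = (Ca + 1) * (n + 1) ^ sa := by ring
    calc r * (d n + 1) ≤ (Cb * (n + 1) ^ sb) * ((Ca + 1) * (n + 1) ^ sa) := Nat.mul_le_mul h1 h2
      _ = Cb * (Ca + 1) * (n + 1) ^ (sb + sa) := by rw [pow_add]; ring
  obtain ⟨c, hc1, hc2, hc3⟩ := hn2 (r * (d n + 1)) hK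
  obtain ⟨R, hR, ℓ, hℓ, hsum⟩ := hC (N n) (d n) r c (f n) (hf n) hB hc1 hc2
  refine ⟨R, le_trans (Nat.cast_le.2 hR) hc3, ⟨ℓ, hℓ, hsum⟩, fun i _ => ℓ i, fun i _ => hℓ i, ?_⟩
  rw [hsum]
  refine Finset.sum_congr rfl fun i _ => ?_
  rw [Finset.prod_const, Finset.card_univ, Fintype.card_fin]

end Pool.DeB
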