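import Pool.Agent.Lib.DeB.BSDefs

/-!
Module Num2. Numerical bounds (natural numbers).
-/

set_option autoImplicit false

namespace Pool.DeB

theorem num2_choose (c : ℕ) : 2 ^ c ≤ (c + c + 1).choose (c + 1) := by
  induction c with
  | zero => simp
  | succ c ih =>
    have e1 : c + 1 + (c + 1) + 1 = (c + c + 1 + 1) + 1 := by ring
    rw [e1, Nat.choose_succ_succ (c + c + 1 + 1) (c + 1), Nat.choose_succ_succ (c + c + 1) c]
    have h := Nat.choose_symm_half c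
    have e2 : 2 * c + 1 = c + c + 1 := by ring
    rw [e2] at h
    rw [pow_succ]
    simp only [Nat.succ_eq_add_one] at *
    omega

theorem num2_bound : ∃ C : ℕ, ∀ c K : ℕ, 1 ≤ c → K < 2 ^ c → wbs K c ≤ 2 ^ (C * c ^ 13) := by
  refine ⟨188, fun c K hc hK => ?_⟩
  have hK1 : K + 1 ≤ 2 ^ c := hK
  have hcp : ∀ a b : ℕ, a ≤ b → c ^ a ≤ c ^ b := fun a b h => Nat.pow_le_pow_right hc h
  have h2 : ∀ a b : ℕ, a ≤ b → 2 ^ a ≤ 2 ^ b := fun a b h => Nat.pow_le_pow_right (by norm_num) h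
  have hEst : 2 * c ^ 2 * Est (c ^ 2) ≤ 26 * c ^ 10 := by
    unfold Est
    have h8 : c ^ 8 ≤ c ^ 10 := hcp 8 10 (by norm_num)
    have e : 2 * c ^ 2 * ((c ^ 2) ^ 3 * (5 * c ^ 2 + 8)) = 10 * c ^ 10 + 16 * c ^ 8 := by ring
    omega
  have hfac : c.factorial ≤ 2 ^ c ^ 2 := by
    calc c.factorial ≤ c ^ c := Nat.factorial_le_pow c
      _ ≤ (2 ^ c) ^ c := Nat.pow_le_pow_left (Nat.lt_two_pow_self).le c
      _ = 2 ^ c ^ 2 := by rw [← pow_mul, sq]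
  have hKc : (K + 1) ^ c ≤ 2 ^ c ^ 2 := by
    calc (K + 1) ^ c ≤ (2 ^ c) ^ c := Nat.pow_le_pow_left hK1 c
      _ = 2 ^ c ^ 2 := by rw [← pow_mul, sq]
  have hNn : (K + 1) ^ c * c.factorial ≤ 2 ^ (2 * c ^ 2) := by
    calc (K + 1) ^ c * c.factorial ≤ 2 ^ c ^ 2 * 2 ^ c ^ 2 := Nat.mul_le_mul hKc hfac
      _ = 2 ^ (2 * c ^ 2) := by rw [← pow_add, two_mul]
  have hP : 2 * K * ((K + 1) ^ c * c.factorial) + 1 ≤ 2 ^ (c + 2 * c ^ 2 + 2) := by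
    have h3 : 2 * K * ((K + 1) ^ c * c.factorial) ≤ 2 * 2 ^ c * 2 ^ (2 * c ^ 2) :=
      Nat.mul_le_mul (Nat.mul_le_mul_left 2 hK.le) hNn
    have e : 2 ^ (c + 2 * c ^ 2 + 2) = 2 * (2 * 2 ^ c * 2 ^ (2 * c ^ 2)) := by
      rw [pow_add, pow_add]; ring
    have h4 : 1 ≤ 2 * 2 ^ c * 2 ^ (2 * c ^ 2) := Nat.one_le_iff_ne_zero.2 (by positivity)
    omega
  have hPK : (2 * K * ((K + 1) ^ c * c.factorial) + 1) * K + 1 ≤ 2 ^ (7 * c ^ 11) := by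
    have h3 : (2 * K * ((K + 1) ^ c * c.factorial) + 1) * K ≤ 2 ^ (c + 2 * c ^ 2 + 2) * 2 ^ c :=
      Nat.mul_le_mul hP hK.le
    have h4 : 2 ^ (c + 2 * c ^ 2 + 2) * 2 ^ c + 1 ≤ 2 ^ (c + 2 * c ^ 2 + 2 + c + 1) := by
      have e : 2 ^ (c + 2 * c ^ 2 + 2 + c + 1) = 2 * (2 ^ (c + 2 * c ^ 2 + 2) * 2 ^ c) := by
        rw [pow_succ, pow_add 2 (c + 2 * c ^ 2 + 2) c]; ring
      have h5 : 1 ≤ 2 ^ (c + 2 * c ^ 2 + 2) * 2 ^ c := Nat.one_le_iff_ne_zero.2 (by positivity)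
      omega
    have h6 : c + 2 * c ^ 2 + 2 + c + 1 ≤ 7 * c ^ 11 := by
      have := hcp 1 11 (by norm_num)
      have := hcp 2 11 (by norm_num)
      have := hcp 0 11 (by norm_num)
      rw [pow_one] at *
      rw [pow_zero] at *
      omega
    exact le_trans (le_trans (Nat.add_le_add_right h3 1) h4) (h2 _ _ h6)
  have hwdir : wdir K (2 * c ^ 2 * Est (c ^ 2)) (2 * K * ((K + 1) ^ c * c.factorial) + 1) ≤
      2 ^ (85 * c ^ 11) := by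
    unfold wdir
    have h3 : (K + 1) ^ (3 * (2 * c ^ 2 * Est (c ^ 2))) ≤ 2 ^ (78 * c ^ 11) := by
      calc (K + 1) ^ (3 * (2 * c ^ 2 * Est (c ^ 2))) ≤ (K + 1) ^ (3 * (26 * c ^ 10)) :=
            Nat.pow_le_pow_right (Nat.succ_pos K) (Nat.mul_le_mul_left 3 hEst)
        _ ≤ (2 ^ c) ^ (3 * (26 * c ^ 10)) := Nat.pow_le_pow_left hK1 _
        _ = 2 ^ (78 * c ^ 11) := by rw [← pow_mul]; congr 1; ring
    calc _ ≤ 2 ^ (78 * c ^ 11) * 2 ^ (7 * c ^ 11) := Nat.mul_le_mul h3 hPK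
      _ = 2 ^ (85 * c ^ 11) := by rw [← pow_add]; congr 1; ring
  have hK6 : (K + 1) ^ 6 ≤ 2 ^ (6 * c ^ 11) := by
    calc (K + 1) ^ 6 ≤ (2 ^ c) ^ 6 := Nat.pow_le_pow_left hK1 6
      _ = 2 ^ (c * 6) := by rw [← pow_mul]
      _ ≤ 2 ^ (6 * c ^ 11) := by
        apply h2
        have := hcp 1 11 (by norm_num)
        rw [pow_one] at this
        omega
  have hlog : Nat.log 2 K + 2 ≤ 2 * c := by
    rcases Nat.eq_zero_or_pos K with h0 | h0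
    · subst h0
      rw [Nat.log_zero_right]
      omega
    · have := Nat.log_lt_of_lt_pow (by omega : K ≠ 0) hK
      omega
  have hwst : wst K (c ^ 2) ((K + 1) ^ c * c.factorial) ≤ 2 ^ (182 * c ^ 12) := by
    unfold wst
    have h3 : (K + 1) ^ 6 * wdir K (2 * c ^ 2 * Est (c ^ 2))
        (2 * K * ((K + 1) ^ c * c.factorial) + 1) ≤ 2 ^ (91 * c ^ 11) := by
      calc _ ≤ 2 ^ (6 * c ^ 11) * 2 ^ (85 * c ^ 11) := Nat.mul_le_mul hK6 hwdir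
        _ = 2 ^ (91 * c ^ 11) := by rw [← pow_add]; congr 1; ring
    calc _ ≤ (2 ^ (91 * c ^ 11)) ^ (Nat.log 2 K + 2) := Nat.pow_le_pow_left h3 _
      _ ≤ (2 ^ (91 * c ^ 11)) ^ (2 * c) :=
          Nat.pow_le_pow_right (Nat.one_le_iff_ne_zero.2 (by positivity)) hlog
      _ = 2 ^ (182 * c ^ 12) := by rw [← pow_mul]; congr 1; ring
  unfold wbs
  have h9 : (K + 1) ^ 6 * wst K (c ^ 2) ((K + 1) ^ c * c.factorial) ≤ 2 ^ (188 * c ^ 12) := by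
    have h10 : (K + 1) ^ 6 ≤ 2 ^ (6 * c ^ 12) :=
      le_trans hK6 (h2 _ _ (Nat.mul_le_mul_left 6 (hcp 11 12 (by norm_num))))
    calc _ ≤ 2 ^ (6 * c ^ 12) * 2 ^ (182 * c ^ 12) := Nat.mul_le_mul h10 hwst
      _ = 2 ^ (188 * c ^ 12) := by rw [← pow_add]; congr 1; ring
  calc _ ≤ (2 ^ (188 * c ^ 12)) ^ c := Nat.pow_le_pow_left h9 _
    _ = 2 ^ (188 * c ^ 13) := by rw [← pow_mul]; congr 1; ring

theorem num2_log (C s : ℕ) : ∃ D : ℕ, ∀ n : ℕ, 2 ≤ n → ∀ K : ℕ, K ≤ C * (n + 1) ^ s →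
    Nat.log 2 K + 1 ≤ D * Nat.log 2 n := by
  refine ⟨C + 2 * s + 1, fun n hn K hK => ?_⟩
  have hL : 1 ≤ Nat.log 2 n := Nat.log_pos (by norm_num) hn
  have h1 : n + 1 ≤ 2 ^ (Nat.log 2 n + 1) := Nat.lt_pow_succ_log_self (by norm_num) n
  have h2 : K ≤ 2 ^ (C + s * (Nat.log 2 n + 1)) := by
    calc K ≤ C * (n + 1) ^ s := hK
      _ ≤ 2 ^ C * (2 ^ (Nat.log 2 n + 1)) ^ s :=
          Nat.mul_le_mul (Nat.lt_two_pow_self).le (Nat.pow_le_pow_left h1 s)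
      _ = 2 ^ (C + s * (Nat.log 2 n + 1)) := by rw [← pow_mul, ← pow_add]; congr 1; ring
  have h3 : Nat.log 2 K ≤ C + s * (Nat.log 2 n + 1) := by
    have := Nat.log_mono_right (b := 2) h2
    rwa [Nat.log_pow (by norm_num)] at this
  have h4 : s * (Nat.log 2 n + 1) ≤ s * (2 * Nat.log 2 n) := Nat.mul_le_mul_left s (by omega)
  have h5 : C ≤ C * Nat.log 2 n := Nat.le_mul_of_pos_right C hL
  nlinarith

end Pool.DeB
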