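import Pool.Agent.Lib.DeB.BSDefs
import Pool.Agent.Lib.DeB.NBasic
import Pool.Agent.Lib.DeB.Stages
import Pool.Agent.Lib.DeB.AllRel

/-!
Module NodeArc. The bound of Proposition 7 along an arc (the smallest order of the `q j` is `≤ 1`).
-/

set_option autoImplicit false

open TensorProduct

namespace Pool.DeB

section BQ

variable {A : Type*} [CommRing A] [Algebra ℂ A]

/-- the algebra `B(q)` -/
private def BQ (vv : ℕ → A) (q : ℕ → VV) (c : ℕ) : Type _ := (VV ⊗[ℂ] A) ⧸ NQ vv q c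

private noncomputable instance (vv : ℕ → A) (q : ℕ → VV) (c : ℕ) : CommRing (BQ vv q c) :=
  inferInstanceAs (CommRing ((VV ⊗[ℂ] A) ⧸ NQ vv q c))

private noncomputable def mkQ (vv : ℕ → A) (q : ℕ → VV) (c : ℕ) : VV ⊗[ℂ] A →+* BQ vv q c :=
  Ideal.Quotient.mk (NQ vv q c)

private theorem mkQ_zero {vv : ℕ → A} {q : ℕ → VV} {c : ℕ} {x : VV ⊗[ℂ] A} :
    mkQ vv q c x = 0 ↔ x ∈ NQ vv q c := Ideal.Quotient.eq_zero_iff_mem

private noncomputable instance (vv : ℕ → A) (q : ℕ → VV) (c : ℕ) : Algebra VV (BQ vv q c) :=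
  ((mkQ vv q c).comp (algebraMap VV (VV ⊗[ℂ] A))).toAlgebra

private noncomputable instance (vv : ℕ → A) (q : ℕ → VV) (c : ℕ) : Algebra ℂ (BQ vv q c) :=
  ((mkQ vv q c).comp (algebraMap ℂ (VV ⊗[ℂ] A))).toAlgebra

private theorem algV (vv : ℕ → A) (q : ℕ → VV) (c : ℕ) (x : VV) :
    algebraMap VV (BQ vv q c) x = mkQ vv q c (algebraMap VV (VV ⊗[ℂ] A) x) := rfl

private theorem algC (vv : ℕ → A) (q : ℕ → VV) (c : ℕ) (x : ℂ) :
    algebraMap ℂ (BQ vv q c) x = mkQ vv q c (algebraMap ℂ (VV ⊗[ℂ] A) x) := rfl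

private instance (vv : ℕ → A) (q : ℕ → VV) (c : ℕ) : IsScalarTower ℂ VV (BQ vv q c) :=
  IsScalarTower.of_algebraMap_eq fun x => by
    rw [algV, algC, IsScalarTower.algebraMap_apply ℂ VV (VV ⊗[ℂ] A)]

private noncomputable def fQ (vv : ℕ → A) (q : ℕ → VV) (c : ℕ) : A →ₐ[ℂ] BQ vv q c :=
  { (mkQ vv q c).comp
      ((Algebra.TensorProduct.includeRight : A →ₐ[ℂ] VV ⊗[ℂ] A) : A →+* VV ⊗[ℂ] A) with
    commutes' := fun x => by
      rw [algC]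
      show mkQ vv q c ((Algebra.TensorProduct.includeRight : A →ₐ[ℂ] VV ⊗[ℂ] A)
        (algebraMap ℂ A x)) = _
      rw [AlgHom.commutes] }

private theorem fQ_apply (vv : ℕ → A) (q : ℕ → VV) (c : ℕ) (a : A) :
    fQ vv q c a = mkQ vv q c ((1 : VV) ⊗ₜ[ℂ] a) := rfl

private theorem ker_fQ (vv : ℕ → A) (q : ℕ → VV) (c : ℕ) :
    RingHom.ker ((fQ vv q c : A →ₐ[ℂ] BQ vv q c) : A →+* BQ vv q c) = IQ vv q c := by
  ext a
  rw [RingHom.mem_ker, mem_IQ]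
  exact mkQ_zero

end BQ

theorem node_arc {X A : Type*} [AddCommGroup X] [Module ℂ X] [FiniteDimensional ℂ X]
    [CommRing A] [Algebra ℂ A] [FiniteDimensional ℂ A] {y : X →ₗ[ℂ] A} {r : ℕ} (hr1 : 1 ≤ r)
    (hA : Module.finrank ℂ A ≤ r) (hX : Module.finrank ℂ X ≤ r) (hnil : ∀ a, IsNilpotent (y a))
    {c m' m : ℕ} (hc : 1 ≤ c) (hm1 : 1 ≤ m) (hm : m' ≤ m) (vX : Fin c → X) (b : X)
    (h0 : Reg m' m (fun i => y (vX i)) (y b))
    (h1 : ∀ a : X, {s : ℂ | ¬ Reg m' m (fun i => y (vX i)) (y (b + s • a))}.Finite)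
    {vv : ℕ → A} (hvv : ∀ i : Fin c, vv i = y (vX i)) {q : ℕ → VV}
    (hq0 : ∃ j, j < c ∧ v ((q j : VV) : Om) ≤ ((1 : ℝ) : WithTop ℝ))
    (hq : ∀ j, j < c → (0 : WithTop ℝ) < v ((q j : VV) : Om)) {M : ℕ} (hM : 0 < M)
    (hqS : ∀ j, j < c → ((q j : VV) : Om) ∈ SM M) :
    HW y r (IQ vv q c) (wst r (m ^ 2) (M * m.factorial)) := by
  have hne : (Finset.univ : Finset (Fin c)).Nonempty := ⟨⟨0, hc⟩, Finset.mem_univ _⟩
  obtain ⟨j0, -, hj0⟩ := Finset.exists_min_image (Finset.univ : Finset (Fin c))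
    (fun j => v ((q (j : ℕ) : VV) : Om)) hne
  obtain ⟨j1, hj1, hv1⟩ := hq0
  have hle1 : v ((q (j0 : ℕ) : VV) : Om) ≤ ((1 : ℝ) : WithTop ℝ) :=
    le_trans (hj0 ⟨j1, hj1⟩ (Finset.mem_univ _)) hv1
  obtain ⟨k0, hk0⟩ := WithTop.ne_top_iff_exists.1 (ne_top_of_le_ne_top WithTop.coe_ne_top hle1)
  have hkpos : 0 < k0 := by
    have h := hq (j0 : ℕ) j0.2
    rw [← hk0] at h
    exact_mod_cast h
  have hk1 : k0 ≤ 1 := by
    rw [← hk0] at hle1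
    exact_mod_cast hle1
  have hB : algebraMap VV (BQ vv q c) (tV (r * k0)) = 0 := by
    rw [algV, mkQ_zero]
    refine tV_mem_NQ hA j0.2 ?_ hkpos.le ?_
    · rw [hvv j0]
      exact hnil _
    · rw [hk0]
  have hfq : ∀ i : Fin c, fQ vv q c (y (vX i)) = algebraMap VV (BQ vv q c) (q (i : ℕ)) := by
    intro i
    rw [fQ_apply, algV, ← sub_eq_zero, ← map_sub, mkQ_zero]
    refine Ideal.subset_span ⟨i, ?_⟩
    show (1 : VV) ⊗ₜ[ℂ] vv (i : ℕ) - q (i : ℕ) ⊗ₜ[ℂ] (1 : A) = _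
    rw [hvv i]
    rfl
  have hrel := fun a => all_rel y (fQ vv q c) hm vX b h0 h1 hnil (fun i : Fin c => q (i : ℕ))
    hfq hkpos (fun i => by
      rw [hk0]
      exact hj0 i (Finset.mem_univ _)) (fun i => hqS (i : ℕ) i.2) a
  choose R hR1 hR2 hR3 hR4 using hrel
  have hfin := stages y (fQ vv q c) hr1 hA hX (m := m ^ 2) (Nn := M * m.factorial)
    (Nat.one_le_pow _ _ hm1) (Nat.mul_pos hM (Nat.factorial_pos m)) hkpos hk1 hB R hR1 hR2 hR3 hR4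
  rw [ker_fQ] at hfin
  exact hfin

end Pool.DeB
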