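import Pool.Agent.Lib.DeB.BSDefs
import Pool.Agent.Lib.DeB.AffDefs
import Pool.Agent.Lib.DeB.NodeArc
import Pool.Agent.Lib.DeB.RegRel
import Pool.Agent.Lib.DeB.HSplit
import Pool.Agent.Lib.DeB.Num2
import Pool.Agent.Lib.DeB.BS

/-!
Module PropBS. The bound `wbs r c` is valid for all algebras of dimension `≤ r < 2^c`.
-/

set_option autoImplicit false

namespace Pool.DeB

private theorem wst_mono {r m N N' : ℕ} (h : N ≤ N') : wst r m N ≤ wst r m N' := by
  unfold wst wdir
  apply Nat.pow_le_pow_left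
  apply Nat.mul_le_mul_left
  apply Nat.mul_le_mul_left
  have h2 : 2 * r * N ≤ 2 * r * N' := Nat.mul_le_mul_left _ h
  have h3 : (2 * r * N + 1) * r ≤ (2 * r * N' + 1) * r := Nat.mul_le_mul_right _ (by omega)
  omega

private theorem one_le_wst (r m N : ℕ) : 1 ≤ wst r m N := by
  unfold wst wdir
  apply Nat.one_le_iff_ne_zero.2
  positivity

theorem hw_top {X A : Type*} [AddCommGroup X] [Module ℂ X] [CommRing A] [Algebra ℂ A]
    (y : X →ₗ[ℂ] A) (r w : ℕ) : HW y r ⊤ w := by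
  intro φ hφ j _
  have e : (fun a => φ (y a ^ j)) = fun _ => 0 := by
    funext a
    exact hφ _ Submodule.mem_top
  rw [e]
  exact isW_zero _ _

theorem prop_bs {r c : ℕ} (hc : 1 ≤ c) (hr : r < 2 ^ c) : HWall r (wbs r c) := by
  intro X A _ _ _ _ _ _ y hA hX hnil
  by_cases hsub : Subsingleton A
  · have e : (⊥ : Ideal A) = ⊤ := Subsingleton.elim _ _
    rw [e]
    exact hw_top y r _
  have hnt : Nontrivial A := not_subsingleton_iff_nontrivial.1 hsub
  have hr1 : 1 ≤ r := le_trans (Module.finrank_pos (R := ℂ) (M := A)) hA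
  obtain ⟨m', hm', vX, b, h0, h1⟩ := regular_relation y (m := c) (c := c) hA
    (lt_of_lt_of_le hr (num2_choose c))
  set vv : ℕ → A := fun j => if h : j < c then y (vX ⟨j, h⟩) else 0 with hvv
  have hvv1 : ∀ i : Fin c, vv i = y (vX i) := by
    intro i
    rw [hvv]
    show (if h : (i : ℕ) < c then y (vX ⟨i, h⟩) else 0) = _
    rw [dif_pos i.2]
  have hvn : ∀ j, j < c → IsNilpotent (vv j) := by
    intro j hj
    have h2 := hvv1 ⟨j, hj⟩
    have h3 : vv j = y (vX ⟨j, hj⟩) := h2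
    rw [h3]
    exact hnil _
  set wc : ℕ := wst r (c ^ 2) ((r + 1) ^ c * c.factorial) with hwc
  have hwc1 : 1 ≤ wc := one_le_wst _ _ _
  have harc : ∀ q : ℕ → VV, IsArc c ((r + 1) ^ c) q → HW y r (IQ vv q c) wc := by
    rintro q ⟨hq1, hq2, h, hh0, hh1, hq3⟩
    refine hw_monow ?_ (node_arc hr1 hA hX hnil hc hc hm' vX b h0 h1 hvv1 hq2 hq1 hh0 hq3)
    exact wst_mono (Nat.mul_le_mul_right _ hh1)
  set K : Ideal A := Karc vv c ((r + 1) ^ c) with hK
  have hKW : HW y r K (r * wc) := hw_iInf hA _ (fun q => harc q.1 q.2)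
  have hpow : ∀ j : ℕ, HW y r (K ^ j) (((r + 1) ^ 6 * wc) ^ j) := by
    intro j
    induction j with
    | zero =>
      rw [pow_zero, Ideal.one_eq_top]
      exact hw_top y r _
    | succ j ih =>
      have hw1 : 1 ≤ ((r + 1) ^ 6 * wc) ^ j := by
        apply Nat.one_le_iff_ne_zero.2
        have : wc ≠ 0 := by omega
        positivity
      have hw2 : 1 ≤ r * wc := Nat.one_le_iff_ne_zero.2 (Nat.mul_ne_zero (by omega) (by omega))
      have hs := hw_split hA hX (I := K ^ (j + 1)) (K := K ^ j)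
        (Ideal.pow_le_pow_right (Nat.le_succ j)) hw1 hw2 ih (fun k hk => by
          refine hw_mono ?_ hKW
          intro a ha
          rw [mem_colE, pow_succ, mul_comm a k]
          exact Ideal.mul_mem_mul hk ha)
      refine hw_monow ?_ hs
      have h5 : (r + 1) ^ 5 * r ≤ (r + 1) ^ 6 := by
        rw [pow_succ (r + 1) 5]
        exact Nat.mul_le_mul_left _ (by omega)
      calc (r + 1) ^ 5 * ((r + 1) ^ 6 * wc) ^ j * (r * wc) =
          ((r + 1) ^ 5 * r) * (wc * ((r + 1) ^ 6 * wc) ^ j) := by ring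
        _ ≤ (r + 1) ^ 6 * (wc * ((r + 1) ^ 6 * wc) ^ j) := Nat.mul_le_mul_right _ h5
        _ = ((r + 1) ^ 6 * wc) ^ (j + 1) := by rw [pow_succ]; ring
  have hfin := hpow c
  rw [hK, bs_nilp hA hc hvn] at hfin
  exact hfin

end Pool.DeB
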