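import Pool.Agent.Lib.DeB.FinalG
import Pool.Agent.Lib.DeB.FinalB
import Pool.Agent.Lib.DeB.Num2
import Pool.Agent.Lib.DeB.PropBS

/-!
Module Main2 (180 lines). The main theorem (quasi-polynomial debordering) for single forms and for families.
PROOFS. `C` from `num2_bound`, the final constant is `8192 * C + 2`. Let `L = Nat.log 2 r + 1`, `1 ≤ L`, `r < 2^L` (`Nat.lt_pow_succ_log_self`).
main2_form: `d = 0`: `g k = ∑_{i<r} ℓ^0 = r`, so `F = C r` (limit of constants) `= ∑_{i<r} 0^0`, `R = r`.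
 `1 ≤ d`, `r ≤ d`: `border_waring_large` with `w = wbs r L` (`prop_bs`), `R = r*r*(d+1)*w ≤ (d+1) * 2^(2L + C L^13)`.
 `1 ≤ d < r`: `K = r (d+1) ≤ r^2 < 2^(2L)`, `border_waring_gen` with `w = wbs K (2L)` (`prop_bs`), `R = w ≤ 2^(C (2L)^13) = 2^(8192 C L^13)`.
main2_family: eventually `r ≤ C0 n^s ≤ C0 (n+1)^s` and `d n + 1 ≤ (C0'+1) (n+1)^s'`; `num2_log`: `Nat.log 2 r + 1 ≤ D log n`, `d n + 1 ≤ 2^(Nat.log 2 (d n + 1) + 1)
 ≤ 2^(D' log n) ≤ 2^(D' (log n)^13)` (`log n = Nat.log 2 n ≥ 1` for `n ≥ 2`). `C1 = D' + C D^13`. The Chow decomposition: `ℓ' i j = ℓ i`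
 for all `j : Fin (d n)`, `∏ j, ℓ i = ℓ i ^ d n`.
-/

set_option autoImplicit false

open MvPolynomial Filter Topology

namespace Pool.DeB

private theorem main2_form_zero {n r : ℕ} {F : MvPolynomial (Fin n) ℂ} (hB : BorderLe F 0 r) :
    F = ∑ i : Fin r, (0 : MvPolynomial (Fin n) ℂ) ^ 0 := by
  obtain ⟨g, hg, hlim⟩ := hB
  ext m
  have h1 : ∀ k, g k = ∑ i : Fin r, (0 : MvPolynomial (Fin n) ℂ) ^ 0 := by
    intro k
    obtain ⟨ℓ, -, hk⟩ := hg k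
    rw [hk]
    simp
  have h2 := hlim m
  have h3 : (fun k => coeff m (g k)) =
      fun _ : ℕ => coeff m (∑ i : Fin r, (0 : MvPolynomial (Fin n) ℂ) ^ 0) := by
    funext k
    rw [h1 k]
  rw [h3] at h2
  exact tendsto_nhds_unique h2 tendsto_const_nhds

private theorem main2_two_pow {a b : ℕ} (h : a ≤ b) : 2 ^ a ≤ 2 ^ b :=
  Nat.pow_le_pow_right (by norm_num) h

theorem main2_form : ∃ C : ℕ, ∀ (n d r : ℕ) (F : MvPolynomial (Fin n) ℂ), F.IsHomogeneous d →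
    BorderLe F d r →
    ∃ R : ℕ, R ≤ (d + 1) * 2 ^ (C * (Nat.log 2 r + 1) ^ 13) ∧
      ∃ ℓ : Fin R → MvPolynomial (Fin n) ℂ, (∀ i, (ℓ i).IsHomogeneous 1) ∧ F = ∑ i, ℓ i ^ d := by
  obtain ⟨C, hC⟩ := num2_bound
  refine ⟨8192 * C + 2, ?_⟩
  intro n d r F hF hB
  set L : ℕ := Nat.log 2 r + 1 with hL
  have hL1 : 1 ≤ L := by omega
  have hrL : r < 2 ^ L := Nat.lt_pow_succ_log_self (by norm_num) r
  have hL13 : L ≤ L ^ 13 := Nat.le_self_pow (by norm_num) L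
  rcases Nat.eq_zero_or_pos d with hd | hd
  · subst hd
    refine ⟨r, ?_, fun _ => 0, fun _ => isHomogeneous_zero _ _ _, main2_form_zero hB⟩
    rw [zero_add, one_mul]
    refine hrL.le.trans (main2_two_pow ?_)
    nlinarith [Nat.zero_le (C * L ^ 13)]
  · rcases le_or_gt r d with hrd | hrd
    · obtain ⟨ℓ, hℓ, hsum⟩ := border_waring_large hF hB hd hrd (prop_bs hL1 hrL)
      refine ⟨_, ?_, ℓ, hℓ, hsum⟩
      have h1 := hC L r hL1 hrL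
      calc r * r * (d + 1) * wbs r L
          ≤ 2 ^ L * 2 ^ L * (d + 1) * 2 ^ (C * L ^ 13) :=
            Nat.mul_le_mul (Nat.mul_le_mul_right _ (Nat.mul_le_mul hrL.le hrL.le)) h1
        _ = (d + 1) * 2 ^ (L + L + C * L ^ 13) := by rw [pow_add, pow_add]; ring
        _ ≤ (d + 1) * 2 ^ ((8192 * C + 2) * L ^ 13) := by
            refine Nat.mul_le_mul_left _ (main2_two_pow ?_)
            nlinarith [Nat.zero_le (C * L ^ 13)]
    · have hK : r * (d + 1) < 2 ^ (2 * L) := by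
        calc r * (d + 1) ≤ r * r := Nat.mul_le_mul_left _ hrd
          _ < 2 ^ L * 2 ^ L := Nat.mul_lt_mul'' hrL hrL
          _ = 2 ^ (2 * L) := by rw [← pow_add]; congr 1; ring
      obtain ⟨ℓ, hℓ, hsum⟩ := border_waring_gen hF hB hd
        (prop_bs (r := r * (d + 1)) (c := 2 * L) (by omega) hK)
      refine ⟨_, ?_, ℓ, hℓ, hsum⟩
      have h1 := hC (2 * L) (r * (d + 1)) (by omega) hK
      have h2 : C * (2 * L) ^ 13 = 8192 * C * L ^ 13 := by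
        rw [mul_pow]
        norm_num
        ring
      rw [h2] at h1
      calc wbs (r * (d + 1)) (2 * L) ≤ 2 ^ (8192 * C * L ^ 13) := h1
        _ ≤ 2 ^ ((8192 * C + 2) * L ^ 13) := main2_two_pow (Nat.mul_le_mul_right _ (by omega))
        _ ≤ (d + 1) * 2 ^ ((8192 * C + 2) * L ^ 13) := Nat.le_mul_of_pos_left _ (by omega)

theorem main2_family (N d : ℕ → ℕ) (f : (n : ℕ) → MvPolynomial (Fin (N n)) ℂ)
    (hN : ∃ C s : ℕ, ∀ n, N n ≤ C * (n + 1) ^ s ∧ d n ≤ C * (n + 1) ^ s)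
    (hf : ∀ n, (f n).IsHomogeneous (d n))
    (hb : ∃ C s : ℕ, ∀ᶠ n in atTop, ∃ r : ℕ, r ≤ C * n ^ s ∧ BorderLe (f n) (d n) r) :
    ∃ C1 : ℕ, ∀ᶠ n : ℕ in atTop, ∃ R : ℕ, R ≤ 2 ^ (C1 * Nat.log 2 n ^ 13) ∧
      (∃ ℓ : Fin R → MvPolynomial (Fin (N n)) ℂ,
        (∀ i, (ℓ i).IsHomogeneous 1) ∧ f n = ∑ i, ℓ i ^ d n) ∧
      ∃ ℓ : Fin R → Fin (d n) → MvPolynomial (Fin (N n)) ℂ,
        (∀ i j, (ℓ i j).IsHomogeneous 1) ∧ f n = ∑ i, ∏ j, ℓ i j := by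
  obtain ⟨Ca, sa, hNa⟩ := hN
  obtain ⟨Cb, sb, hbb⟩ := hb
  obtain ⟨C, hC⟩ := main2_form
  obtain ⟨D, hD⟩ := num2_log Cb sb
  obtain ⟨D', hD'⟩ := num2_log (Ca + 1) sa
  refine ⟨D' + C * D ^ 13, ?_⟩
  filter_upwards [hbb, eventually_ge_atTop 2] with n hn1 hn2
  obtain ⟨r, hr, hB⟩ := hn1
  have h1 : r ≤ Cb * (n + 1) ^ sb :=
    hr.trans (Nat.mul_le_mul_left _ (Nat.pow_le_pow_left (by omega) _))
  have h2 : d n + 1 ≤ (Ca + 1) * (n + 1) ^ sa := by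
    have h3 := (hNa n).2
    have h4 : 1 ≤ (n + 1) ^ sa := Nat.one_le_pow _ _ (by omega)
    calc d n + 1 ≤ Ca * (n + 1) ^ sa + (n + 1) ^ sa := Nat.add_le_add h3 h4
      _ = (Ca + 1) * (n + 1) ^ sa := by ring
  have h5 := hD n hn2 r h1
  have h6 := hD' n hn2 (d n + 1) h2
  obtain ⟨R, hR, ℓ, hℓ, hsum⟩ := hC (N n) (d n) r (f n) (hf n) hB
  have hlog : Nat.log 2 n ≤ Nat.log 2 n ^ 13 := Nat.le_self_pow (by norm_num) _
  refine ⟨R, hR.trans ?_, ⟨ℓ, hℓ, hsum⟩, fun i _ => ℓ i, fun i _ => hℓ i, ?_⟩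
  · have h7 : d n + 1 ≤ 2 ^ (D' * Nat.log 2 n ^ 13) := by
      refine (Nat.lt_pow_succ_log_self (b := 2) (by norm_num) (d n + 1)).le.trans
        (main2_two_pow ?_)
      exact h6.trans (Nat.mul_le_mul_left _ hlog)
    have h8 : C * (Nat.log 2 r + 1) ^ 13 ≤ C * D ^ 13 * Nat.log 2 n ^ 13 := by
      calc C * (Nat.log 2 r + 1) ^ 13 ≤ C * (D * Nat.log 2 n) ^ 13 :=
            Nat.mul_le_mul_left _ (Nat.pow_le_pow_left h5 _)
        _ = C * D ^ 13 * Nat.log 2 n ^ 13 := by rw [mul_pow]; ring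
    calc (d n + 1) * 2 ^ (C * (Nat.log 2 r + 1) ^ 13)
        ≤ 2 ^ (D' * Nat.log 2 n ^ 13) * 2 ^ (C * D ^ 13 * Nat.log 2 n ^ 13) :=
          Nat.mul_le_mul h7 (main2_two_pow h8)
      _ = 2 ^ ((D' + C * D ^ 13) * Nat.log 2 n ^ 13) := by rw [← pow_add, add_mul]
  · rw [hsum]
    refine Finset.sum_congr rfl fun i _ => ?_
    rw [Finset.prod_const, Finset.card_univ, Fintype.card_fin]

end Pool.DeB
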