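import Pool.Agent.Lib.DeB.StDefs

/-!
Definitions for the node recursion (arcs). `A` is a commutative `ℂ`-algebra, `vv : ℕ → A`, `q : ℕ → VV`.
`NQ vv q i` = ideal of `VV ⊗ A` generated by `1 ⊗ vv_j - q_j ⊗ 1`, `j < i`; `IQ vv q i` = its preimage in `A`.
-/

set_option autoImplicit false

open TensorProduct

namespace Pool.DeB

section
variable {A : Type*} [CommRing A] [Algebra ℂ A]

/-- the generator `1 ⊗ vv_j - q_j ⊗ 1`. -/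
noncomputable def gq (vv : ℕ → A) (q : ℕ → VV) (j : ℕ) : VV ⊗[ℂ] A :=
  (1 : VV) ⊗ₜ[ℂ] vv j - q j ⊗ₜ[ℂ] (1 : A)

/-- the ideal `N(q)`. -/
noncomputable def NQ (vv : ℕ → A) (q : ℕ → VV) (i : ℕ) : Ideal (VV ⊗[ℂ] A) :=
  Ideal.span (Set.range (fun j : Fin i => gq vv q j))

/-- the ideal `I(q)`, the kernel of `A → B(q)`. -/
noncomputable def IQ (vv : ℕ → A) (q : ℕ → VV) (i : ℕ) : Ideal A :=
  (NQ vv q i).comap ((Algebra.TensorProduct.includeRight : A →ₐ[ℂ] VV ⊗[ℂ] A) : A →+* VV ⊗[ℂ] A)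

theorem mem_IQ {vv : ℕ → A} {q : ℕ → VV} {i : ℕ} {a : A} :
    a ∈ IQ vv q i ↔ (1 : VV) ⊗ₜ[ℂ] a ∈ NQ vv q i := Iff.rfl

end

/-- the bound of Proposition 13. -/
def w13 (r c m : ℕ) : ℕ :=
  ((r + 1) ^ 7 * wst r (m ^ 2) (r ^ (2 * (c - 1)) * m.factorial)) ^ 2 ^ (c - 1)

end Pool.DeB
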