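import Pool.Agent.Lib.DeB.Defs3
import Pool.Agent.Lib.DeB.Gauss
import Pool.Agent.Lib.DeB.Mono
import Pool.Agent.Lib.DeB.ResA
import Pool.Agent.Lib.DeB.ResInt
import Pool.Agent.Lib.DeB.VertInt
import Pool.Agent.Lib.DeB.Lines
import Pool.Agent.Lib.DeB.Roots

/-!
Module PBase (200 lines). Beginning of the induction: `P(k)` holds for all large `k`.
PROOF. `Q = Qn M0 b`. `ZZ d` is finite (finitely many `G`, each `d G ≠ 0` has finitely many roots). For each `c ∈ ZZ d`
there is a real `κ_c ≥ 0` such that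
 (1) `v (p - c) < κ_c` for all roots `p ≠ c` of all `d G` (finitely many, finite orders),
 (2) all crossings at `c` of two lines of different slopes are `< κ_c` (finitely many pairs of lines; a crossing is
     `κ = (v α - v α')/(i' - i)`).
Let `K` be such that `K / Q ≥ κ_c` for all `c ∈ ZZ d`. Let `k ≥ K`, `κ = (k + 1/2)/Q`, `G` dominating at `(c,κ)`: some `(G,i)` is
active at `κ` (`domD_iff`). As no crossing is `≥ κ_c`, `(G,i)` is active at every `κ' ≥ κ` (same argument as `act_edge`: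
a line below it at `κ'` would cross it between `κ` and `κ'`; lines of the same slope do not matter). Take a natural number
`κ' ≥ κ, r`. Then `G` dominates at `(c,κ')`, `(c,κ')` is a vertex (`c ∈ SM (M0 h)`, `h ≤ b ≤ b^2`, `tp κ' ∈ SM _` as `κ'` is an
integer). `vert_int_one`: `gv c κ' (d G) - r ≤ gv c κ' (N G)`, so by `res_integral` with `l = -r` the residue `ρ'` of
`N G / d G` in `odisc c κ'` has `v ρ' ≥ κ' - r ≥ 0`. The sets `cdisc c κ` and `odisc c κ'` contain the same roots of `d G`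
(at most `c`, by (1)), so `ρ = ρ'` (`isRes_congr`, `isRes_exists`, `isRes_unique`).
-/

set_option autoImplicit false

open Polynomial

namespace Pool.DeB

private theorem ev_line (a a' : Om) {i i' : ℕ} (h : i < i') (ha : a ≠ 0) :
    ∀ᶠ κ : ℝ in Filter.atTop, v a + ((i * κ : ℝ) : WithTop ℝ) < v a' + ((i' * κ : ℝ) : WithTop ℝ) := by
  obtain ⟨x, hx⟩ := WithTop.ne_top_iff_exists.1 (v_ne_top.2 ha)
  by_cases ha' : a' = 0
  · refine Filter.Eventually.of_forall fun κ => ?_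
    rw [ha', v_zero, top_add, ← hx, ← WithTop.coe_add]
    exact WithTop.coe_lt_top _
  · obtain ⟨x', hx'⟩ := WithTop.ne_top_iff_exists.1 (v_ne_top.2 ha')
    filter_upwards [Filter.eventually_gt_atTop |x - x'|] with κ hκ
    rw [← hx, ← hx', ← WithTop.coe_add, ← WithTop.coe_add, WithTop.coe_lt_coe]
    have h1 : (i : ℝ) + 1 ≤ (i' : ℝ) := by exact_mod_cast h
    have h2 : x - x' ≤ |x - x'| := le_abs_self _
    have h3 : 0 ≤ |x - x'| := abs_nonneg _
    have h4 : ((i : ℝ) + 1) * κ ≤ (i' : ℝ) * κ := mul_le_mul_of_nonneg_right h1 (by linarith)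
    linarith

private theorem ev_root (c p : Om) (h : p ≠ c) :
    ∀ᶠ κ : ℝ in Filter.atTop, v (p - c) < (κ : WithTop ℝ) := by
  obtain ⟨x, hx⟩ := WithTop.ne_top_iff_exists.1 (v_ne_top.2 (sub_ne_zero.2 h))
  filter_upwards [Filter.eventually_gt_atTop x] with κ hκ
  rw [← hx, WithTop.coe_lt_coe]
  exact hκ

private theorem zz_finite {ι : Type} [Finite ι] {d : ι → Om[X]} (hd : ∀ G, d G ≠ 0) :
    (ZZ d).Finite := by
  refine (Set.finite_iUnion fun G => Polynomial.finite_setOf_isRoot (hd G)).subset ?_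
  rintro c ⟨_, G, hG⟩
  exact Set.mem_iUnion.2 ⟨G, hG⟩

private theorem ev_all {ι : Type} [Finite ι] {d : ι → Om[X]} {b : ℕ} (hd : ∀ G, d G ≠ 0)
    (hdeg : ∀ G, (d G).natDegree ≤ b) : ∃ κ0 : ℝ, ∀ κ : ℝ, κ0 ≤ κ → ∀ c ∈ ZZ d,
      (∀ G p, (d G).IsRoot p → p ≠ c → v (p - c) < (κ : WithTop ℝ)) ∧
      (∀ G G' : ι, ∀ i i' : ℕ, i < i' → (taylor c (d G)).coeff i ≠ 0 →
        v ((taylor c (d G)).coeff i) + ((i * κ : ℝ) : WithTop ℝ) <
          v ((taylor c (d G')).coeff i') + ((i' * κ : ℝ) : WithTop ℝ)) := by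
  have hz : ∀ c : Om, ∀ G : ι, ∀ i : ℕ, b < i → (taylor c (d G)).coeff i = 0 := by
    intro c G i hi
    apply coeff_eq_zero_of_natDegree_lt
    rw [natDegree_taylor]
    exact lt_of_le_of_lt (hdeg G) hi
  have h : ∀ᶠ κ : ℝ in Filter.atTop, ∀ c ∈ ZZ d,
      (∀ G : ι, ∀ p ∈ {p | (d G).IsRoot p}, p ≠ c → v (p - c) < (κ : WithTop ℝ)) ∧
      (∀ G G' : ι, ∀ i i' : Fin (b + 1), i < i' → (taylor c (d G)).coeff i ≠ 0 →
        v ((taylor c (d G)).coeff i) + (((i : ℕ) * κ : ℝ) : WithTop ℝ) <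
          v ((taylor c (d G')).coeff i') + (((i' : ℕ) * κ : ℝ) : WithTop ℝ)) := by
    rw [Filter.eventually_all_finite (zz_finite hd)]
    intro c hc
    refine Filter.Eventually.and ?_ ?_
    · rw [Filter.eventually_all]
      intro G
      rw [Filter.eventually_all_finite (Polynomial.finite_setOf_isRoot (hd G))]
      intro p _
      by_cases hp : p = c
      · exact Filter.Eventually.of_forall fun κ h => absurd hp h
      · filter_upwards [ev_root c p hp] with κ hκ _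
        exact hκ
    · rw [Filter.eventually_all]
      intro G
      rw [Filter.eventually_all]
      intro G'
      rw [Filter.eventually_all]
      intro i
      rw [Filter.eventually_all]
      intro i'
      by_cases hi : i < i'
      · by_cases ha : (taylor c (d G)).coeff i = 0
        · exact Filter.Eventually.of_forall fun κ _ h => absurd ha h
        · filter_upwards [ev_line ((taylor c (d G)).coeff i) ((taylor c (d G')).coeff i')
            (show (i : ℕ) < (i' : ℕ) from hi) ha] with κ hκ _ _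
          exact hκ
      · exact Filter.Eventually.of_forall fun κ h => absurd h hi
  obtain ⟨κ0, h0⟩ := Filter.eventually_atTop.1 h
  refine ⟨κ0, fun κ hκ c hc => ⟨fun G p hp hpc => (h0 κ hκ c hc).1 G p hp hpc, ?_⟩⟩
  intro G G' i i' hi ha
  by_cases hi' : b < i'
  · obtain ⟨x, hx⟩ := WithTop.ne_top_iff_exists.1 (v_ne_top.2 ha)
    rw [hz c G' i' hi', v_zero, top_add, ← hx, ← WithTop.coe_add]
    exact WithTop.coe_lt_top _
  · have h1 : i' < b + 1 := by omega
    have h2 : i < b + 1 := by omega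
    exact (h0 κ hκ c hc).2 G G' ⟨i, h2⟩ ⟨i', h1⟩ hi ha

theorem pk_base {ι : Type} [Finite ι] {d N : ι → Om[X]} {G0 : ι} {b M0 r : ℕ}
    (H : ResData d N G0 b M0 r) : ∃ K : ℕ, ∀ k, K ≤ k → PK d N (Qn M0 b : ℝ) k := by
  obtain ⟨κ0, h0⟩ := ev_all H.hd H.hdeg
  have hQ : (0 : ℝ) < (Qn M0 b : ℝ) := by
    have h : 0 < Qn M0 b := by
      unfold Qn
      have := Nat.factorial_pos b
      have := H.hM0
      positivity
    exact_mod_cast h
  refine ⟨⌈κ0 * Qn M0 b⌉₊, fun k hk => ?_⟩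
  intro c hc G hG ρ hρ
  have hκ : κ0 ≤ ((k : ℝ) + 1 / 2) / (Qn M0 b : ℝ) := by
    rw [le_div_iff₀ hQ]
    have h1 : κ0 * Qn M0 b ≤ (⌈κ0 * Qn M0 b⌉₊ : ℝ) := Nat.le_ceil _
    have h2 : ((⌈κ0 * Qn M0 b⌉₊ : ℕ) : ℝ) ≤ (k : ℝ) := by exact_mod_cast hk
    linarith
  set κ : ℝ := ((k : ℝ) + 1 / 2) / (Qn M0 b : ℝ) with hκd
  obtain ⟨i, hA⟩ := (domD_iff H.hd).1 hG
  have hmin : ∀ G' i', (taylor c (d G')).coeff i' ≠ 0 → i ≤ i' := by
    intro G' i' ha
    by_contra hlt
    push Not at hlt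
    have h1 := (h0 κ hκ c hc).2 G' G i' i hlt ha
    exact absurd (hA.2 G' i') (not_le.2 h1)
  obtain ⟨m, hm1, hm2⟩ : ∃ m : ℕ, κ ≤ (m : ℝ) ∧ r ≤ m :=
    ⟨max ⌈κ⌉₊ r, le_trans (Nat.le_ceil κ) (by exact_mod_cast le_max_left _ _), le_max_right _ _⟩
  have hκm : κ0 ≤ (m : ℝ) := le_trans hκ hm1
  have hA' : Act d c (m : ℝ) G i := by
    refine ⟨hA.1, fun G' i' => ?_⟩
    by_cases ha : (taylor c (d G')).coeff i' = 0
    · rw [ha, v_zero, top_add]
      exact le_top
    · rcases eq_or_lt_of_le (hmin G' i' ha) with he | hlt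
      · subst he
        have h1 := hA.2 G' i
        obtain ⟨x, hx⟩ := WithTop.ne_top_iff_exists.1 (v_ne_top.2 hA.1)
        obtain ⟨x', hx'⟩ := WithTop.ne_top_iff_exists.1 (v_ne_top.2 ha)
        rw [← hx, ← hx', ← WithTop.coe_add, ← WithTop.coe_add, WithTop.coe_le_coe] at h1 ⊢
        linarith
      · exact ((h0 m hκm c hc).2 G G' i i' hlt hA.1).le
  have hD : DomD d c (m : ℝ) G := (domD_iff H.hd).2 ⟨i, hA'⟩
  have hV : Vert M0 b c (m : ℝ) := by
    obtain ⟨hcV, G1, hG1⟩ := hc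
    obtain ⟨h, h1, h2, h3⟩ := root_mem_SM (H.hd G1) (H.hdeg G1) (H.hdS G1) hG1
    refine ⟨hcV, by positivity, h, h1, le_trans h2 ?_, h3, tp_mem_SM ⟨(M0 * h * m : ℕ), ?_⟩⟩
    · calc b = b ^ 1 := (pow_one b).symm
        _ ≤ b ^ 2 := Nat.pow_le_pow_right H.hb (by norm_num)
    · push_cast
      ring
  have hint := vert_int_one H hV hD
  obtain ⟨ρ', hρ'⟩ := isRes_exists (odisc c (m : ℝ)) (N G) (H.hd G)
  have hv := res_integral (H.hd G) hint hρ'
  have hρ2 : IsRes (odisc c (m : ℝ)) (N G) (d G) ρ := by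
    refine isRes_congr ?_ hρ
    intro z hz
    show (κ : WithTop ℝ) ≤ v (z - c) ↔ ((m : ℝ) : WithTop ℝ) < v (z - c)
    by_cases hzc : z = c
    · rw [hzc, sub_self, v_zero]
      exact ⟨fun _ => WithTop.coe_lt_top _, fun _ => le_top⟩
    · have h1 := (h0 κ hκ c hc).1 G z hz hzc
      have h2 : ((κ : ℝ) : WithTop ℝ) ≤ ((m : ℝ) : WithTop ℝ) := by exact_mod_cast hm1
      exact ⟨fun h => absurd h (not_le.2 h1), fun h => absurd (lt_of_lt_of_le h1 h2) (not_lt.2 h.le)⟩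
  rw [isRes_unique (H.hd G) hρ2 hρ', mem_VV]
  refine le_trans ?_ hv
  have h3 : (0 : ℝ) ≤ (m : ℝ) + -(r : ℝ) := by
    have : (r : ℝ) ≤ (m : ℝ) := by exact_mod_cast hm2
    linarith
  exact_mod_cast h3

end Pool.DeB
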