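import Pool.Agent.Lib.DeB.Defs

/-!
Definitions for Lemma 8 (regular relations).
-/

set_option autoImplicit false

open MvPolynomial

namespace Pool.DeB

/-- polynomials all of whose monomials have degree between `s` and `m`. -/
def PolS (c s m : ℕ) : Submodule ℂ (MvPolynomial (Fin (c + 1)) ℂ) where
  carrier := {G | ∀ β, G.coeff β ≠ 0 → s ≤ β.degree ∧ β.degree ≤ m}
  add_mem' := by
    intro G H hG hH β hβ
    by_cases h : G.coeff β = 0
    · apply hH β
      intro h2
      apply hβ
      rw [coeff_add, h, h2, add_zero]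
    · exact hG β h
  zero_mem' := by
    intro β hβ
    exact absurd (coeff_zero β) hβ
  smul_mem' := by
    intro u G hG β hβ
    apply hG β
    intro h
    apply hβ
    rw [coeff_smul, h, smul_zero]

theorem mem_PolS {c s m : ℕ} {G : MvPolynomial (Fin (c + 1)) ℂ} :
    G ∈ PolS c s m ↔ ∀ β, G.coeff β ≠ 0 → s ≤ β.degree ∧ β.degree ≤ m := Iff.rfl

/-- the relation (REG): `z^m' + (other monomials in v, z of degree between m' and m) = 0`. -/
def Reg {A : Type*} [CommRing A] [Algebra ℂ A] {c : ℕ} (m' m : ℕ) (w : Fin c → A) (z : A) : Prop :=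
  ∃ G ∈ PolS c m' m, G.coeff (Finsupp.single (Fin.last c) m') = 1 ∧
    aeval (Fin.snoc w z : Fin (c + 1) → A) G = 0

/-- the substitution `T_i ↦ T_i - λ_i T_last`. -/
noncomputable def shear {c : ℕ} (l : Fin c → ℂ) :
    MvPolynomial (Fin (c + 1)) ℂ →ₐ[ℂ] MvPolynomial (Fin (c + 1)) ℂ :=
  aeval (Fin.snoc (fun i => X i.castSucc - C (l i) * X (Fin.last c)) (X (Fin.last c)) :
    Fin (c + 1) → MvPolynomial (Fin (c + 1)) ℂ)

end Pool.DeB
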