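import Pool.Agent.Lib.DeB.Defs2

/-!
Definitions for Proposition 7 (stages).
-/

set_option autoImplicit false

namespace Pool.DeB

/-- a state of the stage recursion: ideal `J` of `B`, radius `κ`, linear center `gh`, root multisets `R`. -/
structure St {X A B : Type*} [AddCommGroup X] [Module ℂ X] [CommRing A] [Algebra ℂ A] [CommRing B]
    [Algebra ℂ B] [Algebra VV B] (y : X →ₗ[ℂ] A) (f : A →ₐ[ℂ] B) (m Nn : ℕ) (J : Ideal B) (κ : ℝ)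
    (gh : X →ₗ[ℂ] VV) (R : X → Multiset VV) : Prop where
  card_le : ∀ a, (R a).card ≤ m
  mem_SM : ∀ a, ∀ ρ ∈ R a, (ρ : Om) ∈ SM Nn
  ghe : ∀ a (e : ℝ), cf ((gh a : VV) : Om) e ≠ 0 → 0 ≤ e ∧ e < κ ∧ ∃ l : ℕ, (Nn : ℝ) * e = l
  close : ∀ a, ∀ ρ ∈ R a, (κ : WithTop ℝ) ≤ v ((ρ : Om) - ((gh a : VV) : Om))
  rel : ∀ a, pr (f (y a)) (R a) ∈ J

/-- the exponent of `w0` in one stage. -/
def Est (m : ℕ) : ℕ := m ^ 3 * (5 * m + 8)

/-- the bound of Lemma 6. -/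
def wdir (r M P : ℕ) : ℕ := (r + 1) ^ (3 * M) * (P * r + 1)

/-- the bound of Proposition 7. -/
def wst (r m Nn : ℕ) : ℕ :=
  ((r + 1) ^ 6 * wdir r (2 * m * Est m) (2 * r * Nn + 1)) ^ (Nat.log 2 r + 2)

end Pool.DeB
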